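import Pool.Agent.H2S.Defs

/-!
# H2S/Alt: the sums `∑ chi e / e` over `e ≤ y` coprime to `ω`

* `AA_bound`: for a finite set `P` of odd primes let `B P y = ∑ chi e / e` over `1 ≤ e ≤ y` not divisible by any
  `p ∈ P`. For `P = ∅`: the odd `e` give the alternating series of `π / 4` (`Real.tendsto_sum_pi_div_four`); the error
  after `e ≤ y` is at most the next term, `≤ 1/(y+1)`. For `p ∉ P`: `B (P ∪ {p}) y = B P y - (chi p / p) B P (y / p)`
  (the multiples `e = p e'`, `chi (p e') = chi p chi e'`), so with `|B P y - Λ| ≤ C/(y+1)` one gets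
  `|B (P ∪ {p}) y - (1 - chi p / p) Λ| ≤ C/(y+1) + (1/p) C/(⌊y/p⌋+1) ≤ 2 C/(y+1)`. `AA ω` is `B` for the odd primes
  dividing `ω`: for odd `e` coprimality to `ω` only concerns them, and `chi e = 0` for even `e` (`2 ∣ ω` is not even
  needed but harmless). All factors `1 - chi p / p` are positive.
* `lam_eq`: `d = q e`, `e ≤ D / q`, `chi (q e) = chi q chi e` (prove the multiplicativity of `chi` here by cases
  mod 4, or import H2S.Jac).
* `lam_bounds`: from the two, `⌊D/q⌋ + 1 > D/q`, `|chi q| ≤ 1`, `chi 1 = 1`.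
-/

namespace H2S

open Finset

private theorem chi_mulMN (a b : ℕ) : chi (a * b) = chi a * chi b := by
  unfold chi
  rw [Nat.mul_mod]
  have ha := Nat.mod_lt a (show 0 < 4 by norm_num)
  have hb := Nat.mod_lt b (show 0 < 4 by norm_num)
  generalize a % 4 = x at *
  generalize b % 4 = y at *
  interval_cases x <;> interval_cases y <;> simp

private theorem chi_absMN (a : ℕ) : |(chi a : ℝ)| ≤ 1 := by
  unfold chi
  split_ifs <;> simp

private theorem reindexMN (D q : ℕ) (hq : 0 < q) (P : ℕ → Prop) [DecidablePred P] (f : ℕ → ℝ) :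
    ∑ d ∈ (Icc 1 D).filter (fun d => q ∣ d ∧ P d), f d =
      ∑ e ∈ (Icc 1 (D / q)).filter (fun e => P (q * e)), f (q * e) := by
  symm
  refine Finset.sum_bij (fun e _ => q * e) ?_ ?_ ?_ ?_
  · intro e he
    rw [mem_filter, mem_Icc] at he ⊢
    obtain ⟨⟨h1, h2⟩, h3⟩ := he
    refine ⟨⟨Nat.mul_pos hq h1, ?_⟩, Dvd.intro _ rfl, h3⟩
    rw [Nat.le_div_iff_mul_le hq] at h2
    rw [mul_comm]
    exact h2
  · intro e _ e' _ h
    exact Nat.eq_of_mul_eq_mul_left hq h
  · intro d hd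
    rw [mem_filter, mem_Icc] at hd
    obtain ⟨⟨h1, h2⟩, ⟨e, rfl⟩, h4⟩ := hd
    refine ⟨e, ?_, rfl⟩
    rw [mem_filter, mem_Icc]
    refine ⟨⟨Nat.pos_of_mul_pos_left h1, ?_⟩, h4⟩
    rw [Nat.le_div_iff_mul_le hq, mul_comm]
    exact h2
  · intro e _
    rfl

/-- the sum over `e ≤ y` not divisible by the elements of `P` -/
private noncomputable def BBMN (P : Finset ℕ) (y : ℕ) : ℝ :=
  ∑ e ∈ (Icc 1 y).filter (fun e => ∀ p ∈ P, ¬ p ∣ e), (chi e : ℝ) / e

private theorem BB_emptyMN (y : ℕ) :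
    BBMN ∅ y = ∑ i ∈ range ((y + 1) / 2), (-1 : ℝ) ^ i * (1 / (2 * (i : ℝ) + 1)) := by
  have e : BBMN ∅ y = ∑ e ∈ Icc 1 y, (chi e : ℝ) / e := by
    unfold BBMN
    congr 1
    rw [Finset.filter_true_of_mem]
    intro e _ p hp
    exact absurd hp (Finset.notMem_empty p)
  rw [e]
  clear e
  induction y with
  | zero => simp
  | succ y ih =>
    rw [Finset.sum_Icc_succ_top (by omega), ih]
    rcases Nat.even_or_odd y with ⟨j, hj⟩ | ⟨j, hj⟩
    · have h1 : (y + 1) / 2 = j := by omega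
      have h2 : (y + 1 + 1) / 2 = j + 1 := by omega
      rw [h1, h2, Finset.sum_range_succ]
      congr 1
      have h3 : y + 1 = 2 * j + 1 := by omega
      rw [h3]
      have h4 : (chi (2 * j + 1) : ℝ) = (-1) ^ j := by
        rcases Nat.even_or_odd j with hjj | hjj
        · rw [hjj.neg_one_pow]
          obtain ⟨i, hi⟩ := hjj
          have h5 : (2 * j + 1) % 4 = 1 := by omega
          unfold chi
          rw [if_pos h5]
          simp
        · rw [hjj.neg_one_pow]
          obtain ⟨i, hi⟩ := hjj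
          have h5 : (2 * j + 1) % 4 = 3 := by omega
          unfold chi
          rw [if_neg (by omega), if_pos h5]
          simp
      rw [h4]
      push_cast
      ring
    · have h1 : (y + 1) / 2 = j + 1 := by omega
      have h2 : (y + 1 + 1) / 2 = j + 1 := by omega
      rw [h1, h2]
      have h4 : chi (y + 1) = 0 := by
        unfold chi
        rw [if_neg (by omega), if_neg (by omega)]
      rw [h4]
      simp

private theorem TT_boundMN (m : ℕ) :
    |(∑ i ∈ range m, (-1 : ℝ) ^ i * (1 / (2 * (i : ℝ) + 1))) - Real.pi / 4| ≤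
      3 / (2 * (m : ℝ) + 1) := by
  have hl : Filter.Tendsto (fun n => ∑ i ∈ range n, (-1 : ℝ) ^ i * (1 / (2 * (i : ℝ) + 1)))
      Filter.atTop (nhds (Real.pi / 4)) := by
    have h := Real.tendsto_sum_pi_div_four
    refine h.congr fun n => ?_
    refine Finset.sum_congr rfl fun i _ => ?_
    ring
  have ha : Antitone (fun i : ℕ => 1 / (2 * (i : ℝ) + 1)) := by
    intro i j hij
    have : (i : ℝ) ≤ j := by exact_mod_cast hij
    apply one_div_le_one_div_of_le (by positivity)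
    linarith
  rcases Nat.even_or_odd m with ⟨k, hk⟩ | ⟨k, hk⟩
  · have h1 := ha.tendsto_le_alternating_series hl k
    have h2 := ha.alternating_series_le_tendsto hl k
    have hm : m = 2 * k := by omega
    rw [Finset.sum_range_succ] at h1
    rw [hm]
    have h3 : (-1 : ℝ) ^ (2 * k) = 1 := by rw [pow_mul]; norm_num
    rw [h3, one_mul] at h1
    rw [abs_le]
    have h4 : (1 : ℝ) / (2 * ((2 * k : ℕ) : ℝ) + 1) ≤ 3 / (2 * ((2 * k : ℕ) : ℝ) + 1) := by
      apply div_le_div_of_nonneg_right (by norm_num) (by positivity)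
    have h5 : (0 : ℝ) ≤ 3 / (2 * ((2 * k : ℕ) : ℝ) + 1) := by positivity
    constructor <;> linarith
  · have h1 := ha.tendsto_le_alternating_series hl k
    have h2 := ha.alternating_series_le_tendsto hl k
    have hm : m = 2 * k + 1 := by omega
    rw [hm]
    have h1' := h1
    rw [Finset.sum_range_succ] at h1' ⊢
    rw [Finset.sum_range_succ] at h1
    have h3 : (-1 : ℝ) ^ (2 * k) = 1 := by rw [pow_mul]; norm_num
    rw [h3, one_mul] at h1 ⊢
    rw [abs_le]
    have h4 : (1 : ℝ) / (2 * ((2 * k : ℕ) : ℝ) + 1) ≤ 3 / (2 * ((2 * k + 1 : ℕ) : ℝ) + 1) := by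
      rw [div_le_div_iff₀ (by positivity) (by positivity)]
      push_cast
      have : (0 : ℝ) ≤ k := Nat.cast_nonneg k
      nlinarith
    have h5 : (0 : ℝ) ≤ 3 / (2 * ((2 * k + 1 : ℕ) : ℝ) + 1) := by positivity
    constructor <;> linarith

private theorem BB_insertMN {P : Finset ℕ} {p : ℕ} (hP : ∀ q ∈ P, q.Prime) (hp : p.Prime)
    (hpP : p ∉ P) (y : ℕ) :
    BBMN (insert p P) y = BBMN P y - (chi p : ℝ) / p * BBMN P (y / p) := by
  have h1 : BBMN P y = BBMN (insert p P) y +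
      ∑ d ∈ (Icc 1 y).filter (fun d => p ∣ d ∧ ∀ q ∈ P, ¬ q ∣ d), (chi d : ℝ) / d := by
    unfold BBMN
    rw [← Finset.sum_filter_add_sum_filter_not ((Icc 1 y).filter (fun e => ∀ q ∈ P, ¬ q ∣ e))
      (fun e => ¬ p ∣ e), Finset.filter_filter, Finset.filter_filter]
    congr 1
    · congr 1
      apply Finset.filter_congr
      intro e _
      simp only [Finset.mem_insert, forall_eq_or_imp]
      tauto
    · congr 1
      apply Finset.filter_congr
      intro e _
      tauto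
  have h2 : ∑ d ∈ (Icc 1 y).filter (fun d => p ∣ d ∧ ∀ q ∈ P, ¬ q ∣ d), (chi d : ℝ) / d =
      (chi p : ℝ) / p * BBMN P (y / p) := by
    rw [reindexMN y p hp.pos (fun d => ∀ q ∈ P, ¬ q ∣ d) (fun d => (chi d : ℝ) / d)]
    unfold BBMN
    rw [Finset.mul_sum]
    have h3 : (Icc 1 (y / p)).filter (fun e => ∀ q ∈ P, ¬ q ∣ p * e) =
        (Icc 1 (y / p)).filter (fun e => ∀ q ∈ P, ¬ q ∣ e) := by
      apply Finset.filter_congr
      intro e _
      constructor
      · exact fun h q hq hqe => h q hq (hqe.mul_left p)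
      · intro h q hq hqe
        rcases (hP q hq).dvd_mul.1 hqe with h4 | h4
        · rw [Nat.prime_dvd_prime_iff_eq (hP q hq) hp] at h4
          exact hpP (h4 ▸ hq)
        · exact h q hq h4
    rw [h3]
    refine Finset.sum_congr rfl fun e _ => ?_
    rw [chi_mulMN]
    push_cast
    rw [mul_div_mul_comm]
  linarith

private theorem BB_boundMN (P : Finset ℕ) (hP : ∀ q ∈ P, q.Prime) :
    ∃ Λ C : ℝ, 0 < Λ ∧ 0 < C ∧ ∀ y : ℕ, |BBMN P y - Λ| ≤ C / (y + 1) := by
  induction P using Finset.induction_on with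
  | empty =>
    refine ⟨Real.pi / 4, 3, by positivity, by norm_num, fun y => ?_⟩
    rw [BB_emptyMN]
    refine (TT_boundMN _).trans ?_
    apply div_le_div_of_nonneg_left (by norm_num) (by positivity)
    have : y ≤ 2 * ((y + 1) / 2) := by omega
    have h2 : (y : ℝ) ≤ 2 * (((y + 1) / 2 : ℕ) : ℝ) := by exact_mod_cast this
    linarith
  | insert p P hpP ih =>
    obtain ⟨Λ, C, hΛ, hC, h⟩ := ih fun q hq => hP q (Finset.mem_insert_of_mem hq)
    have hp : p.Prime := hP p (Finset.mem_insert_self _ _)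
    have hp2 : (2 : ℝ) ≤ p := by exact_mod_cast hp.two_le
    have hp0 : (0 : ℝ) < p := by linarith
    have hc := chi_absMN p
    have hcp : |(chi p : ℝ) / p| ≤ 1 / p := by
      rw [abs_div, abs_of_pos hp0]
      exact div_le_div_of_nonneg_right hc hp0.le
    refine ⟨(1 - (chi p : ℝ) / p) * Λ, 2 * C, ?_, by positivity, fun y => ?_⟩
    · apply mul_pos _ hΛ
      have h1 : (chi p : ℝ) / p ≤ 1 / p := (le_abs_self _).trans hcp
      have h2 : (1 : ℝ) / p ≤ 1 / 2 := one_div_le_one_div_of_le (by norm_num) hp2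
      linarith
    · rw [BB_insertMN (fun q hq => hP q (Finset.mem_insert_of_mem hq)) hp hpP y]
      have e : BBMN P y - (chi p : ℝ) / p * BBMN P (y / p) - (1 - (chi p : ℝ) / p) * Λ =
          (BBMN P y - Λ) - (chi p : ℝ) / p * (BBMN P (y / p) - Λ) := by ring
      rw [e]
      have h1 := abs_sub (BBMN P y - Λ) ((chi p : ℝ) / p * (BBMN P (y / p) - Λ))
      have h2 := h y
      have h3 : |(chi p : ℝ) / p * (BBMN P (y / p) - Λ)| ≤ C / (y + 1) := by
        rw [abs_mul]
        have h4 := h (y / p)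
        have h5 : |(chi p : ℝ) / p| * |BBMN P (y / p) - Λ| ≤
            1 / p * (C / (((y / p : ℕ) : ℝ) + 1)) :=
          mul_le_mul hcp h4 (abs_nonneg _) (by positivity)
        refine h5.trans ?_
        rw [one_div, ← div_eq_inv_mul, div_div]
        apply div_le_div_of_nonneg_left hC.le (by positivity)
        have h6 : y < p * (y / p + 1) := Nat.lt_mul_div_succ y hp.pos
        have h7 : (y : ℝ) + 1 ≤ p * (((y / p : ℕ) : ℝ) + 1) := by exact_mod_cast h6
        linarith
      have e2 : 2 * C / ((y : ℝ) + 1) = C / (y + 1) + C / (y + 1) := by ring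
      rw [e2]
      linarith

private theorem AA_eqMN (ω : ℕ) (h0 : 0 < ω) (y : ℕ) :
    AA ω y = BBMN (ω.primeFactors.erase 2) y := by
  unfold AA BBMN
  rw [Finset.sum_filter, Finset.sum_filter]
  refine Finset.sum_congr rfl fun e _ => ?_
  rcases Nat.even_or_odd e with he | he
  · have h1 : chi e = 0 := by
      obtain ⟨j, hj⟩ := he
      unfold chi
      rw [if_neg (by omega), if_neg (by omega)]
    rw [h1]
    simp
  · refine if_congr ?_ rfl rfl
    constructor
    · intro hc p hp hpe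
      rw [Finset.mem_erase, Nat.mem_primeFactors] at hp
      have := Nat.dvd_gcd hpe hp.2.2.1
      rw [hc] at this
      exact hp.2.1.one_lt.ne' (Nat.dvd_one.1 this)
    · intro h
      by_contra hc
      obtain ⟨p, hp, hpe, hpω⟩ := Nat.Prime.not_coprime_iff_dvd.1 hc
      refine h p ?_ hpe
      rw [Finset.mem_erase, Nat.mem_primeFactors]
      refine ⟨?_, hp, hpω, h0.ne'⟩
      rintro rfl
      exact (Nat.not_even_iff_odd.2 he) (even_iff_two_dvd.2 hpe)

theorem AA_bound (ω : ℕ) (h2 : 2 ∣ ω) (h0 : 0 < ω) :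
    ∃ Λ C : ℝ, 0 < Λ ∧ 0 < C ∧ ∀ y : ℕ, |AA ω y - Λ| ≤ C / (y + 1) := by
  obtain ⟨Λ, C, hΛ, hC, h⟩ := BB_boundMN (ω.primeFactors.erase 2)
    fun q hq => Nat.prime_of_mem_primeFactors (Finset.mem_of_mem_erase hq)
  exact ⟨Λ, C, hΛ, hC, fun y => by rw [AA_eqMN ω h0]; exact h y⟩

theorem lam_eq {ω q : ℕ} (D : ℕ) (hq : Nat.Coprime q ω) (hq0 : 0 < q) :
    lam ω D q = (chi q : ℝ) / q * AA ω (D / q) := by
  have h1 : (Icc 1 D).filter (fun d => Nat.Coprime d ω ∧ q ∣ d) =
      (Icc 1 D).filter (fun d => q ∣ d ∧ Nat.Coprime d ω) := by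
    apply Finset.filter_congr
    intro d _
    exact and_comm
  unfold lam AA
  rw [h1, reindexMN D q hq0 (fun d => Nat.Coprime d ω) (fun d => (chi d : ℝ) / d), Finset.mul_sum]
  have h2 : (Icc 1 (D / q)).filter (fun e => Nat.Coprime (q * e) ω) =
      (Icc 1 (D / q)).filter (fun e => Nat.Coprime e ω) := by
    apply Finset.filter_congr
    intro e _
    rw [Nat.coprime_mul_iff_left]
    exact ⟨fun h => h.2, fun h => ⟨hq, h⟩⟩
  rw [h2]
  refine Finset.sum_congr rfl fun e _ => ?_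
  rw [chi_mulMN]
  push_cast
  rw [mul_div_mul_comm]

theorem lam_bounds (ω : ℕ) (h2 : 2 ∣ ω) (h0 : 0 < ω) :
    ∃ Λ C : ℝ, 0 < Λ ∧ 0 < C ∧
      (∀ D q : ℕ, 0 < D → 0 < q → Nat.Coprime q ω → |lam ω D q| ≤ (Λ + C * q / D) / q) ∧
      (∀ D q : ℕ, 0 < q → Nat.Coprime q ω → |lam ω D q| ≤ (Λ + C) / q) ∧
      (∀ D : ℕ, 0 < D → |lam ω D 1 - Λ| ≤ C / D) := by
  obtain ⟨Λ, C, hΛ, hC, h⟩ := AA_bound ω h2 h0
  have key : ∀ D q : ℕ, 0 < q → Nat.Coprime q ω →
      |lam ω D q| ≤ (Λ + C / (((D / q : ℕ) : ℝ) + 1)) / q := by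
    intro D q hq hc
    have hq0 : (0 : ℝ) < q := by exact_mod_cast hq
    rw [lam_eq D hc hq, abs_mul, abs_div, abs_of_pos hq0]
    have h1 : |AA ω (D / q)| ≤ Λ + C / (((D / q : ℕ) : ℝ) + 1) := by
      have h2 := abs_sub_abs_le_abs_sub (AA ω (D / q)) Λ
      rw [abs_of_pos hΛ] at h2
      have h3 := h (D / q)
      linarith
    have h3 : |(chi q : ℝ)| / q ≤ 1 / q := div_le_div_of_nonneg_right (chi_absMN q) hq0.le
    calc |(chi q : ℝ)| / q * |AA ω (D / q)|
        ≤ 1 / q * (Λ + C / (((D / q : ℕ) : ℝ) + 1)) :=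
          mul_le_mul h3 h1 (abs_nonneg _) (by positivity)
      _ = (Λ + C / (((D / q : ℕ) : ℝ) + 1)) / q := by ring
  refine ⟨Λ, C, hΛ, hC, ?_, ?_, ?_⟩
  · intro D q hD hq hc
    have hq0 : (0 : ℝ) < q := by exact_mod_cast hq
    have hD0 : (0 : ℝ) < D := by exact_mod_cast hD
    refine (key D q hq hc).trans ?_
    apply div_le_div_of_nonneg_right _ hq0.le
    have h1 : C / (((D / q : ℕ) : ℝ) + 1) ≤ C * q / D := by
      rw [div_le_div_iff₀ (by positivity) hD0, mul_assoc]
      apply mul_le_mul_of_nonneg_left _ hC.le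
      have h6 : D < q * (D / q + 1) := Nat.lt_mul_div_succ D hq
      have h7 : (D : ℝ) ≤ q * (((D / q : ℕ) : ℝ) + 1) := by exact_mod_cast h6.le
      exact h7
    linarith
  · intro D q hq hc
    have hq0 : (0 : ℝ) < q := by exact_mod_cast hq
    refine (key D q hq hc).trans ?_
    apply div_le_div_of_nonneg_right _ hq0.le
    have h1 : C / (((D / q : ℕ) : ℝ) + 1) ≤ C := by
      rw [div_le_iff₀ (by positivity)]
      have : (0 : ℝ) ≤ ((D / q : ℕ) : ℝ) := Nat.cast_nonneg _
      nlinarith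
    linarith
  · intro D hD
    have hD0 : (0 : ℝ) < D := by exact_mod_cast hD
    rw [lam_eq D (Nat.coprime_one_left ω) one_pos]
    have h1 : chi 1 = 1 := rfl
    rw [h1, Nat.div_one]
    have h2 := h D
    have e : ((1 : ℤ) : ℝ) / ((1 : ℕ) : ℝ) * AA ω D = AA ω D := by
      push_cast
      ring
    rw [e]
    refine h2.trans ?_
    apply div_le_div_of_nonneg_left hC.le hD0
    linarith

end H2S
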