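import Pool.Agent.H2S.Defs

/-!
# H2S/Choice: a choice of `a, c` and of two classes of `d` modulo 9 for every `n`

For `b ≥ 2`: `kk a b c d = 4^a 9^b + 4^c 25^d` is `4^a + 4^c` modulo 8, `4^c 25^(d % 9)` modulo 27 (`25^9 = 1`), and modulo 7
it is `4^a 2^(b % 3) + 4^c 4^(d % 3)` (`9 = 2`, `25 = 4`, both of order 3). So everything is a condition on `n` modulo
`1512 = 8 · 27 · 7`, `(a, c)`, `δ1, δ2`, `b % 3`. The claim is a finite check; the pairs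
`(a, c) ∈ {(1,1), (0,1), (0,0), (0,2), (1,2), (0,4), (0,3), (1,3)}` suffice. The exceptions `FB` (seven may divide) are the
9 classes modulo 1512 (three modulo `8 · 9 · 7`) below.
-/

namespace H2S

open Finset

/-- the exceptional classes -/
def FB (n : ℕ) : Prop :=
  n % 8 = 7 ∧ ((n % 9 = 1 ∧ n % 7 = 3) ∨ (n % 9 = 4 ∧ n % 7 = 6) ∨ (n % 9 = 7 ∧ n % 7 = 5))

instance : DecidablePred FB := fun n => by unfold FB; infer_instance

/-- the condition modulo 27 -/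
private def g27 (n y : ℕ) : Bool :=
  !(y % 3 == n % 3) || (y % 9 == n % 9 && !(y % 27 == n % 27))

/-- the exceptional classes as a Boolean -/
private def fb (n : ℕ) : Bool :=
  n % 8 == 7 && ((n % 9 == 1 && n % 7 == 3) || (n % 9 == 4 && n % 7 == 6) ||
    (n % 9 == 7 && n % 7 == 5))

private def okm (n a c δ1 δ2 : ℕ) : Bool :=
  (n % 8 == (4 ^ a + 4 ^ c + 1) % 8 || n % 8 == (4 ^ a + 4 ^ c + 5) % 8 ||
    n % 8 == (4 ^ a + 4 ^ c + 2) % 8) &&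
  g27 n (4 ^ c * 25 ^ δ1) && g27 n (4 ^ c * 25 ^ δ2) &&
  (fb n || (!((4 ^ a * 1 + 4 ^ c * 4 ^ (δ1 % 3)) % 7 == n % 7) &&
    !((4 ^ a * 2 + 4 ^ c * 4 ^ (δ1 % 3)) % 7 == n % 7) &&
    !((4 ^ a * 4 + 4 ^ c * 4 ^ (δ1 % 3)) % 7 == n % 7)))

private def prs : List (ℕ × ℕ) := [(1, 1), (0, 1), (0, 0), (0, 2), (1, 2), (0, 4), (0, 3), (1, 3)]

private def dps : List (ℕ × ℕ) :=
  [(0, 3), (0, 6), (3, 6), (1, 4), (1, 7), (4, 7), (2, 5), (2, 8), (5, 8)]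

private def chk : Bool := (List.range 1512).all fun n => n % 4 == 0 ||
  prs.any fun p => dps.any fun e => okm n p.1 p.2 e.1 e.2

private theorem chk_true : chk = true := by decide +kernel

private theorem ch_exists (n : ℕ) (hn : ¬ 4 ∣ n) : ∃ a c δ1 δ2 : ℕ, δ1 < 9 ∧ δ2 < 9 ∧ δ1 ≠ δ2 ∧
    δ1 % 3 = δ2 % 3 ∧ okm (n % 1512) a c δ1 δ2 = true := by
  have h := chk_true
  unfold chk at h
  rw [List.all_eq_true] at h
  have h1 := h (n % 1512) (List.mem_range.2 (Nat.mod_lt _ (by norm_num)))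
  rw [Bool.or_eq_true, beq_iff_eq, List.any_eq_true] at h1
  rcases h1 with h1 | ⟨p, -, h1⟩
  · omega
  · rw [List.any_eq_true] at h1
    obtain ⟨e, he, h1⟩ := h1
    have key : ∀ e ∈ dps, e.1 < 9 ∧ e.2 < 9 ∧ e.1 ≠ e.2 ∧ e.1 % 3 = e.2 % 3 := by decide
    obtain ⟨k1, k2, k3, k4⟩ := key e he
    exact ⟨p.1, p.2, e.1, e.2, k1, k2, k3, k4, h1⟩

private theorem kk_eq (a b c d : ℕ) : kk a b c d = 4 ^ a * 9 ^ b + 4 ^ c * 25 ^ d := by
  have e1 : (4 : ℕ) ^ a = (2 ^ a) ^ 2 := by rw [← pow_mul, mul_comm a 2, pow_mul]; norm_num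
  have e2 : (4 : ℕ) ^ c = (2 ^ c) ^ 2 := by rw [← pow_mul, mul_comm c 2, pow_mul]; norm_num
  have e3 : (9 : ℕ) ^ b = (3 ^ b) ^ 2 := by rw [← pow_mul, mul_comm b 2, pow_mul]; norm_num
  have e4 : (25 : ℕ) ^ d = (5 ^ d) ^ 2 := by rw [← pow_mul, mul_comm d 2, pow_mul]; norm_num
  unfold kk
  rw [e1, e2, e3, e4]
  ring

private theorem kk8 (a b c d : ℕ) : kk a b c d % 8 = (4 ^ a + 4 ^ c) % 8 := by
  rw [kk_eq]
  have h1 : 4 ^ a * 9 ^ b + 4 ^ c * 25 ^ d ≡ 4 ^ a * 1 ^ b + 4 ^ c * 1 ^ d [MOD 8] := by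
    refine Nat.ModEq.add (Nat.ModEq.mul_left _ (Nat.ModEq.pow _ ?_))
      (Nat.ModEq.mul_left _ (Nat.ModEq.pow _ ?_)) <;> decide
  rw [one_pow, one_pow, mul_one, mul_one] at h1
  exact h1

private theorem kk27 (a b c d : ℕ) (hb : 2 ≤ b) :
    kk a b c d % 27 = (4 ^ c * 25 ^ (d % 9)) % 27 := by
  rw [kk_eq]
  obtain ⟨b', rfl⟩ : ∃ b', b = 2 + b' := ⟨b - 2, by omega⟩
  have h1 : 4 ^ a * 9 ^ (2 + b') ≡ 0 [MOD 27] := by
    rw [Nat.modEq_zero_iff_dvd, pow_add]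
    refine Dvd.dvd.mul_left (Dvd.dvd.mul_right ?_ _) _
    norm_num
  have h2 : 25 ^ d ≡ 25 ^ (d % 9) [MOD 27] := by
    conv_lhs => rw [← Nat.div_add_mod d 9, pow_add, pow_mul]
    have h3 : (25 ^ 9) ^ (d / 9) ≡ 1 ^ (d / 9) [MOD 27] := Nat.ModEq.pow _ (by decide)
    rw [one_pow] at h3
    simpa using h3.mul_right (25 ^ (d % 9))
  have h4 := h1.add (h2.mul_left (4 ^ c))
  rw [zero_add] at h4
  exact h4

private theorem kk7 (a b c d : ℕ) :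
    kk a b c d % 7 = (4 ^ a * 2 ^ (b % 3) + 4 ^ c * 4 ^ (d % 3)) % 7 := by
  rw [kk_eq]
  have h1 : 9 ^ b ≡ 2 ^ (b % 3) [MOD 7] := by
    have h0 : 9 ^ b ≡ 2 ^ b [MOD 7] := Nat.ModEq.pow _ (by decide)
    refine h0.trans ?_
    conv_lhs => rw [← Nat.div_add_mod b 3, pow_add, pow_mul]
    have h3 : (2 ^ 3) ^ (b / 3) ≡ 1 ^ (b / 3) [MOD 7] := Nat.ModEq.pow _ (by decide)
    rw [one_pow] at h3
    simpa using h3.mul_right (2 ^ (b % 3))
  have h2 : 25 ^ d ≡ 4 ^ (d % 3) [MOD 7] := by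
    have h0 : 25 ^ d ≡ 4 ^ d [MOD 7] := Nat.ModEq.pow _ (by decide)
    refine h0.trans ?_
    conv_lhs => rw [← Nat.div_add_mod d 3, pow_add, pow_mul]
    have h3 : (4 ^ 3) ^ (d / 3) ≡ 1 ^ (d / 3) [MOD 7] := Nat.ModEq.pow _ (by decide)
    rw [one_pow] at h3
    simpa using h3.mul_right (4 ^ (d % 3))
  exact (h1.mul_left (4 ^ a)).add (h2.mul_left (4 ^ c))

private theorem g27_spec {n m k y : ℕ} (hm : m = n % 1512) (hk : k % 27 = y % 27)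
    (h : g27 m y = true) : ((n : ℤ) - k) % 3 ≠ 0 ∨ (((n : ℤ) - k) % 9 = 0 ∧ ((n : ℤ) - k) % 27 ≠ 0) := by
  unfold g27 at h
  rw [Bool.or_eq_true, Bool.and_eq_true, Bool.not_eq_true', Bool.not_eq_true', beq_iff_eq,
    beq_eq_false_iff_ne, beq_eq_false_iff_ne] at h
  omega

private theorem fb_spec {n : ℕ} (h : fb (n % 1512) = true) : FB n := by
  unfold fb at h
  simp only [Bool.and_eq_true, Bool.or_eq_true, beq_iff_eq] at h
  unfold FB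
  omega

theorem choice (n : ℕ) (hn : ¬ 4 ∣ n) : ∃ a c δ1 δ2 : ℕ, δ1 < 9 ∧ δ2 < 9 ∧ δ1 ≠ δ2 ∧ δ1 % 3 = δ2 % 3 ∧
    (∀ b d : ℕ, 2 ≤ b → (d % 9 = δ1 ∨ d % 9 = δ2) → GoodZ ∅ ((n : ℤ) - kk a b c d)) ∧
    (¬ FB n → ∀ b d : ℕ, 2 ≤ b → (d % 9 = δ1 ∨ d % 9 = δ2) → ¬ (7 : ℤ) ∣ (n : ℤ) - kk a b c d) := by
  obtain ⟨a, c, δ1, δ2, k1, k2, k3, k4, h⟩ := ch_exists n hn
  unfold okm at h
  rw [Bool.and_eq_true, Bool.and_eq_true, Bool.and_eq_true] at h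
  obtain ⟨⟨⟨h8, h27⟩, h27'⟩, h7⟩ := h
  refine ⟨a, c, δ1, δ2, k1, k2, k3, k4, ?_, ?_⟩
  · intro b d hb hd
    refine ⟨?_, ?_, fun q hq => absurd hq (notMem_empty q)⟩
    · have e := kk8 a b c d
      simp only [Bool.or_eq_true, beq_iff_eq] at h8
      generalize kk a b c d = k at e ⊢
      generalize 4 ^ a + 4 ^ c = x at e h8
      omega
    · rcases hd with hd | hd
      · exact g27_spec rfl (by rw [kk27 a b c d hb, hd]) h27
      · exact g27_spec rfl (by rw [kk27 a b c d hb, hd]) h27'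
  · intro hF b d hb hd
    rw [Bool.or_eq_true] at h7
    rcases h7 with h7 | h7
    · exact absurd (fb_spec h7) hF
    · have hd3 : d % 3 = δ1 % 3 := by omega
      have e := kk7 a b c d
      rw [hd3] at e
      simp only [Bool.and_eq_true, Bool.not_eq_true', beq_eq_false_iff_ne] at h7
      obtain ⟨⟨h71, h72⟩, h74⟩ := h7
      have hb3 : b % 3 = 0 ∨ b % 3 = 1 ∨ b % 3 = 2 := by omega
      generalize kk a b c d = k at e ⊢
      rcases hb3 with hb3 | hb3 | hb3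
      · rw [hb3, pow_zero] at e
        generalize 4 ^ a * 1 + 4 ^ c * 4 ^ (δ1 % 3) = x at e h71
        omega
      · rw [hb3, pow_one] at e
        generalize 4 ^ a * 2 + 4 ^ c * 4 ^ (δ1 % 3) = x at e h72
        omega
      · have e2 : (2 : ℕ) ^ 2 = 4 := by norm_num
        rw [hb3, e2] at e
        generalize 4 ^ a * 4 + 4 ^ c * 4 ^ (δ1 % 3) = x at e h74
        omega

end H2S
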