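import Pool.Agent.H2S.TailS

/-!
# H2S/Sums: the two sums over all primes

Split `Q'` at 1000. For `q ≤ 1000` the terms are nonnegative and `Q'` is a subset of the index set of `tab1` (`tab2`). For
`q > 1000`: `max 0 (c LL q Pf q/(q-2) - 1/(q-1)²) ≤ c LL q Pf q/(q-2)` (nonnegative), `tail_sum`. `0.0463 + 9/4 · 0.0087 =
0.065875`.
-/

namespace H2S

open Finset

theorem om_nonneg' (t : ℕ) : 0 ≤ om t := by
  unfold om
  split_ifs <;> positivity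

theorem Pf_nonneg (q : ℕ) : 0 ≤ Pf q := by
  have h1 := om_nonneg' (orderOf (25 : ZMod q))
  have h2 : (0 : ℝ) ≤ ((orderOf (9 : ZMod q) : ℕ) : ℝ) := Nat.cast_nonneg _
  unfold Pf
  refine le_min (by positivity) (le_min (by positivity) ?_)
  split_ifs with h
  · rcases Nat.eq_zero_or_pos (orderOf (9 : ZMod q)) with h0 | h0
    · rw [h0]
      simp
    · have h3 : (1 : ℝ) ≤ ((orderOf (9 : ZMod q) : ℕ) : ℝ) := by exact_mod_cast h0
      have h4 : 0 ≤ ((orderOf (9 : ZMod q) : ℕ) : ℝ) - 1 := by linarith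
      positivity
  · exact zero_le_one

theorem LL_nonneg' (q : ℕ) : 0 ≤ LL q := by
  unfold LL
  refine Finset.prod_nonneg fun p hp => ?_
  rw [Finset.mem_filter] at hp
  have h1 : (7 : ℝ) < (p : ℝ) := by exact_mod_cast hp.2.2.2
  have h2 : 0 < (p : ℝ) - 2 := by linarith
  positivity

theorem sum_split (g : ℕ → ℝ) (c : ℝ) (hc : 0 ≤ c) (T : ℝ)
    (hg : ∀ q : ℕ, 1000 < q → g q ≤ c * (LL q * Pf q / ((q : ℝ) - 2))) (hg0 : ∀ q, 0 ≤ g q)
    (hT : ∑ q ∈ (range 1001).filter (fun q => q.Prime ∧ q % 4 = 3 ∧ 7 < q), g q ≤ T)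
    (Q : Finset ℕ) (hQ : ∀ q ∈ Q, q.Prime ∧ q % 4 = 3 ∧ 7 < q) :
    ∑ q ∈ Q, g q ≤ T + c * 0.0087 := by
  rw [← Finset.sum_filter_add_sum_filter_not Q (fun q => q < 1001)]
  refine add_le_add ?_ ?_
  · refine le_trans (Finset.sum_le_sum_of_subset_of_nonneg ?_ fun q _ _ => hg0 q) hT
    intro q hq
    rw [Finset.mem_filter] at hq
    rw [Finset.mem_filter, Finset.mem_range]
    exact ⟨hq.2, hQ q hq.1⟩
  · have h1 : ∑ q ∈ Q.filter (fun q => ¬ q < 1001), g q ≤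
        ∑ q ∈ Q.filter (fun q => ¬ q < 1001), c * (LL q * Pf q / ((q : ℝ) - 2)) := by
      refine Finset.sum_le_sum fun q hq => hg q ?_
      rw [Finset.mem_filter] at hq
      omega
    refine le_trans h1 ?_
    rw [← Finset.mul_sum]
    refine mul_le_mul_of_nonneg_left (tail_sum _ fun q hq => ?_) hc
    rw [Finset.mem_filter] at hq
    have h2 := hQ q hq.1
    exact ⟨h2.1, h2.2.1, by omega⟩

theorem sum1 (Q : Finset ℕ) (hQ : ∀ q ∈ Q, q.Prime ∧ q % 4 = 3 ∧ 7 < q) :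
    ∑ q ∈ Q, max 0 (LL q * Pf q / ((q : ℝ) - 2) - 1 / ((q : ℝ) - 1) ^ 2) ≤ 0.0186 := by
  refine le_trans (sum_split (fun q => max 0 (LL q * Pf q / ((q : ℝ) - 2) - 1 / ((q : ℝ) - 1) ^ 2)) 1
    zero_le_one 0.0099 ?_ (fun q => le_max_left _ _) tab1 Q hQ) (by norm_num)
  intro q hq
  have h1 : (1000 : ℝ) < (q : ℝ) := by exact_mod_cast hq
  have h2 : 0 ≤ LL q * Pf q / ((q : ℝ) - 2) :=
    div_nonneg (mul_nonneg (LL_nonneg' q) (Pf_nonneg q)) (by linarith)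
  have h3 : 0 ≤ 1 / ((q : ℝ) - 1) ^ 2 := by positivity
  rw [one_mul]
  exact max_le h2 (by linarith)

theorem sum2 (Q : Finset ℕ) (hQ : ∀ q ∈ Q, q.Prime ∧ q % 4 = 3 ∧ 7 < q) :
    ∑ q ∈ Q, max 0 (LL q * (9 / 4 * Pf q) / ((q : ℝ) - 2) - 1 / ((q : ℝ) - 1) ^ 2) ≤ 0.066 := by
  have e : ∀ q : ℕ, LL q * (9 / 4 * Pf q) / ((q : ℝ) - 2) = 9 / 4 * LL q * Pf q / ((q : ℝ) - 2) := by
    intro q
    ring
  have e2 : ∀ q : ℕ, 9 / 4 * LL q * Pf q / ((q : ℝ) - 2) = 9 / 4 * (LL q * Pf q / ((q : ℝ) - 2)) := by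
    intro q
    ring
  simp only [e]
  refine le_trans (sum_split (fun q => max 0 (9 / 4 * LL q * Pf q / ((q : ℝ) - 2) -
    1 / ((q : ℝ) - 1) ^ 2)) (9 / 4) (by norm_num) 0.0463 ?_ (fun q => le_max_left _ _) tab2 Q hQ)
    (by norm_num)
  intro q hq
  have h1 : (1000 : ℝ) < (q : ℝ) := by exact_mod_cast hq
  have h2 : 0 ≤ LL q * Pf q / ((q : ℝ) - 2) :=
    div_nonneg (mul_nonneg (LL_nonneg' q) (Pf_nonneg q)) (by linarith)
  have h3 : 0 ≤ 1 / ((q : ℝ) - 1) ^ 2 := by positivity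
  show max 0 (9 / 4 * LL q * Pf q / ((q : ℝ) - 2) - 1 / ((q : ℝ) - 1) ^ 2) ≤ _
  rw [e2]
  exact max_le (by linarith) (by linarith)

end H2S
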