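import Pool.Agent.H2S.LocB
import Pool.Agent.H2S.Sums
import Pool.Agent.H2S.Choice

/-!
# H2S/Blk: blocked residues for a class modulo 1512

`Good Q n`: some `a b c d`, `b ≥ 2`, with `GoodZ Q (n - kk a b c d)`. Fix `r < 1512` with `4 ∤ r`, a finite set `Q` of primes
`= 3 mod 4`, `> 3`; `Q' = Q.erase 7` (primes `≥ 11`), `Π' = ∏_{q ∈ Q'} q`. The theorem gives a set `S` of residues modulo `Π'`,
with at most `β Π'` elements, containing `n % Π'` for every `n = r mod 1512` which is not good for `Q`.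
Proof. `a, c, δ1, δ2` from `choice r`; `L0 = ∏_{q ∈ Q'} (q-1)` times 3 (so `3 ∣ L0`; `orderOf 9`, `orderOf 25` modulo `q ∈ Q'` divide
`q - 1`), `V = Ico 2 (2 + L0) ×ˢ DS 0 L0 δ1 δ2`, `k (b,d) = kk a b c d`, `V' = {v ∈ V : 7 ∤ r - k v}`. If `n = r mod 1512` then for
`v ∈ V'` the number `n - k v` satisfies the conditions modulo 8 and 27 (it is congruent to `r - k v` modulo 1512) and
is not divisible by 7, so if `n` is not good some `q ∈ Q'` divides `n - k v`. Let `S` be the set of the `m < Π'` with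
`∀ v ∈ V', ∃ q ∈ Q', q ∣ m - k v` (`n % Π' ∈ S` as every `q ∈ Q'` divides `Π'`). `loc_bound` for `Q'`, `V'`, `L = LL`:
* not `FB r`: `V' = V`, `P = Pf` (`NV_le`), `sum1`: `β = 0.0186`.
* `FB r`: for given `d` the `b` with `7 ∣ r - k (b,d)` lie in at most one class modulo 3 (`9 = 2` has order 3 modulo 7), so
  `|V'| ≥ (2/3) |V|` (`3 ∣ L0`), and the number of coincidences in `V'` is at most that in `V`,
  `≤ Pf q |V|² ≤ (9/4) Pf q |V'|²`: `P = 9/4 Pf`, `sum2`: `β = 0.066`.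
`hL`: the product over the smaller elements of `Q'` is part of `LL q`.
-/

namespace H2S

open Finset

/-- `n` has a quadruple which is good for `Q` -/
def Good (Q : Finset ℕ) (n : ℕ) : Prop := ∃ a b c d : ℕ, 2 ≤ b ∧ GoodZ Q ((n : ℤ) - kk a b c d)

private theorem bc_cast (a b c d : ℕ) : ((kk a b c d : ℤ) : ZMod 7) =
    4 ^ a * 9 ^ b + 4 ^ c * 25 ^ d := by
  unfold kk
  push_cast
  have h2 : ∀ n : ℕ, ((2 : ZMod 7) ^ n) ^ 2 = 4 ^ n := by
    intro n
    rw [← pow_mul, mul_comm, pow_mul]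
    norm_num
  have h3 : ∀ n : ℕ, ((3 : ZMod 7) ^ n) ^ 2 = 9 ^ n := by
    intro n
    rw [← pow_mul, mul_comm, pow_mul]
    norm_num
  have h5 : ∀ n : ℕ, ((5 : ZMod 7) ^ n) ^ 2 = 25 ^ n := by
    intro n
    rw [← pow_mul, mul_comm, pow_mul]
    norm_num
  rw [mul_pow, mul_pow, h2, h3, h2, h5]

private theorem bc_4 : (4 : ZMod 7) ≠ 0 := by decide

private theorem bc_9 : (9 : ZMod 7) ^ 3 = 1 := by decide

private theorem bc_9' : ∀ x < 3, ∀ y < 3, (9 : ZMod 7) ^ x = 9 ^ y → x = y := by decide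

private theorem bc_mod3 {a b b' c d : ℕ} {r : ℤ} (h1 : (7 : ℤ) ∣ r - kk a b c d)
    (h2 : (7 : ℤ) ∣ r - kk a b' c d) : b % 3 = b' % 3 := by
  have : Fact (Nat.Prime 7) := ⟨by norm_num⟩
  have h4 : ((7 : ℕ) : ℤ) ∣ (kk a b' c d : ℤ) - kk a b c d := by
    have h5 := dvd_sub h1 h2
    have e : r - (kk a b c d : ℤ) - (r - kk a b' c d) = (kk a b' c d : ℤ) - kk a b c d := by ring
    rw [e] at h5
    exact_mod_cast h5
  have h3 := (ZMod.intCast_eq_intCast_iff_dvd_sub _ _ 7).2 h4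
  rw [bc_cast, bc_cast] at h3
  have h5 : (4 : ZMod 7) ^ a * 9 ^ b = 4 ^ a * 9 ^ b' := add_right_cancel h3
  have h6 : (9 : ZMod 7) ^ b = 9 ^ b' := mul_left_cancel₀ (pow_ne_zero a bc_4) h5
  rw [pow_eq_pow_mod b bc_9, pow_eq_pow_mod b' bc_9] at h6
  exact bc_9' _ (Nat.mod_lt _ (by norm_num)) _ (Nat.mod_lt _ (by norm_num)) h6

private theorem bc_q {Q : Finset ℕ} (hQ : ∀ q ∈ Q, q.Prime ∧ q % 4 = 3 ∧ 3 < q) {q : ℕ}
    (hq : q ∈ Q.erase 7) : q.Prime ∧ q % 4 = 3 ∧ 7 < q := by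
  obtain ⟨h1, h2⟩ := mem_erase.1 hq
  obtain ⟨h3, h4, h5⟩ := hQ q h2
  refine ⟨h3, h4, ?_⟩
  by_contra hcon
  have h6 : q ≤ 7 := by omega
  interval_cases q <;> omega

private theorem bc_L {Q' : Finset ℕ} (hQ' : ∀ q ∈ Q', q.Prime ∧ q % 4 = 3 ∧ 7 < q) (q : ℕ) :
    ∏ p ∈ Q'.filter (fun p => p < q), (1 + 1 / ((p : ℝ) - 2)) ≤ LL q := by
  unfold LL
  have hsub : Q'.filter (fun p => p < q) ⊆
      (range q).filter (fun p => p.Prime ∧ p % 4 = 3 ∧ 7 < p) := by
    intro p hp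
    rw [mem_filter] at hp ⊢
    exact ⟨mem_range.2 hp.2, hQ' p hp.1⟩
  rw [← prod_sdiff hsub]
  have h0 : ∀ p : ℕ, 7 < p → (0 : ℝ) < 1 / ((p : ℝ) - 2) := by
    intro p hp
    have : (7 : ℝ) < p := by exact_mod_cast hp
    apply one_div_pos.2
    linarith
  have h1 : (1 : ℝ) ≤ ∏ p ∈ ((range q).filter (fun p => p.Prime ∧ p % 4 = 3 ∧ 7 < p)) \
      Q'.filter (fun p => p < q), (1 + 1 / ((p : ℝ) - 2)) := by
    have h2 := prod_le_prod (s := ((range q).filter (fun p : ℕ => p.Prime ∧ p % 4 = 3 ∧ 7 < p)) \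
      Q'.filter (fun p : ℕ => p < q)) (f := fun _ => (1 : ℝ))
      (g := fun p : ℕ => 1 + 1 / ((p : ℝ) - 2))
      (fun _ _ => zero_le_one) (fun p hp => by
        have h3 := h0 p (mem_filter.1 (mem_sdiff.1 hp).1).2.2.2
        linarith)
    simpa using h2
  refine le_mul_of_one_le_left ?_ h1
  refine prod_nonneg fun p hp => ?_
  have h3 := h0 p (hQ' p (mem_filter.1 hp).1).2.2
  linarith

theorem blocked_class (Q : Finset ℕ) (hQ : ∀ q ∈ Q, q.Prime ∧ q % 4 = 3 ∧ 3 < q) (r : ℕ) (hr : r < 1512)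
    (h4 : ¬ 4 ∣ r) :
    ∃ S : Finset ℕ, (S.card : ℝ) ≤ (if FB r then 0.066 else 0.0186) * ∏ q ∈ Q.erase 7, (q : ℝ) ∧
      (∀ m ∈ S, m < ∏ q ∈ Q.erase 7, q) ∧
      ∀ n : ℕ, n % 1512 = r → ¬ Good Q n → n % (∏ q ∈ Q.erase 7, q) ∈ S := by
  classical
  obtain ⟨a, c, δ1, δ2, hδ1, hδ2, hne, h3, hG, h7⟩ := choice r h4
  obtain ⟨Q', hQ'⟩ : ∃ Q', Q' = Q.erase 7 := ⟨_, rfl⟩
  have hq' : ∀ q ∈ Q', q.Prime ∧ q % 4 = 3 ∧ 7 < q := by
    intro q hq
    rw [hQ'] at hq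
    exact bc_q hQ hq
  obtain ⟨M0, hM0⟩ : ∃ M0, M0 = ∏ q ∈ Q', (q - 1) := ⟨_, rfl⟩
  have hM0pos : 0 < M0 := by
    rw [hM0]
    exact prod_pos fun q hq => by have := (hq' q hq).2.2; omega
  obtain ⟨V, hV⟩ : ∃ V, V = Ico 2 (2 + 3 * M0) ×ˢ DS 0 (3 * M0) δ1 δ2 := ⟨_, rfl⟩
  have hDc : (DS 0 (3 * M0) δ1 δ2).card = 2 * (3 * M0) := card_DD 0 (3 * M0) hδ1 hδ2 hne
  have hVc : V.card = 3 * M0 * (DS 0 (3 * M0) δ1 δ2).card := by
    rw [hV, card_product, Nat.card_Ico]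
    congr 1
    omega
  have hVpos : 0 < V.card := by
    rw [hVc, hDc]
    positivity
  obtain ⟨k, hk⟩ : ∃ k : ℕ × ℕ → ℤ, k = fun v => (kk a v.1 c v.2 : ℤ) := ⟨_, rfl⟩
  obtain ⟨V', hV'⟩ : ∃ V', V' = V.filter (fun v => ¬ (7 : ℤ) ∣ (r : ℤ) - k v) := ⟨_, rfl⟩
  have hmemV : ∀ v ∈ V, 2 ≤ v.1 ∧ (v.2 % 9 = δ1 ∨ v.2 % 9 = δ2) := by
    intro v hv
    rw [hV, mem_product] at hv
    exact ⟨(mem_Ico.1 hv.1).1, (mem_filter.1 hv.2).2⟩
  have hPV : ∀ q ∈ Q', (((V ×ˢ V).filter (fun p => (q : ℤ) ∣ k p.1 - k p.2)).card : ℝ) ≤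
      Pf q * (V.card : ℝ) ^ 2 := by
    intro q hq
    obtain ⟨hqp, hq4, hq7⟩ := hq' q hq
    have : Fact q.Prime := ⟨hqp⟩
    have h30 : ¬ q ∣ 30 := by
      intro hd
      have h1 : (30 : ℕ) = 2 * (3 * 5) := by norm_num
      rw [h1, hqp.dvd_mul, hqp.dvd_mul, Nat.prime_dvd_prime_iff_eq hqp Nat.prime_two,
        Nat.prime_dvd_prime_iff_eq hqp Nat.prime_three,
        Nat.prime_dvd_prime_iff_eq hqp Nat.prime_five] at hd
      omega
    have hdvd : q - 1 ∣ 3 * M0 := by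
      rw [hM0]
      exact (dvd_prod_of_mem (fun q => q - 1) hq).mul_left 3
    have h9 : (9 : ZMod q) ≠ 0 := by
      intro h
      have h1 : ((9 : ℕ) : ZMod q) = 0 := by exact_mod_cast h
      rw [ZMod.natCast_eq_zero_iff] at h1
      have h2 : (9 : ℕ) = 3 * 3 := by norm_num
      rw [h2, hqp.dvd_mul, Nat.prime_dvd_prime_iff_eq hqp Nat.prime_three] at h1
      omega
    have h25 : (25 : ZMod q) ≠ 0 := by
      intro h
      have h1 : ((25 : ℕ) : ZMod q) = 0 := by exact_mod_cast h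
      rw [ZMod.natCast_eq_zero_iff] at h1
      have h2 : (25 : ℕ) = 5 * 5 := by norm_num
      rw [h2, hqp.dvd_mul, Nat.prime_dvd_prime_iff_eq hqp Nat.prime_five] at h1
      omega
    have hN := NV_le hqp h30 hq4 a c 2 0 (L0 := 3 * M0) (by positivity) hδ1 hδ2 hne h3
      ((ZMod.orderOf_dvd_card_sub_one h9).trans hdvd)
      ((ZMod.orderOf_dvd_card_sub_one h25).trans hdvd)
    rw [← hV] at hN
    unfold NV at hN
    rw [hk]
    exact hN
  obtain ⟨S, hS⟩ : ∃ S, S = (range (∏ q ∈ Q', q)).filter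
    (fun n : ℕ => ∀ v ∈ V', ∃ q ∈ Q', (q : ℤ) ∣ (n : ℤ) - k v) := ⟨_, rfl⟩
  have hPpos : 0 < ∏ q ∈ Q', q := prod_pos fun q hq => (hq' q hq).1.pos
  rw [← hQ']
  refine ⟨S, ?_, ?_, ?_⟩
  · by_cases hFB : FB r
    · rw [if_pos hFB]
      -- the bad elements
      have hbad : (V.filter (fun v => (7 : ℤ) ∣ (r : ℤ) - k v)).card ≤
          M0 * (DS 0 (3 * M0) δ1 δ2).card := by
        have h1 : (V.filter (fun v => (7 : ℤ) ∣ (r : ℤ) - k v)).card ≤
            (range M0 ×ˢ DS 0 (3 * M0) δ1 δ2).card := by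
          refine card_le_card_of_injOn (fun v => ((v.1 - 2) / 3, v.2)) ?_ ?_
          · intro v hv
            have hv1 := (mem_filter.1 hv).1
            rw [hV, mem_product, mem_Ico] at hv1
            refine mem_coe.2 (mem_product.2 ⟨mem_range.2 ?_, hv1.2⟩)
            change (v.1 - 2) / 3 < M0
            omega
          · intro v hv w hw hvw
            obtain ⟨hv1, hv2⟩ := mem_filter.1 hv
            obtain ⟨hw1, hw2⟩ := mem_filter.1 hw
            rw [hV, mem_product, mem_Ico] at hv1 hw1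
            rw [Prod.mk.injEq] at hvw
            obtain ⟨e1, e2⟩ := hvw
            rw [hk] at hv2 hw2
            have hv3 : (7 : ℤ) ∣ (r : ℤ) - kk a v.1 c v.2 := hv2
            have hw3 : (7 : ℤ) ∣ (r : ℤ) - kk a w.1 c v.2 := by
              have hw4 : (7 : ℤ) ∣ (r : ℤ) - kk a w.1 c w.2 := hw2
              rw [← e2] at hw4
              exact hw4
            have h5 := bc_mod3 hv3 hw3
            have h6 : v.1 = w.1 := by omega
            exact Prod.ext h6 e2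
        rwa [card_product, card_range] at h1
      have hsum : (V.filter (fun v => (7 : ℤ) ∣ (r : ℤ) - k v)).card + V'.card = V.card := by
        rw [hV']
        exact card_filter_add_card_filter_not (s := V) (fun v => (7 : ℤ) ∣ (r : ℤ) - k v)
      have h23 : 2 * V.card ≤ 3 * V'.card := by
        have h1 : 3 * (M0 * (DS 0 (3 * M0) δ1 δ2).card) = V.card := by rw [hVc]; ring
        omega
      have hV'n : V'.Nonempty := by
        rw [← card_pos]
        omega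
      have hP' : ∀ q ∈ Q', (((V' ×ˢ V').filter (fun p => (q : ℤ) ∣ k p.1 - k p.2)).card : ℝ) ≤
          (9 / 4 * Pf q) * (V'.card : ℝ) ^ 2 := by
        intro q hq
        have h1 : ((V' ×ˢ V').filter (fun p => (q : ℤ) ∣ k p.1 - k p.2)).card ≤
            ((V ×ˢ V).filter (fun p => (q : ℤ) ∣ k p.1 - k p.2)).card := by
          refine card_le_card (filter_subset_filter _ ?_)
          rw [hV']
          exact product_subset_product (filter_subset _ _) (filter_subset _ _)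
        have h2 : (((V' ×ˢ V').filter (fun p => (q : ℤ) ∣ k p.1 - k p.2)).card : ℝ) ≤
            (((V ×ˢ V).filter (fun p => (q : ℤ) ∣ k p.1 - k p.2)).card : ℝ) := by
          exact_mod_cast h1
        refine h2.trans ((hPV q hq).trans ?_)
        have h5 : 2 * (V.card : ℝ) ≤ 3 * V'.card := by exact_mod_cast h23
        have h6 : (V.card : ℝ) ^ 2 ≤ 9 / 4 * (V'.card : ℝ) ^ 2 := by
          have h7 : (0 : ℝ) ≤ V.card := Nat.cast_nonneg _
          nlinarith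
        have h8 := mul_le_mul_of_nonneg_left h6 (Pf_nonneg q)
        linarith
      have hb := loc_bound Q' (fun q hq => ⟨(hq' q hq).1, by have := (hq' q hq).2.2; omega⟩) V' hV'n
        k LL (fun q => 9 / 4 * Pf q) (fun q _ => bc_L hq' q) hP'
      rw [← hS] at hb
      refine hb.trans ?_
      rw [mul_comm]
      exact mul_le_mul_of_nonneg_right (sum2 Q' hq') (prod_nonneg fun q _ => Nat.cast_nonneg _)
    · rw [if_neg hFB]
      have hVV : V' = V := by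
        rw [hV', filter_eq_self]
        intro v hv
        rw [hk]
        exact h7 hFB v.1 v.2 (hmemV v hv).1 (hmemV v hv).2
      rw [hVV] at hS
      have hb := loc_bound Q' (fun q hq => ⟨(hq' q hq).1, by have := (hq' q hq).2.2; omega⟩) V
        (card_pos.1 hVpos) k LL Pf (fun q _ => bc_L hq' q) hPV
      rw [← hS] at hb
      refine hb.trans ?_
      rw [mul_comm]
      exact mul_le_mul_of_nonneg_right (sum1 Q' hq') (prod_nonneg fun q _ => Nat.cast_nonneg _)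
  · intro m hm
    rw [hS, mem_filter] at hm
    exact mem_range.1 hm.1
  · intro n hn hnG
    rw [hS, mem_filter]
    refine ⟨mem_range.2 (Nat.mod_lt _ hPpos), fun v hv => ?_⟩
    by_contra hcon
    push Not at hcon
    rw [hV', mem_filter] at hv
    obtain ⟨hvV, hv7⟩ := hv
    apply hnG
    refine ⟨a, v.1, c, v.2, (hmemV v hvV).1, ?_⟩
    obtain ⟨g1, g2, -⟩ := hG v.1 v.2 (hmemV v hvV).1 (hmemV v hvV).2
    rw [hk] at hv7 hcon
    simp only at hv7 hcon
    generalize (kk a v.1 c v.2 : ℤ) = K at *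
    have hnr : ∃ t : ℤ, (n : ℤ) = r + 1512 * t := ⟨((n / 1512 : ℕ) : ℤ), by
      have := Nat.mod_add_div n 1512
      rw [hn] at this
      exact_mod_cast this.symm⟩
    obtain ⟨t, ht⟩ := hnr
    refine ⟨by omega, by omega, fun q hq hdv => ?_⟩
    by_cases hq7 : q = 7
    · rw [hq7] at hdv
      apply hv7
      have h1 : ((7 : ℕ) : ℤ) = 7 := by norm_num
      rw [h1] at hdv
      omega
    · have hqQ' : q ∈ Q' := by
        rw [hQ']
        exact mem_erase.2 ⟨hq7, hq⟩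
      apply hcon q hqQ'
      have h1 : (q : ℤ) ∣ (n : ℤ) - ((n % ∏ q ∈ Q', q : ℕ) : ℤ) := by
        have h2 : ((∏ q ∈ Q', q : ℕ) : ℤ) ∣ (n : ℤ) - ((n % ∏ q ∈ Q', q : ℕ) : ℤ) := by
          refine ⟨((n / ∏ q ∈ Q', q : ℕ) : ℤ), ?_⟩
          have h3 := Nat.mod_add_div n (∏ q ∈ Q', q)
          have h5 : (n : ℤ) = ((n % ∏ q ∈ Q', q : ℕ) : ℤ) +
              ((∏ q ∈ Q', q : ℕ) : ℤ) * ((n / ∏ q ∈ Q', q : ℕ) : ℤ) := by
            exact_mod_cast h3.symm
          linarith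
        refine dvd_trans ?_ h2
        exact_mod_cast dvd_prod_of_mem (fun q => q) hqQ'
      have h6 : ((n % ∏ q ∈ Q', q : ℕ) : ℤ) - K =
          ((n : ℤ) - K) - ((n : ℤ) - ((n % ∏ q ∈ Q', q : ℕ) : ℤ)) := by ring
      rw [h6]
      exact dvd_sub hdv h1

end H2S
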