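import Mathlib

/-!
# H2S/Chk: the primes `1000 < q ≤ 500000`, `q = 3 mod 4`, modulo which 9 (25) has order at most 1000

The order `e` of `g = 9` (or 25) modulo `q` divides `(q-1)/2`, which is odd; so `e` is odd, `3 ≤ e ≤ 999`, and
`q = 2 e j + 1` with `j` odd. So the sum is at most the sum over all odd `3 ≤ e ≤ 999` and all `q = 2 e j + 1 ∈ (1000, 500000]`,
`j` odd, with `g^e % q = 1` (primality of `q` and exactness of the order are not checked) of `log q/(q e)` (`log q/q`),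
computed in the kernel with integers scaled by `10^9`.
-/

namespace H2S

open Finset

namespace Chk

/-- an upper bound for `10^9 log q / (q log 2)` -/
def wq (q : ℕ) : ℕ := Nat.succ (Nat.div (Nat.mul (Nat.succ (Nat.log2 q)) 1000000000) q)

/-- the contribution of `q` -/
def leaf (N q : ℕ) : ℕ := cond (Nat.beq (Nat.mod N q) 1) (wq q) 0

/-- `2^k` terms of the progression `q + d i` -/
def seg (N d : ℕ) (k : ℕ) : ℕ → ℕ :=
  Nat.rec (motive := fun _ => ℕ → ℕ) (fun q => leaf N q)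
    (fun k ih q => Nat.add (ih q) (ih (Nat.add q (Nat.mul d (Nat.pow 2 k))))) k

/-- a sum in the form used for the kernel computation -/
def sumRec (f : ℕ → ℕ) (n : ℕ) : ℕ :=
  Nat.rec (motive := fun _ => ℕ) 0 (fun j ih => Nat.add (f j) ih) n

/-- `64 m` terms -/
def run (N d q m : ℕ) : ℕ :=
  sumRec (fun j => seg N d 6 (Nat.add q (Nat.mul d (Nat.mul 64 j)))) m

/-- the first member of the progression above 1000 -/
def q0 (e : ℕ) : ℕ := 2 * e + 1 + 4 * e * ((999 + 2 * e) / (4 * e))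

/-- the number of blocks -/
def mm (e : ℕ) : ℕ := 125000 / e / 64 + 1

/-- the total for the exponent `e` -/
def SE (g e : ℕ) : ℕ := run (Nat.pow g e) (Nat.mul 4 e) (q0 e) (mm e)

/-- the total with weights `1/e` -/
def tot9 (n : ℕ) : ℕ :=
  sumRec (fun j => Nat.succ (Nat.div (SE 9 (2 * j + 3)) (2 * j + 3))) n

/-- the total -/
def tot25 (n : ℕ) : ℕ :=
  sumRec (fun j => SE 25 (2 * j + 3)) n

set_option maxRecDepth 100000 in
theorem tot9_le : tot9 499 ≤ 7213000 := by decide +kernel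

set_option maxRecDepth 100000 in
theorem tot25_le : tot25 499 ≤ 1180000000 := by decide +kernel

theorem seg_eq (N d k q : ℕ) : seg N d k q = ∑ i ∈ range (2 ^ k), leaf N (q + d * i) := by
  induction k generalizing q with
  | zero => simp [seg]
  | succ k ih =>
    have h : seg N d (k + 1) q = seg N d k q + seg N d k (q + d * 2 ^ k) := rfl
    rw [h, ih, ih, pow_succ, mul_two, Finset.sum_range_add]
    congr 1
    refine Finset.sum_congr rfl fun i _ => ?_
    congr 1
    ring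

theorem sumRec_eq (f : ℕ → ℕ) (n : ℕ) : sumRec f n = ∑ i ∈ range n, f i := by
  induction n with
  | zero => rfl
  | succ n ih =>
    have h : sumRec f (n + 1) = f n + sumRec f n := rfl
    rw [h, ih, Finset.sum_range_succ, add_comm]

theorem run_eq (N d q m : ℕ) : run N d q m = ∑ i ∈ range (64 * m), leaf N (q + d * i) := by
  unfold run
  rw [sumRec_eq]
  induction m with
  | zero => simp
  | succ m ih =>
    have h64 : (2 : ℕ) ^ 6 = 64 := rfl
    rw [Finset.sum_range_succ, ih, seg_eq, Nat.mul_succ, Finset.sum_range_add, h64]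
    refine congrArg (fun t => ∑ i ∈ range (64 * m), leaf N (q + d * i) + t) ?_
    refine Finset.sum_congr rfl fun i _ => ?_
    refine congrArg (leaf N) ?_
    show q + d * (64 * m) + d * i = q + d * (64 * m + i)
    ring

theorem tot9_eq (n : ℕ) : tot9 n = ∑ i ∈ range n, (SE 9 (2 * i + 3) / (2 * i + 3) + 1) := by
  unfold tot9
  rw [sumRec_eq]
  refine Finset.sum_congr rfl fun i _ => ?_
  generalize SE 9 (2 * i + 3) = z
  rfl

theorem tot25_eq (n : ℕ) : tot25 n = ∑ i ∈ range n, SE 25 (2 * i + 3) := by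
  unfold tot25
  rw [sumRec_eq]

theorem wq_ge {q : ℕ} (hq : 0 < q) : Real.log q / q ≤ Real.log 2 / 1000000000 * wq q := by
  have hq0 : (0 : ℝ) < q := by exact_mod_cast hq
  have hl2 : 0 < Real.log 2 := Real.log_pos one_lt_two
  have h1 : Real.log q ≤ (Nat.log2 q + 1 : ℕ) * Real.log 2 := by
    have h : q < 2 ^ (Nat.log2 q + 1) := by
      rw [Nat.log2_eq_log_two]
      exact Nat.lt_pow_succ_log_self (by norm_num) q
    have h' : (q : ℝ) ≤ 2 ^ (Nat.log2 q + 1) := by exact_mod_cast h.le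
    rw [← Real.log_pow]
    exact Real.log_le_log hq0 h'
  have h2 : ((Nat.log2 q + 1 : ℕ) : ℝ) * 1000000000 / q ≤ wq q := by
    have h3 : (Nat.log2 q + 1) * 1000000000 < wq q * q := by
      have hw : wq q = (Nat.log2 q + 1) * 1000000000 / q + 1 := rfl
      rw [hw]
      exact Nat.lt_mul_of_div_lt (Nat.lt_succ_self _) hq
    rw [div_le_iff₀ hq0]
    exact_mod_cast h3.le
  have h4 : Real.log q / q ≤ (Nat.log2 q + 1 : ℕ) * Real.log 2 / q :=
    div_le_div_of_nonneg_right h1 hq0.le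
  refine h4.trans ?_
  have h5 : ((Nat.log2 q + 1 : ℕ) : ℝ) * Real.log 2 / q =
      Real.log 2 / 1000000000 * (((Nat.log2 q + 1 : ℕ) : ℝ) * 1000000000 / q) := by
    field_simp
  rw [h5]
  exact mul_le_mul_of_nonneg_left h2 (by positivity)

/-- the properties of a prime of the sum -/
theorem prog {g h q e : ℕ} (hg : g = h ^ 2) (hh : 1 < h) (hh5 : h ≤ 5) (hq : q.Prime) (h4 : q % 4 = 3)
    (hq1 : 1000 < q) (hq2 : q ≤ 500000) (he : orderOf (g : ZMod q) = e) (he1 : e ≤ 1000) :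
    (∃ i < 499, e = 2 * i + 3) ∧ (∃ i < 64 * mm e, q = q0 e + 4 * e * i) ∧ g ^ e % q = 1 := by
  have := Fact.mk hq
  have hhq : (h : ZMod q) ≠ 0 := by
    rw [Ne, ZMod.natCast_eq_zero_iff]
    intro hd
    have := Nat.le_of_dvd (by omega) hd
    omega
  have h1 : (g : ZMod q) ^ ((q - 1) / 2) = 1 := by
    rw [hg]
    push_cast
    rw [← pow_mul]
    have : 2 * ((q - 1) / 2) = q - 1 := by omega
    rw [this]
    exact ZMod.pow_card_sub_one_eq_one hhq
  have h2 : e ∣ (q - 1) / 2 := he ▸ orderOf_dvd_of_pow_eq_one h1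
  obtain ⟨j, hj⟩ := h2
  have hodd : (q - 1) / 2 % 2 = 1 := by omega
  have hprod : e * j % 2 = 1 := by rw [← hj]; exact hodd
  have heo : e % 2 = 1 := by
    rcases Nat.mod_two_eq_zero_or_one e with h0 | h0
    · rw [Nat.mul_mod, h0] at hprod; simp at hprod
    · exact h0
  have hjo : j % 2 = 1 := by
    rcases Nat.mod_two_eq_zero_or_one j with h0 | h0
    · rw [Nat.mul_mod, h0] at hprod; simp at hprod
    · exact h0
  have hge : (g : ZMod q) ^ e = 1 := he ▸ pow_orderOf_eq_one _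
  have he2 : e ≠ 1 := by
    intro h0
    rw [h0, pow_one] at hge
    have h3 : ((g - 1 : ℕ) : ZMod q) = 0 := by
      rw [Nat.cast_sub (by rw [hg]; nlinarith), hge]
      simp
    rw [ZMod.natCast_eq_zero_iff] at h3
    have h5 : 0 < g - 1 := by rw [hg]; have : 2 * 2 ≤ h ^ 2 := by nlinarith
                              omega
    have h6 := Nat.le_of_dvd h5 h3
    have h7 : g ≤ 25 := by rw [hg]; nlinarith
    omega
  have hpow : g ^ e % q = 1 := by
    have h3 : ((g ^ e : ℕ) : ZMod q) = ((1 : ℕ) : ZMod q) := by push_cast; rw [hge]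
    rw [ZMod.natCast_eq_natCast_iff] at h3
    have h5 : g ^ e % q = 1 % q := h3
    rw [h5, Nat.mod_eq_of_lt (by omega)]
  refine ⟨⟨(e - 3) / 2, by omega, by omega⟩, ?_, hpow⟩
  have hepos : 0 < e := by omega
  set i' := j / 2 with hi'
  have hj2 : j = 2 * i' + 1 := by omega
  have hqe : q = 2 * e + 1 + 4 * e * i' := by
    have h3 : q = 2 * (e * j) + 1 := by rw [← hj]; omega
    rw [h3, hj2]; ring
  set i0 := (999 + 2 * e) / (4 * e) with hi0
  have hii : i0 ≤ i' := by
    by_contra hlt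
    push Not at hlt
    have h3 : (i' + 1) * (4 * e) ≤ 999 + 2 * e :=
      (Nat.le_div_iff_mul_le (by omega)).mp hlt
    nlinarith
  refine ⟨i' - i0, ?_, ?_⟩
  · have h3 : i' ≤ 125000 / e := by
      rw [Nat.le_div_iff_mul_le hepos]
      nlinarith
    have h5 : 125000 / e < 64 * mm e := by
      unfold mm
      generalize 125000 / e = t
      omega
    exact lt_of_le_of_lt (Nat.sub_le _ _) (lt_of_le_of_lt h3 h5)
  · unfold q0
    rw [← hi0, hqe]
    have h3 : i' = i0 + (i' - i0) := by omega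
    conv_lhs => rw [h3]
    ring

theorem sum_le_SE {g h e : ℕ} (hg : g = h ^ 2) (hh : 1 < h) (hh5 : h ≤ 5) (he : 0 < e) (F : Finset ℕ)
    (hF : ∀ q ∈ F, q.Prime ∧ q % 4 = 3 ∧ 1000 < q ∧ q ≤ 500000 ∧ orderOf (g : ZMod q) = e) (he1 : e ≤ 1000) :
    ∑ q ∈ F, wq q ≤ SE g e := by
  have h1 : SE g e = ∑ i ∈ range (64 * mm e), leaf (g ^ e) (q0 e + 4 * e * i) := run_eq _ _ _ _
  rw [h1]
  have hinj : Set.InjOn (fun i => q0 e + 4 * e * i) (range (64 * mm e) : Set ℕ) := by
    intro x _ y _ hxy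
    simp only at hxy
    have : 4 * e * x = 4 * e * y := by omega
    exact Nat.eq_of_mul_eq_mul_left (by omega) this
  have h2 : ∑ i ∈ range (64 * mm e), leaf (g ^ e) (q0 e + 4 * e * i) =
      ∑ q ∈ (range (64 * mm e)).image (fun i => q0 e + 4 * e * i), leaf (g ^ e) q := by
    rw [sum_image hinj]
  rw [h2]
  have h3 : ∑ q ∈ F, wq q = ∑ q ∈ F, leaf (g ^ e) q := by
    refine Finset.sum_congr rfl fun q hq => ?_
    obtain ⟨a1, a2, a3, a4, a5⟩ := hF q hq
    obtain ⟨_, _, b3⟩ := prog hg hh hh5 a1 a2 a3 a4 a5 he1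
    have b4 : Nat.mod (g ^ e) q = 1 := b3
    unfold leaf
    rw [b4]
    rfl
  rw [h3]
  refine Finset.sum_le_sum_of_subset ?_
  intro q hq
  obtain ⟨a1, a2, a3, a4, a5⟩ := hF q hq
  obtain ⟨_, ⟨i, hi, hqi⟩, _⟩ := prog hg hh hh5 a1 a2 a3 a4 a5 he1
  rw [mem_image]
  exact ⟨i, mem_range.mpr hi, hqi.symm⟩

attribute [irreducible] SE wq leaf run

end Chk

open Chk

theorem chk9 : ∑ q ∈ (range 500001).filter (fun q => q.Prime ∧ q % 4 = 3 ∧ 1000 < q ∧ orderOf (9 : ZMod q) ≤ 1000),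
    Real.log q / (q * orderOf (9 : ZMod q)) ≤ 0.005 := by
  set F := (range 500001).filter (fun q => q.Prime ∧ q % 4 = 3 ∧ 1000 < q ∧ orderOf (9 : ZMod q) ≤ 1000) with hF
  have hl2 : 0 < Real.log 2 := Real.log_pos one_lt_two
  have hmem : ∀ q ∈ F, q.Prime ∧ q % 4 = 3 ∧ 1000 < q ∧ q ≤ 500000 ∧ orderOf ((9 : ℕ) : ZMod q) ≤ 1000 := by
    intro q hq
    rw [hF, mem_filter, mem_range] at hq
    exact ⟨hq.2.1, hq.2.2.1, hq.2.2.2.1, by omega, by exact_mod_cast hq.2.2.2.2⟩
  have hmaps : ∀ q ∈ F, (orderOf (9 : ZMod q) - 3) / 2 ∈ range 499 := by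
    intro q hq
    obtain ⟨a1, a2, a3, a4, a5⟩ := hmem q hq
    obtain ⟨⟨i, hi, hie⟩, _⟩ := prog (g := 9) (h := 3) (by norm_num) (by norm_num) (by norm_num) a1 a2 a3 a4 rfl a5
    rw [mem_range]
    have : orderOf (9 : ZMod q) = 2 * i + 3 := by exact_mod_cast hie
    omega
  rw [← Finset.sum_fiberwise_of_maps_to hmaps]
  have hstep : ∀ i ∈ range 499, ∑ q ∈ F with (orderOf (9 : ZMod q) - 3) / 2 = i,
      Real.log q / (q * orderOf (9 : ZMod q)) ≤
      Real.log 2 / 1000000000 * ((SE 9 (2 * i + 3) / (2 * i + 3) + 1 : ℕ) : ℝ) := by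
    intro i _
    have hord : ∀ q ∈ F.filter (fun q => (orderOf (9 : ZMod q) - 3) / 2 = i), orderOf (9 : ZMod q) = 2 * i + 3 := by
      intro q hq
      rw [mem_filter] at hq
      obtain ⟨a1, a2, a3, a4, a5⟩ := hmem q hq.1
      obtain ⟨⟨i', hi', hie'⟩, _⟩ := prog (g := 9) (h := 3) (by norm_num) (by norm_num) (by norm_num) a1 a2 a3 a4 rfl a5
      have h9 : orderOf (9 : ZMod q) = 2 * i' + 3 := by exact_mod_cast hie'
      have := hq.2
      omega
    have h1 : ∑ q ∈ F with (orderOf (9 : ZMod q) - 3) / 2 = i, Real.log q / (q * orderOf (9 : ZMod q)) ≤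
        ∑ q ∈ F with (orderOf (9 : ZMod q) - 3) / 2 = i,
          Real.log 2 / 1000000000 * (wq q : ℝ) / (2 * i + 3 : ℕ) := by
      refine Finset.sum_le_sum fun q hq => ?_
      rw [hord q hq, ← div_div]
      refine div_le_div_of_nonneg_right ?_ (by positivity)
      exact wq_ge (by rw [mem_filter] at hq; have := (hmem q hq.1).2.2.1; omega)
    refine h1.trans ?_
    rw [← Finset.sum_div, ← Finset.mul_sum, ← Nat.cast_sum]
    have h2 : ∑ q ∈ F with (orderOf (9 : ZMod q) - 3) / 2 = i, wq q ≤ SE 9 (2 * i + 3) := by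
      by_cases hne : (F.filter (fun q => (orderOf (9 : ZMod q) - 3) / 2 = i)).Nonempty
      · obtain ⟨q1, hq1⟩ := hne
        have hle : 2 * i + 3 ≤ 1000 := by
          rw [← hord q1 hq1]
          rw [mem_filter] at hq1
          exact_mod_cast (hmem q1 hq1.1).2.2.2.2
        refine sum_le_SE (h := 3) (by norm_num) (by norm_num) (by norm_num) (by omega) _ (fun q hq => ?_) hle
        have h5 := hord q hq
        rw [mem_filter] at hq
        obtain ⟨a1, a2, a3, a4, _⟩ := hmem q hq.1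
        exact ⟨a1, a2, a3, a4, by exact_mod_cast h5⟩
      · rw [Finset.not_nonempty_iff_eq_empty] at hne
        rw [hne]
        simp
    have h3 : ((∑ q ∈ F with (orderOf (9 : ZMod q) - 3) / 2 = i, wq q : ℕ) : ℝ) ≤
        ((SE 9 (2 * i + 3) / (2 * i + 3) + 1 : ℕ) : ℝ) * (2 * i + 3 : ℕ) := by
      have h5 : SE 9 (2 * i + 3) ≤ (SE 9 (2 * i + 3) / (2 * i + 3) + 1) * (2 * i + 3) := by
        generalize SE 9 (2 * i + 3) = z
        exact (Nat.lt_mul_of_div_lt (Nat.lt_succ_self _) (by omega)).le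
      exact_mod_cast h2.trans h5
    rw [div_le_iff₀ (by positivity)]
    calc Real.log 2 / 1000000000 * ((∑ q ∈ F with (orderOf (9 : ZMod q) - 3) / 2 = i, wq q : ℕ) : ℝ)
        ≤ Real.log 2 / 1000000000 * (((SE 9 (2 * i + 3) / (2 * i + 3) + 1 : ℕ) : ℝ) * (2 * i + 3 : ℕ)) :=
          mul_le_mul_of_nonneg_left h3 (by positivity)
      _ = _ := by ring
  refine (Finset.sum_le_sum hstep).trans ?_
  rw [← Finset.mul_sum, ← Nat.cast_sum, ← tot9_eq]
  have h1 : ((tot9 499 : ℕ) : ℝ) ≤ 7213000 := by exact_mod_cast tot9_le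
  have h2 := Real.log_two_lt_d9
  calc Real.log 2 / 1000000000 * ((tot9 499 : ℕ) : ℝ) ≤ 0.6931471808 / 1000000000 * 7213000 := by
        apply mul_le_mul _ h1 (Nat.cast_nonneg _) (by norm_num)
        linarith
    _ ≤ 0.005 := by norm_num

theorem chk25 : ∑ q ∈ (range 500001).filter (fun q => q.Prime ∧ q % 4 = 3 ∧ 1000 < q ∧ orderOf (25 : ZMod q) ≤ 1000),
    Real.log q / q ≤ 0.84 := by
  set F := (range 500001).filter (fun q => q.Prime ∧ q % 4 = 3 ∧ 1000 < q ∧ orderOf (25 : ZMod q) ≤ 1000) with hF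
  have hl2 : 0 < Real.log 2 := Real.log_pos one_lt_two
  have hmem : ∀ q ∈ F, q.Prime ∧ q % 4 = 3 ∧ 1000 < q ∧ q ≤ 500000 ∧ orderOf ((25 : ℕ) : ZMod q) ≤ 1000 := by
    intro q hq
    rw [hF, mem_filter, mem_range] at hq
    exact ⟨hq.2.1, hq.2.2.1, hq.2.2.2.1, by omega, by exact_mod_cast hq.2.2.2.2⟩
  have hmaps : ∀ q ∈ F, (orderOf (25 : ZMod q) - 3) / 2 ∈ range 499 := by
    intro q hq
    obtain ⟨a1, a2, a3, a4, a5⟩ := hmem q hq
    obtain ⟨⟨i, hi, hie⟩, _⟩ := prog (g := 25) (h := 5) (by norm_num) (by norm_num) (by norm_num) a1 a2 a3 a4 rfl a5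
    rw [mem_range]
    have : orderOf (25 : ZMod q) = 2 * i + 3 := by exact_mod_cast hie
    omega
  rw [← Finset.sum_fiberwise_of_maps_to hmaps]
  have hstep : ∀ i ∈ range 499, ∑ q ∈ F with (orderOf (25 : ZMod q) - 3) / 2 = i, Real.log q / q ≤
      Real.log 2 / 1000000000 * ((SE 25 (2 * i + 3) : ℕ) : ℝ) := by
    intro i _
    have hord : ∀ q ∈ F.filter (fun q => (orderOf (25 : ZMod q) - 3) / 2 = i),
        orderOf (25 : ZMod q) = 2 * i + 3 := by
      intro q hq
      rw [mem_filter] at hq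
      obtain ⟨a1, a2, a3, a4, a5⟩ := hmem q hq.1
      obtain ⟨⟨i', hi', hie'⟩, _⟩ := prog (g := 25) (h := 5) (by norm_num) (by norm_num) (by norm_num) a1 a2 a3 a4 rfl a5
      have h9 : orderOf (25 : ZMod q) = 2 * i' + 3 := by exact_mod_cast hie'
      have := hq.2
      omega
    have h1 : ∑ q ∈ F with (orderOf (25 : ZMod q) - 3) / 2 = i, Real.log q / q ≤
        ∑ q ∈ F with (orderOf (25 : ZMod q) - 3) / 2 = i, Real.log 2 / 1000000000 * (wq q : ℝ) := by
      refine Finset.sum_le_sum fun q hq => ?_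
      exact wq_ge (by rw [mem_filter] at hq; have := (hmem q hq.1).2.2.1; omega)
    refine h1.trans ?_
    rw [← Finset.mul_sum, ← Nat.cast_sum]
    have h2 : ∑ q ∈ F with (orderOf (25 : ZMod q) - 3) / 2 = i, wq q ≤ SE 25 (2 * i + 3) := by
      by_cases hne : (F.filter (fun q => (orderOf (25 : ZMod q) - 3) / 2 = i)).Nonempty
      · obtain ⟨q1, hq1⟩ := hne
        have hle : 2 * i + 3 ≤ 1000 := by
          rw [← hord q1 hq1]
          rw [mem_filter] at hq1
          exact_mod_cast (hmem q1 hq1.1).2.2.2.2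
        refine sum_le_SE (h := 5) (by norm_num) (by norm_num) (by norm_num) (by omega) _ (fun q hq => ?_) hle
        have h5 := hord q hq
        rw [mem_filter] at hq
        obtain ⟨a1, a2, a3, a4, _⟩ := hmem q hq.1
        exact ⟨a1, a2, a3, a4, by exact_mod_cast h5⟩
      · rw [Finset.not_nonempty_iff_eq_empty] at hne
        rw [hne]
        simp
    exact mul_le_mul_of_nonneg_left (by exact_mod_cast h2) (by positivity)
  refine (Finset.sum_le_sum hstep).trans ?_
  rw [← Finset.mul_sum, ← Nat.cast_sum, ← tot25_eq]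
  have h1 : ((tot25 499 : ℕ) : ℝ) ≤ 1180000000 := by exact_mod_cast tot25_le
  have h2 := Real.log_two_lt_d9
  calc Real.log 2 / 1000000000 * ((tot25 499 : ℕ) : ℝ) ≤ 0.6931471808 / 1000000000 * 1180000000 := by
        apply mul_le_mul _ h1 (Nat.cast_nonneg _) (by norm_num)
        linarith
    _ ≤ 0.84 := by norm_num

end H2S
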