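import Pool.Agent.H2S.Mert

/-!
# H2S/Prod: the singular series by a sum over primes

* `prod_le`: induction on the largest element (`Finset.induction_on_max`): for `p` larger than all elements of `P`,
  `∏_{P ∪ {p}} = ∏_P + (1/(p-1)) ∏_P`, and `∏_P ≤ ∏_{primes ≤ p} (1 - 1/p')⁻¹ ≤ C0 (log p)²` (`prod_below_le`),
  `1/(p-1) ≤ 2/p`. So the increment is at most `2 C0 wt p`.
* `sum_inv_dvd_le`: every `q` in the sum is a product of primes dividing `h` and not `ω`, i.e. an element of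
  `Nat.factoredNumbers s` with `s` that set of primes; compare with the convergent product
  `EulerProduct.summable_and_hasSum_factoredNumbers_prod_filter_prime_geometric` (completely multiplicative `n ↦ 1/n`),
  or induct on the set of primes.
* `sum_prime_dvd_large`: for `p > y ≥ 3`: `(log p)²/p ≤ log p * (log y / y)` (`log x / x` decreases for `x ≥ e`), and the
  sum of `log p` over the primes dividing `h ≠ 0` is at most `log |h|`.
-/

namespace H2S

open Finset

theorem prod_one_le_factor {p : ℕ} (hp : p.Prime) : 1 ≤ (1 - 1 / (p : ℝ))⁻¹ := by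
  have h2 : (2 : ℝ) ≤ p := by exact_mod_cast hp.two_le
  have h3 : 1 / (p : ℝ) ≤ 1 / 2 := one_div_le_one_div_of_le (by norm_num) h2
  have h4 : 0 < 1 / (p : ℝ) := by positivity
  rw [one_le_inv₀ (by linarith)]
  linarith

theorem prod_one_le_prod {P : Finset ℕ} {f : ℕ → ℝ} (hf : ∀ q ∈ P, 1 ≤ f q) :
    1 ≤ ∏ q ∈ P, f q := by
  calc (1 : ℝ) = ∏ q ∈ P, (1 : ℝ) := by simp
    _ ≤ ∏ q ∈ P, f q := prod_le_prod (fun _ _ => zero_le_one) hf

theorem prod_le : ∃ C : ℝ, 0 < C ∧ ∀ P : Finset ℕ, (∀ p ∈ P, p.Prime) →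
    ∏ p ∈ P, (1 - 1 / (p : ℝ))⁻¹ ≤ 1 + C * ∑ p ∈ P, wt p := by
  obtain ⟨C0, hC0, h0⟩ := prod_below_le
  refine ⟨2 * C0, by positivity, ?_⟩
  intro P
  induction P using Finset.induction_on_max with
  | empty => intro _; simp
  | insert p P hmax ih =>
    intro hP
    have hpp : p.Prime := hP p (mem_insert_self p P)
    have hPP : ∀ q ∈ P, q.Prime := fun q hq => hP q (mem_insert_of_mem hq)
    have hnot : p ∉ P := fun h => lt_irrefl _ (hmax p h)
    have ih' := ih hPP
    rw [prod_insert hnot, sum_insert hnot]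
    have h2 : (2 : ℝ) ≤ p := by exact_mod_cast hpp.two_le
    have hsub : P ⊆ Nat.primesBelow (p + 1) := by
      intro q hq
      rw [Nat.mem_primesBelow]
      exact ⟨by have := hmax q hq; omega, hPP q hq⟩
    have hle : ∏ q ∈ P, (1 - 1 / (q : ℝ))⁻¹ ≤ C0 * (Real.log p) ^ 2 := by
      refine le_trans ?_ (h0 p hpp.two_le)
      rw [← prod_sdiff hsub]
      refine le_mul_of_one_le_left ?_ ?_
      · exact prod_nonneg fun q hq => le_trans zero_le_one (prod_one_le_factor (hPP q hq))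
      · apply prod_one_le_prod
        intro q hq
        rw [mem_sdiff, Nat.mem_primesBelow] at hq
        exact prod_one_le_factor hq.1.2
    have hpos : 0 ≤ ∏ q ∈ P, (1 - 1 / (q : ℝ))⁻¹ :=
      prod_nonneg fun q hq => le_trans zero_le_one (prod_one_le_factor (hPP q hq))
    have hfac : (1 - 1 / (p : ℝ))⁻¹ ≤ 1 + 2 / p := by
      have h3 : 1 / (p : ℝ) ≤ 1 / 2 := one_div_le_one_div_of_le (by norm_num) h2
      have h5 : (0 : ℝ) < 1 / p := by positivity
      rw [inv_le_iff_one_le_mul₀ (by linarith)]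
      have h6 : (2 : ℝ) / p = 2 * (1 / p) := by ring
      rw [h6]
      nlinarith
    calc (1 - 1 / (p : ℝ))⁻¹ * ∏ q ∈ P, (1 - 1 / (q : ℝ))⁻¹
        ≤ (1 + 2 / p) * ∏ q ∈ P, (1 - 1 / (q : ℝ))⁻¹ := mul_le_mul_of_nonneg_right hfac hpos
      _ = ∏ q ∈ P, (1 - 1 / (q : ℝ))⁻¹ + 2 / p * ∏ q ∈ P, (1 - 1 / (q : ℝ))⁻¹ := by ring
      _ ≤ (1 + 2 * C0 * ∑ q ∈ P, wt q) + 2 / p * (C0 * (Real.log p) ^ 2) := by
        refine add_le_add ih' (mul_le_mul_of_nonneg_left hle (by positivity))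
      _ = 1 + 2 * C0 * (wt p + ∑ q ∈ P, wt q) := by
        unfold wt
        ring

theorem sum_inv_dvd_le {h : ℤ} (hh : h ≠ 0) (ω H : ℕ) :
    ∑ q ∈ (Icc 1 H).filter (fun q => Nat.Coprime q ω ∧ (q : ℤ) ∣ h), (1 : ℝ) / q ≤
      ∏ p ∈ h.natAbs.primeFactors.filter (fun p => ¬ p ∣ ω), (1 - 1 / (p : ℝ))⁻¹ := by
  classical
  set s := h.natAbs.primeFactors.filter (fun p => ¬ p ∣ ω) with hs
  set F := (Icc 1 H).filter (fun q => Nat.Coprime q ω ∧ (q : ℤ) ∣ h) with hF
  let f : ℕ →* ℝ :=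
    { toFun := fun n => 1 / (n : ℝ)
      map_one' := by simp
      map_mul' := fun a b => by push_cast; rw [one_div_mul_one_div] }
  have hf : ∀ n : ℕ, f n = 1 / (n : ℝ) := fun n => rfl
  have hlt : ∀ {p : ℕ}, p.Prime → ‖f p‖ < 1 := by
    intro p hp
    have h2 : (1 : ℝ) < p := by exact_mod_cast hp.one_lt
    rw [hf, Real.norm_of_nonneg (by positivity), div_lt_one (by linarith)]
    exact h2
  have hsum := (EulerProduct.summable_and_hasSum_factoredNumbers_prod_filter_prime_geometric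
    (f := f) hlt s).2
  have hfil : s.filter Nat.Prime = s := by
    apply filter_true_of_mem
    intro p hp
    rw [hs, mem_filter, Nat.mem_primeFactors] at hp
    exact hp.1.1
  rw [hfil] at hsum
  have hmem : ∀ q ∈ F, q ∈ Nat.factoredNumbers s := by
    intro q hq
    rw [hF, mem_filter, mem_Icc] at hq
    obtain ⟨⟨hq1, -⟩, hco, hdvd⟩ := hq
    rw [Nat.mem_factoredNumbers']
    intro p hp hpq
    rw [hs, mem_filter, Nat.mem_primeFactors]
    refine ⟨⟨hp, ?_, by simpa using hh⟩, ?_⟩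
    · have : (p : ℤ) ∣ h := dvd_trans (by exact_mod_cast hpq) hdvd
      exact Int.natCast_dvd.mp this
    · intro hpω
      exact Nat.Prime.not_coprime_iff_dvd.mpr ⟨p, hp, hpq, hpω⟩ hco
  have e1 : ∑ q ∈ F, (1 : ℝ) / q =
      ∑ x ∈ F.subtype (fun q => q ∈ Nat.factoredNumbers s), f (x : ℕ) := by
    rw [← Finset.sum_subtype_of_mem (fun q : ℕ => (1 : ℝ) / q) hmem]
    rfl
  rw [e1]
  refine sum_le_hasSum _ (fun x _ => ?_) hsum
  rw [hf]
  positivity

theorem sum_prime_dvd_large {h : ℤ} (hh : h ≠ 0) {y : ℕ} (hy : 3 ≤ y) :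
    ∑ p ∈ h.natAbs.primeFactors.filter (fun p => y < p), wt p ≤
      Real.log y / y * Real.log h.natAbs := by
  have hy3 : (3 : ℝ) ≤ y := by exact_mod_cast hy
  have he : Real.exp 1 ≤ y := by
    have := Real.exp_one_lt_d9
    linarith
  have hn0 : h.natAbs ≠ 0 := by simpa using hh
  have hcoef : 0 ≤ Real.log y / y := div_nonneg (Real.log_nonneg (by linarith)) (by linarith)
  have h1 : ∀ p ∈ h.natAbs.primeFactors.filter (fun p => y < p),
      wt p ≤ Real.log y / y * Real.log p := by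
    intro p hp
    rw [mem_filter] at hp
    have hyp : (y : ℝ) ≤ p := by exact_mod_cast hp.2.le
    have h2 : Real.log p / p ≤ Real.log y / y :=
      Real.log_div_self_antitoneOn (Set.mem_Ici.mpr he) (Set.mem_Ici.mpr (he.trans hyp)) hyp
    have h3 : 0 ≤ Real.log p := Real.log_nonneg (by linarith)
    calc wt p = Real.log p / p * Real.log p := by unfold wt; ring
      _ ≤ _ := mul_le_mul_of_nonneg_right h2 h3
  refine (sum_le_sum h1).trans ?_
  rw [← mul_sum]
  refine mul_le_mul_of_nonneg_left ?_ hcoef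
  have h4 : ∑ p ∈ h.natAbs.primeFactors.filter (fun p => y < p), Real.log (p : ℝ) ≤
      ∑ p ∈ h.natAbs.primeFactors, Real.log (p : ℝ) := by
    refine sum_le_sum_of_subset_of_nonneg (filter_subset _ _) ?_
    intro p hp _
    exact Real.log_natCast_nonneg p
  refine h4.trans ?_
  have h5 : ∑ p ∈ h.natAbs.primeFactors, Real.log (p : ℝ) =
      Real.log ((∏ p ∈ h.natAbs.primeFactors, p : ℕ) : ℝ) := by
    rw [Nat.cast_prod, Real.log_prod]
    intro p hp
    rw [Nat.mem_primeFactors] at hp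
    exact_mod_cast hp.1.ne_zero
  rw [h5]
  apply Real.log_le_log
  · exact_mod_cast Nat.pos_of_ne_zero (Finset.prod_ne_zero_iff.mpr fun p hp =>
      (Nat.prime_of_mem_primeFactors hp).ne_zero)
  · exact_mod_cast Nat.le_of_dvd (Nat.pos_of_ne_zero hn0) (Nat.prod_primeFactors_dvd _)

end H2S
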