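import Pool.Agent.H2S.FamN
import Pool.Agent.H2S.Prod

/-!
# H2S/FamV: the Romanoff sum of the family

`κ p = (fam p - fam (0,0)) / W`, `I = range T ×ˢ range T`, `M = I.card = T²`; `W (κ p - κ p') = fam p - fam p'`.
The left side is at most `∑_{pairs} ∑_{1 < q ≤ H, (q,ω)=1, q ∣ κ p - κ p'} 1/q`.
* Pairs with `κ p = κ p'` (i.e. `fam p = fam p'`): at most `2 T²` (`diag_le`), each contributes at most
  `1 + log H ≤ 1 + B T`: total `≤ ε/4 T⁴` for large `T`.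
* Other pairs, `h = κ p - κ p' ≠ 0`: by `sum_inv_dvd_le` (drop the term `q = 1`, which is 1) the inner sum is at most
  `∏_{p ∣ h, p ∤ ω} (1 - 1/p)⁻¹ - 1`; split the primes into those dividing `W` (product at most `Ξ`, the product in the
  statement) and those not dividing `W`: at most `Ξ (1 + C ∑_{p ∣ h, p ∤ W} wt p) - 1` by `prod_le`.
* `∑_{pairs} ∑_{p ∣ h, p ∤ W} wt p`: a prime `p ∤ W` dividing `h` divides `fam p - fam p'`. For `p ≤ T²` the number of pairs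
  is at most `T⁴ (1/o_p + 1/T)`, `o_p` the maximum of the two orders (`count9`, `count25`, `p ∤ 30` as `30 ∣ W`):
  `∑ wt p / o_p ≤ τ` (hypothesis) and `∑_{p ≤ T²} wt p / T ≤ C (log T²)²/T → 0` (`wt_sum_le`). For `p > T²`:
  `sum_prime_dvd_large` gives at most `(log T² / T²) log |h| ≤ (2 log T/T²) B T → 0` for each pair (`|h| ≤ H`).
So with `C` the constant of `prod_le` everything is at most `(Ξ (1 + C τ) - 1 + ε) T⁴` for `T ≥ T1`.
-/

namespace H2S

open Finset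

/-- the shifts -/
def kap (a b c d E W : ℕ) (p : ℕ × ℕ) : ℤ := ((fam a b c d E p : ℤ) - fam a b c d E (0, 0)) / W

private lemma fv_wt_nonneg (p : ℕ) : 0 ≤ wt p := by unfold wt; positivity

private lemma fv_one_le {p : ℕ} (hp : p.Prime) : 1 ≤ (1 - 1 / (p : ℝ))⁻¹ := by
  have h2 : (2 : ℝ) ≤ p := by exact_mod_cast hp.two_le
  have h0 : (0 : ℝ) < 1 - 1 / (p : ℝ) := by
    have : 1 / (p : ℝ) ≤ 1 / 2 := div_le_div_of_nonneg_left (by norm_num) (by norm_num) h2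
    linarith
  rw [one_le_inv₀ h0]
  have : 0 ≤ 1 / (p : ℝ) := by positivity
  linarith

/-- the sum over the multiples is a sum over the pairs -/
private lemma fv_swap {ι : Type} (I : Finset ι) (κ : ι → ℤ) (Q : Finset ℕ) :
    ∑ q ∈ Q, (Np I κ q : ℝ) / q =
      ∑ P ∈ I ×ˢ I, ∑ q ∈ Q.filter (fun q : ℕ => (q : ℤ) ∣ κ P.1 - κ P.2), (1 : ℝ) / q := by
  have h1 : ∀ q ∈ Q, (Np I κ q : ℝ) / q =
      ∑ P ∈ I ×ˢ I, if (q : ℤ) ∣ κ P.1 - κ P.2 then (1 : ℝ) / q else 0 := by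
    intro q _
    rw [← Finset.sum_filter, Finset.sum_const, nsmul_eq_mul, mul_one_div]
    rfl
  rw [Finset.sum_congr rfl h1, Finset.sum_comm]
  exact Finset.sum_congr rfl fun P _ => (Finset.sum_filter _ _).symm

/-- a bound for all pairs -/
private lemma fv_log {H : ℕ} (ω : ℕ) (h : ℤ) :
    ∑ q ∈ ((Ioc 1 H).filter (fun q => Nat.Coprime q ω)).filter (fun q : ℕ => (q : ℤ) ∣ h), (1 : ℝ) / q ≤
      1 + Real.log H := by
  have h1 : ∑ q ∈ ((Ioc 1 H).filter (fun q => Nat.Coprime q ω)).filter (fun q : ℕ => (q : ℤ) ∣ h),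
      (1 : ℝ) / q ≤ ∑ q ∈ Icc 1 H, (1 : ℝ) / q := by
    apply Finset.sum_le_sum_of_subset_of_nonneg
    · intro q hq
      rw [Finset.mem_filter, Finset.mem_filter, Finset.mem_Ioc] at hq
      rw [Finset.mem_Icc]
      omega
    · intro q _ _
      positivity
  refine h1.trans ?_
  have h2 := harmonic_le_one_add_log H
  rw [harmonic_eq_sum_Icc] at h2
  push_cast at h2
  simpa only [one_div] using h2

/-- a bound for the pairs with `h ≠ 0` -/
private lemma fv_pair {C0 : ℝ} (hC0 : 0 < C0) (hprod : ∀ P : Finset ℕ, (∀ p ∈ P, p.Prime) →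
    ∏ p ∈ P, (1 - 1 / (p : ℝ))⁻¹ ≤ 1 + C0 * ∑ p ∈ P, wt p) {W ω H : ℕ} (hW : 0 < W) (hω : ω ∣ W)
    (hH : 1 ≤ H) {h : ℤ} (hh : h ≠ 0) :
    ∑ q ∈ ((Ioc 1 H).filter (fun q => Nat.Coprime q ω)).filter (fun q : ℕ => (q : ℤ) ∣ h), (1 : ℝ) / q ≤
      (∏ p ∈ W.primeFactors.filter (fun p => ¬ p ∣ ω), (1 - 1 / (p : ℝ))⁻¹) *
        (1 + C0 * ∑ p ∈ h.natAbs.primeFactors.filter (fun p => ¬ p ∣ W), wt p) - 1 := by
  have h1 := sum_inv_dvd_le hh ω H
  have e1 : (Icc 1 H).filter (fun q : ℕ => Nat.Coprime q ω ∧ (q : ℤ) ∣ h) =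
      insert 1 (((Ioc 1 H).filter (fun q => Nat.Coprime q ω)).filter (fun q : ℕ => (q : ℤ) ∣ h)) := by
    ext q
    simp only [Finset.mem_filter, Finset.mem_Icc, Finset.mem_insert, Finset.mem_Ioc]
    constructor
    · rintro ⟨⟨h2, h3⟩, h4, h5⟩
      by_cases hq : q = 1
      · exact Or.inl hq
      · exact Or.inr ⟨⟨⟨by omega, h3⟩, h4⟩, h5⟩
    · rintro (rfl | ⟨⟨⟨h2, h3⟩, h4⟩, h5⟩)
      · exact ⟨⟨le_rfl, hH⟩, Nat.coprime_one_left ω, by simp⟩
      · exact ⟨⟨by omega, h3⟩, h4, h5⟩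
  rw [e1, Finset.sum_insert (by simp)] at h1
  have hone : ∀ p ∈ h.natAbs.primeFactors, 1 ≤ (1 - 1 / (p : ℝ))⁻¹ := fun p hp =>
    fv_one_le (Nat.prime_of_mem_primeFactors hp)
  have h2 : ∏ p ∈ h.natAbs.primeFactors.filter (fun p => ¬ p ∣ ω), (1 - 1 / (p : ℝ))⁻¹ =
      (∏ p ∈ (h.natAbs.primeFactors.filter (fun p => ¬ p ∣ ω)).filter (fun p => p ∣ W),
        (1 - 1 / (p : ℝ))⁻¹) *
      ∏ p ∈ (h.natAbs.primeFactors.filter (fun p => ¬ p ∣ ω)).filter (fun p => ¬ p ∣ W),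
        (1 - 1 / (p : ℝ))⁻¹ := (Finset.prod_filter_mul_prod_filter_not _ _ _).symm
  have h3 : ∏ p ∈ (h.natAbs.primeFactors.filter (fun p => ¬ p ∣ ω)).filter (fun p => p ∣ W),
      (1 - 1 / (p : ℝ))⁻¹ ≤ ∏ p ∈ W.primeFactors.filter (fun p => ¬ p ∣ ω), (1 - 1 / (p : ℝ))⁻¹ := by
    apply Finset.prod_le_prod_of_subset_of_one_le
    · intro p hp
      rw [Finset.mem_filter, Finset.mem_filter] at hp
      rw [Finset.mem_filter, Nat.mem_primeFactors]
      exact ⟨⟨Nat.prime_of_mem_primeFactors hp.1.1, hp.2, hW.ne'⟩, hp.1.2⟩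
    · intro p hp
      rw [Finset.mem_filter, Finset.mem_filter] at hp
      exact zero_le_one.trans (hone p hp.1.1)
    · intro p hp _
      rw [Finset.mem_filter] at hp
      exact fv_one_le (Nat.prime_of_mem_primeFactors hp.1)
  have e4 : (h.natAbs.primeFactors.filter (fun p => ¬ p ∣ ω)).filter (fun p => ¬ p ∣ W) =
      h.natAbs.primeFactors.filter (fun p => ¬ p ∣ W) := by
    rw [Finset.filter_filter]
    apply Finset.filter_congr
    intro p _
    exact ⟨fun hp => hp.2, fun hp => ⟨fun hd => hp (hd.trans hω), hp⟩⟩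
  have h4 := hprod (h.natAbs.primeFactors.filter (fun p => ¬ p ∣ W)) (fun p hp =>
    Nat.prime_of_mem_primeFactors (Finset.mem_filter.1 hp).1)
  rw [e4] at h2
  have h5 : 0 ≤ ∏ p ∈ h.natAbs.primeFactors.filter (fun p => ¬ p ∣ W), (1 - 1 / (p : ℝ))⁻¹ :=
    Finset.prod_nonneg fun p hp => zero_le_one.trans (hone p (Finset.mem_filter.1 hp).1)
  have h6 : 0 ≤ ∏ p ∈ W.primeFactors.filter (fun p => ¬ p ∣ ω), (1 - 1 / (p : ℝ))⁻¹ :=
    Finset.prod_nonneg fun p hp => zero_le_one.trans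
      (fv_one_le (Nat.prime_of_mem_primeFactors (Finset.mem_filter.1 hp).1))
  have h7 := mul_le_mul h3 h4 h5 h6
  rw [← h2] at h7
  rw [Nat.cast_one, div_one] at h1
  linarith

/-- the sum of the weights over the pairs -/
private lemma fv_sigma {C1 : ℝ} (hwt : ∀ x : ℕ, 2 ≤ x →
    ∑ p ∈ Nat.primesBelow (x + 1), wt p ≤ C1 * (Real.log x) ^ 2) {a b c d E W : ℕ} {τ : ℝ}
    (hW : 0 < W) (h30 : 30 ∣ W)
    (hdvd : ∀ p, (W : ℤ) ∣ (fam a b c d E p : ℤ) - fam a b c d E (0, 0))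
    (hτ : ∀ F : Finset ℕ, (∀ q ∈ F, q.Prime ∧ ¬ q ∣ W) →
      ∑ q ∈ F, wt q / (max (orderOf ((9 : ZMod q) ^ E)) (orderOf ((25 : ZMod q) ^ E)) : ℕ) ≤ τ)
    {B : ℝ} {T H : ℕ} (hT : 2 ≤ T) (hH : Real.log H ≤ B * T)
    (hκ : ∀ p ∈ range T ×ˢ range T, ∀ p' ∈ range T ×ˢ range T,
      |kap a b c d E W p - kap a b c d E W p'| ≤ H) :
    ∑ P ∈ ((range T ×ˢ range T) ×ˢ (range T ×ˢ range T)).filter
      (fun P => kap a b c d E W P.1 - kap a b c d E W P.2 ≠ 0),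
      ∑ p ∈ (kap a b c d E W P.1 - kap a b c d E W P.2).natAbs.primeFactors.filter
        (fun p => ¬ p ∣ W), wt p ≤
      (T : ℝ) ^ 4 * τ + (T : ℝ) ^ 3 * (C1 * (Real.log ((T : ℝ) ^ 2)) ^ 2) +
        (T : ℝ) ^ 4 * (Real.log ((T : ℝ) ^ 2) / (T : ℝ) ^ 2 * (B * T)) := by
  classical
  set κ := kap a b c d E W with hκd
  set PP := (range T ×ˢ range T) ×ˢ (range T ×ˢ range T) with hPP
  set PN := PP.filter (fun P => κ P.1 - κ P.2 ≠ 0) with hPN
  set y : ℕ := T ^ 2 with hy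
  have hT0 : (0 : ℝ) < T := by
    have : 0 < T := by omega
    exact_mod_cast this
  have hy3 : 3 ≤ y := by rw [hy]; nlinarith
  have hWκ : ∀ p, (W : ℤ) * κ p = (fam a b c d E p : ℤ) - fam a b c d E (0, 0) := fun p =>
    Int.mul_ediv_cancel' (hdvd p)
  have hcard : (PP.card : ℝ) = (T : ℝ) ^ 4 := by
    rw [hPP]
    simp only [Finset.card_product, Finset.card_range]
    push_cast
    ring
  -- split at `y`
  have hsplit : ∀ P ∈ PN, ∑ p ∈ (κ P.1 - κ P.2).natAbs.primeFactors.filter (fun p => ¬ p ∣ W), wt p ≤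
      ∑ p ∈ ((Nat.primesBelow (y + 1)).filter (fun p => ¬ p ∣ W)).filter
        (fun p : ℕ => (p : ℤ) ∣ κ P.1 - κ P.2), wt p +
      Real.log ((T : ℝ) ^ 2) / (T : ℝ) ^ 2 * (B * T) := by
    intro P hP
    rw [hPN, Finset.mem_filter, hPP, Finset.mem_product] at hP
    obtain ⟨⟨hP1, hP2⟩, hne⟩ := hP
    rw [← Finset.sum_filter_add_sum_filter_not _ (fun p => p ≤ y)]
    apply add_le_add
    · apply Finset.sum_le_sum_of_subset_of_nonneg
      · intro p hp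
        rw [Finset.mem_filter, Finset.mem_filter] at hp
        rw [Finset.mem_filter, Finset.mem_filter, Nat.mem_primesBelow]
        refine ⟨⟨⟨by omega, Nat.prime_of_mem_primeFactors hp.1.1⟩, hp.1.2⟩, ?_⟩
        exact Int.natCast_dvd.2 (Nat.dvd_of_mem_primeFactors hp.1.1)
      · intro p _ _
        exact fv_wt_nonneg p
    · have h1 := sum_prime_dvd_large hne hy3
      have h2 : ∑ p ∈ ((κ P.1 - κ P.2).natAbs.primeFactors.filter (fun p => ¬ p ∣ W)).filter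
          (fun p => ¬ p ≤ y), wt p ≤
          ∑ p ∈ (κ P.1 - κ P.2).natAbs.primeFactors.filter (fun p => y < p), wt p := by
        apply Finset.sum_le_sum_of_subset_of_nonneg
        · intro p hp
          rw [Finset.mem_filter, Finset.mem_filter] at hp
          rw [Finset.mem_filter]
          exact ⟨hp.1.1, by omega⟩
        · intro p _ _
          exact fv_wt_nonneg p
      refine h2.trans (h1.trans ?_)
      have e1 : (y : ℝ) = (T : ℝ) ^ 2 := by rw [hy]; push_cast; ring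
      rw [e1]
      apply mul_le_mul_of_nonneg_left
      · refine le_trans ?_ hH
        have h3 := hκ _ hP1 _ hP2
        have h4 : (κ P.1 - κ P.2).natAbs ≤ H := by
          have : (((κ P.1 - κ P.2).natAbs : ℕ) : ℤ) ≤ H := by
            rw [Int.natCast_natAbs]; exact h3
          exact_mod_cast this
        have h5 : 0 < (κ P.1 - κ P.2).natAbs := Int.natAbs_pos.2 hne
        apply Real.log_le_log
        · exact_mod_cast h5
        · exact_mod_cast h4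
      · apply div_nonneg
        · apply Real.log_nonneg
          have : (1 : ℝ) ≤ T := by exact_mod_cast (by omega : 1 ≤ T)
          nlinarith
        · positivity
  refine (Finset.sum_le_sum hsplit).trans ?_
  rw [Finset.sum_add_distrib]
  apply add_le_add
  · -- small primes
    have h1 : ∑ P ∈ PN, ∑ p ∈ ((Nat.primesBelow (y + 1)).filter (fun p => ¬ p ∣ W)).filter
        (fun p : ℕ => (p : ℤ) ∣ κ P.1 - κ P.2), wt p =
        ∑ p ∈ (Nat.primesBelow (y + 1)).filter (fun p => ¬ p ∣ W),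
          wt p * ((PN.filter (fun P => (p : ℤ) ∣ κ P.1 - κ P.2)).card : ℝ) := by
      have e1 : ∀ P ∈ PN, ∑ p ∈ ((Nat.primesBelow (y + 1)).filter (fun p => ¬ p ∣ W)).filter
          (fun p : ℕ => (p : ℤ) ∣ κ P.1 - κ P.2), wt p =
          ∑ p ∈ (Nat.primesBelow (y + 1)).filter (fun p => ¬ p ∣ W),
            if (p : ℤ) ∣ κ P.1 - κ P.2 then wt p else 0 := fun P _ => Finset.sum_filter _ _
      rw [Finset.sum_congr rfl e1, Finset.sum_comm]
      apply Finset.sum_congr rfl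
      intro p _
      rw [← Finset.sum_filter, Finset.sum_const, nsmul_eq_mul, mul_comm]
    rw [h1]
    have h2 : ∀ p ∈ (Nat.primesBelow (y + 1)).filter (fun p => ¬ p ∣ W),
        wt p * ((PN.filter (fun P => (p : ℤ) ∣ κ P.1 - κ P.2)).card : ℝ) ≤
        (T : ℝ) ^ 4 * (wt p / (max (orderOf ((9 : ZMod p) ^ E)) (orderOf ((25 : ZMod p) ^ E)) : ℕ)) +
          (T : ℝ) ^ 3 * wt p := by
      intro p hp
      rw [Finset.mem_filter, Nat.mem_primesBelow] at hp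
      obtain ⟨⟨-, hpp⟩, hpW⟩ := hp
      have hp30 : ¬ p ∣ 30 := fun hd => hpW (hd.trans h30)
      have hsub : ((PN.filter (fun P => (p : ℤ) ∣ κ P.1 - κ P.2)).card : ℝ) ≤
          ((PP.filter (fun P => (p : ℤ) ∣ (fam a b c d E P.1 : ℤ) - fam a b c d E P.2)).card : ℝ) := by
        have : PN.filter (fun P => (p : ℤ) ∣ κ P.1 - κ P.2) ⊆
            PP.filter (fun P => (p : ℤ) ∣ (fam a b c d E P.1 : ℤ) - fam a b c d E P.2) := by
          intro P hP
          rw [Finset.mem_filter, hPN, Finset.mem_filter] at hP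
          rw [Finset.mem_filter]
          refine ⟨hP.1.1, ?_⟩
          have e : (fam a b c d E P.1 : ℤ) - fam a b c d E P.2 = W * (κ P.1 - κ P.2) := by
            linear_combination hWκ P.2 - hWκ P.1
          rw [e]
          exact hP.2.mul_left _
        exact_mod_cast Finset.card_le_card this
      have c9 := count9 hpp hp30 a b c d E T
      have c25 := count25 hpp hp30 a b c d E T
      have hcnt : ((PP.filter (fun P => (p : ℤ) ∣ (fam a b c d E P.1 : ℤ) -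
          fam a b c d E P.2)).card : ℝ) ≤
          (T : ℝ) ^ 4 / (max (orderOf ((9 : ZMod p) ^ E)) (orderOf ((25 : ZMod p) ^ E)) : ℕ) +
            (T : ℝ) ^ 3 := by
        rcases le_total (orderOf ((9 : ZMod p) ^ E)) (orderOf ((25 : ZMod p) ^ E)) with hle | hle
        · rw [max_eq_right hle]
          refine c25.trans (le_of_eq ?_)
          ring
        · rw [max_eq_left hle]
          refine c9.trans (le_of_eq ?_)
          ring
      calc wt p * ((PN.filter (fun P => (p : ℤ) ∣ κ P.1 - κ P.2)).card : ℝ)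
          ≤ wt p * ((T : ℝ) ^ 4 / (max (orderOf ((9 : ZMod p) ^ E)) (orderOf ((25 : ZMod p) ^ E)) : ℕ) +
            (T : ℝ) ^ 3) := mul_le_mul_of_nonneg_left (hsub.trans hcnt) (fv_wt_nonneg p)
        _ = _ := by ring
    refine (Finset.sum_le_sum h2).trans ?_
    rw [Finset.sum_add_distrib, ← Finset.mul_sum, ← Finset.mul_sum]
    apply add_le_add
    · apply mul_le_mul_of_nonneg_left _ (by positivity)
      apply hτ
      intro q hq
      rw [Finset.mem_filter, Nat.mem_primesBelow] at hq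
      exact ⟨hq.1.2, hq.2⟩
    · apply mul_le_mul_of_nonneg_left _ (by positivity)
      have h3 := hwt y (by omega)
      have e1 : (y : ℝ) = (T : ℝ) ^ 2 := by rw [hy]; push_cast; ring
      rw [e1] at h3
      refine le_trans ?_ h3
      apply Finset.sum_le_sum_of_subset_of_nonneg (Finset.filter_subset _ _)
      intro p _ _
      exact fv_wt_nonneg p
  · rw [Finset.sum_const, nsmul_eq_mul]
    have h1 : ((PN.card : ℕ) : ℝ) ≤ (T : ℝ) ^ 4 := by
      rw [← hcard]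
      exact_mod_cast Finset.card_le_card (Finset.filter_subset _ _)
    apply mul_le_mul_of_nonneg_right h1
    have hT1 : (1 : ℝ) ≤ T := by exact_mod_cast (by omega : 1 ≤ T)
    have h2 : 0 ≤ Real.log ((T : ℝ) ^ 2) := Real.log_nonneg (by nlinarith)
    have h3 : 0 ≤ B * T := by
      refine le_trans ?_ hH
      rcases Nat.eq_zero_or_pos H with h0 | h0
      · rw [h0]; simp
      · exact Real.log_nonneg (by exact_mod_cast h0)
    positivity

private lemma fv_ev (A : ℝ) (n : ℕ) {ε : ℝ} (hε : 0 < ε) :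
    ∃ T1 : ℕ, ∀ T : ℕ, T1 ≤ T → |A| * (Real.log T) ^ n ≤ ε * T := by
  have h1 : 0 < ε / (|A| + 1) := by positivity
  have h2 := (Real.isLittleO_pow_log_id_atTop (n := n)).def h1
  have h3 := tendsto_natCast_atTop_atTop.eventually h2
  rw [Filter.eventually_atTop] at h3
  obtain ⟨T1, hT1⟩ := h3
  refine ⟨max T1 1, fun T hT => ?_⟩
  have h4 := hT1 T ((le_max_left _ _).trans hT)
  have hT1' : 1 ≤ T := (le_max_right _ _).trans hT
  have hlog : 0 ≤ (Real.log T) ^ n := pow_nonneg (Real.log_nonneg (by exact_mod_cast hT1')) _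
  rw [Real.norm_of_nonneg hlog, id, Real.norm_of_nonneg (Nat.cast_nonneg T)] at h4
  calc |A| * (Real.log T) ^ n ≤ (|A| + 1) * (Real.log T) ^ n := by nlinarith
    _ ≤ (|A| + 1) * (ε / (|A| + 1) * T) := by
        apply mul_le_mul_of_nonneg_left h4 (by positivity)
    _ = ε * T := by
        field_simp

theorem famV : ∃ C : ℝ, 0 < C ∧ ∀ (a b c d E W ω : ℕ) (τ : ℝ), 0 < E → 0 < W → 30 ∣ W → ω ∣ W → 0 ≤ τ →
    (∀ p, (W : ℤ) ∣ (fam a b c d E p : ℤ) - fam a b c d E (0, 0)) →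
    (∀ F : Finset ℕ, (∀ q ∈ F, q.Prime ∧ ¬ q ∣ W) →
      ∑ q ∈ F, wt q / (max (orderOf ((9 : ZMod q) ^ E)) (orderOf ((25 : ZMod q) ^ E)) : ℕ) ≤ τ) →
    ∀ ε : ℝ, 0 < ε → ∀ B : ℝ, 0 < B → ∃ T1 : ℕ, ∀ T H : ℕ, T1 ≤ T → 1 ≤ H → Real.log H ≤ B * T →
    (∀ p ∈ range T ×ˢ range T, ∀ p' ∈ range T ×ˢ range T, |kap a b c d E W p - kap a b c d E W p'| ≤ H) →
    ∑ q ∈ (Ioc 1 H).filter (fun q => Nat.Coprime q ω),
      ((Np (range T ×ˢ range T) (kap a b c d E W) q : ℝ) -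
        (((range T ×ˢ range T).card : ℕ) : ℝ) ^ 2 / q) / q ≤
      ((1 + C * τ) * (∏ p ∈ W.primeFactors.filter (fun p => ¬ p ∣ ω), (1 - 1 / (p : ℝ))⁻¹) - 1 + ε) *
        (((range T ×ˢ range T).card : ℕ) : ℝ) ^ 2 := by
  classical
  obtain ⟨C0, hC0, hprod⟩ := prod_le
  obtain ⟨C1, hC1, hwt⟩ := wt_sum_le
  refine ⟨C0, hC0, ?_⟩
  intro a b c d E W ω τ hE hW h30 hω hτ0 hdvd hτ ε hε B hB
  set Ξ : ℝ := ∏ p ∈ W.primeFactors.filter (fun p => ¬ p ∣ ω), (1 - 1 / (p : ℝ))⁻¹ with hΞ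
  have hΞ1 : 1 ≤ Ξ := by
    rw [hΞ]
    exact Finset.one_le_prod fun p hp =>
      fv_one_le (Nat.prime_of_mem_primeFactors (Finset.mem_filter.1 hp).1)
  obtain ⟨T2, hT2⟩ := fv_ev (4 * (Ξ * C0 * C1)) 2 (ε := ε / 4) (by positivity)
  obtain ⟨T3, hT3⟩ := fv_ev (2 * (Ξ * C0 * B)) 1 (ε := ε / 4) (by positivity)
  obtain ⟨T4, hT4⟩ := exists_nat_ge (8 * (1 + B) / ε)
  refine ⟨max (max T2 T3) (max T4 2), fun T H hT hH hlog hκ => ?_⟩
  have hTa : T2 ≤ T := ((le_max_left _ _).trans (le_max_left _ _)).trans hT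
  have hTb : T3 ≤ T := ((le_max_right _ _).trans (le_max_left _ _)).trans hT
  have hTc : T4 ≤ T := ((le_max_left _ _).trans (le_max_right _ _)).trans hT
  have hTd : 2 ≤ T := ((le_max_right _ _).trans (le_max_right _ _)).trans hT
  have hT0 : (0 : ℝ) < T := by exact_mod_cast (by omega : 0 < T)
  have hT1 : (1 : ℝ) ≤ T := by exact_mod_cast (by omega : 1 ≤ T)
  set κ := kap a b c d E W with hκd
  set I := range T ×ˢ range T with hI
  have hM : ((I.card : ℕ) : ℝ) ^ 2 = (T : ℝ) ^ 4 := by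
    rw [hI]
    simp only [Finset.card_product, Finset.card_range]
    push_cast
    ring
  rw [hM]
  -- drop the main term
  have h1 : ∑ q ∈ (Ioc 1 H).filter (fun q => Nat.Coprime q ω),
      ((Np I κ q : ℝ) - (T : ℝ) ^ 4 / q) / q ≤
      ∑ q ∈ (Ioc 1 H).filter (fun q => Nat.Coprime q ω), (Np I κ q : ℝ) / q := by
    apply Finset.sum_le_sum
    intro q _
    apply div_le_div_of_nonneg_right _ (Nat.cast_nonneg q)
    have : 0 ≤ (T : ℝ) ^ 4 / q := by positivity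
    linarith
  refine h1.trans ?_
  rw [fv_swap, ← Finset.sum_filter_add_sum_filter_not _ (fun P : (ℕ × ℕ) × (ℕ × ℕ) =>
    κ P.1 - κ P.2 ≠ 0)]
  -- the pairs with `h ≠ 0`
  have h2 : ∑ P ∈ (I ×ˢ I).filter (fun P : (ℕ × ℕ) × (ℕ × ℕ) => κ P.1 - κ P.2 ≠ 0),
      ∑ q ∈ ((Ioc 1 H).filter (fun q => Nat.Coprime q ω)).filter
        (fun q : ℕ => (q : ℤ) ∣ κ P.1 - κ P.2), (1 : ℝ) / q ≤
      (T : ℝ) ^ 4 * (Ξ - 1) + Ξ * C0 * ((T : ℝ) ^ 4 * τ +
        (T : ℝ) ^ 3 * (C1 * (Real.log ((T : ℝ) ^ 2)) ^ 2) +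
        (T : ℝ) ^ 4 * (Real.log ((T : ℝ) ^ 2) / (T : ℝ) ^ 2 * (B * T))) := by
    have h3 : ∀ P ∈ (I ×ˢ I).filter (fun P : (ℕ × ℕ) × (ℕ × ℕ) => κ P.1 - κ P.2 ≠ 0),
        ∑ q ∈ ((Ioc 1 H).filter (fun q => Nat.Coprime q ω)).filter
          (fun q : ℕ => (q : ℤ) ∣ κ P.1 - κ P.2), (1 : ℝ) / q ≤
        (Ξ - 1) + Ξ * C0 * ∑ p ∈ (κ P.1 - κ P.2).natAbs.primeFactors.filter
          (fun p => ¬ p ∣ W), wt p := by
      intro P hP
      rw [Finset.mem_filter] at hP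
      refine (fv_pair hC0 hprod hW hω hH hP.2).trans (le_of_eq ?_)
      ring
    refine (Finset.sum_le_sum h3).trans ?_
    rw [Finset.sum_add_distrib, ← Finset.mul_sum, Finset.sum_const, nsmul_eq_mul]
    apply add_le_add
    · apply mul_le_mul_of_nonneg_right _ (by linarith)
      rw [← hM, sq, ← Nat.cast_mul, ← Finset.card_product]
      exact_mod_cast Finset.card_le_card (Finset.filter_subset _ _)
    · apply mul_le_mul_of_nonneg_left _ (by positivity)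
      exact fv_sigma hwt hW h30 hdvd hτ hTd hlog hκ
  -- the pairs with `h = 0`
  have h4 : ∑ P ∈ (I ×ˢ I).filter (fun P : (ℕ × ℕ) × (ℕ × ℕ) => ¬ (κ P.1 - κ P.2 ≠ 0)),
      ∑ q ∈ ((Ioc 1 H).filter (fun q => Nat.Coprime q ω)).filter
        (fun q : ℕ => (q : ℤ) ∣ κ P.1 - κ P.2), (1 : ℝ) / q ≤ 2 * (T : ℝ) ^ 2 * (1 + B * T) := by
    have h5 : ∀ P ∈ (I ×ˢ I).filter (fun P : (ℕ × ℕ) × (ℕ × ℕ) => ¬ (κ P.1 - κ P.2 ≠ 0)),
        ∑ q ∈ ((Ioc 1 H).filter (fun q => Nat.Coprime q ω)).filter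
          (fun q : ℕ => (q : ℤ) ∣ κ P.1 - κ P.2), (1 : ℝ) / q ≤ 1 + B * T := by
      intro P _
      refine (fv_log ω _).trans ?_
      linarith
    refine (Finset.sum_le_sum h5).trans ?_
    rw [Finset.sum_const, nsmul_eq_mul]
    apply mul_le_mul_of_nonneg_right _ (by positivity)
    have h6 := diag_le a b c d T hE
    have h7 : ((I ×ˢ I).filter (fun P : (ℕ × ℕ) × (ℕ × ℕ) => ¬ (κ P.1 - κ P.2 ≠ 0))) ⊆
        (I ×ˢ I).filter (fun p => fam a b c d E p.1 = fam a b c d E p.2) := by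
      intro P hP
      rw [Finset.mem_filter] at hP ⊢
      refine ⟨hP.1, ?_⟩
      have h8 : κ P.1 - κ P.2 = 0 := not_not.1 hP.2
      have h9 : (W : ℤ) * κ P.1 = (fam a b c d E P.1 : ℤ) - fam a b c d E (0, 0) :=
        Int.mul_ediv_cancel' (hdvd P.1)
      have h10 : (W : ℤ) * κ P.2 = (fam a b c d E P.2 : ℤ) - fam a b c d E (0, 0) :=
        Int.mul_ediv_cancel' (hdvd P.2)
      have h11 : (fam a b c d E P.1 : ℤ) = fam a b c d E P.2 := by
        linear_combination h10 - h9 + (W : ℤ) * h8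
      exact_mod_cast h11
    have h8 := (Finset.card_le_card h7).trans h6
    exact_mod_cast h8
  -- the error terms
  have e5 : 2 * (T : ℝ) ^ 2 * (1 + B * T) ≤ ε / 4 * (T : ℝ) ^ 4 := by
    have h6 : 8 * (1 + B) / ε ≤ T := hT4.trans (by exact_mod_cast hTc)
    rw [div_le_iff₀ hε] at h6
    have h7 : 2 * (1 + B * T) ≤ ε / 4 * (T : ℝ) ^ 2 := by nlinarith
    have h8 : 0 ≤ (T : ℝ) ^ 2 := by positivity
    nlinarith
  have hlog2 : Real.log ((T : ℝ) ^ 2) = 2 * Real.log T := by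
    rw [Real.log_pow]; push_cast; ring
  have hL0 : 0 ≤ Real.log T := Real.log_nonneg hT1
  have e6 : Ξ * C0 * ((T : ℝ) ^ 3 * (C1 * (Real.log ((T : ℝ) ^ 2)) ^ 2)) ≤ ε / 4 * (T : ℝ) ^ 4 := by
    have h6 := hT2 T hTa
    rw [abs_of_nonneg (by positivity)] at h6
    rw [hlog2]
    have h7 : 0 ≤ (T : ℝ) ^ 3 := by positivity
    nlinarith [mul_le_mul_of_nonneg_left h6 h7]
  have e7 : Ξ * C0 * ((T : ℝ) ^ 4 * (Real.log ((T : ℝ) ^ 2) / (T : ℝ) ^ 2 * (B * T))) ≤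
      ε / 4 * (T : ℝ) ^ 4 := by
    have h6 := hT3 T hTb
    rw [abs_of_nonneg (by positivity), pow_one] at h6
    rw [hlog2]
    have h7 : 0 ≤ (T : ℝ) ^ 3 := by positivity
    have e8 : Ξ * C0 * ((T : ℝ) ^ 4 * (2 * Real.log T / (T : ℝ) ^ 2 * (B * T))) =
        (T : ℝ) ^ 3 * (2 * (Ξ * C0 * B) * Real.log T) := by
      field_simp
    rw [e8]
    nlinarith [mul_le_mul_of_nonneg_left h6 h7]
  have e9 : 0 ≤ ε / 4 * (T : ℝ) ^ 4 := by positivity
  calc _ ≤ ((T : ℝ) ^ 4 * (Ξ - 1) + Ξ * C0 * ((T : ℝ) ^ 4 * τ +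
        (T : ℝ) ^ 3 * (C1 * (Real.log ((T : ℝ) ^ 2)) ^ 2) +
        (T : ℝ) ^ 4 * (Real.log ((T : ℝ) ^ 2) / (T : ℝ) ^ 2 * (B * T)))) +
        2 * (T : ℝ) ^ 2 * (1 + B * T) := add_le_add h2 h4
    _ ≤ ((1 + C0 * τ) * Ξ - 1 + ε) * (T : ℝ) ^ 4 := by
        have e10 : ((1 + C0 * τ) * Ξ - 1 + ε) * (T : ℝ) ^ 4 =
          (T : ℝ) ^ 4 * (Ξ - 1) + Ξ * C0 * ((T : ℝ) ^ 4 * τ) + 4 * (ε / 4 * (T : ℝ) ^ 4) := by ring
        rw [e10, mul_add, mul_add]
        linarith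

end H2S
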