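import Pool.Agent.H2S.Defs

/-!
# H2S/Jac: the divisor sum of `chi` and sums of two squares

* `divisors_sum_zero`: if `m > 0` is not a sum of two squares, some prime `q = 3 mod 4` divides `m` to an odd power
  `v` (`Nat.eq_sq_add_sq_iff`). The map `d ↦ d q` if `v_q(d)` is even, `d ↦ d / q` if `v_q(d)` is odd is an involution
  of the divisors of `m` (as `v` is odd, `v_q(d)` even implies `v_q(d) < v`) and changes the sign of `chi`
  (`chi` is completely multiplicative, `chi q = -1`): `Finset.sum_involution`.
* `half_sum_zero`: `m = 1 mod 4` is not a square; `d ↦ m / d` is a bijection from the divisors with `d² < m` to those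
  with `d² > m`, and `chi (m / d) = chi d` as `d (m / d) = 1 mod 4` forces `d = m / d mod 4`. So twice the half sum
  is the full sum, which is 0.
* `TwoSq.mul`: `(x² + y²)(u² + v²) = (x u - y v)² + (x v + y u)²` (`Nat.sq_add_sq_mul`), absolute values.
-/

namespace H2S

open Finset

theorem chi_mul (a b : ℕ) : chi (a * b) = chi a * chi b := by
  have ha : a % 4 < 4 := Nat.mod_lt _ (by norm_num)
  have hb : b % 4 < 4 := Nat.mod_lt _ (by norm_num)
  unfold chi
  rw [Nat.mul_mod]
  generalize a % 4 = x at *
  generalize b % 4 = y at *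
  interval_cases x <;> interval_cases y <;> simp

theorem divisors_sum_zero {m : ℕ} (hm : 0 < m) (h : ¬ TwoSq (m : ℤ)) : ∑ d ∈ m.divisors, chi d = 0 := by
  have h1 : ¬ ∃ x y : ℕ, m = x ^ 2 + y ^ 2 := by
    rintro ⟨x, y, hxy⟩
    exact h ⟨x, y, by rw [hxy]; push_cast; rfl⟩
  rw [Nat.eq_sq_add_sq_iff] at h1
  push Not at h1
  obtain ⟨q, hqm, hq3, hv⟩ := h1
  have hq : q.Prime := Nat.prime_of_mem_primeFactors hqm
  rw [Nat.not_even_iff_odd] at hv
  have hchi : chi q = -1 := by
    unfold chi
    rw [hq3]
    norm_num
  have hfac : ∀ n, padicValNat q n = n.factorization q := fun n =>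
    (Nat.factorization_def n hq).symm
  rw [hfac] at hv
  have key : ∀ d ∈ m.divisors, Even (d.factorization q) → d * q ∣ m := by
    intro d hd he
    obtain ⟨c, hc⟩ := (Nat.mem_divisors.1 hd).1
    have hd0 : d ≠ 0 := by rintro rfl; simp at hc; omega
    have hc0 : c ≠ 0 := by rintro rfl; simp at hc; omega
    have hfm : m.factorization q = d.factorization q + c.factorization q := by
      rw [hc, Nat.factorization_mul hd0 hc0]
      rfl
    have hcv : c.factorization q ≠ 0 := by
      intro h0
      rw [h0, add_zero] at hfm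
      rw [hfm] at hv
      exact (Nat.not_even_iff_odd.2 hv) he
    have hqc : q ∣ c := by
      by_contra hcon
      exact hcv (Nat.factorization_eq_zero_of_not_dvd hcon)
    rw [hc]
    exact Nat.mul_dvd_mul_left d hqc
  have hdiv : ∀ d ∈ m.divisors, ¬ Even (d.factorization q) → q ∣ d := by
    intro d hd he
    by_contra hcon
    rw [Nat.factorization_eq_zero_of_not_dvd hcon] at he
    exact he (by norm_num)
  have hne : ∀ d ∈ m.divisors, d ≠ 0 := fun d hd => (Nat.pos_of_mem_divisors hd).ne'
  have hup : ∀ d ∈ m.divisors, (d * q).factorization q = d.factorization q + 1 := by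
    intro d hd
    rw [Nat.factorization_mul (hne d hd) hq.ne_zero, Finsupp.add_apply, hq.factorization_self]
  refine Finset.sum_involution (fun d _ => if Even (d.factorization q) then d * q else d / q)
    ?_ ?_ ?_ ?_
  · intro d hd
    by_cases he : Even (d.factorization q)
    · simp only [if_pos he]
      rw [chi_mul, hchi]
      ring
    · simp only [if_neg he]
      have h2 : d = d / q * q := (Nat.div_mul_cancel (hdiv d hd he)).symm
      have h3 : chi d = chi (d / q) * chi q := by rw [← chi_mul, ← h2]
      rw [h3, hchi]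
      ring
  · intro d hd _
    by_cases he : Even (d.factorization q)
    · simp only [if_pos he]
      intro h2
      have h3 : d * q = d * 1 := by rw [h2, mul_one]
      have := Nat.eq_of_mul_eq_mul_left (Nat.pos_of_mem_divisors hd) h3
      exact hq.one_lt.ne' this
    · simp only [if_neg he]
      exact (Nat.div_lt_self (Nat.pos_of_mem_divisors hd) hq.one_lt).ne
  · intro d hd
    by_cases he : Even (d.factorization q)
    · simp only [if_pos he]
      exact Nat.mem_divisors.2 ⟨key d hd he, hm.ne'⟩
    · simp only [if_neg he]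
      exact Nat.mem_divisors.2 ⟨(Nat.div_dvd_of_dvd (hdiv d hd he)).trans
        (Nat.mem_divisors.1 hd).1, hm.ne'⟩
  · intro d hd
    by_cases he : Even (d.factorization q)
    · have h2 : ¬ Even ((d * q).factorization q) := by
        rw [hup d hd]
        rw [Nat.even_add_one]
        exact not_not.2 he
      simp only [if_pos he, if_neg h2]
      exact Nat.mul_div_cancel _ hq.pos
    · have hd' : d / q ∈ m.divisors := Nat.mem_divisors.2 ⟨(Nat.div_dvd_of_dvd (hdiv d hd he)).trans
        (Nat.mem_divisors.1 hd).1, hm.ne'⟩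
      have h2 : d / q * q = d := Nat.div_mul_cancel (hdiv d hd he)
      have h3 : Even ((d / q).factorization q) := by
        have h4 := hup _ hd'
        rw [h2] at h4
        rw [h4, Nat.even_add_one, not_not] at he
        exact he
      simp only [if_neg he, if_pos h3]
      exact h2

theorem chi_sq_one {a b : ℕ} (h : a * b % 4 = 1) : chi b = chi a := by
  have ha : a % 4 < 4 := Nat.mod_lt _ (by norm_num)
  have hb : b % 4 < 4 := Nat.mod_lt _ (by norm_num)
  rw [Nat.mul_mod] at h
  unfold chi
  generalize a % 4 = x at *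
  generalize b % 4 = y at *
  interval_cases x <;> interval_cases y <;> simp_all

theorem half_sum_zero {m : ℕ} (hm : m % 4 = 1) (h : ¬ TwoSq (m : ℤ)) :
    ∑ d ∈ m.divisors.filter (fun d => d * d < m), chi d = 0 := by
  have hm0 : 0 < m := by omega
  have h0 := divisors_sum_zero hm0 h
  have hns : ∀ d, d * d ≠ m := by
    rintro d rfl
    exact h ⟨d, 0, by push_cast; ring⟩
  have hsplit := Finset.sum_filter_add_sum_filter_not m.divisors (fun d => d * d < m) chi
  have hbij : ∑ d ∈ m.divisors.filter (fun d => ¬ d * d < m), chi d =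
      ∑ d ∈ m.divisors.filter (fun d => d * d < m), chi d := by
    refine Finset.sum_bij' (fun d _ => m / d) (fun d _ => m / d) ?_ ?_ ?_ ?_ ?_
    · intro d hd
      rw [mem_filter, Nat.mem_divisors] at hd
      rw [mem_filter, Nat.mem_divisors]
      obtain ⟨⟨c, hc⟩, -⟩ := hd.1
      have hd0 : 0 < d := by
        rcases Nat.eq_zero_or_pos d with h1 | h1
        · rw [h1] at hc; omega
        · exact h1
      have hdc : m / d = c := by rw [hc]; exact Nat.mul_div_cancel_left c hd0
      rw [hdc]
      refine ⟨⟨⟨d, by rw [hc, mul_comm]⟩, hm0.ne'⟩, ?_⟩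
      have h1 : m < d * d := lt_of_le_of_ne (not_lt.1 hd.2) (hns d).symm
      have h2 : c < d := by
        rw [hc] at h1
        exact lt_of_mul_lt_mul_left h1 hd0.le
      have hc0 : 0 < c := by
        rcases Nat.eq_zero_or_pos c with h3 | h3
        · rw [h3] at hc; omega
        · exact h3
      calc c * c < d * c := Nat.mul_lt_mul_of_pos_right h2 hc0
        _ = m := hc.symm
    · intro d hd
      rw [mem_filter, Nat.mem_divisors] at hd
      rw [mem_filter, Nat.mem_divisors]
      obtain ⟨⟨c, hc⟩, -⟩ := hd.1
      have hd0 : 0 < d := by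
        rcases Nat.eq_zero_or_pos d with h1 | h1
        · rw [h1] at hc; omega
        · exact h1
      have hdc : m / d = c := by rw [hc]; exact Nat.mul_div_cancel_left c hd0
      rw [hdc]
      refine ⟨⟨⟨d, by rw [hc, mul_comm]⟩, hm0.ne'⟩, ?_⟩
      have h1 : d * d < d * c := by rw [← hc]; exact hd.2
      have h2 : d < c := lt_of_mul_lt_mul_left h1 hd0.le
      rw [not_lt, hc]
      exact Nat.mul_le_mul_right c h2.le
    · intro d hd
      rw [mem_filter, Nat.mem_divisors] at hd
      exact Nat.div_div_self hd.1.1 hm0.ne'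
    · intro d hd
      rw [mem_filter, Nat.mem_divisors] at hd
      exact Nat.div_div_self hd.1.1 hm0.ne'
    · intro d hd
      rw [mem_filter, Nat.mem_divisors] at hd
      refine (chi_sq_one (a := d) (b := m / d) ?_).symm
      rw [Nat.mul_div_cancel' hd.1.1]
      exact hm
  rw [hbij, h0] at hsplit
  omega

theorem TwoSq.mul {y z : ℤ} (hy : TwoSq y) (hz : TwoSq z) : TwoSq (y * z) := by
  obtain ⟨a, b, rfl⟩ := hy
  obtain ⟨c, d, rfl⟩ := hz
  refine ⟨((a : ℤ) * c - b * d).natAbs, a * d + b * c, ?_⟩
  rw [Int.natCast_natAbs, sq_abs]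
  push_cast
  ring

end H2S
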