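import Mathlib

/-!
# H2S/Tile: from short windows to initial segments

Let `N` be large, `δ = ε/4`, `T_0 = ⌈δ N⌉`, `T_{k+1} = T_k + ⌊η T_k⌋` (at least `T_k (1 + η/2)` for large `T_k`), up to the first
`T_K ≥ N`; `K ≤ K0(δ, η)` is bounded. The elements of `[0, N)` with property `B` lie in `[0, T_0)` or in one of the
windows `[T_k, T_k + ⌊η T_k⌋)`, `k < K`: at most `δ N + 1 + β ∑ η T_k ≤ δ N + 1 + β (∑ ⌊η T_k⌋ + K)
≤ δ N + 1 + β ((1 + η) N + K)` since `∑_{k<K} ⌊η T_k⌋ = T_K - T_0 ≤ (1 + η) N`. (An induction, e.g. strong induction on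
the upper end: 'for all `M ≥ T_0` of the form `T_k`, the number of elements of `B` in `[T_0, M)` is at most
`β (M - T_0 + k)`', is enough.)
-/

namespace H2S

open Finset Filter

/-- induction over the windows -/
private theorem tile_aux (B : ℕ → Prop) [DecidablePred B] {γ η : ℝ} (hγ : 0 ≤ γ) (hη : 0 < η)
    (T1 N : ℕ)
    (h : ∀ T : ℕ, T1 ≤ T → 1 ≤ ⌊η * T⌋₊ ∧
      ((((Ico T (T + ⌊η * T⌋₊)).filter B).card : ℕ) : ℝ) ≤ γ * (⌊η * T⌋₊ : ℝ)) :
    ∀ (j T : ℕ), T1 ≤ T → T ≤ N → N - T ≤ j →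
      ((((Ico T N).filter B).card : ℕ) : ℝ) ≤ γ * ((1 + η) * N - T) := by
  intro j
  induction j with
  | zero =>
    intro T h1 h2 h3
    have e : T = N := by omega
    subst e
    rw [Ico_self, filter_empty, card_empty, Nat.cast_zero]
    apply mul_nonneg hγ
    have : 0 ≤ η * (T : ℝ) := by positivity
    linarith
  | succ j ih =>
    intro T h1 h2 h3
    obtain ⟨hw1, hw2⟩ := h T h1
    have hfl : (⌊η * T⌋₊ : ℝ) ≤ η * T := Nat.floor_le (by positivity)
    have hTN : (T : ℝ) ≤ N := by exact_mod_cast h2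
    have hηT : η * T ≤ η * N := mul_le_mul_of_nonneg_left hTN hη.le
    by_cases hc : N ≤ T + ⌊η * T⌋₊
    · have hsub : (Ico T N).filter B ⊆ (Ico T (T + ⌊η * T⌋₊)).filter B :=
        filter_subset_filter _ (Ico_subset_Ico_right hc)
      have e1 : ((((Ico T N).filter B).card : ℕ) : ℝ) ≤
          ((((Ico T (T + ⌊η * T⌋₊)).filter B).card : ℕ) : ℝ) := by exact_mod_cast card_le_card hsub
      refine e1.trans (hw2.trans (mul_le_mul_of_nonneg_left ?_ hγ))
      linarith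
    · push Not at hc
      have e0 : Ico T N = Ico T (T + ⌊η * T⌋₊) ∪ Ico (T + ⌊η * T⌋₊) N :=
        (Ico_union_Ico_eq_Ico (Nat.le_add_right _ _) hc.le).symm
      have e1 : ((((Ico T N).filter B).card : ℕ) : ℝ) ≤
          ((((Ico T (T + ⌊η * T⌋₊)).filter B).card : ℕ) : ℝ) +
          ((((Ico (T + ⌊η * T⌋₊) N).filter B).card : ℕ) : ℝ) := by
        rw [e0, filter_union]
        exact_mod_cast card_union_le _ _
      have e2 := ih (T + ⌊η * T⌋₊) (by omega) hc.le (by omega)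
      push_cast at e2
      linarith

theorem tile (B : ℕ → Prop) [DecidablePred B] {β η ε : ℝ} (hβ : 0 ≤ β) (hη : 0 < η) (hη1 : η ≤ 1)
    (hε : 0 < ε)
    (h : ∀ᶠ T : ℕ in atTop, ((((Ico T (T + ⌊η * T⌋₊)).filter B).card : ℕ) : ℝ) ≤ β * (η * T)) :
    ∀ᶠ N : ℕ in atTop, ((((range N).filter B).card : ℕ) : ℝ) ≤ (β * (1 + η) + ε) * N := by
  obtain ⟨A, hA⟩ := eventually_atTop.1 h
  set κ : ℝ := ε / (4 * (β + 1)) with hκ
  have hκ0 : 0 < κ := by positivity
  obtain ⟨A2, hA2⟩ := exists_nat_gt ((1 + (1 + 1 / κ)) / η)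
  obtain ⟨T1, hT1, hT2⟩ : ∃ T1 : ℕ, A ≤ T1 ∧ A2 ≤ T1 := ⟨max A A2, le_max_left _ _, le_max_right _ _⟩
  have hwin : ∀ T : ℕ, T1 ≤ T → 1 ≤ ⌊η * T⌋₊ ∧
      ((((Ico T (T + ⌊η * T⌋₊)).filter B).card : ℕ) : ℝ) ≤ (β * (1 + κ)) * (⌊η * T⌋₊ : ℝ) := by
    intro T hT
    have h1 : (A2 : ℝ) ≤ T := by exact_mod_cast hT2.trans hT
    have h2 : (1 + (1 + 1 / κ)) / η < T := hA2.trans_le h1
    rw [div_lt_iff₀ hη] at h2
    have h3 : η * T < ⌊η * T⌋₊ + 1 := Nat.lt_floor_add_one _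
    have h4 : 1 + 1 / κ < (⌊η * T⌋₊ : ℝ) := by linarith
    have h5 : 0 < 1 / κ := by positivity
    refine ⟨?_, ?_⟩
    · have : (1 : ℝ) < (⌊η * T⌋₊ : ℝ) := by linarith
      exact_mod_cast this.le
    · refine (hA T (hT1.trans hT)).trans ?_
      rw [mul_assoc]
      apply mul_le_mul_of_nonneg_left _ hβ
      have h6 : 1 ≤ κ * (⌊η * T⌋₊ : ℝ) := by
        have h7 : κ * (1 / κ) = 1 := by field_simp
        have h8 : κ * (1 / κ) ≤ κ * (⌊η * T⌋₊ : ℝ) :=
          mul_le_mul_of_nonneg_left (by linarith) hκ0.le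
        linarith
      linarith
  obtain ⟨N0, hN0⟩ := exists_nat_gt (2 * (T1 : ℝ) / ε)
  filter_upwards [eventually_ge_atTop T1, eventually_ge_atTop N0] with N hN1 hN2
  have h1 := tile_aux B (γ := β * (1 + κ)) (by positivity) hη T1 N hwin (N - T1) T1 le_rfl hN1 le_rfl
  have h2 : ((((range N).filter B).card : ℕ) : ℝ) ≤ T1 + ((((Ico T1 N).filter B).card : ℕ) : ℝ) := by
    have hsub : (range N).filter B ⊆ range T1 ∪ (Ico T1 N).filter B := by
      intro n hn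
      rw [mem_filter, mem_range] at hn
      rw [mem_union, mem_range, mem_filter, mem_Ico]
      by_cases hc : n < T1
      · exact Or.inl hc
      · exact Or.inr ⟨⟨not_lt.1 hc, hn.1⟩, hn.2⟩
    have h3 := (card_le_card hsub).trans (card_union_le _ _)
    rw [card_range] at h3
    exact_mod_cast h3
  have h3 : (T1 : ℝ) ≤ ε / 2 * N := by
    have h4 : 2 * (T1 : ℝ) / ε < N := hN0.trans_le (by exact_mod_cast hN2)
    rw [div_lt_iff₀ hε] at h4
    linarith
  have h4 : β * κ ≤ ε / 4 := by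
    rw [hκ, ← mul_div_assoc, div_le_iff₀ (by positivity)]
    nlinarith
  have hN0' : (0 : ℝ) ≤ N := by positivity
  have hT0 : (0 : ℝ) ≤ T1 := by positivity
  have h5 : β * (1 + κ) * ((1 + η) * N - T1) ≤ β * (1 + κ) * ((1 + η) * N) :=
    mul_le_mul_of_nonneg_left (by linarith) (by positivity)
  have h6 : β * κ * ((1 + η) * N) ≤ ε / 4 * (2 * N) := by
    apply mul_le_mul h4 _ (by positivity) (by positivity)
    exact mul_le_mul_of_nonneg_right (by linarith) hN0'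
  have e : β * (1 + κ) * ((1 + η) * N) = β * (1 + η) * N + β * κ * ((1 + η) * N) := by ring
  rw [e] at h5
  have e2 : (β * (1 + η) + ε) * N = β * (1 + η) * N + ε / 2 * N + ε / 4 * (2 * N) := by ring
  rw [e2]
  linarith

end H2S
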