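import Pool.Agent.H2S.Lct
import Pool.Agent.H2S.FamV
import Pool.Agent.H2S.Tile
import Pool.Agent.H2S.Jac

/-!
# H2S/ClassD: almost all numbers of a good residue class are representable, up to the Romanoff quantity

Put `β = 450 V + ε/2`, `V = (1 + C τ) Ξ - 1 + ε₁` with small `ε₁`; take `η ≤ η₀` (LCT with `ε/8`), `η ≤ 1` and
`β η ≤ ε/8`. For large `N` (the variable `T` of LCT) put `T = ⌈(log N)^(3/5)⌉`, `I = range T ×ˢ range T`,
`κ = kap a b c d E W`. There is `B` (depending on `a, b, c, d, E`) with `fam p ≤ exp (B T)` for all `p ∈ I`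
(`T ≥ 1`), so with `H = ⌈2 exp (B T)⌉₊`: `2 |κ p| ≤ H`, `|κ p - κ p'| ≤ H`, `log H ≤ (B + 2) T`, and `H^8 ≤ N` for large
`N` as `8 (B+2) ((log N)^(3/5) + 1) ≤ log N`. The hypothesis on the Romanoff sum is `famV`; the one on `Np 0` is
`diag_le`: `Np I κ 0 ≤ 2 T²` (`κ p = κ p'` iff `fam p = fam p'`), `card = T²`, and
`2 T² log N ≤ c T⁴` for large `N` because `T² ≥ (log N)^(6/5)`.
If `t` is such that some `m = ρ + ω (t - κ p)` is a sum of two squares, then
`(r + W t) - fam p = (r - fam (0,0)) + W t - W κ p = G ρ + G ω (t - κ p) = G m` is a sum of two squares (`TwoSq.mul`), so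
`r + W t` is representable (`fam p = (2^a 3^(b+E i))² + (2^c 5^(d+E j))²`). So `LCT` bounds the number of `t` in
`[N, N + η N)` with `r + W t` not representable, and `tile` gives the claim.
-/

namespace H2S

open Finset Filter

theorem cd_ev1 {δ : ℝ} (hδ : 0 < δ) : ∀ᶠ x : ℝ in atTop, x ^ (3 / 5 : ℝ) + 1 ≤ δ * x := by
  have h1 := (tendsto_rpow_atTop (show (0 : ℝ) < 2 / 5 by norm_num)).eventually_ge_atTop (2 / δ)
  filter_upwards [h1, eventually_ge_atTop (2 / δ), eventually_gt_atTop (0 : ℝ)] with x h1 h2 h3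
  have h4 : x ^ (3 / 5 : ℝ) * x ^ (2 / 5 : ℝ) = x := by
    rw [← Real.rpow_add h3]
    norm_num
  have h5 : 0 < x ^ (3 / 5 : ℝ) := Real.rpow_pos_of_pos h3 _
  have h6 : x ^ (3 / 5 : ℝ) * (2 / δ) ≤ x := by
    calc x ^ (3 / 5 : ℝ) * (2 / δ) ≤ x ^ (3 / 5 : ℝ) * x ^ (2 / 5 : ℝ) :=
          mul_le_mul_of_nonneg_left h1 h5.le
      _ = x := h4
  have h7 : x ^ (3 / 5 : ℝ) * 2 ≤ δ * x := by
    have h8 := mul_le_mul_of_nonneg_left h6 hδ.le
    have h9 : δ * (x ^ (3 / 5 : ℝ) * (2 / δ)) = x ^ (3 / 5 : ℝ) * 2 := by field_simp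
    linarith
  have h10 : 2 ≤ δ * x := by
    have h8 := mul_le_mul_of_nonneg_left h2 hδ.le
    have h9 : δ * (2 / δ) = 2 := by field_simp
    linarith
  linarith

theorem cd_ev2 {c : ℝ} (hc : 0 < c) : ∀ᶠ x : ℝ in atTop, 2 * x ≤ c * (x ^ (3 / 5 : ℝ)) ^ 2 := by
  have h1 := (tendsto_rpow_atTop (show (0 : ℝ) < 1 / 5 by norm_num)).eventually_ge_atTop (2 / c)
  filter_upwards [h1, eventually_gt_atTop (0 : ℝ)] with x h1 h3
  have h4 : (x ^ (3 / 5 : ℝ)) ^ 2 = x * x ^ (1 / 5 : ℝ) := by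
    have h5 : x * x ^ (1 / 5 : ℝ) = x ^ (1 : ℝ) * x ^ (1 / 5 : ℝ) := by rw [Real.rpow_one]
    rw [h5, sq, ← Real.rpow_add h3, ← Real.rpow_add h3]
    norm_num
  rw [h4]
  have h5 : 2 ≤ c * x ^ (1 / 5 : ℝ) := by
    have h8 := mul_le_mul_of_nonneg_left h1 hc.le
    have h9 : c * (2 / c) = 2 := by field_simp
    linarith
  nlinarith

theorem cd_three_le : (3 : ℝ) ≤ Real.exp 2 := by
  have := Real.add_one_le_exp (2 : ℝ)
  linarith

theorem cd_two_le : (2 : ℝ) ≤ Real.exp 1 := by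
  have := Real.add_one_le_exp (1 : ℝ)
  linarith

theorem cd_five_le : (5 : ℝ) ≤ Real.exp 2 := by
  have h := Real.exp_one_gt_d9
  have h2 : Real.exp 2 = Real.exp 1 * Real.exp 1 := by
    rw [← Real.exp_add]
    norm_num
  rw [h2]
  nlinarith

/-- the size of the family -/
theorem cd_fam_le (a b c d E : ℕ) {T : ℕ} (hT : 1 ≤ T) {p : ℕ × ℕ}
    (hp : p ∈ range T ×ˢ range T) :
    (fam a b c d E p : ℝ) ≤ Real.exp ((1 + 2 * (a + c) + 4 * (b + d) + 4 * E : ℕ) * (T : ℝ)) := by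
  rw [mem_product, mem_range, mem_range] at hp
  have h2 : ∀ m : ℕ, (2 : ℝ) ^ m ≤ Real.exp m := by
    intro m
    calc (2 : ℝ) ^ m ≤ (Real.exp 1) ^ m := pow_le_pow_left₀ (by norm_num) cd_two_le m
      _ = Real.exp m := by rw [← Real.exp_nat_mul]; ring_nf
  have h3 : ∀ m : ℕ, (3 : ℝ) ^ m ≤ Real.exp (2 * m) := by
    intro m
    calc (3 : ℝ) ^ m ≤ (Real.exp 2) ^ m := pow_le_pow_left₀ (by norm_num) cd_three_le m
      _ = Real.exp (2 * m) := by rw [← Real.exp_nat_mul]; ring_nf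
  have h5 : ∀ m : ℕ, (5 : ℝ) ^ m ≤ Real.exp (2 * m) := by
    intro m
    calc (5 : ℝ) ^ m ≤ (Real.exp 2) ^ m := pow_le_pow_left₀ (by norm_num) cd_five_le m
      _ = Real.exp (2 * m) := by rw [← Real.exp_nat_mul]; ring_nf
  have hT1 : (1 : ℝ) ≤ T := by exact_mod_cast hT
  have hi : (p.1 : ℝ) ≤ T := by exact_mod_cast hp.1.le
  have hj : (p.2 : ℝ) ≤ T := by exact_mod_cast hp.2.le
  have ha : (0 : ℝ) ≤ a := Nat.cast_nonneg a
  have hb : (0 : ℝ) ≤ b := Nat.cast_nonneg b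
  have hc : (0 : ℝ) ≤ c := Nat.cast_nonneg c
  have hd : (0 : ℝ) ≤ d := Nat.cast_nonneg d
  have hE : (0 : ℝ) ≤ E := Nat.cast_nonneg E
  have hEi : (E : ℝ) * p.1 ≤ E * T := mul_le_mul_of_nonneg_left hi hE
  have hEj : (E : ℝ) * p.2 ≤ E * T := mul_le_mul_of_nonneg_left hj hE
  set S : ℝ := 2 * (a + c) + 4 * (b + d) + 4 * E * T with hS
  have k1 : ((2 : ℝ) ^ a * 3 ^ (b + E * p.1)) ^ 2 ≤ Real.exp S := by
    have e1 : (2 : ℝ) ^ a * 3 ^ (b + E * p.1) ≤ Real.exp (a + 2 * (b + E * T)) := by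
      calc (2 : ℝ) ^ a * 3 ^ (b + E * p.1) ≤ Real.exp a * Real.exp (2 * ((b + E * p.1 : ℕ) : ℝ)) :=
            mul_le_mul (h2 a) (h3 _) (by positivity) (Real.exp_pos _).le
        _ = Real.exp (a + 2 * ((b + E * p.1 : ℕ) : ℝ)) := by rw [Real.exp_add]
        _ ≤ Real.exp (a + 2 * (b + E * T)) := by
            apply Real.exp_le_exp.2
            push_cast
            linarith
    calc ((2 : ℝ) ^ a * 3 ^ (b + E * p.1)) ^ 2 ≤ (Real.exp (a + 2 * (b + E * T))) ^ 2 :=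
          pow_le_pow_left₀ (by positivity) e1 2
      _ = Real.exp (2 * (a + 2 * (b + E * T))) := by
          rw [← Real.exp_nat_mul]
          norm_num
      _ ≤ Real.exp S := by
          apply Real.exp_le_exp.2
          rw [hS]
          linarith
  have k2 : ((2 : ℝ) ^ c * 5 ^ (d + E * p.2)) ^ 2 ≤ Real.exp S := by
    have e1 : (2 : ℝ) ^ c * 5 ^ (d + E * p.2) ≤ Real.exp (c + 2 * (d + E * T)) := by
      calc (2 : ℝ) ^ c * 5 ^ (d + E * p.2) ≤ Real.exp c * Real.exp (2 * ((d + E * p.2 : ℕ) : ℝ)) :=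
            mul_le_mul (h2 c) (h5 _) (by positivity) (Real.exp_pos _).le
        _ = Real.exp (c + 2 * ((d + E * p.2 : ℕ) : ℝ)) := by rw [Real.exp_add]
        _ ≤ Real.exp (c + 2 * (d + E * T)) := by
            apply Real.exp_le_exp.2
            push_cast
            linarith
    calc ((2 : ℝ) ^ c * 5 ^ (d + E * p.2)) ^ 2 ≤ (Real.exp (c + 2 * (d + E * T))) ^ 2 :=
          pow_le_pow_left₀ (by positivity) e1 2
      _ = Real.exp (2 * (c + 2 * (d + E * T))) := by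
          rw [← Real.exp_nat_mul]
          norm_num
      _ ≤ Real.exp S := by
          apply Real.exp_le_exp.2
          rw [hS]
          linarith
  have k3 : (fam a b c d E p : ℝ) =
      ((2 : ℝ) ^ a * 3 ^ (b + E * p.1)) ^ 2 + ((2 : ℝ) ^ c * 5 ^ (d + E * p.2)) ^ 2 := by
    unfold fam kk
    push_cast
    rfl
  rw [k3]
  calc _ ≤ Real.exp S + Real.exp S := add_le_add k1 k2
    _ = 2 * Real.exp S := by ring
    _ ≤ Real.exp 1 * Real.exp S := mul_le_mul_of_nonneg_right cd_two_le (Real.exp_pos _).le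
    _ = Real.exp (1 + S) := (Real.exp_add 1 S).symm
    _ ≤ _ := by
        apply Real.exp_le_exp.2
        rw [hS]
        push_cast
        nlinarith [mul_nonneg ha (sub_nonneg.2 hT1), mul_nonneg hb (sub_nonneg.2 hT1),
          mul_nonneg hc (sub_nonneg.2 hT1), mul_nonneg hd (sub_nonneg.2 hT1)]

theorem cd_kap_mul {a b c d E W : ℕ} {p : ℕ × ℕ}
    (h : (W : ℤ) ∣ (fam a b c d E p : ℤ) - fam a b c d E (0, 0)) :
    (W : ℤ) * kap a b c d E W p = (fam a b c d E p : ℤ) - fam a b c d E (0, 0) := by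
  unfold kap
  exact Int.mul_ediv_cancel' h

theorem cd_kap_le {a b c d E W : ℕ} (hW : 0 < W) {T : ℕ} (hT : 1 ≤ T) {p : ℕ × ℕ}
    (hp : p ∈ range T ×ˢ range T)
    (h : (W : ℤ) ∣ (fam a b c d E p : ℤ) - fam a b c d E (0, 0)) :
    |(kap a b c d E W p : ℝ)| ≤
      Real.exp ((1 + 2 * (a + c) + 4 * (b + d) + 4 * E : ℕ) * (T : ℝ)) := by
  have h0 : ((0, 0) : ℕ × ℕ) ∈ range T ×ˢ range T := by
    rw [mem_product, mem_range]
    exact ⟨hT, hT⟩
  have h1 := cd_fam_le a b c d E hT hp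
  have h2 := cd_fam_le a b c d E hT h0
  have h3 : (0 : ℝ) ≤ (fam a b c d E p : ℝ) := Nat.cast_nonneg _
  have h4 : (0 : ℝ) ≤ (fam a b c d E (0, 0) : ℝ) := Nat.cast_nonneg _
  have h5 : (W : ℝ) * (kap a b c d E W p : ℝ) =
      (fam a b c d E p : ℝ) - (fam a b c d E (0, 0) : ℝ) := by
    have := cd_kap_mul h
    exact_mod_cast this
  have h6 : (1 : ℝ) ≤ W := by exact_mod_cast hW
  have h7 : |(kap a b c d E W p : ℝ)| ≤ |(W : ℝ) * (kap a b c d E W p : ℝ)| := by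
    rw [abs_mul, abs_of_nonneg (by linarith : (0 : ℝ) ≤ W)]
    exact le_mul_of_one_le_left (abs_nonneg _) h6
  refine h7.trans ?_
  rw [h5, abs_le]
  constructor <;> linarith

theorem cd_rep {a b c d E W G ω r : ℕ} {ρ : ℤ} (hWG : W = G * ω) (hG : TwoSq (G : ℤ))
    (hcong : ∀ p, (W : ℤ) ∣ (fam a b c d E p : ℤ) - fam a b c d E (0, 0))
    (hr : (r : ℤ) - fam a b c d E (0, 0) = G * ρ) {t : ℕ} {p : ℕ × ℕ}
    (h : TwoSq (ρ + ω * ((t : ℤ) - kap a b c d E W p))) : Rep (r + W * t) := by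
  obtain ⟨x, y, hxy⟩ := TwoSq.mul hG h
  have h1 := cd_kap_mul (hcong p)
  refine ⟨a, b + E * p.1, c, d + E * p.2, x, y, ?_⟩
  have h2 : ((r + W * t : ℕ) : ℤ) = (fam a b c d E p : ℤ) + (x : ℤ) ^ 2 + (y : ℤ) ^ 2 := by
    have h3 : (W : ℤ) = G * ω := by
      rw [hWG]
      push_cast
      rfl
    have h4 : (G : ℤ) * (ρ + ω * ((t : ℤ) - kap a b c d E W p)) =
        G * ρ + W * t - W * kap a b c d E W p := by
      rw [h3]
      ring
    rw [h4, h1, ← hr] at hxy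
    push_cast
    linarith
  have h5 : fam a b c d E p =
      (2 ^ a * 3 ^ (b + E * p.1)) ^ 2 + (2 ^ c * 5 ^ (d + E * p.2)) ^ 2 := rfl
  rw [h5] at h2
  exact_mod_cast h2

open scoped Classical in
theorem class_density : ∃ C : ℝ, 0 < C ∧ ∀ (a b c d E W G ω r : ℕ) (ρ : ℤ) (τ : ℝ), 0 < E → 0 < W → 30 ∣ W →
    W = G * ω → 4 ∣ ω → TwoSq (G : ℤ) → 0 ≤ τ →
    (∀ p, (W : ℤ) ∣ (fam a b c d E p : ℤ) - fam a b c d E (0, 0)) →
    (r : ℤ) - fam a b c d E (0, 0) = G * ρ → IsCoprime ρ (ω : ℤ) → ρ % 4 = 1 →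
    (∀ F : Finset ℕ, (∀ q ∈ F, q.Prime ∧ ¬ q ∣ W) →
      ∑ q ∈ F, wt q / (max (orderOf ((9 : ZMod q) ^ E)) (orderOf ((25 : ZMod q) ^ E)) : ℕ) ≤ τ) →
    ∀ ε : ℝ, 0 < ε → ∀ᶠ N : ℕ in atTop,
      (((range N).filter (fun t => ¬ Rep (r + W * t))).card : ℝ) ≤
        (450 * ((1 + C * τ) * (∏ p ∈ W.primeFactors.filter (fun p => ¬ p ∣ ω), (1 - 1 / (p : ℝ))⁻¹) - 1) + ε) *
          N := by
  obtain ⟨C, hC, hfam⟩ := famV
  refine ⟨C, hC, ?_⟩
  intro a b c d E W G ω r ρ τ hE hW h30 hWG h4 hG hτ hcong hr hcop hρ4 hsum ε hε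
  set Ξ : ℝ := ∏ p ∈ W.primeFactors.filter (fun p => ¬ p ∣ ω), (1 - 1 / (p : ℝ))⁻¹ with hΞ
  have hω0 : 0 < ω := by
    rcases Nat.eq_zero_or_pos ω with h | h
    · rw [h, mul_zero] at hWG
      omega
    · exact h
  have hωW : ω ∣ W := ⟨G, by rw [hWG, mul_comm]⟩
  have hΞ1 : 1 ≤ Ξ := by
    rw [hΞ]
    have h1 : ∀ p ∈ W.primeFactors.filter (fun p => ¬ p ∣ ω), (1 : ℝ) ≤ (1 - 1 / (p : ℝ))⁻¹ := by
      intro p hp
      have hp1 := Nat.prime_of_mem_primeFactors (mem_filter.1 hp).1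
      have hp2 : (2 : ℝ) ≤ p := by exact_mod_cast hp1.two_le
      have h2 : (0 : ℝ) < 1 / p := by positivity
      have h3 : 1 / (p : ℝ) ≤ 1 / 2 := one_div_le_one_div_of_le (by norm_num) hp2
      exact (one_le_inv₀ (by linarith)).2 (by linarith)
    calc (1 : ℝ) = ∏ p ∈ W.primeFactors.filter (fun p => ¬ p ∣ ω), (1 : ℝ) := by
          rw [prod_const_one]
      _ ≤ _ := prod_le_prod (fun _ _ => zero_le_one) h1
  set V₀ : ℝ := (1 + C * τ) * Ξ - 1 with hV₀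
  have hV₀0 : 0 ≤ V₀ := by
    have h1 : 0 ≤ C * τ := mul_nonneg hC.le hτ
    have h2 : 1 * 1 ≤ (1 + C * τ) * Ξ := mul_le_mul (by linarith) hΞ1 zero_le_one (by linarith)
    rw [hV₀]
    linarith
  set ε₁ : ℝ := ε / 1800 with hε₁
  have hε₁0 : 0 < ε₁ := by positivity
  set β : ℝ := 450 * (V₀ + ε₁) + ε / 4 with hβ
  have hβ0 : 0 < β := by positivity
  obtain ⟨η₀, hη₀, hL⟩ := LCT ω ρ h4 hω0 hcop hρ4 (show (0 : ℝ) < ε / 4 by positivity)
  set η : ℝ := min η₀ (min 1 (ε / (4 * β))) with hη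
  have hη0 : 0 < η := by
    rw [hη]
    exact lt_min hη₀ (lt_min one_pos (by positivity))
  have hη1 : η ≤ 1 := (min_le_right _ _).trans (min_le_left _ _)
  have hηβ : β * η ≤ ε / 4 := by
    have h1 : η ≤ ε / (4 * β) := (min_le_right _ _).trans (min_le_right _ _)
    calc β * η ≤ β * (ε / (4 * β)) := mul_le_mul_of_nonneg_left h1 hβ0.le
      _ = ε / 4 := by field_simp
  obtain ⟨cc, hcc, T₀, hL2⟩ := hL η hη0 (min_le_left _ _)
  -- the size
  obtain ⟨B, hB⟩ : ∃ B : ℝ, B = ((1 + 2 * (a + c) + 4 * (b + d) + 4 * E : ℕ) : ℝ) := ⟨_, rfl⟩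
  have hB0 : 0 < B := by
    rw [hB]
    exact_mod_cast (by omega : 0 < 1 + 2 * (a + c) + 4 * (b + d) + 4 * E)
  obtain ⟨T1, hF⟩ := hfam a b c d E W ω τ hE hW h30 hωW hτ hcong hsum ε₁ hε₁0 (B + 2) (by linarith)
  have hlog : Tendsto (fun N : ℕ => Real.log (N : ℝ)) atTop atTop :=
    Real.tendsto_log_atTop.comp tendsto_natCast_atTop_atTop
  have hTt : Tendsto (fun N : ℕ => ⌈(Real.log (N : ℝ)) ^ (3 / 5 : ℝ)⌉₊) atTop atTop :=
    tendsto_nat_ceil_atTop.comp ((tendsto_rpow_atTop (by norm_num)).comp hlog)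
  have hwin : ∀ᶠ N : ℕ in atTop, ((((Ico N (N + ⌊η * N⌋₊)).filter
      (fun t => ¬ Rep (r + W * t))).card : ℕ) : ℝ) ≤ β * (η * N) := by
    have hδ : (0 : ℝ) < 1 / (8 * (B + 2)) := by positivity
    filter_upwards [eventually_ge_atTop T₀, eventually_ge_atTop 1, hTt.eventually_ge_atTop T1,
      hTt.eventually_ge_atTop 1, hlog.eventually (cd_ev1 hδ), hlog.eventually (cd_ev2 hcc),
      hlog.eventually_ge_atTop 0] with N h0 h01 h1 h2 h3 h5 h6
    obtain ⟨T, hT⟩ : ∃ T : ℕ, T = ⌈(Real.log (N : ℝ)) ^ (3 / 5 : ℝ)⌉₊ := ⟨_, rfl⟩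
    rw [← hT] at h1 h2
    obtain ⟨x, hx⟩ : ∃ x : ℝ, x = Real.log (N : ℝ) := ⟨_, rfl⟩
    rw [← hx] at h3 h5 h6 hT
    have hx0 : 0 ≤ x ^ (3 / 5 : ℝ) := Real.rpow_nonneg h6 _
    have hTlo : x ^ (3 / 5 : ℝ) ≤ T := by
      rw [hT]
      exact Nat.le_ceil _
    have hTup : (T : ℝ) ≤ x ^ (3 / 5 : ℝ) + 1 := by
      rw [hT]
      exact (Nat.ceil_lt_add_one hx0).le
    have hT1 : (1 : ℝ) ≤ T := by exact_mod_cast h2
    obtain ⟨e, he⟩ : ∃ e : ℝ, e = Real.exp (B * T) := ⟨_, rfl⟩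
    have he1 : 1 ≤ e := by
      rw [he]
      exact Real.one_le_exp (by positivity)
    obtain ⟨H, hH⟩ : ∃ H : ℕ, H = ⌈2 * e⌉₊ := ⟨_, rfl⟩
    have hHlo : 2 * e ≤ H := by
      rw [hH]
      exact Nat.le_ceil _
    have hHup : (H : ℝ) ≤ 3 * e := by
      have : (H : ℝ) < 2 * e + 1 := by
        rw [hH]
        exact Nat.ceil_lt_add_one (by linarith)
      linarith
    have hH1 : 1 ≤ H := by
      have : (1 : ℝ) ≤ H := by linarith
      exact_mod_cast this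
    have hHpos : (0 : ℝ) < H := by linarith
    have hlogH : Real.log H ≤ (B + 2) * T := by
      have e1 : (H : ℝ) ≤ Real.exp ((B + 2) * T) := by
        calc (H : ℝ) ≤ 3 * e := hHup
          _ ≤ Real.exp 2 * e := mul_le_mul_of_nonneg_right cd_three_le (by linarith)
          _ = Real.exp (2 + B * T) := by rw [Real.exp_add, he]
          _ ≤ Real.exp ((B + 2) * T) := by
              apply Real.exp_le_exp.2
              nlinarith
      calc Real.log H ≤ Real.log (Real.exp ((B + 2) * T)) := Real.log_le_log hHpos e1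
        _ = _ := Real.log_exp _
    have hH8 : H ^ 8 ≤ N := by
      have e1 : 8 * Real.log H ≤ x := by
        have e2 : 8 * ((B + 2) * T) ≤ 8 * ((B + 2) * (x ^ (3 / 5 : ℝ) + 1)) := by
          apply mul_le_mul_of_nonneg_left _ (by norm_num)
          exact mul_le_mul_of_nonneg_left hTup (by linarith)
        have e3 : 8 * ((B + 2) * (x ^ (3 / 5 : ℝ) + 1)) ≤ x := by
          have e4 := mul_le_mul_of_nonneg_left h3 (show (0 : ℝ) ≤ 8 * (B + 2) by linarith)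
          have e5 : 8 * (B + 2) * (1 / (8 * (B + 2)) * x) = x := by
            have : 8 * (B + 2) ≠ 0 := by positivity
            field_simp
          rw [e5] at e4
          linarith
        linarith
      have e2 : Real.log ((H : ℝ) ^ 8) ≤ Real.log N := by
        rw [Real.log_pow, ← hx]
        exact_mod_cast e1
      have hN0 : (0 : ℝ) < N := by exact_mod_cast h01
      have e3 : (H : ℝ) ^ 8 ≤ N := (Real.log_le_log_iff (by positivity) hN0).1 e2
      exact_mod_cast e3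
    have hkap : ∀ p ∈ range T ×ˢ range T, |(kap a b c d E W p : ℝ)| ≤ e := by
      intro p hp
      have := cd_kap_le hW h2 hp (hcong p)
      rw [he, hB]
      exact this
    have hI : (range T ×ˢ range T).Nonempty := by
      refine ⟨(0, 0), ?_⟩
      rw [mem_product, mem_range]
      exact ⟨h2, h2⟩
    have hcard : (((range T ×ˢ range T).card : ℕ) : ℝ) = (T : ℝ) ^ 2 := by
      rw [card_product, card_range]
      push_cast
      ring
    have hk2 : ∀ p ∈ range T ×ˢ range T, 2 * |kap a b c d E W p| ≤ (H : ℤ) := by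
      intro p hp
      have h7 : 2 * |(kap a b c d E W p : ℝ)| ≤ H := by
        have := hkap p hp
        linarith
      have h8 : ((2 * |kap a b c d E W p| : ℤ) : ℝ) ≤ ((H : ℤ) : ℝ) := by
        push_cast
        exact h7
      exact_mod_cast h8
    have hkk : ∀ p ∈ range T ×ˢ range T, ∀ p' ∈ range T ×ˢ range T,
        |kap a b c d E W p - kap a b c d E W p'| ≤ (H : ℤ) := by
      intro p hp p' hp'
      have e1 := hk2 p hp
      have e2 := hk2 p' hp'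
      have e3 := abs_sub (kap a b c d E W p) (kap a b c d E W p')
      omega
    have hV := hF T H h1 hH1 hlogH hkk
    have hN := hL2 N H h0 hH1 hH8 (range T ×ˢ range T) (kap a b c d E W) hI hk2 (V₀ + ε₁)
      (by linarith) ?_ ?_
    · refine le_trans ?_ (hN.trans ?_)
      · rw [Nat.cast_le]
        apply card_le_card
        intro t ht
        rw [mem_filter] at ht ⊢
        refine ⟨ht.1, ?_⟩
        intro i _ hts
        exact ht.2 (cd_rep hWG hG hcong hr hts)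
      · rw [hβ]
    · exact hV
    · -- the diagonal
      have e1 : Np (range T ×ˢ range T) (kap a b c d E W) 0 ≤ 2 * T ^ 2 := by
        refine le_trans ?_ (diag_le a b c d T hE)
        unfold Np
        apply card_le_card
        intro p hp
        rw [mem_filter] at hp ⊢
        refine ⟨hp.1, ?_⟩
        have e2 := hp.2
        rw [Nat.cast_zero, zero_dvd_iff] at e2
        have e3 := cd_kap_mul (hcong p.1)
        have e4 := cd_kap_mul (hcong p.2)
        have e5 : kap a b c d E W p.1 = kap a b c d E W p.2 := by linarith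
        rw [e5, e4] at e3
        have e6 : (fam a b c d E p.1 : ℤ) = fam a b c d E p.2 := by linarith
        exact_mod_cast e6
      have e2 : (Np (range T ×ˢ range T) (kap a b c d E W) 0 : ℝ) ≤ 2 * (T : ℝ) ^ 2 := by
        exact_mod_cast e1
      rw [hcard, ← hx]
      have e3 : (x ^ (3 / 5 : ℝ)) ^ 2 ≤ (T : ℝ) ^ 2 := pow_le_pow_left₀ hx0 hTlo 2
      have e4 : 2 * x ≤ cc * (T : ℝ) ^ 2 :=
        h5.trans (mul_le_mul_of_nonneg_left e3 hcc.le)
      have e5 : (0 : ℝ) ≤ (T : ℝ) ^ 2 := by positivity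
      calc (Np (range T ×ˢ range T) (kap a b c d E W) 0 : ℝ) * x ≤ 2 * (T : ℝ) ^ 2 * x :=
            mul_le_mul_of_nonneg_right e2 h6
        _ = (T : ℝ) ^ 2 * (2 * x) := by ring
        _ ≤ (T : ℝ) ^ 2 * (cc * (T : ℝ) ^ 2) := mul_le_mul_of_nonneg_left e4 e5
        _ = cc * ((T : ℝ) ^ 2) ^ 2 := by ring
  have hfin := tile (fun t => ¬ Rep (r + W * t)) hβ0.le hη0 hη1 (show (0 : ℝ) < ε / 4 by positivity)
    hwin
  filter_upwards [hfin] with N hN
  refine hN.trans ?_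
  apply mul_le_mul_of_nonneg_right _ (Nat.cast_nonneg N)
  have h1 : β * (1 + η) = β + β * η := by ring
  rw [h1]
  have h2 : β = 450 * V₀ + ε / 2 := by
    rw [hβ, hε₁]
    ring
  linarith

end H2S
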