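import Pool.Agent.Pal.Basic

/-!
# H2S/Defs: definitions (MP_af1663_nt, Sun's four squares with two smooth terms)

`k a b c d = (2^a 3^b)^2 + (2^c 5^d)^2`. For `n` in a residue class modulo `W` we use the two-parameter family
`k(i,j) = 4^a 9^(b+E i) + 4^c 25^(d+E j)`, which is constant modulo `W`, and count with the divisor sum of the
nontrivial character `chi` modulo 4.
-/

namespace H2S

open Finset Pool.Agent.Pal

/-- the nontrivial character modulo 4 -/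
def chi (d : ℕ) : ℤ := if d % 4 = 1 then 1 else if d % 4 = 3 then -1 else 0

/-- `∑ chi e / e` over the `1 ≤ e ≤ y` coprime to `ω` -/
noncomputable def AA (ω y : ℕ) : ℝ :=
  ∑ e ∈ (Icc 1 y).filter (fun e => Nat.Coprime e ω), (chi e : ℝ) / e

/-- `∑ chi d / d` over the multiples `d ≤ D` of `q` coprime to `ω` -/
noncomputable def lam (ω D q : ℕ) : ℝ :=
  ∑ d ∈ (Icc 1 D).filter (fun d => Nat.Coprime d ω ∧ q ∣ d), (chi d : ℝ) / d

/-- `S(t) = ∑_i ∑_{d ≤ D, (d, ω) = 1, d | t - κ i} chi d` -/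
noncomputable def SS {ι : Type} (I : Finset ι) (κ : ι → ℤ) (ω D : ℕ) (t : ℤ) : ℝ :=
  ∑ i ∈ I, ∑ d ∈ (Icc 1 D).filter (fun d => Nat.Coprime d ω),
    if (d : ℤ) ∣ t - κ i then (chi d : ℝ) else 0

/-- the number of pairs `(i, j)` with `q | κ i - κ j` (for `q = 0`: with `κ i = κ j`) -/
def Np {ι : Type} (I : Finset ι) (κ : ι → ℤ) (q : ℕ) : ℕ :=
  ((I ×ˢ I).filter (fun p => (q : ℤ) ∣ κ p.1 - κ p.2)).card

/-- the frequencies `a / q` as pairs `(q, a)`: `H < q ≤ D`, `(q, ω) = 1`, `0 ≤ a < q`, `(a, q) = 1` -/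
def fr (ω H D : ℕ) : Finset (ℕ × ℕ) :=
  ((Ioc H D) ×ˢ (range D)).filter (fun p => Nat.Coprime p.1 ω ∧ p.2 < p.1 ∧ Nat.Coprime p.2 p.1)

/-- the exponential sum of the family at `a / q` -/
noncomputable def KK {ι : Type} (I : Finset ι) (κ : ι → ℤ) (q a : ℕ) : ℂ :=
  ∑ i ∈ I, ex (-((a : ℝ) * κ i / q))

/-- `z` is a sum of two squares (of naturals) -/
def TwoSq (z : ℤ) : Prop := ∃ x y : ℕ, z = (x : ℤ) ^ 2 + (y : ℤ) ^ 2

/-- the sum of the two restricted squares -/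
def kk (a b c d : ℕ) : ℕ := (2 ^ a * 3 ^ b) ^ 2 + (2 ^ c * 5 ^ d) ^ 2

/-- `n` is representable in the sense of the problem -/
def Rep (n : ℕ) : Prop := ∃ a b c d x y : ℕ, n = (2 ^ a * 3 ^ b) ^ 2 + (2 ^ c * 5 ^ d) ^ 2 + x ^ 2 + y ^ 2

/-- the two-parameter family -/
def fam (a b c d E : ℕ) (p : ℕ × ℕ) : ℕ := kk a (b + E * p.1) c (d + E * p.2)

/-- the weight of a prime in the Romanoff sums -/
noncomputable def wt (p : ℕ) : ℝ := (Real.log p) ^ 2 / p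

/-- `z` is, up to a factor `2^s 9^t` with `s, t ≤ 1`, congruent to 1 modulo 4, prime to 3 and to all `q ∈ Q` -/
def GoodZ (Q : Finset ℕ) (z : ℤ) : Prop :=
  (z % 4 = 1 ∨ z % 8 = 2) ∧ (z % 3 ≠ 0 ∨ (z % 9 = 0 ∧ z % 27 ≠ 0)) ∧ ∀ q ∈ Q, ¬ (q : ℤ) ∣ z

end H2S
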