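import Pool.Agent.H2S.Defs

/-!
# H2S/Wit: a good quadruple with large exponents and `5 ∤ n - k`

`kk a b c d = 4^a 9^b + 4^c 25^d`. Put `L = 9 ∏_{q ∈ Q} (q-1)/2`, an odd number. Replacing `b` by `b + L x` and `d` by
`d + L y` does not change `z = n - kk a b c d`
* modulo 8 (`9^b = 25^d = 1`), modulo 27 (`9^b = 0` for `b ≥ 2`; `25^9 = 1 mod 27`),
* modulo `q ∈ Q`: `9^((q-1)/2) = 3^(q-1) = 1`, `25^((q-1)/2) = 5^(q-1) = 1` (`q ≥ 7`);
so `GoodZ Q z` (a condition on `z` modulo 8, 27 and the `q ∈ Q`) is preserved. With `d' = d + L (Jp+1)`: `d' ≥ Jp`,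
`d' ≥ 1`, `z' = n - 4^a 9^b' mod 5`, `9^b' = (-1)^b' mod 5`. Of `b' = b + L (Jp)` and `b' = b + L (Jp + 1)` (different
parity, `2 · 4^a` is not divisible by 5) at least one has `5 ∤ z'`.
-/

namespace H2S

open Finset

private theorem kk_eq (a b c d : ℕ) : kk a b c d = 4 ^ a * 9 ^ b + 4 ^ c * 25 ^ d := by
  unfold kk
  have h1 : ∀ k : ℕ, (2 ^ k) ^ 2 = 4 ^ k := fun k => by rw [← pow_mul, mul_comm, pow_mul]; norm_num
  have h2 : ∀ k : ℕ, (3 ^ k) ^ 2 = 9 ^ k := fun k => by rw [← pow_mul, mul_comm, pow_mul]; norm_num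
  have h3 : ∀ k : ℕ, (5 ^ k) ^ 2 = 25 ^ k := fun k => by rw [← pow_mul, mul_comm, pow_mul]; norm_num
  rw [mul_pow, mul_pow, h1, h2, h1, h3]

private theorem kk_modEq {m a b c d b' d' : ℕ} (h1 : 9 ^ b' ≡ 9 ^ b [MOD m])
    (h2 : 25 ^ d' ≡ 25 ^ d [MOD m]) : kk a b' c d' ≡ kk a b c d [MOD m] := by
  rw [kk_eq, kk_eq]
  exact Nat.ModEq.add (Nat.ModEq.mul_left _ h1) (Nat.ModEq.mul_left _ h2)

private theorem pow_shift {m x L : ℕ} (h : x ^ L ≡ 1 [MOD m]) (b t : ℕ) :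
    x ^ (b + L * t) ≡ x ^ b [MOD m] := by
  rw [pow_add, pow_mul]
  have := (h.pow t).mul_left (x ^ b)
  rwa [one_pow, mul_one] at this

private theorem int_modEq {m k k' n : ℕ} (h : k' ≡ k [MOD m]) :
    ((n : ℤ) - k') % m = ((n : ℤ) - k) % m := by
  have h1 : (k' : ℤ) ≡ (k : ℤ) [ZMOD m] := Int.natCast_modEq_iff.2 h
  exact (Int.ModEq.refl (n : ℤ)).sub h1

theorem witness (Q : Finset ℕ) (hQ : ∀ q ∈ Q, q.Prime ∧ q % 4 = 3 ∧ 3 < q) (Jp n : ℕ)
    (h : ∃ a b c d : ℕ, 2 ≤ b ∧ GoodZ Q ((n : ℤ) - kk a b c d)) :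
    ∃ a b c d : ℕ, Jp ≤ b ∧ Jp ≤ d ∧ GoodZ Q ((n : ℤ) - kk a b c d) ∧
      ¬ (5 : ℤ) ∣ (n : ℤ) - kk a b c d := by
  obtain ⟨a, b, c, d, hb, hg⟩ := h
  obtain ⟨P, hP⟩ : ∃ P, P = ∏ q ∈ Q, (q - 1) / 2 := ⟨_, rfl⟩
  have hPodd : Odd P := by
    rw [hP]
    apply Finset.prod_induction _ Odd (fun _ _ => Odd.mul) odd_one
    intro q hq
    obtain ⟨_, h2, _⟩ := hQ q hq
    rw [Nat.odd_iff]
    omega
  obtain ⟨L, hL⟩ : ∃ L, L = 9 * P := ⟨_, rfl⟩
  have hLodd : Odd L := by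
    rw [hL]
    exact Odd.mul (by decide) hPodd
  have hL1 : 1 ≤ L := hLodd.pos
  have p8a : 9 ^ L ≡ 1 [MOD 8] := by
    have : 9 ≡ 1 [MOD 8] := by decide
    simpa using this.pow L
  have p8b : 25 ^ L ≡ 1 [MOD 8] := by
    have : 25 ≡ 1 [MOD 8] := by decide
    simpa using this.pow L
  have p27b : 25 ^ L ≡ 1 [MOD 27] := by
    have : 25 ^ 9 ≡ 1 [MOD 27] := by decide
    rw [hL, pow_mul]
    simpa using this.pow P
  have p27a : ∀ t, 9 ^ (b + L * t) ≡ 9 ^ b [MOD 27] := by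
    intro t
    have h9 : ∀ k, 2 ≤ k → 9 ^ k ≡ 0 [MOD 27] := by
      intro k hk
      obtain ⟨l, rfl⟩ := Nat.exists_eq_add_of_le hk
      rw [pow_add, Nat.modEq_zero_iff_dvd]
      exact Dvd.dvd.mul_right (by norm_num) _
    exact (h9 _ (by omega)).trans (h9 _ hb).symm
  have pq : ∀ q ∈ Q, ∀ x : ℕ, Nat.Coprime x q → (x ^ 2) ^ L ≡ 1 [MOD q] := by
    intro q hq x hx
    obtain ⟨h1, h2, h3⟩ := hQ q hq
    have hd : (q - 1) / 2 ∣ L := by
      rw [hL, hP]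
      exact Dvd.dvd.mul_left (Finset.dvd_prod_of_mem _ hq) _
    obtain ⟨l, hl⟩ := hd
    have h4 : (x ^ 2) ^ ((q - 1) / 2) = x ^ (q - 1) := by
      rw [← pow_mul]
      congr 1
      omega
    rw [hl, pow_mul, h4]
    have h5 : x ^ (q - 1) ≡ 1 [MOD q] := by
      have := Nat.ModEq.pow_totient hx
      rwa [Nat.totient_prime h1] at this
    simpa using h5.pow l
  have cop : ∀ q ∈ Q, Nat.Coprime 3 q ∧ Nat.Coprime 5 q := by
    intro q hq
    obtain ⟨h1, h2, h3⟩ := hQ q hq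
    constructor
    · rw [Nat.coprime_primes Nat.prime_three h1]
      omega
    · rw [Nat.coprime_primes Nat.prime_five h1]
      omega
  have good : ∀ t u : ℕ, GoodZ Q ((n : ℤ) - kk a (b + L * t) c (d + L * u)) := by
    intro t u
    have m8 := int_modEq (n := n) (kk_modEq (a := a) (c := c) (pow_shift p8a b t) (pow_shift p8b d u))
    have m27 := int_modEq (n := n) (kk_modEq (a := a) (c := c) (p27a t) (pow_shift p27b d u))
    obtain ⟨g1, g2, g3⟩ := hg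
    refine ⟨?_, ?_, ?_⟩
    · omega
    · omega
    · intro q hq hdvd
      apply g3 q hq
      have e1 : 9 ^ L ≡ 1 [MOD q] := by
        have := pq q hq 3 (cop q hq).1
        norm_num at this
        exact this
      have e2 : 25 ^ L ≡ 1 [MOD q] := by
        have := pq q hq 5 (cop q hq).2
        norm_num at this
        exact this
      have mq := int_modEq (n := n) (kk_modEq (a := a) (c := c) (pow_shift e1 b t) (pow_shift e2 d u))
      rw [Int.dvd_iff_emod_eq_zero] at hdvd ⊢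
      rw [← mq]
      exact hdvd
  have hJ : Jp ≤ L * Jp := Nat.le_mul_of_pos_left Jp hL1
  have hJ' : L * (Jp + 1) = L * Jp + L := by ring
  by_cases h5 : (5 : ℤ) ∣ (n : ℤ) - kk a (b + L * Jp) c (d + L * Jp)
  · refine ⟨a, b + L * (Jp + 1), c, d + L * Jp, by omega, by omega, good _ _, ?_⟩
    intro h5'
    have h6 := dvd_sub h5 h5'
    rw [kk_eq, kk_eq, hJ', ← add_assoc] at h6
    have h7 : ((n : ℤ) - ((4 ^ a * 9 ^ (b + L * Jp) + 4 ^ c * 25 ^ (d + L * Jp) : ℕ) : ℤ)) -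
        ((n : ℤ) - ((4 ^ a * 9 ^ (b + L * Jp + L) + 4 ^ c * 25 ^ (d + L * Jp) : ℕ) : ℤ)) =
        4 ^ a * 9 ^ (b + L * Jp) * (9 ^ L - 1) := by
      push_cast
      rw [pow_add (9 : ℤ) (b + L * Jp) L]
      ring
    rw [h7] at h6
    have hp : Prime (5 : ℤ) := by
      rw [Int.prime_iff_natAbs_prime]
      norm_num
    have h8 : (9 : ℤ) ^ L ≡ (-1) ^ L [ZMOD 5] := by
      apply Int.ModEq.pow
      decide
    rw [hLodd.neg_one_pow] at h8
    rcases hp.dvd_or_dvd h6 with h9 | h9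
    · rcases hp.dvd_or_dvd h9 with h10 | h10
      · have := hp.dvd_of_dvd_pow h10
        norm_num at this
      · have := hp.dvd_of_dvd_pow h10
        norm_num at this
    · have h11 : (9 : ℤ) ^ L - 1 ≡ -1 - 1 [ZMOD 5] := h8.sub (Int.ModEq.refl 1)
      have h12 : (9 : ℤ) ^ L - 1 ≡ 0 [ZMOD 5] := (Int.modEq_zero_iff_dvd).2 h9
      have h13 := h11.symm.trans h12
      revert h13
      decide
  · exact ⟨a, b + L * Jp, c, d + L * Jp, by omega, by omega, good _ _, h5⟩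

end H2S
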