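import Pool.Agent.H2S.Split
import Pool.Agent.H2S.Wit

/-!
# H2S/LocGlob: the local-global theorem

Let `C` be the constant of `good_class`. Choose `τ, ξ > 0` (`ξ ≤ 1/4`) with `450 ((1 + C τ)(1 + 4 ξ) - 1) ≤ ε/8`, then
`ℓ ≥ max (ℓ0, 5)` (`tail_both`) with `1/(ξ ℓ) ≤ ε/16`, `Jp ≥ 3` with `ℓ / 5^Jp ≤ ε/16`, `J ≥ max (J0, Jp + ℓ)`;
`E = (primorial ℓ)^J`, `W = Wd ℓ Jp E`, `Q = Q3 W`. Call `n` good if `∃ a b c d, 2 ≤ b ∧ GoodZ Q (n - kk a b c d)`; by
`good_congr` this only depends on `n mod W3`. For every good residue `s < W3` choose by `witness` (with `Jp`) a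
quadruple `v(s)` for `n = s`; put `f s = kk (v s)` (and `f s = 0` if `s` is not good). For a good `r < W`, `s = r % W3` is good,
and `GoodZ Q (r - f s)`, `¬ 5 ∣ r - f s` (`good_congr`, `W3 ∣ r - s`). If `r` is not in the exceptional set of `not_nice` then
`good_class` applies: for large `N'`, `#{t < N' : ¬ Rep (r + W t)} ≤ (ε/8 + ε/8) N'`.
Every `n < N` is `r + W t` with `r = n % W`, `t = n / W ≤ N / W`, and `n` good iff `r` good. So for large `N` the number of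
good non-representable `n < N` is at most `∑_{r} (ε/4) (N/W + 1)` over the nice `r`, plus `(N/W + 1)` times the number of
exceptional `r < W`, which is at most `(ε/8) W`: total at most `(3 ε/8) (N + W) ≤ ε N`.
-/

namespace H2S

open Finset Filter

private theorem tendsto_div {W : ℕ} (hW : 0 < W) :
    Tendsto (fun N : ℕ => N / W + 1) atTop atTop := by
  rw [tendsto_atTop_atTop]
  intro b
  refine ⟨b * W, fun a ha => ?_⟩
  have := (Nat.le_div_iff_mul_le hW).2 ha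
  omega

/-- counting by residue classes -/
private theorem count_classes {W : ℕ} (hW : 0 < W) (P : ℕ → Prop) [DecidablePred P] (Bad : Finset ℕ) (N : ℕ) {κ β : ℝ}
    (hκ : 0 ≤ κ)
    (hBad : (Bad.card : ℝ) ≤ β * W)
    (h : ∀ r ∈ range W, r ∉ Bad →
      (((range (N / W + 1)).filter (fun t => P (r + W * t))).card : ℝ) ≤ κ * ((N / W + 1 : ℕ) : ℝ)) :
    (((range N).filter P).card : ℝ) ≤ (κ + β) * (N + W) := by
  have hsub : (range N).filter P ⊆
      ((range W \ Bad).biUnion (fun r => ((range (N / W + 1)).filter (fun t => P (r + W * t))).image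
        (fun t => r + W * t))) ∪ (Bad.biUnion (fun r => (range (N / W + 1)).image (fun t => r + W * t))) := by
    intro n hn
    rw [mem_filter, mem_range] at hn
    have h1 : n % W + W * (n / W) = n := Nat.mod_add_div n W
    have h2 : n / W < N / W + 1 := Nat.lt_succ_of_le (Nat.div_le_div_right hn.1.le)
    rw [mem_union]
    by_cases hb : n % W ∈ Bad
    · right
      rw [mem_biUnion]
      exact ⟨n % W, hb, mem_image.2 ⟨n / W, mem_range.2 h2, h1⟩⟩
    · left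
      rw [mem_biUnion]
      refine ⟨n % W, Finset.mem_sdiff.2 ⟨mem_range.2 (Nat.mod_lt _ hW), hb⟩, mem_image.2 ⟨n / W, ?_, h1⟩⟩
      rw [mem_filter, mem_range]
      exact ⟨h2, by rw [h1]; exact hn.2⟩
  have hc1 : (((range W \ Bad).biUnion (fun r => ((range (N / W + 1)).filter
      (fun t => P (r + W * t))).image (fun t => r + W * t))).card : ℝ) ≤
      W * (κ * ((N / W + 1 : ℕ) : ℝ)) := by
    have e1 : (((range W \ Bad).biUnion (fun r => ((range (N / W + 1)).filter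
      (fun t => P (r + W * t))).image (fun t => r + W * t))).card : ℝ) ≤
      ∑ r ∈ range W \ Bad, (((range (N / W + 1)).filter (fun t => P (r + W * t))).card : ℝ) := by
      have e2 : ((range W \ Bad).biUnion (fun r => ((range (N / W + 1)).filter
        (fun t => P (r + W * t))).image (fun t => r + W * t))).card ≤
        ∑ r ∈ range W \ Bad, ((range (N / W + 1)).filter (fun t => P (r + W * t))).card :=
        card_biUnion_le.trans (sum_le_sum (fun r _ => card_image_le))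
      exact_mod_cast e2
    refine e1.trans ?_
    have e3 : ∑ r ∈ range W \ Bad, (((range (N / W + 1)).filter (fun t => P (r + W * t))).card : ℝ) ≤
        ∑ r ∈ range W \ Bad, κ * ((N / W + 1 : ℕ) : ℝ) := by
      apply sum_le_sum
      intro r hr
      rw [Finset.mem_sdiff] at hr
      exact h r hr.1 hr.2
    refine e3.trans ?_
    rw [sum_const, nsmul_eq_mul]
    apply mul_le_mul_of_nonneg_right _ (by positivity)
    have : (range W \ Bad).card ≤ W := (card_le_card sdiff_subset).trans (by rw [card_range])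
    exact_mod_cast this
  have hc2 : ((Bad.biUnion (fun r => (range (N / W + 1)).image (fun t => r + W * t))).card : ℝ) ≤
      β * W * ((N / W + 1 : ℕ) : ℝ) := by
    have e2 : (Bad.biUnion (fun r => (range (N / W + 1)).image (fun t => r + W * t))).card ≤
        Bad.card * (N / W + 1) := by
      refine card_biUnion_le_card_mul _ _ _ (fun r _ => ?_)
      exact card_image_le.trans (by rw [card_range])
    have e3 : ((Bad.biUnion (fun r => (range (N / W + 1)).image (fun t => r + W * t))).card : ℝ) ≤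
        Bad.card * ((N / W + 1 : ℕ) : ℝ) := by exact_mod_cast e2
    exact e3.trans (mul_le_mul_of_nonneg_right hBad (by positivity))
  have hc3 : (((range N).filter P).card : ℝ) ≤
      W * (κ * ((N / W + 1 : ℕ) : ℝ)) + β * W * ((N / W + 1 : ℕ) : ℝ) := by
    have e1 := (card_le_card hsub).trans (card_union_le _ _)
    have e2 : (((range N).filter P).card : ℝ) ≤ (((range W \ Bad).biUnion (fun r =>
      ((range (N / W + 1)).filter (fun t => P (r + W * t))).image (fun t => r + W * t))).card : ℝ) +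
      ((Bad.biUnion (fun r => (range (N / W + 1)).image (fun t => r + W * t))).card : ℝ) := by
      exact_mod_cast e1
    linarith
  have hβ : 0 ≤ β := by
    by_contra hneg
    push Not at hneg
    have : β * W < 0 := mul_neg_of_neg_of_pos hneg (by exact_mod_cast hW)
    have : (0 : ℝ) ≤ Bad.card := by positivity
    linarith
  have hdiv : (W : ℝ) * ((N / W + 1 : ℕ) : ℝ) ≤ N + W := by
    have : W * (N / W + 1) ≤ N + W := by
      rw [mul_add, mul_one]
      have := Nat.mul_div_le N W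
      omega
    exact_mod_cast this
  have : W * (κ * ((N / W + 1 : ℕ) : ℝ)) + β * W * ((N / W + 1 : ℕ) : ℝ) =
      (κ + β) * ((W : ℝ) * ((N / W + 1 : ℕ) : ℝ)) := by ring
  rw [this] at hc3
  exact hc3.trans (mul_le_mul_of_nonneg_left hdiv (by positivity))

open scoped Classical in
theorem local_global {ε : ℝ} (hε : 0 < ε) : ∃ Q : Finset ℕ, (∀ q ∈ Q, q.Prime ∧ q % 4 = 3 ∧ 3 < q) ∧
    ∀ᶠ N : ℕ in atTop,
      (((range N).filter (fun n => ¬ Rep n ∧ ∃ a b c d : ℕ, 2 ≤ b ∧ GoodZ Q ((n : ℤ) - kk a b c d))).card : ℝ) ≤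
        ε * N := by
  obtain ⟨C, hC, hgc⟩ := good_class
  -- the parameters
  obtain ⟨η, hη0, hη1, hηε⟩ : ∃ η : ℝ, 0 < η ∧ η ≤ 1 ∧ η ≤ ε / 10800 :=
    ⟨min 1 (ε / 10800), lt_min one_pos (by positivity), min_le_left _ _, min_le_right _ _⟩
  have hτ : 0 < η / C := div_pos hη0 hC
  have hξ : 0 < η / 4 := by positivity
  obtain ⟨ℓ0, hℓ0⟩ := tail_both hτ
  obtain ⟨ℓ1, hℓ1⟩ := exists_nat_gt (16 / (η / 4 * ε))
  obtain ⟨ℓ, hℓ0', hℓ5, hℓ1'⟩ : ∃ ℓ : ℕ, ℓ0 ≤ ℓ ∧ 5 ≤ ℓ ∧ ℓ1 ≤ ℓ :=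
    ⟨max ℓ0 (max 5 ℓ1), le_max_left _ _, (le_max_left _ _).trans (le_max_right _ _),
      (le_max_right _ _).trans (le_max_right _ _)⟩
  have hℓpos : (0 : ℝ) < ℓ := by
    have : 0 < ℓ := by omega
    exact_mod_cast this
  have hA : 1 / (η / 4 * ℓ) ≤ ε / 16 := by
    have h1 : 16 / (η / 4 * ε) ≤ (ℓ : ℝ) := hℓ1.le.trans (by exact_mod_cast hℓ1')
    rw [div_le_iff₀ (by positivity)] at h1
    rw [div_le_iff₀ (by positivity)]
    linarith
  obtain ⟨Jp0, hJp0⟩ := exists_nat_gt (16 * (ℓ : ℝ) / ε)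
  obtain ⟨Jp, hJp3, hJp0'⟩ : ∃ Jp : ℕ, 3 ≤ Jp ∧ Jp0 ≤ Jp := ⟨max 3 Jp0, le_max_left _ _, le_max_right _ _⟩
  have hB : (ℓ : ℝ) / 5 ^ Jp ≤ ε / 16 := by
    have h1 : (Jp : ℝ) ≤ 5 ^ Jp := by
      have : Jp ≤ 5 ^ Jp := (Nat.lt_pow_self (by norm_num)).le
      exact_mod_cast this
    have h2 : 16 * (ℓ : ℝ) / ε ≤ 5 ^ Jp := hJp0.le.trans (le_trans (by exact_mod_cast hJp0') h1)
    rw [div_le_iff₀ hε] at h2
    rw [div_le_iff₀ (by positivity)]
    linarith
  obtain ⟨J0, hJ0⟩ := hℓ0 ℓ hℓ0'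
  obtain ⟨J, hJ0', hJJ⟩ : ∃ J : ℕ, J0 ≤ J ∧ Jp + ℓ ≤ J := ⟨max J0 (Jp + ℓ), le_max_left _ _, le_max_right _ _⟩
  have htail := hJ0 J Jp hJ0' (by omega)
  have hgc' := hgc ℓ J Jp (η / C) (η / 4) hℓ5 hJp3 hJJ hτ.le hξ.le (by linarith) htail
  have hWpos : 0 < Wd ℓ Jp ((primorial ℓ) ^ J) := Wd_pos _ _ _
  have hsplit := W_split ℓ Jp ((primorial ℓ) ^ J) hℓ5
  generalize hEdef : (primorial ℓ) ^ J = E at *
  set W := Wd ℓ Jp E with hWdef
  set m3 := W3 ℓ Jp E with hm3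
  have hQ : ∀ q ∈ Q3 W, q.Prime ∧ q % 4 = 3 ∧ 3 < q := by
    intro q hq
    unfold Q3 at hq
    rw [mem_filter, Nat.mem_primeFactors] at hq
    exact ⟨hq.1.1, hq.2.1, hq.2.2⟩
  -- the choice of the quadruples
  have hwit : ∀ s : ℕ, ∃ v : ℕ × ℕ × ℕ × ℕ,
      (∃ a b c d : ℕ, 2 ≤ b ∧ GoodZ (Q3 W) ((s : ℤ) - kk a b c d)) →
      Jp ≤ v.2.1 ∧ Jp ≤ v.2.2.2 ∧ GoodZ (Q3 W) ((s : ℤ) - kk v.1 v.2.1 v.2.2.1 v.2.2.2) ∧
      ¬ (5 : ℤ) ∣ (s : ℤ) - kk v.1 v.2.1 v.2.2.1 v.2.2.2 := by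
    intro s
    by_cases hs : ∃ a b c d : ℕ, 2 ≤ b ∧ GoodZ (Q3 W) ((s : ℤ) - kk a b c d)
    · obtain ⟨a, b, c, d, h1, h2, h3, h4⟩ := witness (Q3 W) hQ Jp s hs
      exact ⟨(a, b, c, d), fun _ => ⟨h1, h2, h3, h4⟩⟩
    · exact ⟨(0, 0, 0, 0), fun h => absurd h hs⟩
  choose v hv using hwit
  set f : ℕ → ℤ := fun s => (kk (v s).1 (v s).2.1 (v s).2.2.1 (v s).2.2.2 : ℕ) with hf
  have hcongr : ∀ r : ℕ, ((m3 : ℕ) : ℤ) ∣ (r : ℤ) - ((r % m3 : ℕ) : ℤ) := by
    intro r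
    have h1 : ((r % m3 : ℕ) : ℤ) = (r : ℤ) % (m3 : ℤ) := by push_cast; rfl
    rw [h1]
    exact Int.dvd_self_sub_emod
  have hgood : ∀ r s : ℕ, ((m3 : ℕ) : ℤ) ∣ (r : ℤ) - (s : ℤ) →
      (∃ a b c d : ℕ, 2 ≤ b ∧ GoodZ (Q3 W) ((r : ℤ) - kk a b c d)) →
      (∃ a b c d : ℕ, 2 ≤ b ∧ GoodZ (Q3 W) ((s : ℤ) - kk a b c d)) := by
    rintro r s hrs ⟨a, b, c, d, hb, hg⟩
    refine ⟨a, b, c, d, hb, ?_⟩
    refine ((good_congr (E := E) hℓ5 hJp3 (z := (r : ℤ) - kk a b c d) (z' := (s : ℤ) - kk a b c d) ?_).1).1 hg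
    have e : ((r : ℤ) - kk a b c d) - ((s : ℤ) - kk a b c d) = (r : ℤ) - s := by ring
    rw [e]
    exact hrs
  set Bad : Finset ℕ := (range W).filter (fun r : ℕ =>
      (∃ p : ℕ, p.Prime ∧ p ≤ ℓ ∧ p % 4 = 1 ∧ p ≠ 5 ∧ ((p ^ Jp : ℕ) : ℤ) ∣ (r : ℤ) - f (r % m3)) ∨
      η / 4 < ∑ q ∈ (Qset ℓ E).filter (fun q => q % 4 = 1 ∧ (q : ℤ) ∣ (r : ℤ) - f (r % m3)),
        (1 : ℝ) / q) with hBad
  have hBadc : (Bad.card : ℝ) ≤ ε / 8 * W := by
    have h1 := not_nice (ℓ := ℓ) (Jp := Jp) (E := E) hℓ5 (by omega) hξ f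
    have h2 : (W : ℝ) * ((ℓ : ℝ) / 5 ^ Jp + 1 / (η / 4 * ℓ)) ≤ W * (ε / 16 + ε / 16) :=
      mul_le_mul_of_nonneg_left (add_le_add hB hA) (by positivity)
    refine h1.trans (h2.trans (le_of_eq ?_))
    ring
  -- the nice classes
  have hconst : 450 * ((1 + C * (η / C)) * (1 + 4 * (η / 4)) - 1) + ε / 8 ≤ ε / 4 := by
    have e : C * (η / C) = η := by field_simp
    rw [e]
    nlinarith
  have hclass : ∀ r ∈ range W, r ∉ Bad →
      ∀ᶠ N : ℕ in atTop, (((range N).filter (fun t => ¬ Rep (r + W * t) ∧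
        ∃ a b c d : ℕ, 2 ≤ b ∧ GoodZ (Q3 W) (((r + W * t : ℕ) : ℤ) - kk a b c d))).card : ℝ) ≤
        ε / 4 * N := by
    intro r hr hrB
    by_cases hg : ∃ a b c d : ℕ, 2 ≤ b ∧ GoodZ (Q3 W) ((r : ℤ) - kk a b c d)
    · have hgs := hgood r (r % m3) (hcongr r) hg
      obtain ⟨h1, h2, h3, h4⟩ := hv (r % m3) hgs
      have hcg := good_congr (E := E) hℓ5 hJp3
        (z := (r : ℤ) - kk (v (r % m3)).1 (v (r % m3)).2.1 (v (r % m3)).2.2.1 (v (r % m3)).2.2.2)
        (z' := ((r % m3 : ℕ) : ℤ) - kk (v (r % m3)).1 (v (r % m3)).2.1 (v (r % m3)).2.2.1 (v (r % m3)).2.2.2)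
        (by
          have e : ((r : ℤ) - kk (v (r % m3)).1 (v (r % m3)).2.1 (v (r % m3)).2.2.1 (v (r % m3)).2.2.2) -
            (((r % m3 : ℕ) : ℤ) - kk (v (r % m3)).1 (v (r % m3)).2.1 (v (r % m3)).2.2.1 (v (r % m3)).2.2.2) =
            (r : ℤ) - ((r % m3 : ℕ) : ℤ) := by ring
          rw [e]
          exact hcongr r)
      have hnb := hrB
      rw [hBad, mem_filter, not_and, not_or] at hnb
      obtain ⟨hnb1, hnb2⟩ := hnb hr
      have key := hgc' r _ _ _ _ h1 h2 (hcg.1.2 h3) (fun h5 => h4 (hcg.2.1 h5))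
        (fun p hp hpl hp4 hp5 hd => hnb1 ⟨p, hp, hpl, hp4, hp5, hd⟩) (not_lt.1 hnb2) (ε / 8) (by positivity)
      filter_upwards [key] with N hN
      have hle : (((range N).filter (fun t => ¬ Rep (r + W * t) ∧
        ∃ a b c d : ℕ, 2 ≤ b ∧ GoodZ (Q3 W) (((r + W * t : ℕ) : ℤ) - kk a b c d))).card : ℝ) ≤
        (((range N).filter (fun t => ¬ Rep (r + W * t))).card : ℝ) := by
        have : ((range N).filter (fun t => ¬ Rep (r + W * t) ∧
          ∃ a b c d : ℕ, 2 ≤ b ∧ GoodZ (Q3 W) (((r + W * t : ℕ) : ℤ) - kk a b c d))).card ≤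
          ((range N).filter (fun t => ¬ Rep (r + W * t))).card := by
          apply card_le_card
          intro t ht
          rw [mem_filter] at ht ⊢
          exact ⟨ht.1, ht.2.1⟩
        exact_mod_cast this
      refine hle.trans (hN.trans ?_)
      exact mul_le_mul_of_nonneg_right hconst (by positivity)
    · filter_upwards with N
      have h0 : (range N).filter (fun t => ¬ Rep (r + W * t) ∧
        ∃ a b c d : ℕ, 2 ≤ b ∧ GoodZ (Q3 W) (((r + W * t : ℕ) : ℤ) - kk a b c d)) = ∅ := by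
        rw [filter_eq_empty_iff]
        rintro t - ⟨-, h2⟩
        apply hg
        refine hgood (r + W * t) r ?_ h2
        have e : ((r + W * t : ℕ) : ℤ) - (r : ℤ) = (W : ℤ) * t := by push_cast; ring
        rw [e, hsplit.1]
        push_cast
        exact Dvd.dvd.mul_right (Dvd.intro _ rfl) _
      rw [h0, card_empty, Nat.cast_zero]
      positivity
  have hall : ∀ᶠ N : ℕ in atTop, ∀ r ∈ range W, r ∉ Bad →
      (((range N).filter (fun t => ¬ Rep (r + W * t) ∧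
        ∃ a b c d : ℕ, 2 ≤ b ∧ GoodZ (Q3 W) (((r + W * t : ℕ) : ℤ) - kk a b c d))).card : ℝ) ≤
        ε / 4 * N := by
    rw [Filter.eventually_all_finset]
    intro r hr
    by_cases hb : r ∈ Bad
    · filter_upwards with N h
      exact absurd hb h
    · filter_upwards [hclass r hr hb] with N hN _
      exact hN
  refine ⟨Q3 W, hQ, ?_⟩
  filter_upwards [(tendsto_div hWpos).eventually hall, eventually_ge_atTop W] with N hN hNW
  have h1 := count_classes hWpos (fun n => ¬ Rep n ∧ ∃ a b c d : ℕ, 2 ≤ b ∧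
    GoodZ (Q3 W) ((n : ℤ) - kk a b c d)) Bad N (κ := ε / 4) (β := ε / 8) (by positivity) hBadc hN
  refine h1.trans ?_
  have h2 : (W : ℝ) ≤ N := by exact_mod_cast hNW
  nlinarith

end H2S
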