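import Pool.Agent.H2S.DensQ
import Pool.Agent.H2S.LocGlob

/-!
# H2S/Dens: at least 98 percent of all integers are representable

`f N = #{n < N : ¬ Rep n}`. Take `Q` from `local_global` with `ε = 0.0001`. A non-representable `n < N` is divisible by 4 or
good for `Q` (at most `0.0001 N`) or counted in `dens_blocked` (`≤ 0.0143 N`). If `n = 4 m` is not representable then `m` is not
(`4 m = (2^(a+1) 3^b)² + (2^(c+1) 5^d)² + (2x)² + (2y)²`): these are at most `f (N/4 + 1)`. So
`f N ≤ 0.0144 N + f (N/4 + 1)` for `N ≥ N0`. By strong induction `f N ≤ 0.0195 N + C0` for all `N` with `C0 = N0 + 100`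
(`N < C0`: `f N ≤ N`; else `0.0144 N + 0.0195 (N/4 + 1) + C0 ≤ 0.0195 N + C0` as `N ≥ 100`), hence `f N ≤ 0.02 N` for large
`N`.
-/

namespace H2S

open Finset Filter

/-- `4 m` is representable if `m` is -/
private theorem rep_four {m : ℕ} (h : Rep m) : Rep (4 * m) := by
  obtain ⟨a, b, c, d, x, y, h⟩ := h
  refine ⟨a + 1, b, c + 1, d, 2 * x, 2 * y, ?_⟩
  rw [h]
  ring

open scoped Classical in
private theorem bad_four (N : ℕ) : ((range N).filter (fun n => 4 ∣ n ∧ ¬ Rep n)).card ≤
    ((range (N / 4 + 1)).filter (fun n => ¬ Rep n)).card := by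
  apply card_le_card_of_injOn (fun n => n / 4)
  · intro n hn
    have hn' := mem_filter.1 (mem_coe.1 hn)
    rw [mem_range] at hn'
    obtain ⟨h1, ⟨m, rfl⟩, h3⟩ := hn'
    apply mem_coe.2
    rw [mem_filter, mem_range]
    have h4 : 4 * m / 4 = m := by omega
    refine ⟨?_, ?_⟩
    · show 4 * m / 4 < N / 4 + 1
      omega
    · show ¬ Rep (4 * m / 4)
      rw [h4]
      exact fun h => h3 (rep_four h)
  · intro n hn m hm h
    have hn' := mem_filter.1 (mem_coe.1 hn)
    have hm' := mem_filter.1 (mem_coe.1 hm)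
    obtain ⟨a, ha⟩ := hn'.2.1
    obtain ⟨b, hb⟩ := hm'.2.1
    have h' : n / 4 = m / 4 := h
    omega

open scoped Classical in
theorem density : ∀ᶠ N : ℕ in atTop, (((range N).filter (fun n => ¬ Rep n)).card : ℝ) ≤ 0.02 * N := by
  obtain ⟨Q, hQ, hlg⟩ := local_global (ε := 0.0001) (by norm_num)
  have hdb := dens_blocked Q hQ
  have hlg' : ∀ᶠ N : ℕ in atTop,
      (((range N).filter (fun n : ℕ => (∃ a b c d : ℕ, 2 ≤ b ∧ GoodZ Q ((n : ℤ) - kk a b c d)) ∧
        ¬ Rep n)).card : ℝ) ≤ 0.0001 * N := by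
    refine hlg.mono (fun N hN => ?_)
    convert hN using 3
    apply filter_congr
    intro n _
    exact and_comm
  have hstep : ∀ᶠ N : ℕ in atTop, (((range N).filter (fun n => ¬ Rep n)).card : ℝ) ≤
      0.0144 * N + (((range (N / 4 + 1)).filter (fun n => ¬ Rep n)).card : ℝ) := by
    filter_upwards [hdb, hlg'] with N h1 h2
    have hsub : (range N).filter (fun n => ¬ Rep n) ⊆
        ((range N).filter (fun n : ℕ => (∃ a b c d : ℕ, 2 ≤ b ∧ GoodZ Q ((n : ℤ) - kk a b c d)) ∧ ¬ Rep n) ∪
        (range N).filter (fun n => ¬ 4 ∣ n ∧ ¬ Good Q n)) ∪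
        (range N).filter (fun n => 4 ∣ n ∧ ¬ Rep n) := by
      intro n hn
      rw [mem_filter] at hn
      rw [mem_union, mem_union, mem_filter, mem_filter, mem_filter]
      by_cases h4 : 4 ∣ n
      · exact Or.inr ⟨hn.1, h4, hn.2⟩
      · by_cases hg : Good Q n
        · exact Or.inl (Or.inl ⟨hn.1, hg, hn.2⟩)
        · exact Or.inl (Or.inr ⟨hn.1, h4, hg⟩)
    have h3 := (card_le_card hsub).trans ((card_union_le _ _).trans (Nat.add_le_add_right (card_union_le _ _) _))
    have h4 := bad_four N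
    have h5 : (((range N).filter (fun n => ¬ Rep n)).card : ℝ) ≤
        ((((range N).filter (fun n : ℕ => (∃ a b c d : ℕ, 2 ≤ b ∧ GoodZ Q ((n : ℤ) - kk a b c d)) ∧
          ¬ Rep n)).card : ℕ) : ℝ) + ((((range N).filter (fun n => ¬ 4 ∣ n ∧ ¬ Good Q n)).card : ℕ) : ℝ) +
        ((((range (N / 4 + 1)).filter (fun n => ¬ Rep n)).card : ℕ) : ℝ) := by
      exact_mod_cast h3.trans (Nat.add_le_add_left h4 _)
    linarith
  obtain ⟨N0, hN0⟩ := eventually_atTop.1 hstep
  have hmain : ∀ N : ℕ, (((range N).filter (fun n => ¬ Rep n)).card : ℝ) ≤ 0.0195 * N + ((N0 : ℝ) + 100) := by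
    intro N
    induction N using Nat.strong_induction_on with
    | _ N ih =>
      by_cases hN : N < N0 + 100
      · have h1 : ((range N).filter (fun n => ¬ Rep n)).card ≤ N :=
          (card_filter_le _ _).trans (by rw [card_range])
        have h2 : (((range N).filter (fun n => ¬ Rep n)).card : ℝ) ≤ N := by exact_mod_cast h1
        have h3 : (N : ℝ) ≤ N0 + 100 := by exact_mod_cast hN.le
        have h4 : (0 : ℝ) ≤ N := Nat.cast_nonneg _
        linarith
      · rw [not_lt] at hN
        have h1 := hN0 N (by omega)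
        have h2 := ih (N / 4 + 1) (by omega)
        have h3 : ((N / 4 + 1 : ℕ) : ℝ) ≤ (N : ℝ) / 4 + 1 := by
          push_cast
          have := @Nat.cast_div_le ℝ _ _ _ N 4
          push_cast at this
          linarith
        have h4 : (100 : ℝ) ≤ N := by exact_mod_cast (by omega : 100 ≤ N)
        linarith
  have hfin : ∀ᶠ N : ℕ in atTop, 2000 * ((N0 : ℝ) + 100) ≤ N :=
    tendsto_natCast_atTop_atTop.eventually (eventually_ge_atTop _)
  filter_upwards [hfin] with N hN
  have := hmain N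
  linarith

end H2S
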