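import Pool.Agent.H2S.Blk

/-!
# H2S/DensQ: the density of the numbers without a good quadruple

`Π' = ∏_{q ∈ Q.erase 7} q` is coprime to `1512 = 2³ 3³ 7` (its primes are `≥ 11`). For `r < 1512`, `4 ∤ r`, with `S_r` from
`blocked_class`: for `m ∈ S_r` the `n < N` with `n = r mod 1512`, `n = m mod Π'` form one class modulo `1512 Π'`: at most
`N/(1512 Π') + 1`. The `n < N`, `4 ∤ n`, not good, are thus at most
`∑_r (N/(1512 Π') + 1) β_r Π' = (N/1512 + Π') ∑_r β_r`, and there are 1134 residues `r` with `4 ∤ r`, 9 of them with `FB r`: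
`∑ β_r = 1125 · 0.0186 + 9 · 0.066 = 21.519`, `21.519/1512 ≤ 0.014233`. So at most `0.0143 N` for large `N`.
-/

namespace H2S

open Finset Filter

/-- The number of elements of a class. -/
private lemma dq_one {P : ℕ} (hcop : Nat.Coprime 1512 P) (N r m : ℕ) :
    ((range N).filter (fun n => n % 1512 = r ∧ n % P = m)).card ≤ N / (1512 * P) + 1 := by
  have h : ((range N).filter (fun n => n % 1512 = r ∧ n % P = m)).card ≤
      (range (N / (1512 * P) + 1)).card := by
    refine card_le_card_of_injOn (fun n => n / (1512 * P)) ?_ ?_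
    · intro n hn
      have hn' := mem_filter.1 hn
      have h1 := mem_range.1 hn'.1
      exact mem_coe.2 (mem_range.2 (Nat.lt_succ_of_le (Nat.div_le_div_right h1.le)))
    · intro n hn n' hn' h
      have h1 := (mem_filter.1 (mem_coe.1 hn)).2
      have h2 := (mem_filter.1 (mem_coe.1 hn')).2
      have h3 : n % (1512 * P) = n' % (1512 * P) :=
        (Nat.modEq_and_modEq_iff_modEq_mul hcop).1 ⟨h1.1.trans h2.1.symm, h1.2.trans h2.2.symm⟩
      have h4 := Nat.div_add_mod n (1512 * P)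
      have h5 := Nat.div_add_mod n' (1512 * P)
      have h6 : n / (1512 * P) = n' / (1512 * P) := h
      rw [← h4, ← h5, h6, h3]
  rwa [card_range] at h

private lemma dq_cop {q : ℕ} (hq : q.Prime) (h3 : 3 < q) (h7 : q ≠ 7) : Nat.Coprime 1512 q := by
  rw [Nat.coprime_comm, Nat.Prime.coprime_iff_not_dvd hq]
  intro hd
  have h2' : ∀ k, k ≤ 3 → 0 < k → ¬ q ∣ k := fun k hk hk0 h => by
    have := Nat.le_of_dvd hk0 h
    omega
  have e : 1512 = 2 * (2 * (2 * (3 * (3 * (3 * 7))))) := by norm_num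
  rw [e, hq.dvd_mul, hq.dvd_mul, hq.dvd_mul, hq.dvd_mul, hq.dvd_mul, hq.dvd_mul] at hd
  rcases hd with h | h | h | h | h | h | h
  · exact h2' 2 (by norm_num) (by norm_num) h
  · exact h2' 2 (by norm_num) (by norm_num) h
  · exact h2' 2 (by norm_num) (by norm_num) h
  · exact h2' 3 (by norm_num) (by norm_num) h
  · exact h2' 3 (by norm_num) (by norm_num) h
  · exact h2' 3 (by norm_num) (by norm_num) h
  · exact h7 ((Nat.prime_dvd_prime_iff_eq hq (by norm_num)).1 h)

private lemma dq_c1 : (((range 1512).filter (fun r => ¬ 4 ∣ r)).filter (fun r => FB r)).card = 9 := by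
  decide +kernel

private lemma dq_c2 :
    (((range 1512).filter (fun r => ¬ 4 ∣ r)).filter (fun r => ¬ FB r)).card = 1125 := by
  decide +kernel

open scoped Classical in
theorem dens_blocked (Q : Finset ℕ) (hQ : ∀ q ∈ Q, q.Prime ∧ q % 4 = 3 ∧ 3 < q) :
    ∀ᶠ N : ℕ in atTop,
      (((range N).filter (fun n => ¬ 4 ∣ n ∧ ¬ Good Q n)).card : ℝ) ≤ 0.0143 * N := by
  have hQ' : ∀ q ∈ Q.erase 7, q.Prime ∧ 3 < q ∧ q ≠ 7 := fun q hq =>
    ⟨(hQ q (mem_of_mem_erase hq)).1, (hQ q (mem_of_mem_erase hq)).2.2, ne_of_mem_erase hq⟩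
  choose! S hS1 hS2 hS3 using blocked_class Q hQ
  set P : ℕ := ∏ q ∈ Q.erase 7, q with hP
  have hPc : ∏ q ∈ Q.erase 7, (q : ℝ) = (P : ℝ) := by rw [hP]; push_cast; rfl
  have hP0 : 0 < P := prod_pos fun q hq => (hQ' q hq).1.pos
  have hP0' : (0 : ℝ) < P := by exact_mod_cast hP0
  have hcop : Nat.Coprime 1512 P :=
    Nat.Coprime.prod_right fun q hq => dq_cop (hQ' q hq).1 (hQ' q hq).2.1 (hQ' q hq).2.2
  set R : Finset ℕ := (range 1512).filter (fun r => ¬ 4 ∣ r) with hR
  have hRm : ∀ r ∈ R, r < 1512 ∧ ¬ 4 ∣ r := fun r hr =>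
    ⟨mem_range.1 (mem_filter.1 hr).1, (mem_filter.1 hr).2⟩
  have hsub : ∀ N : ℕ, ((range N).filter (fun n => ¬ 4 ∣ n ∧ ¬ Good Q n)) ⊆
      R.biUnion (fun r => (S r).biUnion (fun m =>
        (range N).filter (fun n => n % 1512 = r ∧ n % P = m))) := by
    intro N n hn
    have hn0 := (mem_filter.1 hn).1
    have h4 := (mem_filter.1 hn).2.1
    have hg := (mem_filter.1 hn).2.2
    have hr1 : n % 1512 < 1512 := Nat.mod_lt _ (by norm_num)
    have hr2 : ¬ 4 ∣ n % 1512 := by omega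
    rw [mem_biUnion]
    refine ⟨n % 1512, ?_, ?_⟩
    · rw [hR]
      exact mem_filter.2 ⟨mem_range.2 hr1, hr2⟩
    · rw [mem_biUnion]
      exact ⟨n % P, hS3 _ hr1 hr2 n rfl hg, mem_filter.2 ⟨hn0, rfl, rfl⟩⟩
  have hcard : ∀ N : ℕ, ((range N).filter (fun n => ¬ 4 ∣ n ∧ ¬ Good Q n)).card ≤
      ∑ r ∈ R, (S r).card * (N / (1512 * P) + 1) := by
    intro N
    refine (card_le_card (hsub N)).trans (card_biUnion_le.trans ?_)
    refine sum_le_sum fun r _ => ?_
    exact card_biUnion_le_card_mul _ _ _ fun m _ => dq_one hcop N r m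
  have hbeta : ∑ r ∈ R, (if FB r then (0.066 : ℝ) else 0.0186) = 21.519 := by
    rw [← sum_filter_add_sum_filter_not R (fun r => FB r)]
    rw [sum_congr rfl (g := fun _ => (0.066 : ℝ)) (fun r hr => by rw [if_pos (mem_filter.1 hr).2]),
      sum_congr (s₁ := R.filter (fun r => ¬ FB r)) rfl (g := fun _ => (0.0186 : ℝ))
        (fun r hr => by rw [if_neg (mem_filter.1 hr).2])]
    rw [sum_const, sum_const]
    have e1 : (R.filter (fun r => FB r)).card = 9 := by
      rw [hR]
      convert dq_c1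
    have e2 : (R.filter (fun r => ¬ FB r)).card = 1125 := by
      rw [hR]
      convert dq_c2
    rw [e1, e2]
    norm_num
  have hreal : ∀ N : ℕ, (((range N).filter (fun n => ¬ 4 ∣ n ∧ ¬ Good Q n)).card : ℝ) ≤
      (N / 1512 + P) * 21.519 := by
    intro N
    have h1 : (((range N).filter (fun n => ¬ 4 ∣ n ∧ ¬ Good Q n)).card : ℝ) ≤
        ((∑ r ∈ R, (S r).card * (N / (1512 * P) + 1) : ℕ) : ℝ) := by exact_mod_cast hcard N
    refine h1.trans ?_
    push_cast
    have h2 : (((N / (1512 * P) : ℕ) : ℝ)) ≤ (N : ℝ) / (1512 * P) := by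
      have := Nat.cast_div_le (α := ℝ) (m := N) (n := 1512 * P)
      push_cast at this
      exact this
    have h3 : ∀ r ∈ R, ((S r).card : ℝ) * (((N / (1512 * P) : ℕ) : ℝ) + 1) ≤
        ((N : ℝ) / 1512 + P) * (if FB r then (0.066 : ℝ) else 0.0186) := by
      intro r hr
      have h4 := hS1 r (hRm r hr).1 (hRm r hr).2
      rw [hPc] at h4
      have h5 : (0 : ℝ) ≤ if FB r then (0.066 : ℝ) else 0.0186 := by split_ifs <;> norm_num
      calc ((S r).card : ℝ) * (((N / (1512 * P) : ℕ) : ℝ) + 1) ≤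
          ((if FB r then (0.066 : ℝ) else 0.0186) * P) * ((N : ℝ) / (1512 * P) + 1) := by
            exact mul_le_mul h4 (by linarith) (add_nonneg (Nat.cast_nonneg _) zero_le_one)
              (mul_nonneg h5 hP0'.le)
        _ = ((N : ℝ) / 1512 + P) * (if FB r then (0.066 : ℝ) else 0.0186) := by
            field_simp
    have h6 := sum_le_sum h3
    rw [← mul_sum, hbeta] at h6
    exact h6
  obtain ⟨N0, hN0⟩ := exists_nat_ge (21.519 * (P : ℝ) / (0.0143 - 21.519 / 1512))
  filter_upwards [eventually_ge_atTop N0] with N hN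
  refine (hreal N).trans ?_
  have h1 : (21.519 * (P : ℝ) / (0.0143 - 21.519 / 1512)) ≤ N := hN0.trans (by exact_mod_cast hN)
  rw [div_le_iff₀ (by norm_num)] at h1
  linarith

end H2S
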