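import Pool.Agent.H2S.Defs

/-!
# H2S/Expand: expansion of `S(t)` in additive characters

* `range_split`: `a ↦ (d / gcd(a,d), a / gcd(a,d))` is a bijection from `range d` to the pairs `(q, a')`, `q ∣ d`,
  `a' < q`, `(a', q) = 1` (inverse `(q, a') ↦ a' (d / q)`; `a = 0` corresponds to `q = 1`, `a' = 0`).
* `ind_eq`: `∑_{a < d} ex (a u / d)` is `d` if `d ∣ u`, else 0 (geometric sum).
* `SS_expand`: `[d ∣ t - κ i] = (1/d) ∑_{a<d} ex (a (t - κ i) / d)`, split the inner sum by `range_split` with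
  `f q a = ex (a (t - κ i) / q)`, exchange the sums: the pair `(q, a)` gets the factor
  `∑_{d ≤ D, (d,ω)=1, q ∣ d} chi d / d = lam ω D q`, and `q ∣ d`, `(d, ω) = 1` imply `(q, ω) = 1`, `q ≤ D`.
* `SS_sub`: `fr ω 0 D` is the disjoint union of `{(1,0)}`, `fr ω 1 H` and `fr ω H D` (for `1 ≤ H ≤ D`), and the term of
  `(1, 0)` is `lam ω D 1 * I.card`.
-/

namespace H2S

open Finset Pool.Agent.Pal

theorem range_split (d : ℕ) (hd : 0 < d) (f : ℕ → ℕ → ℂ)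
    (hf : ∀ q a g : ℕ, 0 < g → f (q * g) (a * g) = f q a) :
    ∑ a ∈ range d, f d a =
      ∑ q ∈ d.divisors, ∑ a ∈ (range q).filter (fun a => Nat.Coprime a q), f q a := by
  rw [Finset.sum_sigma']
  refine Finset.sum_nbij' (fun a => ⟨d / Nat.gcd a d, a / Nat.gcd a d⟩) (fun x => x.2 * (d / x.1))
    ?_ ?_ ?_ ?_ ?_
  · intro a ha
    rw [mem_range] at ha
    have hg : 0 < Nat.gcd a d := Nat.gcd_pos_of_pos_right a hd
    have h1 : Nat.gcd a d ∣ a := Nat.gcd_dvd_left a d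
    have h2 : Nat.gcd a d ∣ d := Nat.gcd_dvd_right a d
    simp only [mem_sigma, Nat.mem_divisors, mem_filter, mem_range]
    refine ⟨⟨Nat.div_dvd_of_dvd h2, hd.ne'⟩, ?_, ?_⟩
    · exact Nat.div_lt_div_of_lt_of_dvd h2 ha
    · exact Nat.coprime_div_gcd_div_gcd hg
  · rintro ⟨q, a⟩ hx
    simp only [mem_sigma, Nat.mem_divisors, mem_filter, mem_range] at hx
    obtain ⟨⟨hq, -⟩, ha, -⟩ := hx
    rw [mem_range]
    have hq0 : 0 < q := Nat.pos_of_dvd_of_pos hq hd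
    have h1 : 0 < d / q := Nat.div_pos (Nat.le_of_dvd hd hq) hq0
    calc a * (d / q) < q * (d / q) := Nat.mul_lt_mul_of_pos_right ha h1
      _ = d := Nat.mul_div_cancel' hq
  · intro a ha
    have hg : 0 < Nat.gcd a d := Nat.gcd_pos_of_pos_right a hd
    have h1 : Nat.gcd a d ∣ a := Nat.gcd_dvd_left a d
    have h2 : Nat.gcd a d ∣ d := Nat.gcd_dvd_right a d
    show a / Nat.gcd a d * (d / (d / Nat.gcd a d)) = a
    rw [Nat.div_div_self h2 hd.ne', Nat.div_mul_cancel h1]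
  · rintro ⟨q, a⟩ hx
    simp only [mem_sigma, Nat.mem_divisors, mem_filter, mem_range] at hx
    obtain ⟨⟨hq, -⟩, ha, hc⟩ := hx
    have hq0 : 0 < q := Nat.pos_of_dvd_of_pos hq hd
    obtain ⟨k, rfl⟩ := hq
    have hk : 0 < k := Nat.pos_of_mul_pos_left hd |> fun _ => by
      rcases Nat.eq_zero_or_pos k with h | h
      · subst h; simp at hd
      · exact h
    have h1 : q * k / q = k := Nat.mul_div_cancel_left k hq0
    have h2 : Nat.gcd (a * k) (q * k) = k := by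
      rw [Nat.gcd_mul_right, hc.gcd_eq_one, one_mul]
    simp only [h1, h2]
    rw [Nat.mul_div_cancel _ hk, Nat.mul_div_cancel _ hk]
  · intro a ha
    have hg : 0 < Nat.gcd a d := Nat.gcd_pos_of_pos_right a hd
    have h1 : Nat.gcd a d ∣ a := Nat.gcd_dvd_left a d
    have h2 : Nat.gcd a d ∣ d := Nat.gcd_dvd_right a d
    have h3 := hf (d / Nat.gcd a d) (a / Nat.gcd a d) (Nat.gcd a d) hg
    rw [Nat.div_mul_cancel h1, Nat.div_mul_cancel h2] at h3
    exact h3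

theorem ex_eq_one {x : ℝ} (h : ex x = 1) : ∃ n : ℤ, x = n := by
  unfold ex at h
  rw [Complex.exp_eq_one_iff] at h
  obtain ⟨n, hn⟩ := h
  refine ⟨n, ?_⟩
  have h1 : ((2 * Real.pi * x : ℝ) : ℂ) = ((2 * Real.pi * n : ℝ) : ℂ) := by
    apply mul_right_cancel₀ Complex.I_ne_zero
    rw [hn]
    push_cast
    ring
  have h2 : 2 * Real.pi * x = 2 * Real.pi * n := by exact_mod_cast h1
  have h3 : (2 * Real.pi : ℝ) ≠ 0 := by positivity
  exact mul_left_cancel₀ h3 h2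

theorem ind_eq (d : ℕ) (hd : 0 < d) (u : ℤ) :
    ∑ a ∈ range d, ex ((a : ℝ) * u / d) = if (d : ℤ) ∣ u then (d : ℂ) else 0 := by
  have hd0 : (d : ℝ) ≠ 0 := by exact_mod_cast hd.ne'
  have h0 : ∀ a : ℕ, ex ((a : ℝ) * u / d) = ex ((u : ℝ) / d) ^ a := by
    intro a
    rw [← ex_nat_mul]
    congr 1
    ring
  split_ifs with h
  · obtain ⟨k, rfl⟩ := h
    have h1 : ∀ a ∈ range d, ex ((a : ℝ) * ((d * k : ℤ) : ℝ) / d) = 1 := by
      intro a _
      have : (a : ℝ) * ((d * k : ℤ) : ℝ) / d = ((a * k : ℤ) : ℝ) := by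
        push_cast
        field_simp
      rw [this, ex_int]
    rw [Finset.sum_congr rfl h1]
    simp
  · have hne : ex ((u : ℝ) / d) ≠ 1 := by
      intro h1
      obtain ⟨n, hn⟩ := ex_eq_one h1
      apply h
      refine ⟨n, ?_⟩
      have : (u : ℝ) = d * n := by
        rw [← hn]; field_simp
      exact_mod_cast this
    rw [Finset.sum_congr rfl (fun a _ => h0 a), geom_sum_eq hne]
    have h2 : ex ((u : ℝ) / d) ^ d = 1 := by
      rw [← ex_nat_mul]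
      have : (d : ℝ) * ((u : ℝ) / d) = u := by field_simp
      rw [this, ex_int]
    rw [h2, sub_self, zero_div]

/-- the pairs with `q ∣ d` -/
theorem fr_dvd {ω D d : ℕ} (hd : 0 < d) (hdD : d ≤ D) (hc : Nat.Coprime d ω) (g : ℕ → ℕ → ℂ) :
    ∑ p ∈ fr ω 0 D, (if p.1 ∣ d then g p.1 p.2 else 0) =
      ∑ q ∈ d.divisors, ∑ a ∈ (range q).filter (fun a => Nat.Coprime a q), g q a := by
  rw [← Finset.sum_filter, Finset.sum_sigma']
  refine Finset.sum_nbij' (fun p => ⟨p.1, p.2⟩) (fun x => (x.1, x.2)) ?_ ?_ ?_ ?_ ?_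
  · rintro ⟨q, a⟩ hp
    simp only [fr, mem_filter, mem_product, mem_Ioc, mem_range] at hp
    simp only [mem_sigma, Nat.mem_divisors, mem_filter, mem_range]
    exact ⟨⟨hp.2, hd.ne'⟩, hp.1.2.2.1, hp.1.2.2.2⟩
  · rintro ⟨q, a⟩ hx
    simp only [mem_sigma, Nat.mem_divisors, mem_filter, mem_range] at hx
    obtain ⟨⟨hq, -⟩, ha, hcop⟩ := hx
    have hq1 : q ≤ d := Nat.le_of_dvd hd hq
    have hq0 : 0 < q := Nat.pos_of_dvd_of_pos hq hd
    simp only [fr, mem_filter, mem_product, mem_Ioc, mem_range]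
    exact ⟨⟨⟨⟨hq0, hq1.trans hdD⟩, by omega⟩, Nat.Coprime.coprime_dvd_left hq hc, ha, hcop⟩, hq⟩
  · rintro ⟨q, a⟩ _; rfl
  · rintro ⟨q, a⟩ _; rfl
  · rintro ⟨q, a⟩ _; rfl

theorem SS_expand {ι : Type} (I : Finset ι) (κ : ι → ℤ) (ω D : ℕ) (t : ℤ) :
    (SS I κ ω D t : ℂ) =
      ∑ p ∈ fr ω 0 D, (lam ω D p.1 : ℂ) * KK I κ p.1 p.2 * ex ((p.2 : ℝ) * t / p.1) := by
  -- the right hand side
  have hR : ∀ p ∈ fr ω 0 D, (lam ω D p.1 : ℂ) * KK I κ p.1 p.2 * ex ((p.2 : ℝ) * t / p.1) =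
      ∑ d ∈ (Icc 1 D).filter (fun d => Nat.Coprime d ω), (if p.1 ∣ d then
        ((chi d : ℂ) / d) * ∑ i ∈ I, ex ((p.2 : ℝ) * ((t - κ i : ℤ) : ℝ) / p.1) else 0) := by
    intro p _
    have h1 : KK I κ p.1 p.2 * ex ((p.2 : ℝ) * t / p.1) =
        ∑ i ∈ I, ex ((p.2 : ℝ) * ((t - κ i : ℤ) : ℝ) / p.1) := by
      unfold KK
      rw [Finset.sum_mul]
      refine Finset.sum_congr rfl fun i _ => ?_
      rw [← ex_add]
      congr 1
      push_cast
      ring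
    rw [mul_assoc, h1, ← Finset.sum_filter, Finset.filter_filter, ← Finset.sum_mul]
    congr 1
    unfold lam
    push_cast
    rfl
  rw [Finset.sum_congr rfl hR, Finset.sum_comm]
  unfold SS
  rw [Finset.sum_comm, Complex.ofReal_sum]
  refine Finset.sum_congr rfl fun d hd => ?_
  rw [Complex.ofReal_sum]
  rw [mem_filter, mem_Icc] at hd
  obtain ⟨⟨hd1, hdD⟩, hcop⟩ := hd
  have hd0 : (d : ℂ) ≠ 0 := by
    have : d ≠ 0 := by omega
    exact_mod_cast this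
  have h2 := fr_dvd (ω := ω) hd1 hdD hcop
    (fun q a => ((chi d : ℂ) / d) * ∑ i ∈ I, ex ((a : ℝ) * ((t - κ i : ℤ) : ℝ) / q))
  rw [h2]
  have h3 : ∀ i ∈ I, (if (d : ℤ) ∣ t - κ i then (chi d : ℂ) else 0) =
      (chi d : ℂ) / d * ∑ q ∈ d.divisors, ∑ a ∈ (range q).filter (fun a => Nat.Coprime a q),
        ex ((a : ℝ) * ((t - κ i : ℤ) : ℝ) / q) := by
    intro i _
    have h4 := range_split d hd1 (fun q a => ex ((a : ℝ) * ((t - κ i : ℤ) : ℝ) / q)) (by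
      intro q a g hg
      have hg0 : (g : ℝ) ≠ 0 := by
        have : g ≠ 0 := by omega
        exact_mod_cast this
      rcases Nat.eq_zero_or_pos q with h | h
      · subst h; simp
      · have hq0 : (q : ℝ) ≠ 0 := by
          have : q ≠ 0 := by omega
          exact_mod_cast this
        show ex (((a * g : ℕ) : ℝ) * _ / ((q * g : ℕ) : ℝ)) = ex ((a : ℝ) * _ / q)
        congr 1
        push_cast
        field_simp)
    rw [← h4, ind_eq d hd1]
    split_ifs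
    · field_simp
    · simp
  rw [show (∑ x ∈ I, ((if (d : ℤ) ∣ t - κ x then ((chi d : ℤ) : ℝ) else 0 : ℝ) : ℂ)) =
    ∑ i ∈ I, (if (d : ℤ) ∣ t - κ i then (chi d : ℂ) else 0) from
      Finset.sum_congr rfl fun i _ => by split_ifs <;> simp]
  rw [Finset.sum_congr rfl h3, ← Finset.mul_sum, Finset.sum_comm]
  rw [Finset.mul_sum]
  refine Finset.sum_congr rfl fun q _ => ?_
  rw [Finset.sum_comm, Finset.mul_sum]

theorem SS_sub {ι : Type} (I : Finset ι) (κ : ι → ℤ) {ω H D : ℕ} (hH : 1 ≤ H) (hHD : H ≤ D) (t : ℤ) :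
    ((SS I κ ω D t - lam ω D 1 * I.card : ℝ) : ℂ) =
      ∑ p ∈ fr ω 1 H, (lam ω D p.1 : ℂ) * KK I κ p.1 p.2 * ex ((p.2 : ℝ) * t / p.1) +
      ∑ p ∈ fr ω H D, (lam ω D p.1 : ℂ) * KK I κ p.1 p.2 * ex ((p.2 : ℝ) * t / p.1) := by
  have hset : fr ω 0 D = insert (1, 0) (fr ω 1 H ∪ fr ω H D) := by
    ext ⟨q, a⟩
    simp only [fr, mem_insert, mem_union, mem_filter, mem_product, mem_Ioc, mem_range,
      Prod.mk.injEq]
    constructor
    · rintro ⟨⟨⟨h1, h2⟩, h3⟩, h4, h5, h6⟩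
      rcases Nat.lt_or_ge 1 q with h | h
      · right
        rcases Nat.lt_or_ge H q with h7 | h7
        · right; exact ⟨⟨⟨h7, h2⟩, h3⟩, h4, h5, h6⟩
        · left; exact ⟨⟨⟨h, h7⟩, by omega⟩, h4, h5, h6⟩
      · left; omega
    · rintro (⟨rfl, rfl⟩ | h | h)
      · exact ⟨⟨⟨by omega, by omega⟩, by omega⟩, Nat.coprime_one_left ω, by omega, Nat.coprime_one_right 0⟩
      · obtain ⟨⟨⟨h1, h2⟩, h3⟩, h4, h5, h6⟩ := h
        exact ⟨⟨⟨by omega, by omega⟩, by omega⟩, h4, h5, h6⟩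
      · obtain ⟨⟨⟨h1, h2⟩, h3⟩, h4, h5, h6⟩ := h
        exact ⟨⟨⟨by omega, by omega⟩, by omega⟩, h4, h5, h6⟩
  have hnot : ((1, 0) : ℕ × ℕ) ∉ fr ω 1 H ∪ fr ω H D := by
    simp only [fr, mem_union, mem_filter, mem_product, mem_Ioc, mem_range]
    omega
  have hdis : Disjoint (fr ω 1 H) (fr ω H D) := by
    rw [Finset.disjoint_left]
    rintro ⟨q, a⟩ h1 h2
    simp only [fr, mem_filter, mem_product, mem_Ioc, mem_range] at h1 h2
    omega
  have h := SS_expand I κ ω D t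
  rw [hset, Finset.sum_insert hnot, Finset.sum_union hdis] at h
  have h1 : (lam ω D 1 : ℂ) * KK I κ 1 0 * ex (((0 : ℕ) : ℝ) * t / ((1 : ℕ) : ℝ)) =
      (lam ω D 1 : ℂ) * I.card := by
    have h2 : KK I κ 1 0 = I.card := by
      unfold KK
      simp [ex_zero]
    rw [h2]
    simp [ex_zero]
  rw [h1] at h
  push_cast
  rw [h]
  ring

end H2S
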