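import Pool.Agent.H2S.Defs

/-!
# H2S/FamN: coincidences in the family

`fam a b c d E (i, j) = A 9^(b+E i) + B 25^(d+E j)`, `A = 4^a`, `B = 4^c`; `I = range T ×ˢ range T`.
* `pow_count`: in a group (here: units of `ZMod q`, or directly: `x ∈ ZMod q` nonzero, `q` prime) the `i < T` with
  `x^i = y` lie in one class modulo `o = orderOf x`: at most `T/o + 1`.
* `count9`: for given `i', j, j'` the condition `q ∣ fam (i,j) - fam (i',j')` determines `A 9^b (9^E)^i` modulo `q`, and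
  `A 9^b` is a unit (`q ∤ 30`): at most `T / o9 + 1` values of `i`. `count25`: the same with the roles exchanged.
* `diag_le`: `fam (i,j) = fam (i',j')`. If `i = i'` then `j = j'` (`E ≥ 1`, strict monotonicity): `T²` pairs. If
  `i > i'` then `j < j'` and `A 9^(b+E i') (9^(E(i-i')) - 1) = B 25^(d+E j) (25^(E(j'-j)) - 1)`; the exponent of 5 on the
  right is exactly `2 (d + E j)`, so `j` is determined by `(i, i')`, and then `j'` is determined too: at most one
  `(j, j')` for each `(i, i')` with `i ≠ i'` (the case `i < i'` is symmetric). Total at most `2 T²`.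
-/

namespace H2S

open Finset

theorem pow_count {q : ℕ} [NeZero q] (u : (ZMod q)ˣ) (v w : ZMod q) (hv : IsUnit v) (T : ℕ) :
    ((range T).filter (fun i => v * (u : ZMod q) ^ i = w)).card ≤ T / orderOf (u : ZMod q) + 1 := by
  rw [orderOf_units]
  by_cases he : ∃ i0, v * (u : ZMod q) ^ i0 = w
  · obtain ⟨i0, hi0⟩ := he
    have hsub : (range T).filter (fun i => v * (u : ZMod q) ^ i = w) ⊆
        (range T).filter (fun i => i ≡ i0 [MOD orderOf u]) := by
      intro i hi
      rw [mem_filter] at hi ⊢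
      refine ⟨hi.1, ?_⟩
      have h1 : v * (u : ZMod q) ^ i = v * (u : ZMod q) ^ i0 := by rw [hi.2, hi0]
      have h2 := hv.mul_left_cancel h1
      have h3 : u ^ i = u ^ i0 := by
        apply Units.ext
        rw [Units.val_pow_eq_pow_val, Units.val_pow_eq_pow_val]
        exact h2
      exact pow_eq_pow_iff_modEq.mp h3
    refine (card_le_card hsub).trans ?_
    rw [← Nat.count_eq_card_filter_range, Nat.count_modEq_card _ (orderOf_pos u)]
    split_ifs <;> omega
  · have : (range T).filter (fun i => v * (u : ZMod q) ^ i = w) = ∅ := by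
      apply filter_eq_empty_iff.mpr
      intro i _ hi
      exact he ⟨i, hi⟩
    rw [this]
    simp

theorem fiber9 (P : (ℕ × ℕ) × (ℕ × ℕ) → Prop) [DecidablePred P] (T K : ℕ)
    (h : ∀ j i' j', ((range T).filter (fun i => P ((i, j), (i', j')))).card ≤ K) :
    (((range T ×ˢ range T) ×ˢ (range T ×ˢ range T)).filter P).card ≤ K * T ^ 3 := by
  refine (card_le_mul_card_image (f := fun p : (ℕ × ℕ) × (ℕ × ℕ) => (p.1.2, p.2)) _ K ?_).trans ?_
  · rintro ⟨j, i', j'⟩ _
    refine le_trans ?_ (h j i' j')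
    refine card_le_card_of_injOn (fun p => p.1.1) ?_ ?_
    · intro p hp
      rw [mem_coe, mem_filter, mem_filter, mem_product, mem_product] at hp
      rw [mem_coe, mem_filter]
      refine ⟨hp.1.1.1.1, ?_⟩
      obtain ⟨⟨a, b⟩, c⟩ := p
      simp only [Prod.mk.injEq] at hp
      obtain ⟨⟨_, hP⟩, hb, hc⟩ := hp
      subst hb
      rw [← hc]
      exact hP
    · intro p hp p' hp' he
      rw [mem_coe, mem_filter] at hp hp'
      have h1 := hp.2.trans hp'.2.symm
      obtain ⟨⟨a, b⟩, c⟩ := p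
      obtain ⟨⟨a', b'⟩, c'⟩ := p'
      simp only [Prod.mk.injEq] at h1 he ⊢
      exact ⟨⟨he, h1.1⟩, h1.2⟩
  · refine Nat.mul_le_mul_left _ ?_
    refine (card_le_card (t := range T ×ˢ (range T ×ˢ range T)) ?_).trans (le_of_eq ?_)
    · intro x hx
      rw [mem_image] at hx
      obtain ⟨p, hp, rfl⟩ := hx
      rw [mem_filter, mem_product, mem_product] at hp
      rw [mem_product]
      exact ⟨hp.1.1.2, hp.1.2⟩
    · rw [card_product, card_product, card_range]
      ring

theorem fiber25 (P : (ℕ × ℕ) × (ℕ × ℕ) → Prop) [DecidablePred P] (T K : ℕ)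
    (h : ∀ i i' j', ((range T).filter (fun j => P ((i, j), (i', j')))).card ≤ K) :
    (((range T ×ˢ range T) ×ˢ (range T ×ˢ range T)).filter P).card ≤ K * T ^ 3 := by
  refine (card_le_mul_card_image (f := fun p : (ℕ × ℕ) × (ℕ × ℕ) => (p.1.1, p.2)) _ K ?_).trans ?_
  · rintro ⟨i, i', j'⟩ _
    refine le_trans ?_ (h i i' j')
    refine card_le_card_of_injOn (fun p => p.1.2) ?_ ?_
    · intro p hp
      rw [mem_coe, mem_filter, mem_filter, mem_product, mem_product] at hp
      rw [mem_coe, mem_filter]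
      refine ⟨hp.1.1.1.2, ?_⟩
      obtain ⟨⟨a, b⟩, c⟩ := p
      simp only [Prod.mk.injEq] at hp
      obtain ⟨⟨_, hP⟩, hb, hc⟩ := hp
      subst hb
      rw [← hc]
      exact hP
    · intro p hp p' hp' he
      rw [mem_coe, mem_filter] at hp hp'
      have h1 := hp.2.trans hp'.2.symm
      obtain ⟨⟨a, b⟩, c⟩ := p
      obtain ⟨⟨a', b'⟩, c'⟩ := p'
      simp only [Prod.mk.injEq] at h1 he ⊢
      exact ⟨⟨h1.1, he⟩, h1.2⟩
  · refine Nat.mul_le_mul_left _ ?_
    refine (card_le_card (t := range T ×ˢ (range T ×ˢ range T)) ?_).trans (le_of_eq ?_)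
    · intro x hx
      rw [mem_image] at hx
      obtain ⟨p, hp, rfl⟩ := hx
      rw [mem_filter, mem_product, mem_product] at hp
      rw [mem_product]
      exact ⟨hp.1.1.1, hp.1.2⟩
    · rw [card_product, card_product, card_range]
      ring

theorem unit_of {q : ℕ} (hq : q.Prime) (h30 : ¬ q ∣ 30) :
    IsUnit (2 : ZMod q) ∧ IsUnit (3 : ZMod q) ∧ IsUnit (5 : ZMod q) := by
  have key : ∀ m : ℕ, m ∣ 30 → IsUnit (m : ZMod q) := by
    intro m hm
    rw [ZMod.isUnit_iff_coprime]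
    rw [Nat.coprime_comm, hq.coprime_iff_not_dvd]
    exact fun h => h30 (h.trans hm)
  refine ⟨?_, ?_, ?_⟩
  · exact_mod_cast key 2 (by norm_num)
  · exact_mod_cast key 3 (by norm_num)
  · exact_mod_cast key 5 (by norm_num)

theorem real_bound {N T o : ℕ} (h : N ≤ (T / o + 1) * T ^ 3) :
    (N : ℝ) ≤ (T : ℝ) ^ 3 * ((T : ℝ) / o + 1) := by
  have h1 : (N : ℝ) ≤ (((T / o + 1) * T ^ 3 : ℕ) : ℝ) := by exact_mod_cast h
  refine h1.trans ?_
  push_cast
  rw [mul_comm]
  have h2 : ((T / o : ℕ) : ℝ) ≤ (T : ℝ) / o := Nat.cast_div_le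
  have h3 : (0 : ℝ) ≤ (T : ℝ) ^ 3 := by positivity
  exact mul_le_mul_of_nonneg_left (by linarith) h3

theorem count9 {q : ℕ} (hq : q.Prime) (h30 : ¬ q ∣ 30) (a b c d E T : ℕ) :
    ((((range T ×ˢ range T) ×ˢ (range T ×ˢ range T)).filter
      (fun p => (q : ℤ) ∣ (fam a b c d E p.1 : ℤ) - fam a b c d E p.2)).card : ℝ) ≤
      (T : ℝ) ^ 3 * ((T : ℝ) / orderOf ((9 : ZMod q) ^ E) + 1) := by
  have : NeZero q := ⟨hq.ne_zero⟩
  obtain ⟨u2, u3, u5⟩ := unit_of hq h30
  apply real_bound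
  apply fiber9
  intro j i' j'
  have u9 : IsUnit ((9 : ZMod q) ^ E) := by
    have : (9 : ZMod q) = 3 * 3 := by norm_num
    rw [this]
    exact (u3.mul u3).pow E
  have uv : IsUnit ((2 : ZMod q) ^ (2 * a) * 3 ^ (2 * b)) := (u2.pow _).mul (u3.pow _)
  obtain ⟨u, hu⟩ := u9
  rw [← hu]
  refine le_trans (card_le_card ?_) (pow_count u ((2 : ZMod q) ^ (2 * a) * 3 ^ (2 * b))
    ((fam a b c d E (i', j') : ZMod q) - (2 ^ c * 5 ^ (d + E * j)) ^ 2) uv T)
  intro i hi
  rw [mem_filter] at hi ⊢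
  refine ⟨hi.1, ?_⟩
  have h1 := hi.2
  rw [← ZMod.intCast_zmod_eq_zero_iff_dvd] at h1
  push_cast at h1
  have h2 : (fam a b c d E (i, j) : ZMod q) =
      (2 ^ (2 * a) * 3 ^ (2 * b)) * (u : ZMod q) ^ i + (2 ^ c * 5 ^ (d + E * j)) ^ 2 := by
    rw [hu]
    simp only [fam, kk]
    push_cast
    have h9 : ∀ n : ℕ, (9 : ZMod q) ^ n = 3 ^ (2 * n) := by
      intro n
      rw [pow_mul]
      norm_num
    rw [← pow_mul, h9]
    ring
  rw [h2] at h1
  linear_combination h1

theorem count25 {q : ℕ} (hq : q.Prime) (h30 : ¬ q ∣ 30) (a b c d E T : ℕ) :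
    ((((range T ×ˢ range T) ×ˢ (range T ×ˢ range T)).filter
      (fun p => (q : ℤ) ∣ (fam a b c d E p.1 : ℤ) - fam a b c d E p.2)).card : ℝ) ≤
      (T : ℝ) ^ 3 * ((T : ℝ) / orderOf ((25 : ZMod q) ^ E) + 1) := by
  have : NeZero q := ⟨hq.ne_zero⟩
  obtain ⟨u2, u3, u5⟩ := unit_of hq h30
  apply real_bound
  apply fiber25
  intro i i' j'
  have u9 : IsUnit ((25 : ZMod q) ^ E) := by
    have : (25 : ZMod q) = 5 * 5 := by norm_num
    rw [this]
    exact (u5.mul u5).pow E
  have uv : IsUnit ((2 : ZMod q) ^ (2 * c) * 5 ^ (2 * d)) := (u2.pow _).mul (u5.pow _)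
  obtain ⟨u, hu⟩ := u9
  rw [← hu]
  refine le_trans (card_le_card ?_) (pow_count u ((2 : ZMod q) ^ (2 * c) * 5 ^ (2 * d))
    ((fam a b c d E (i', j') : ZMod q) - (2 ^ a * 3 ^ (b + E * i)) ^ 2) uv T)
  intro j hj
  rw [mem_filter] at hj ⊢
  refine ⟨hj.1, ?_⟩
  have h1 := hj.2
  rw [← ZMod.intCast_zmod_eq_zero_iff_dvd] at h1
  push_cast at h1
  have h2 : (fam a b c d E (i, j) : ZMod q) =
      (2 ^ (2 * c) * 5 ^ (2 * d)) * (u : ZMod q) ^ j + (2 ^ a * 3 ^ (b + E * i)) ^ 2 := by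
    rw [hu]
    simp only [fam, kk]
    push_cast
    have h9 : ∀ n : ℕ, (25 : ZMod q) ^ n = 5 ^ (2 * n) := by
      intro n
      rw [pow_mul]
      norm_num
    rw [← pow_mul, h9]
    ring
  rw [h2] at h1
  linear_combination h1

theorem key25 {d E j1 j1' j2 j2' : ℕ} (hE : 0 < E) (h1 : j1 < j1') (h2 : j2 < j2')
    (h : 25 ^ (d + E * j1') + 25 ^ (d + E * j2) = 25 ^ (d + E * j2') + 25 ^ (d + E * j1)) :
    j1 = j2 ∧ j1' = j2' := by
  have hd : ∀ {s t : ℕ}, s < t → 25 * 25 ^ (d + E * s) ∣ 25 ^ (d + E * t) := by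
    intro s t hst
    rw [← pow_succ']
    apply pow_dvd_pow
    have : E * (s + 1) ≤ E * t := Nat.mul_le_mul_left _ hst
    have : E * (s + 1) = E * s + E := by ring
    omega
  have hno : ∀ s : ℕ, ¬ 25 * 25 ^ (d + E * s) ∣ 25 ^ (d + E * s) := by
    intro s hs
    have h3 := Nat.le_of_dvd (by positivity) hs
    have h4 : 0 < 25 ^ (d + E * s) := by positivity
    omega
  rcases lt_trichotomy j1 j2 with hlt | heq | hgt
  · exfalso
    apply hno j1
    have h3 : 25 * 25 ^ (d + E * j1) ∣ 25 ^ (d + E * j2') + 25 ^ (d + E * j1) := by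
      rw [← h]
      exact dvd_add (hd h1) (hd hlt)
    exact (Nat.dvd_add_right (hd (hlt.trans h2))).mp h3
  · subst heq
    refine ⟨rfl, ?_⟩
    have h3 := Nat.pow_right_injective (by norm_num : 2 ≤ 25) (Nat.add_right_cancel h)
    have h4 : E * j1' = E * j2' := Nat.add_left_cancel h3
    exact Nat.eq_of_mul_eq_mul_left hE h4
  · exfalso
    apply hno j2
    have h3 : 25 * 25 ^ (d + E * j2) ∣ 25 ^ (d + E * j1') + 25 ^ (d + E * j2) := by
      rw [h]
      exact dvd_add (hd h2) (hd hgt)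
    exact (Nat.dvd_add_right (hd (hgt.trans h1))).mp h3

theorem fam_eq (a b c d E i j : ℕ) :
    fam a b c d E (i, j) = 4 ^ a * 9 ^ (b + E * i) + 4 ^ c * 25 ^ (d + E * j) := by
  simp only [fam, kk]
  rw [mul_pow, mul_pow, ← pow_mul, ← pow_mul, ← pow_mul, ← pow_mul, mul_comm a 2, mul_comm c 2,
    mul_comm (b + E * i) 2, mul_comm (d + E * j) 2, pow_mul, pow_mul, pow_mul, pow_mul]
  norm_num

theorem mono9 {b E : ℕ} (hE : 0 < E) {s t : ℕ} (n : ℕ) (hn : 1 < n) :
    n ^ (b + E * s) < n ^ (b + E * t) ↔ s < t := by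
  rw [Nat.pow_lt_pow_iff_right hn]
  constructor
  · intro h
    exact lt_of_mul_lt_mul_left (Nat.lt_of_add_lt_add_left h) (Nat.zero_le E)
  · intro h
    exact Nat.add_lt_add_left (Nat.mul_lt_mul_of_pos_left h hE) _

theorem diag_le (a b c d T : ℕ) {E : ℕ} (hE : 0 < E) :
    (((range T ×ˢ range T) ×ˢ (range T ×ˢ range T)).filter
      (fun p => fam a b c d E p.1 = fam a b c d E p.2)).card ≤ 2 * T ^ 2 := by
  set S := ((range T ×ˢ range T) ×ˢ (range T ×ˢ range T)).filter
      (fun p => fam a b c d E p.1 = fam a b c d E p.2) with hS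
  have hA : 0 < 4 ^ a := by positivity
  have hB : 0 < 4 ^ c := by positivity
  have h1 : (S.filter (fun p => p.1.1 = p.2.1)).card ≤ T ^ 2 := by
    refine (card_le_card_of_injOn (t := range T ×ˢ range T) (fun p => p.1) ?_ ?_).trans
      (le_of_eq ?_)
    · intro p hp
      rw [mem_coe, hS, mem_filter, mem_filter, mem_product] at hp
      exact hp.1.1.1
    · intro p hp p' hp' he
      rw [mem_coe, hS, mem_filter, mem_filter] at hp hp'
      have aux : ∀ p : (ℕ × ℕ) × (ℕ × ℕ), fam a b c d E p.1 = fam a b c d E p.2 → p.1.1 = p.2.1 →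
          p.2 = p.1 := by
        rintro ⟨⟨i, j⟩, ⟨i', j'⟩⟩ hf hi
        simp only at hf hi
        subst hi
        rw [fam_eq, fam_eq] at hf
        have h3 := Nat.eq_of_mul_eq_mul_left hB (Nat.add_left_cancel hf)
        have h4 := Nat.pow_right_injective (by norm_num : 2 ≤ 25) h3
        have h5 := Nat.eq_of_mul_eq_mul_left hE (Nat.add_left_cancel h4)
        rw [h5]
      have e1 := aux p hp.1.2 hp.2
      have e2 := aux p' hp'.1.2 hp'.2
      simp only at he
      refine Prod.ext he ?_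
      rw [e1, e2, he]
    · rw [card_product, card_range]
      ring
  have h2 : (S.filter (fun p => ¬ p.1.1 = p.2.1)).card ≤ T ^ 2 := by
    refine (card_le_card_of_injOn (t := range T ×ˢ range T) (fun p => (p.1.1, p.2.1)) ?_ ?_).trans
      (le_of_eq ?_)
    · intro p hp
      rw [mem_coe, hS, mem_filter, mem_filter, mem_product, mem_product, mem_product] at hp
      rw [mem_coe, mem_product]
      exact ⟨hp.1.1.1.1, hp.1.1.2.1⟩
    · rintro ⟨⟨i, j⟩, ⟨i', j'⟩⟩ hp ⟨⟨k, l⟩, ⟨k', l'⟩⟩ hp' he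
      rw [mem_coe, hS, mem_filter, mem_filter] at hp hp'
      simp only [Prod.mk.injEq] at hp hp' he ⊢
      obtain ⟨rfl, rfl⟩ := he
      obtain ⟨⟨_, hf⟩, hne⟩ := hp
      obtain ⟨⟨_, hf'⟩, _⟩ := hp'
      rw [fam_eq, fam_eq] at hf hf'
      rcases lt_or_gt_of_ne hne with hlt | hgt
      · -- i < i', so j > j', l > l'
        have h9 : 4 ^ a * 9 ^ (b + E * i) < 4 ^ a * 9 ^ (b + E * i') :=
          Nat.mul_lt_mul_of_pos_left ((mono9 hE 9 (by norm_num)).mpr hlt) hA
        have hj : j' < j := by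
          rw [← mono9 (b := d) hE 25 (by norm_num)]
          have : 4 ^ c * 25 ^ (d + E * j') < 4 ^ c * 25 ^ (d + E * j) := by omega
          exact lt_of_mul_lt_mul_left this (Nat.zero_le _)
        have hl : l' < l := by
          rw [← mono9 (b := d) hE 25 (by norm_num)]
          have : 4 ^ c * 25 ^ (d + E * l') < 4 ^ c * 25 ^ (d + E * l) := by omega
          exact lt_of_mul_lt_mul_left this (Nat.zero_le _)
        have hk : 25 ^ (d + E * j) + 25 ^ (d + E * l') = 25 ^ (d + E * l) + 25 ^ (d + E * j') := by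
          apply Nat.eq_of_mul_eq_mul_left hB
          rw [mul_add, mul_add]
          omega
        obtain ⟨e1, e2⟩ := key25 hE hj hl hk
        exact ⟨⟨rfl, e2⟩, ⟨rfl, e1⟩⟩
      · have h9 : 4 ^ a * 9 ^ (b + E * i') < 4 ^ a * 9 ^ (b + E * i) :=
          Nat.mul_lt_mul_of_pos_left ((mono9 hE 9 (by norm_num)).mpr hgt) hA
        have hj : j < j' := by
          rw [← mono9 (b := d) hE 25 (by norm_num)]
          have : 4 ^ c * 25 ^ (d + E * j) < 4 ^ c * 25 ^ (d + E * j') := by omega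
          exact lt_of_mul_lt_mul_left this (Nat.zero_le _)
        have hl : l < l' := by
          rw [← mono9 (b := d) hE 25 (by norm_num)]
          have : 4 ^ c * 25 ^ (d + E * l) < 4 ^ c * 25 ^ (d + E * l') := by omega
          exact lt_of_mul_lt_mul_left this (Nat.zero_le _)
        have hk : 25 ^ (d + E * j') + 25 ^ (d + E * l) = 25 ^ (d + E * l') + 25 ^ (d + E * j) := by
          apply Nat.eq_of_mul_eq_mul_left hB
          rw [mul_add, mul_add]
          omega
        obtain ⟨e1, e2⟩ := key25 hE hj hl hk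
        exact ⟨⟨rfl, e1⟩, ⟨rfl, e2⟩⟩
    · rw [card_product, card_range]
      ring
  have h3 := card_filter_add_card_filter_not (s := S) (fun p => p.1.1 = p.2.1)
  omega

end H2S
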