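import Pool.Agent.H2S.Tail

/-!
# H2S/Per: the modulus `Wd` and the periods

`E = (primorial ℓ)^J`.
* `Wd_dvd`: `fam p - fam (0,0) = 4^a 9^b (9^(E i) - 1) + 4^c 25^d (25^(E j) - 1)`. For a prime `r ≤ ℓ`, `r ≠ 3`:
  `φ(r^Jp) = r^(Jp-1) (r-1)` divides `E` (the prime factors of `r - 1 < ℓ` are `≤ ℓ`, their exponents are `< ℓ`, and
  `J ≥ Jp + ℓ`), so `r^Jp ∣ 9^E - 1 ∣ 9^(E i) - 1`; `3^Jp ∣ 9^b`. The same with 25 and `r = 5`. The `q ∈ Qset` divide
  `9^E - 1` and `25^E - 1`. The prime powers are pairwise coprime, so their product `Wd` divides.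
* `not_dvd`: a prime `q ∤ Wd` is `> ℓ` (`Jp ≥ 1`), and not in `Qset`.
* `tail_both`: split `F` into the `q` with `9^E ≠ 1` and those with `25^E ≠ 1`, `1/max ≤ 1/ord`; `tail 9`, `tail 25` with
  `τ/2` (the larger of the two `ℓ0`, at least 5, and of the two `J0`).
* `dvd30`: `ℓ ≥ 5`, `Jp ≥ 1`.
-/

namespace H2S

open Finset

/-- the primes `q > ℓ` with `9^E = 25^E = 1` modulo `q` -/
def Qset (ℓ E : ℕ) : Finset ℕ :=
  ((9 ^ E - 1).primeFactors ∩ (25 ^ E - 1).primeFactors).filter (fun q => ℓ < q)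

/-- the modulus -/
def Wd (ℓ Jp E : ℕ) : ℕ := (primorial ℓ) ^ Jp * ∏ q ∈ Qset ℓ E, q

private lemma Qset_prime {ℓ E q : ℕ} (hq : q ∈ Qset ℓ E) : q.Prime := by
  unfold Qset at hq
  rw [Finset.mem_filter, Finset.mem_inter] at hq
  exact Nat.prime_of_mem_primeFactors hq.1.1

theorem Wd_pos (ℓ Jp E : ℕ) : 0 < Wd ℓ Jp E := by
  unfold Wd
  exact Nat.mul_pos (pow_pos (primorial_pos ℓ) _) (Finset.prod_pos fun q hq => (Qset_prime hq).pos)

private lemma dvd_primorial {ℓ p : ℕ} (hp : p.Prime) (h : p ≤ ℓ) : p ∣ primorial ℓ := by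
  unfold primorial
  exact Finset.dvd_prod_of_mem _ (Finset.mem_filter.2 ⟨Finset.mem_range.2 (by omega), hp⟩)

theorem dvd30 {ℓ Jp E : ℕ} (hℓ : 5 ≤ ℓ) (hJp : 1 ≤ Jp) : 30 ∣ Wd ℓ Jp E := by
  have h2 := dvd_primorial (ℓ := ℓ) Nat.prime_two (by omega)
  have h3 := dvd_primorial (ℓ := ℓ) Nat.prime_three (by omega)
  have h5 := dvd_primorial (ℓ := ℓ) Nat.prime_five (by omega)
  have h6 : 2 * 3 ∣ primorial ℓ := Nat.Coprime.mul_dvd_of_dvd_of_dvd (by norm_num) h2 h3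
  have h30 : 2 * 3 * 5 ∣ primorial ℓ := Nat.Coprime.mul_dvd_of_dvd_of_dvd (by norm_num) h6 h5
  have h : 30 ∣ primorial ℓ := by simpa using h30
  unfold Wd
  exact (h.trans (dvd_pow_self _ (by omega))).mul_right _

/-- every `n ≤ ℓ` divides `(primorial ℓ) ^ ℓ` -/
private lemma dvd_pow_primorial {ℓ n : ℕ} (hn : 0 < n) (h : n ≤ ℓ) : n ∣ (primorial ℓ) ^ ℓ := by
  have hp0 := (primorial_pos ℓ).ne'
  rw [← Nat.factorization_le_iff_dvd hn.ne' (pow_ne_zero _ hp0)]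
  intro p
  by_cases hp : p.Prime ∧ p ∣ n
  · have h1 : p ≤ ℓ := (Nat.le_of_dvd hn hp.2).trans h
    have h2 : 1 ≤ (primorial ℓ).factorization p :=
      (hp.1.dvd_iff_one_le_factorization hp0).1 (dvd_primorial hp.1 h1)
    have h3 : n.factorization p < n := Nat.factorization_lt p hn.ne'
    rw [Nat.factorization_pow, Finsupp.smul_apply, smul_eq_mul]
    nlinarith
  · have : n.factorization p = 0 := by
      by_cases hpp : p.Prime
      · exact Nat.factorization_eq_zero_of_not_dvd fun hd => hp ⟨hpp, hd⟩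
      · exact Nat.factorization_eq_zero_of_not_prime n hpp
    rw [this]
    exact Nat.zero_le _

/-- `r ^ Jp ∣ g ^ E - 1` -/
private lemma pp_dvd {ℓ J Jp r g : ℕ} (hJp : 1 ≤ Jp) (hJ : Jp + ℓ ≤ J) (hr : r.Prime) (hrl : r ≤ ℓ)
    (hg : Nat.Coprime g r) : ((r ^ Jp : ℕ) : ℤ) ∣ (g : ℤ) ^ ((primorial ℓ) ^ J) - 1 := by
  have hφ : Nat.totient (r ^ Jp) ∣ (primorial ℓ) ^ J := by
    rw [Nat.totient_prime_pow hr (by omega)]
    have h1 : r ^ (Jp - 1) ∣ (primorial ℓ) ^ (Jp - 1) := pow_dvd_pow_of_dvd (dvd_primorial hr hrl) _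
    have h2 : (r - 1) ∣ (primorial ℓ) ^ ℓ := dvd_pow_primorial (by have := hr.two_le; omega) (by omega)
    refine (mul_dvd_mul h1 h2).trans ?_
    rw [← pow_add]
    exact pow_dvd_pow _ (by omega)
  have h3 : (g ^ Nat.totient (r ^ Jp)) ≡ 1 [MOD r ^ Jp] :=
    Nat.ModEq.pow_totient (Nat.Coprime.pow_right _ hg)
  obtain ⟨k, hk⟩ := hφ
  have h4 : (g ^ ((primorial ℓ) ^ J)) ≡ 1 [MOD r ^ Jp] := by
    rw [hk, pow_mul]
    simpa using h3.pow k
  have h5 := (Nat.modEq_iff_dvd.1 h4.symm)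
  push_cast at h5 ⊢
  exact h5

/-- the modulus divides -/
private lemma Wd_dvd_pow {ℓ J Jp s g b : ℕ} (hJp : 1 ≤ Jp) (hJ : Jp + ℓ ≤ J)
    (hs : s.Prime) (hgs : g = s ^ 2) (hb : Jp ≤ b)
    (hQ : ∀ q ∈ Qset ℓ ((primorial ℓ) ^ J), (q : ℤ) ∣ (g : ℤ) ^ ((primorial ℓ) ^ J) - 1) (i : ℕ) :
    ((Wd ℓ Jp ((primorial ℓ) ^ J) : ℕ) : ℤ) ∣
      (g : ℤ) ^ b * ((g : ℤ) ^ ((primorial ℓ) ^ J * i) - 1) := by
  set E := (primorial ℓ) ^ J with hE
  have hd : (g : ℤ) ^ E - 1 ∣ (g : ℤ) ^ (E * i) - 1 := by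
    rw [pow_mul]
    simpa using sub_dvd_pow_sub_pow ((g : ℤ) ^ E) 1 i
  unfold Wd
  push_cast
  have hc1 : IsCoprime ((primorial ℓ : ℤ) ^ Jp) (∏ q ∈ Qset ℓ E, (q : ℤ)) := by
    apply IsCoprime.pow_left
    apply IsCoprime.prod_right
    intro q hq
    have hqp := Qset_prime hq
    have hql : ℓ < q := by
      unfold Qset at hq
      exact (Finset.mem_filter.1 hq).2
    rw [Nat.isCoprime_iff_coprime]
    unfold primorial
    apply Nat.Coprime.prod_left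
    intro p hp
    rw [Finset.mem_filter, Finset.mem_range] at hp
    rw [Nat.coprime_primes hp.2 hqp]
    omega
  apply hc1.mul_dvd
  · have e1 : (primorial ℓ : ℤ) ^ Jp = ∏ p ∈ (range (ℓ + 1)).filter Nat.Prime, (p : ℤ) ^ Jp := by
      unfold primorial
      push_cast
      rw [Finset.prod_pow]
    rw [e1]
    apply Finset.prod_dvd_of_coprime
    · intro p hp p' hp' hne
      rw [Finset.mem_coe, Finset.mem_filter] at hp hp'
      exact ((Nat.isCoprime_iff_coprime.2 ((Nat.coprime_primes hp.2 hp'.2).2 hne)).pow)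
    · intro p hp
      rw [Finset.mem_filter, Finset.mem_range] at hp
      by_cases hps : p = s
      · apply Dvd.dvd.mul_right
        rw [hps, hgs]
        push_cast
        rw [← pow_mul]
        exact pow_dvd_pow _ (by omega)
      · apply Dvd.dvd.mul_left
        have h1 := pp_dvd (ℓ := ℓ) (J := J) (r := p) (g := g) hJp hJ hp.2 (by omega) (by
          rw [hgs]
          exact Nat.Coprime.pow_left 2 ((Nat.coprime_primes hs hp.2).2 (fun h => hps h.symm)))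
        push_cast at h1
        exact h1.trans hd
  · apply Finset.prod_dvd_of_coprime
    · intro p hp p' hp' hne
      exact Nat.isCoprime_iff_coprime.2
        ((Nat.coprime_primes (Qset_prime hp) (Qset_prime hp')).2 hne)
    · intro q hq
      exact ((hQ q hq).trans hd).mul_left _

theorem Wd_dvd {ℓ J Jp : ℕ} (hℓ : 5 ≤ ℓ) (hJp : 1 ≤ Jp) (hJ : Jp + ℓ ≤ J) {a b c d : ℕ} (hb : Jp ≤ b)
    (hd : Jp ≤ d) (p : ℕ × ℕ) :
    ((Wd ℓ Jp ((primorial ℓ) ^ J) : ℕ) : ℤ) ∣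
      (fam a b c d ((primorial ℓ) ^ J) p : ℤ) - fam a b c d ((primorial ℓ) ^ J) (0, 0) := by
  have hQ : ∀ q ∈ Qset ℓ ((primorial ℓ) ^ J), ((q : ℤ) ∣ ((9 : ℕ) : ℤ) ^ ((primorial ℓ) ^ J) - 1) ∧
      ((q : ℤ) ∣ ((25 : ℕ) : ℤ) ^ ((primorial ℓ) ^ J) - 1) := by
    intro q hq
    unfold Qset at hq
    rw [Finset.mem_filter, Finset.mem_inter] at hq
    have h1 := Nat.dvd_of_mem_primeFactors hq.1.1
    have h2 := Nat.dvd_of_mem_primeFactors hq.1.2
    have h3 := Int.natCast_dvd_natCast.2 h1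
    have h4 := Int.natCast_dvd_natCast.2 h2
    rw [Nat.cast_sub (Nat.one_le_pow _ _ (by norm_num))] at h3 h4
    push_cast at h3 h4 ⊢
    exact ⟨h3, h4⟩
  have h9 := Wd_dvd_pow (ℓ := ℓ) (J := J) (Jp := Jp) (s := 3) (g := 9) (b := b) hJp hJ
    Nat.prime_three (by norm_num) hb (fun q hq => (hQ q hq).1) p.1
  have h25 := Wd_dvd_pow (ℓ := ℓ) (J := J) (Jp := Jp) (s := 5) (g := 25) (b := d) hJp hJ
    Nat.prime_five (by norm_num) hd (fun q hq => (hQ q hq).2) p.2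
  have e : (fam a b c d ((primorial ℓ) ^ J) p : ℤ) - fam a b c d ((primorial ℓ) ^ J) (0, 0) =
      4 ^ a * (((9 : ℕ) : ℤ) ^ b * (((9 : ℕ) : ℤ) ^ ((primorial ℓ) ^ J * p.1) - 1)) +
      4 ^ c * (((25 : ℕ) : ℤ) ^ d * (((25 : ℕ) : ℤ) ^ ((primorial ℓ) ^ J * p.2) - 1)) := by
    unfold fam kk
    have e9 : (9 : ℤ) = 3 ^ 2 := by norm_num
    have e25 : (25 : ℤ) = 5 ^ 2 := by norm_num
    have e4 : (4 : ℤ) = 2 ^ 2 := by norm_num
    push_cast
    rw [e9, e25, e4]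
    simp only [mul_zero, add_zero, mul_pow, ← pow_mul]
    ring
  rw [e]
  exact dvd_add (h9.mul_left _) (h25.mul_left _)

theorem not_dvd {ℓ Jp E q : ℕ} (hℓ : 5 ≤ ℓ) (hJp : 1 ≤ Jp) (hE : 0 < E) (hq : q.Prime)
    (h : ¬ q ∣ Wd ℓ Jp E) : ℓ < q ∧ ((9 : ZMod q) ^ E ≠ 1 ∨ (25 : ZMod q) ^ E ≠ 1) := by
  have h1 : ℓ < q := by
    by_contra hc
    push Not at hc
    apply h
    unfold Wd
    exact ((dvd_primorial hq hc).trans (dvd_pow_self _ (by omega))).mul_right _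
  refine ⟨h1, ?_⟩
  by_contra hc
  push Not at hc
  apply h
  have key : ∀ g : ℕ, 2 ≤ g → ((g : ZMod q)) ^ E = 1 → q ∈ (g ^ E - 1).primeFactors := by
    intro g hg hgE
    have h2 : 1 < g ^ E := Nat.one_lt_pow hE.ne' (by omega)
    rw [Nat.mem_primeFactors]
    refine ⟨hq, ?_, by omega⟩
    rw [← ZMod.natCast_eq_zero_iff, Nat.cast_sub h2.le]
    push_cast
    rw [hgE, sub_self]
  unfold Wd
  apply Dvd.dvd.mul_left
  apply Finset.dvd_prod_of_mem
  unfold Qset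
  rw [Finset.mem_filter, Finset.mem_inter]
  exact ⟨⟨key 9 (by norm_num) (by push_cast; exact hc.1), key 25 (by norm_num) (by push_cast; exact hc.2)⟩, h1⟩

theorem tail_both {τ : ℝ} (hτ : 0 < τ) : ∃ ℓ0 : ℕ, ∀ ℓ : ℕ, ℓ0 ≤ ℓ → ∃ J0 : ℕ, ∀ J Jp : ℕ, J0 ≤ J → 1 ≤ Jp →
    ∀ F : Finset ℕ, (∀ q ∈ F, q.Prime ∧ ¬ q ∣ Wd ℓ Jp ((primorial ℓ) ^ J)) →
      ∑ q ∈ F, wt q / (max (orderOf ((9 : ZMod q) ^ ((primorial ℓ) ^ J)))
        (orderOf ((25 : ZMod q) ^ ((primorial ℓ) ^ J))) : ℕ) ≤ τ := by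
  classical
  obtain ⟨l9, h9⟩ := tail 9 (by norm_num) (half_pos hτ)
  obtain ⟨l25, h25⟩ := tail 25 (by norm_num) (half_pos hτ)
  refine ⟨max 5 (max l9 l25), fun ℓ hℓ => ?_⟩
  have hl5 : 5 ≤ ℓ := (le_max_left _ _).trans hℓ
  obtain ⟨J9, hJ9⟩ := h9 ℓ (((le_max_left _ _).trans (le_max_right _ _)).trans hℓ)
  obtain ⟨J25, hJ25⟩ := h25 ℓ (((le_max_right _ _).trans (le_max_right _ _)).trans hℓ)
  refine ⟨max J9 J25, fun J Jp hJ hJp F hF => ?_⟩
  set E := (primorial ℓ) ^ J with hE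
  have hE0 : 0 < E := pow_pos (primorial_pos ℓ) _
  have hnd : ∀ q ∈ F, ℓ < q ∧ ((9 : ZMod q) ^ E ≠ 1 ∨ (25 : ZMod q) ^ E ≠ 1) := fun q hq =>
    not_dvd hl5 hJp hE0 (hF q hq).1 (hF q hq).2
  have hpos : ∀ q ∈ F, ∀ g : ℕ, g = 9 ∨ g = 25 → ¬ q ∣ g ∧ 0 < orderOf ((g : ZMod q) ^ E) := by
    intro q hq g hg
    have hqp := (hF q hq).1
    have hql := (hnd q hq).1
    have hqg : ¬ q ∣ g := by
      intro hd
      have h1 : q ∣ 3 ∨ q ∣ 5 := by
        rcases hg with rfl | rfl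
        · left
          exact hqp.dvd_of_dvd_pow (show q ∣ 3 ^ 2 by simpa using hd)
        · right
          exact hqp.dvd_of_dvd_pow (show q ∣ 5 ^ 2 by simpa using hd)
      rcases h1 with h1 | h1
      · have := Nat.le_of_dvd (by norm_num) h1; omega
      · have := Nat.le_of_dvd (by norm_num) h1; omega
    refine ⟨hqg, ?_⟩
    haveI : Fact q.Prime := ⟨hqp⟩
    have hne : ((g : ZMod q) ^ E) ≠ 0 := by
      apply pow_ne_zero
      intro h0
      exact hqg ((ZMod.natCast_eq_zero_iff _ _).1 h0)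
    rw [orderOf_pos_iff]
    rw [isOfFinOrder_iff_pow_eq_one]
    exact ⟨q - 1, by have := hqp.two_le; omega, ZMod.pow_card_sub_one_eq_one hne⟩
  have hwt : ∀ q, 0 ≤ wt q := fun q => by unfold wt; positivity
  have s9 := hJ9 J ((le_max_left _ _).trans hJ) (F.filter fun q => (9 : ZMod q) ^ E ≠ 1) (by
    intro q hq
    rw [Finset.mem_filter] at hq
    refine ⟨(hF q hq.1).1, (hpos q hq.1 9 (Or.inl rfl)).1, ?_⟩
    have := hq.2
    push_cast
    exact this)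
  have s25 := hJ25 J ((le_max_right _ _).trans hJ) (F.filter fun q => (25 : ZMod q) ^ E ≠ 1) (by
    intro q hq
    rw [Finset.mem_filter] at hq
    refine ⟨(hF q hq.1).1, (hpos q hq.1 25 (Or.inr rfl)).1, ?_⟩
    have := hq.2
    push_cast
    exact this)
  push_cast at s9 s25
  rw [Finset.sum_filter] at s9 s25
  calc ∑ q ∈ F, wt q / (max (orderOf ((9 : ZMod q) ^ E)) (orderOf ((25 : ZMod q) ^ E)) : ℕ)
      ≤ ∑ q ∈ F, ((if (9 : ZMod q) ^ E ≠ 1 then wt q / (orderOf ((9 : ZMod q) ^ E) : ℝ) else 0) +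
        (if (25 : ZMod q) ^ E ≠ 1 then wt q / (orderOf ((25 : ZMod q) ^ E) : ℝ) else 0)) := by
        apply Finset.sum_le_sum
        intro q hq
        have p9 := (hpos q hq 9 (Or.inl rfl)).2
        have p25 := (hpos q hq 25 (Or.inr rfl)).2
        push_cast at p9 p25
        have p9' : (0 : ℝ) < (orderOf ((9 : ZMod q) ^ E) : ℝ) := by exact_mod_cast p9
        have p25' : (0 : ℝ) < (orderOf ((25 : ZMod q) ^ E) : ℝ) := by exact_mod_cast p25
        have n9 : 0 ≤ (if (9 : ZMod q) ^ E ≠ 1 then wt q / (orderOf ((9 : ZMod q) ^ E) : ℝ) else 0) := by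
          split_ifs
          · exact div_nonneg (hwt q) p9'.le
          · exact le_rfl
        have n25 : 0 ≤ (if (25 : ZMod q) ^ E ≠ 1 then wt q / (orderOf ((25 : ZMod q) ^ E) : ℝ) else 0) := by
          split_ifs
          · exact div_nonneg (hwt q) p25'.le
          · exact le_rfl
        rcases (hnd q hq).2 with h1 | h1
        · have h2 : wt q / ((max (orderOf ((9 : ZMod q) ^ E)) (orderOf ((25 : ZMod q) ^ E)) : ℕ) : ℝ) ≤
              wt q / (orderOf ((9 : ZMod q) ^ E) : ℝ) :=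
            div_le_div_of_nonneg_left (hwt q) p9' (by exact_mod_cast le_max_left _ _)
          rw [if_pos h1] at n9 ⊢
          linarith
        · have h2 : wt q / ((max (orderOf ((9 : ZMod q) ^ E)) (orderOf ((25 : ZMod q) ^ E)) : ℕ) : ℝ) ≤
              wt q / (orderOf ((25 : ZMod q) ^ E) : ℝ) :=
            div_le_div_of_nonneg_left (hwt q) p25' (by exact_mod_cast le_max_right _ _)
          rw [if_pos h1] at n25 ⊢
          linarith
    _ ≤ τ := by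
        rw [Finset.sum_add_distrib]
        linarith

end H2S
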