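import Pool.Agent.H2S.ClassD
import Pool.Agent.H2S.Per

/-!
# H2S/GoodClass: `class_density` for a good and nice residue class

Let `E = (primorial ℓ)^J`, `W = Wd ℓ Jp E`, `z = r - kk a b c d = r - fam a b c d E (0,0)`, `G = gcd (|z|, W)`, `ω = W / G`,
`ρ = z / G`. `Q3 W` = the primes `q ∣ W` with `q = 3 mod 4`, `q > 3`. The exponent of a prime `p ≤ ℓ` in `W` is `Jp ≥ 3`, that
of `q ∈ Qset` (all `> ℓ`) is 1, and there are no other primes.
* `ρ` and `ω` are coprime (`Nat.coprime_div_gcd_div_gcd`).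
* `GoodZ`: `z` is odd or exactly divisible by 2; `v_3(z) ∈ {0, 2}`; no `q ∈ Q3 W` divides `z`. So all primes `= 3 mod 4`
  have even exponent in `G`, `G` is a sum of two squares (`Nat.eq_sq_add_sq_iff`), `v_2(G) = v_2(z) ≤ 1`, `4 ∣ ω`, the odd
  part of `G` is `1 mod 4`, hence `ρ % 4 = 1`: if `z % 4 = 1` then `G = 1 mod 4`; if `z % 8 = 2` then `G = 2 G'`,
  `G' = 1 mod 4`, `z/2 = 1 mod 4`.
* The primes `p ∣ W`, `p ∤ ω` have `v_p(G) = v_p(W)`: then `p ≤ ℓ` is impossible (`p^Jp ∣ z`; `p = 2, 3`: `v_p(z) ≤ 2 < Jp`;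
  `p = 5`: `5 ∤ z`; `p = 3 mod 4`, `p > 3`: `p ∤ z`; `p = 1 mod 4`: hypothesis `hn`), so `p ∈ Qset`, `p ∣ z`, `p % 4 = 1`. The
  product of the `(1 - 1/p)⁻¹ = 1 + 1/(p-1) ≤ exp ((7/6)/p)` over these is at most `exp ((7/6) ξ) ≤ 1 + 4 ξ`.
* `class_density` (with `Wd_dvd`, `dvd30`) has the same constant `C`; use monotonicity in the product (`1 + C τ ≥ 0`).
-/

namespace H2S

open Finset Filter

/-- the primes `q > 3`, `q = 3 mod 4`, dividing `W` -/
def Q3 (W : ℕ) : Finset ℕ := W.primeFactors.filter (fun q => q % 4 = 3 ∧ 3 < q)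

private lemma gc_prime_dvd_W {ℓ Jp E p : ℕ} (hp : p.Prime) (h : p ∣ Wd ℓ Jp E) (hl : ℓ < p) :
    p ∈ Qset ℓ E := by
  unfold Wd at h
  rcases (Nat.Prime.dvd_mul hp).1 h with h1 | h1
  · exfalso
    have h2 := hp.dvd_of_dvd_pow h1
    unfold primorial at h2
    obtain ⟨q, hq, hpq⟩ := (Prime.dvd_finsetProd_iff hp.prime _).1 h2
    rw [Finset.mem_filter, Finset.mem_range] at hq
    have := (Nat.prime_dvd_prime_iff_eq hp hq.2).1 hpq
    omega
  · obtain ⟨q, hq, hpq⟩ := (Prime.dvd_finsetProd_iff hp.prime _).1 h1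
    have hqp : q.Prime := by
      unfold Qset at hq
      rw [Finset.mem_filter, Finset.mem_inter] at hq
      exact Nat.prime_of_mem_primeFactors hq.1.1
    rw [(Nat.prime_dvd_prime_iff_eq hp hqp).1 hpq]
    exact hq

private lemma gc_pow_dvd_W {ℓ Jp E p : ℕ} (hp : p.Prime) (hl : p ≤ ℓ) : p ^ Jp ∣ Wd ℓ Jp E := by
  unfold Wd
  apply Dvd.dvd.mul_right
  apply pow_dvd_pow_of_dvd
  unfold primorial
  exact Finset.dvd_prod_of_mem _ (Finset.mem_filter.2 ⟨Finset.mem_range.2 (by omega), hp⟩)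

/-- squares modulo 8 -/
private lemma gc_sq_mod (x : ℕ) : x ^ 2 % 8 = 0 ∨ x ^ 2 % 8 = 1 ∨ x ^ 2 % 8 = 4 := by
  have h : x % 8 < 8 := Nat.mod_lt _ (by norm_num)
  rw [Nat.pow_mod]
  interval_cases x % 8 <;> simp

private lemma gc_exp {ξ : ℝ} (h0 : 0 ≤ ξ) (h1 : ξ ≤ 1 / 4) : Real.exp (7 / 6 * ξ) ≤ 1 + 4 * ξ := by
  have h2 := Real.one_sub_le_exp_neg (7 / 6 * ξ)
  rw [Real.exp_neg] at h2
  have h3 : 0 < 1 - 7 / 6 * ξ := by linarith
  have h4 : Real.exp (7 / 6 * ξ) ≤ (1 - 7 / 6 * ξ)⁻¹ := by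
    rw [← inv_inv (Real.exp (7 / 6 * ξ))]
    exact inv_anti₀ h3 h2
  refine h4.trans ?_
  rw [inv_le_iff_one_le_mul₀ h3]
  nlinarith

open scoped Classical in
theorem good_class : ∃ C : ℝ, 0 < C ∧ ∀ (ℓ J Jp : ℕ) (τ ξ : ℝ), 5 ≤ ℓ → 3 ≤ Jp → Jp + ℓ ≤ J → 0 ≤ τ → 0 ≤ ξ →
    ξ ≤ 1 / 4 →
    (∀ F : Finset ℕ, (∀ q ∈ F, q.Prime ∧ ¬ q ∣ Wd ℓ Jp ((primorial ℓ) ^ J)) →
      ∑ q ∈ F, wt q / (max (orderOf ((9 : ZMod q) ^ ((primorial ℓ) ^ J)))
        (orderOf ((25 : ZMod q) ^ ((primorial ℓ) ^ J))) : ℕ) ≤ τ) →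
    ∀ r a b c d : ℕ, Jp ≤ b → Jp ≤ d →
    GoodZ (Q3 (Wd ℓ Jp ((primorial ℓ) ^ J))) ((r : ℤ) - kk a b c d) → ¬ (5 : ℤ) ∣ (r : ℤ) - kk a b c d →
    (∀ p : ℕ, p.Prime → p ≤ ℓ → p % 4 = 1 → p ≠ 5 → ¬ ((p ^ Jp : ℕ) : ℤ) ∣ (r : ℤ) - kk a b c d) →
    (∑ q ∈ (Qset ℓ ((primorial ℓ) ^ J)).filter (fun q => q % 4 = 1 ∧ (q : ℤ) ∣ (r : ℤ) - kk a b c d),
      (1 : ℝ) / q ≤ ξ) →
    ∀ ε : ℝ, 0 < ε → ∀ᶠ N : ℕ in atTop,
      (((range N).filter (fun t => ¬ Rep (r + Wd ℓ Jp ((primorial ℓ) ^ J) * t))).card : ℝ) ≤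
        (450 * ((1 + C * τ) * (1 + 4 * ξ) - 1) + ε) * N := by
  obtain ⟨C, hC, hcd⟩ := class_density
  refine ⟨C, hC, ?_⟩
  intro ℓ J Jp τ ξ hℓ hJp hJ hτ hξ hξ4 htail r a b c d hb hd hgood h5 hpJ hQ ε hε
  set E := (primorial ℓ) ^ J with hE
  set W := Wd ℓ Jp E with hW
  set z : ℤ := (r : ℤ) - kk a b c d with hz
  obtain ⟨hg2, hg3, hgQ⟩ := hgood
  have hE0 : 0 < E := pow_pos (primorial_pos ℓ) _
  have hW0 : 0 < W := Wd_pos ℓ Jp E
  have hz0 : z ≠ 0 := by
    intro h0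
    rw [h0] at hg2
    omega
  have hzn : z.natAbs ≠ 0 := Int.natAbs_ne_zero.2 hz0
  obtain ⟨G, hG⟩ : ∃ G : ℕ, G = Nat.gcd z.natAbs W := ⟨_, rfl⟩
  have hG0 : 0 < G := by rw [hG]; exact Nat.gcd_pos_of_pos_right _ hW0
  obtain ⟨ω, hω⟩ : G ∣ W := by rw [hG]; exact Nat.gcd_dvd_right _ _
  have hGz : (G : ℤ) ∣ z := by
    rw [hG]
    exact Int.natCast_dvd.2 (Nat.gcd_dvd_left _ _)
  obtain ⟨ρ, hρ⟩ := hGz
  have hcop : Nat.Coprime ρ.natAbs ω := by
    have h1 := Nat.coprime_div_gcd_div_gcd (m := z.natAbs) (n := W) (by rw [← hG]; exact hG0)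
    rw [← hG] at h1
    have h2 : z.natAbs / G = ρ.natAbs := by
      rw [hρ, Int.natAbs_mul, Int.natAbs_natCast]
      exact Nat.mul_div_cancel_left _ hG0
    have h3 : W / G = ω := by
      rw [hω]
      exact Nat.mul_div_cancel_left _ hG0
    rwa [h2, h3] at h1
  have h8W : 8 ∣ W := by
    have h1 : 2 ^ Jp ∣ W := gc_pow_dvd_W Nat.prime_two (by omega)
    exact (show 8 ∣ 2 ^ Jp from (by
      have : (8 : ℕ) = 2 ^ 3 := by norm_num
      rw [this]; exact pow_dvd_pow 2 hJp)).trans h1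
  have h27W : 27 ∣ W := by
    have h1 : 3 ^ Jp ∣ W := gc_pow_dvd_W Nat.prime_three (by omega)
    exact (show 27 ∣ 3 ^ Jp from (by
      have : (27 : ℕ) = 3 ^ 3 := by norm_num
      rw [this]; exact pow_dvd_pow 3 hJp)).trans h1
  have hGz' : (G : ℤ) ∣ z := ⟨ρ, hρ⟩
  -- a prime of `W` which is `3` modulo `4`
  have hno : ∀ q : ℕ, q.Prime → q ∣ W → q % 4 = 3 → 3 < q → ¬ (q : ℤ) ∣ z := by
    intro q hq hqW hq4 hq3
    apply hgQ
    unfold Q3
    rw [Finset.mem_filter, Nat.mem_primeFactors]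
    exact ⟨⟨hq, hqW, hW0.ne'⟩, hq4, hq3⟩
  -- `G` is a sum of two squares
  have hG2 : ∃ x y : ℕ, G = x ^ 2 + y ^ 2 := by
    rw [Nat.eq_sq_add_sq_iff]
    intro q hq hq4
    have hqp := Nat.prime_of_mem_primeFactors hq
    have hqG := Nat.dvd_of_mem_primeFactors hq
    have hqW : q ∣ W := hqG.trans ⟨ω, hω⟩
    have hqz : (q : ℤ) ∣ z := (Int.natCast_dvd_natCast.2 hqG).trans hGz'
    by_cases h3 : 3 < q
    · exact absurd hqz (hno q hqp hqW hq4 h3)
    · have hq3 : q = 3 := by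
        have := hqp.two_le
        interval_cases q <;> omega
      subst hq3
      have h9 : z % 9 = 0 ∧ z % 27 ≠ 0 := by
        rcases hg3 with h | h
        · exact absurd (Int.emod_eq_zero_of_dvd (by exact_mod_cast hqz)) h
        · exact h
      have hG9 : 9 ∣ G := by
        rw [hG]
        apply Nat.dvd_gcd
        · rw [← Int.natCast_dvd]
          exact Int.dvd_of_emod_eq_zero h9.1
        · exact (show 9 ∣ 27 by norm_num).trans h27W
      have hG27 : ¬ 27 ∣ G := by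
        intro h
        apply h9.2
        apply Int.emod_eq_zero_of_dvd
        have h1 : ((27 : ℕ) : ℤ) ∣ (G : ℤ) := Int.natCast_dvd_natCast.2 h
        exact (by exact_mod_cast h1.trans hGz')
      have hfact : Fact (Nat.Prime 3) := ⟨Nat.prime_three⟩
      have h1 : 2 ≤ padicValNat 3 G := by
        rw [← padicValNat_dvd_iff_le hG0.ne']
        simpa using hG9
      have h2 : ¬ 3 ≤ padicValNat 3 G := by
        rw [← padicValNat_dvd_iff_le hG0.ne']
        simpa using hG27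
      have h3 : padicValNat 3 G = 2 := by omega
      rw [h3]
      exact even_two
  obtain ⟨x, y, hxy⟩ := hG2
  have hTS : TwoSq (G : ℤ) := ⟨x, y, by rw [hxy]; push_cast; ring⟩
  -- modulo 4
  have h4ρ : ρ % 4 = 1 ∧ 4 ∣ ω := by
    have hx := gc_sq_mod x
    have hy := gc_sq_mod y
    have hmod : (z : ℤ) % 8 = ((G : ℤ) % 8) * (ρ % 8) % 8 := by rw [hρ, Int.mul_emod]
    have hGm : (G : ℤ) % 8 = ((G % 8 : ℕ) : ℤ) := by omega
    have hρr : 0 ≤ ρ % 8 ∧ ρ % 8 < 8 := ⟨Int.emod_nonneg _ (by norm_num), Int.emod_lt_of_pos _ (by norm_num)⟩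
    obtain ⟨hr0, hr8⟩ := hρr
    have hGr : G % 8 = 0 ∨ G % 8 = 1 ∨ G % 8 = 2 ∨ G % 8 = 4 ∨ G % 8 = 5 := by omega
    have hev : z % 2 = 0 → G % 2 = 0 := by
      intro h
      have h1 : 2 ∣ G := by
        rw [hG]
        apply Nat.dvd_gcd
        · rw [← Int.natCast_dvd]
          exact Int.dvd_of_emod_eq_zero h
        · exact (show 2 ∣ 8 by norm_num).trans h8W
      omega
    clear_value z
    clear hρ hz hxy hcop hGz' hno hTS htail hgQ
    have hcase : (G % 8 = 1 ∨ G % 8 = 5 ∨ G % 8 = 2) ∧ ρ % 4 = 1 := by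
      rw [hGm] at hmod
      have hr4 : ρ % 4 = (ρ % 8) % 4 := by omega
      rw [hr4]
      rcases hGr with h | h | h | h | h <;> rw [h] at hmod <;> interval_cases (ρ % 8) <;> omega
    refine ⟨hcase.2, ?_⟩
    have h8 : 8 ∣ G * ω := by rw [← hω]; exact h8W
    have hc8 : G % 2 = 1 → 4 ∣ ω := by
      intro h
      have h1 : Nat.Coprime (2 ^ 3) G :=
        Nat.Coprime.pow_left 3 (Nat.coprime_two_left.2 (Nat.odd_iff.2 h))
      exact (show 4 ∣ 8 by norm_num).trans (h1.dvd_of_dvd_mul_left (by simpa using h8))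
    rcases hcase.1 with h | h | h
    · exact hc8 (by omega)
    · exact hc8 (by omega)
    · obtain ⟨G', hG'⟩ : 2 ∣ G := by omega
      have hodd : Nat.Coprime (2 ^ 2) G' :=
        Nat.Coprime.pow_left 2 (Nat.coprime_two_left.2 (Nat.odd_iff.2 (by omega)))
      have h4 : 4 ∣ G' * ω := by
        rw [hG'] at h8
        have : 2 * 4 ∣ 2 * (G' * ω) := by
          have e : 2 * (G' * ω) = 2 * G' * ω := by ring
          rw [e]; simpa using h8
        exact Nat.dvd_of_mul_dvd_mul_left (by norm_num) this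
      exact hodd.dvd_of_dvd_mul_left (by simpa using h4)
  -- the product
  have hsub : W.primeFactors.filter (fun p => ¬ p ∣ ω) ⊆
      (Qset ℓ E).filter (fun q => q % 4 = 1 ∧ (q : ℤ) ∣ z) := by
    intro p hp
    rw [Finset.mem_filter, Nat.mem_primeFactors] at hp
    obtain ⟨⟨hpp, hpW, -⟩, hpω⟩ := hp
    have hcp : Nat.Coprime p ω := (Nat.Prime.coprime_iff_not_dvd hpp).2 hpω
    have hp4 : p % 4 = 1 ∨ p % 4 = 3 ∨ p = 2 := by
      rcases hpp.eq_two_or_odd with h | h <;> omega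
    by_cases hpl : p ≤ ℓ
    · exfalso
      have h1 : p ^ Jp ∣ G := by
        have h2 : p ^ Jp ∣ G * ω := by rw [← hω]; exact gc_pow_dvd_W hpp hpl
        exact (Nat.Coprime.pow_left Jp hcp).dvd_of_dvd_mul_right h2
      have h2 : ((p ^ Jp : ℕ) : ℤ) ∣ z := (Int.natCast_dvd_natCast.2 h1).trans hGz'
      have h3 : ((p ^ 3 : ℕ) : ℤ) ∣ z :=
        (Int.natCast_dvd_natCast.2 (pow_dvd_pow p hJp)).trans h2
      have h4 : (p : ℤ) ∣ z :=
        (Int.natCast_dvd_natCast.2 (dvd_pow_self p (by norm_num : (3 : ℕ) ≠ 0))).trans h3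
      rcases hp4 with h | h | h
      · by_cases hp5 : p = 5
        · rw [hp5] at h4
          exact h5 (by exact_mod_cast h4)
        · exact hpJ p hpp hpl h hp5 h2
      · by_cases hp3 : 3 < p
        · exact hno p hpp hpW h hp3 h4
        · have hp3' : p = 3 := by
            have := hpp.two_le
            interval_cases p <;> omega
          rw [hp3'] at h3 h4
          have h6 : z % 3 = 0 := Int.emod_eq_zero_of_dvd (by exact_mod_cast h4)
          have h7 : z % 27 = 0 := Int.emod_eq_zero_of_dvd (by simpa using h3)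
          rcases hg3 with h8 | h8
          · exact h8 h6
          · exact h8.2 h7
      · rw [h] at h3
        have h6 : z % 8 = 0 := Int.emod_eq_zero_of_dvd (by simpa using h3)
        omega
    · push Not at hpl
      have hpQ := gc_prime_dvd_W hpp hpW hpl
      have h1 : p ∣ G := by
        have h2 : p ∣ G * ω := by rw [← hω]; exact hpW
        exact hcp.dvd_of_dvd_mul_right h2
      have h4 : (p : ℤ) ∣ z := (Int.natCast_dvd_natCast.2 h1).trans hGz'
      rw [Finset.mem_filter]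
      refine ⟨hpQ, ?_, h4⟩
      rcases hp4 with h | h | h
      · exact h
      · exact absurd h4 (hno p hpp hpW h (by omega))
      · omega
  have hQ' : ∑ p ∈ (Qset ℓ E).filter (fun q : ℕ => q % 4 = 1 ∧ (q : ℤ) ∣ z), (1 / (p : ℝ)) ≤ ξ := by
    refine le_trans (le_of_eq ?_) hQ
    refine Finset.sum_bij (fun (p : ℕ) _ => (p : ℤ)) ?_ ?_ ?_ ?_
    · intro p hp
      rw [Finset.mem_filter] at hp ⊢
      refine ⟨?_, by omega, hp.2.2⟩
      simpa using hp.1
    · intro p _ p' _ h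
      exact_mod_cast h
    · intro x hx
      rw [Finset.mem_filter] at hx
      obtain ⟨h0, h1, h2⟩ := hx
      obtain ⟨p, hp, hpx⟩ : ∃ a ∈ Qset ℓ E, (a : ℤ) = x := by simpa using h0
      subst hpx
      exact ⟨p, Finset.mem_filter.2 ⟨hp, by omega, h2⟩, rfl⟩
    · intro p _
      push_cast
      rfl
  have hprod : ∏ p ∈ W.primeFactors.filter (fun p => ¬ p ∣ ω), (1 - 1 / (p : ℝ))⁻¹ ≤ 1 + 4 * ξ := by
    have hterm : ∀ p : ℕ, p ∈ (Qset ℓ E).filter (fun q : ℕ => q % 4 = 1 ∧ (q : ℤ) ∣ z) →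
        1 ≤ (1 - 1 / (p : ℝ))⁻¹ ∧ (1 - 1 / (p : ℝ))⁻¹ ≤ Real.exp (7 / 6 * (1 / (p : ℝ))) := by
      intro p hp
      rw [Finset.mem_filter] at hp
      have hpl : ℓ < p := by
        have := hp.1
        unfold Qset at this
        exact (Finset.mem_filter.1 this).2
      have hp7 : (7 : ℝ) ≤ p := by
        have : 7 ≤ p := by omega
        exact_mod_cast this
      have hp0 : (0 : ℝ) < p := by linarith
      have h1 : (1 - 1 / (p : ℝ))⁻¹ = 1 + 1 / ((p : ℝ) - 1) := by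
        have : (p : ℝ) - 1 ≠ 0 := by linarith
        field_simp
        ring
      constructor
      · rw [h1]
        have : 0 ≤ 1 / ((p : ℝ) - 1) := by apply div_nonneg <;> linarith
        linarith
      · rw [h1]
        have h2 : 1 / ((p : ℝ) - 1) ≤ 7 / 6 * (1 / (p : ℝ)) := by
          rw [div_le_iff₀ (by linarith)]
          have : 7 / 6 * (1 / (p : ℝ)) * ((p : ℝ) - 1) = 7 / 6 - 7 / 6 * (1 / (p : ℝ)) := by
            field_simp
          rw [this]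
          have h3 : 1 / (p : ℝ) ≤ 1 / 7 := by
            apply div_le_div_of_nonneg_left <;> linarith
          linarith
        have h3 := Real.add_one_le_exp (7 / 6 * (1 / (p : ℝ)))
        linarith
    calc ∏ p ∈ W.primeFactors.filter (fun p => ¬ p ∣ ω), (1 - 1 / (p : ℝ))⁻¹
        ≤ ∏ p ∈ (Qset ℓ E).filter (fun q : ℕ => q % 4 = 1 ∧ (q : ℤ) ∣ z), (1 - 1 / (p : ℝ))⁻¹ := by
          apply Finset.prod_le_prod_of_subset_of_one_le hsub
          · intro p hp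
            exact le_trans zero_le_one (hterm p (hsub hp)).1
          · intro p hp _
            exact (hterm p hp).1
      _ ≤ ∏ p ∈ (Qset ℓ E).filter (fun q : ℕ => q % 4 = 1 ∧ (q : ℤ) ∣ z),
            Real.exp (7 / 6 * (1 / (p : ℝ))) := by
          apply Finset.prod_le_prod
          · intro p hp
            exact le_trans zero_le_one (hterm p hp).1
          · intro p hp
            exact (hterm p hp).2
      _ = Real.exp (7 / 6 * ∑ p ∈ (Qset ℓ E).filter (fun q : ℕ => q % 4 = 1 ∧ (q : ℤ) ∣ z),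
            (1 / (p : ℝ))) := by
          rw [← Real.exp_sum, Finset.mul_sum]
      _ ≤ Real.exp (7 / 6 * ξ) := by
          apply Real.exp_le_exp.2
          linarith
      _ ≤ 1 + 4 * ξ := gc_exp hξ hξ4
  have hfin := hcd a b c d E W G ω r ρ τ hE0 hW0 (dvd30 hℓ (by omega)) hω h4ρ.2 hTS hτ
    (Wd_dvd hℓ (by omega) hJ hb hd) (by
      rw [← hρ, hz]
      unfold fam
      simp) (by
      rw [Int.isCoprime_iff_gcd_eq_one]
      unfold Int.gcd
      rw [Int.natAbs_natCast]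
      exact hcop) h4ρ.1 htail ε hε
  filter_upwards [hfin] with N hN
  refine hN.trans ?_
  have hN0 : (0 : ℝ) ≤ N := Nat.cast_nonneg N
  apply mul_le_mul_of_nonneg_right _ hN0
  have h1 : (1 + C * τ) * (∏ p ∈ W.primeFactors.filter (fun p => ¬ p ∣ ω), (1 - 1 / (p : ℝ))⁻¹) ≤
      (1 + C * τ) * (1 + 4 * ξ) := by
    apply mul_le_mul_of_nonneg_left hprod
    have := mul_nonneg hC.le hτ
    linarith
  linarith

end H2S
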