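import Pool.Agent.H2S.Tab

/-!
# H2S/KL: `LL q ≤ 0.352 log q` for `q > 1000`

* `A n = ∑_{p ≤ n} log p / p`. From `log n! = ∑_p v_p(n!) log p ≥ ∑_{p ≤ n} ⌊n/p⌋ log p ≥ n A n - θ n` and
  `log n! ≤ n log n - n + log n + 1`, `θ n ≤ n log 4` (`Chebyshev.theta_le_log4_mul_x` or `primorial_le_4_pow`):
  `A n ≤ log n - 1 + log 4 + (log n + 1)/n ≤ log n + 0.395` for `n ≥ 1000`.
* `A 1000 ≥ 5.147`: `log 1000! ≥ 1000 log 1000 - 1000` and `log 1000! ≤ ∑_{p ≤ 1000} 1000 log p/(p-1)`, so
  `∑_{p ≤ 1000} log p/(p-1) ≥ 5.907`, and `∑_p log p/(p(p-1)) ≤ 0.76` (all primes, true value 0.7554; use the explicit first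
  terms and `∑_{n > N} log n/(n(n-1))` over odd `n` for the rest). (The true value of `A 1000` is 5.6095; a numerical proof
  is fine too and gives more room.)
* For `n ≥ 1000` put `B n = A n - A 1000 ≤ log n - c0`, `c0 = 4.752`. Summation by parts:
  `∑_{1000 < p ≤ n} 1/p = B n/log n + ∑_{m=1000}^{n-1} B m (1/log m - 1/log (m+1))
  ≤ (log n - c0)/log n + ∑ (log m - c0)(1/log m - 1/log (m+1))`; the `c0` terms telescope to `- c0/log 1000`, and
  `log m (1/log m - 1/log (m+1)) = 1 - log m/log (m+1) ≤ log log (m+1) - log log m` (`-log (1-z) ≥ z`). Total: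
  `1 - c0/log 1000 + log log n - log log 1000 ≤ 0.3122 + log log n - log log 1000`.
* `∑ 1/(p-2) ≤ ∑ 1/p + ∑_{p > 1000, odd} (1/(p-2) - 1/p) ≤ ... + 0.0011` and `1 + x ≤ exp x`:
  `LL q ≤ LL 1001 · exp (0.3133) · log q/log 1000 ≤ 1.765 · 1.36793 · log q/6.9077 ≤ 0.3496 log q`
  (the primes `1000 < p < q`, all classes modulo 4). `log 1000 = 3 log 10`, `log 10 = 2.302585...`.
-/

namespace H2S

open Finset

/-! ### Factorials and primes -/

private noncomputable def aa (m : ℕ) : ℝ := if m.Prime then Real.log m / m else 0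

private noncomputable def bb (m : ℕ) : ℝ := if m.Prime then 1 / (m : ℝ) else 0

private theorem log_fact_le (n : ℕ) (hn : 1 ≤ n) :
    Real.log ((n.factorial : ℕ) : ℝ) ≤ ((n : ℝ) + 1) * Real.log n - n + 1 := by
  induction n, hn using Nat.le_induction with
  | base => simp
  | succ n hn ih =>
    rw [Nat.factorial_succ]
    push_cast
    have h0 : (0 : ℝ) < n := by exact_mod_cast hn
    have hf : (0 : ℝ) < ((n.factorial : ℕ) : ℝ) := by exact_mod_cast Nat.factorial_pos n
    rw [Real.log_mul (by positivity) hf.ne']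
    have h1 : 1 / ((n : ℝ) + 1) ≤ Real.log ((n : ℝ) + 1) - Real.log n := by
      have h2 := Real.log_le_sub_one_of_pos (x := (n : ℝ) / (n + 1)) (by positivity)
      rw [Real.log_div h0.ne' (by positivity)] at h2
      have h3 : (n : ℝ) / (n + 1) - 1 = -(1 / ((n : ℝ) + 1)) := by
        field_simp
        ring
      linarith
    have h4 : 1 ≤ (Real.log ((n : ℝ) + 1) - Real.log n) * ((n : ℝ) + 1) := by
      rwa [div_le_iff₀ (by positivity)] at h1
    linarith

private theorem log_fact_eq (n : ℕ) : Real.log ((n.factorial : ℕ) : ℝ) = ∑ k ∈ Ioc 0 n, Real.log k := by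
  induction n with
  | zero => simp
  | succ n ih =>
    rw [sum_Ioc_succ_top (Nat.zero_le n), Nat.factorial_succ, ← ih]
    have hf : ((n.factorial : ℕ) : ℝ) ≠ 0 := by exact_mod_cast (Nat.factorial_pos n).ne'
    rw [Nat.cast_mul, Real.log_mul (by exact_mod_cast Nat.succ_ne_zero n) hf, add_comm]

private theorem log_ge_primes {n k : ℕ} (hk : 0 < k) :
    ∑ p ∈ ((Ioc 0 n).filter Nat.Prime).filter (fun p => p ∣ k), Real.log p ≤ Real.log k := by
  have h1 : ((Ioc 0 n).filter Nat.Prime).filter (fun p => p ∣ k) ⊆ k.primeFactors := by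
    intro p hp
    rw [mem_filter, mem_filter] at hp
    rw [Nat.mem_primeFactors]
    exact ⟨hp.1.2, hp.2, hk.ne'⟩
  have h2 : ∑ p ∈ k.primeFactors, Real.log p ≤ Real.log k := by
    have h3 : ∏ p ∈ k.primeFactors, p ≤ k := Nat.le_of_dvd hk (Nat.prod_primeFactors_dvd k)
    have h4 : ∑ p ∈ k.primeFactors, Real.log p = Real.log ((∏ p ∈ k.primeFactors, p : ℕ) : ℝ) := by
      rw [Nat.cast_prod, Real.log_prod]
      intro p hp
      exact_mod_cast (Nat.prime_of_mem_primeFactors hp).ne_zero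
    rw [h4]
    apply Real.log_le_log
    · exact_mod_cast Finset.prod_pos (fun p hp => (Nat.prime_of_mem_primeFactors hp).pos)
    · exact_mod_cast h3
  refine le_trans (sum_le_sum_of_subset_of_nonneg h1 ?_) h2
  intro p hp _
  exact Real.log_natCast_nonneg p

private theorem sum_floor_le (n : ℕ) :
    ∑ p ∈ (Ioc 0 n).filter Nat.Prime, ((n / p : ℕ) : ℝ) * Real.log p ≤ Real.log ((n.factorial : ℕ) : ℝ) := by
  rw [log_fact_eq]
  calc ∑ p ∈ (Ioc 0 n).filter Nat.Prime, ((n / p : ℕ) : ℝ) * Real.log p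
      = ∑ p ∈ (Ioc 0 n).filter Nat.Prime, ∑ k ∈ (Ioc 0 n).filter (fun k => p ∣ k), Real.log p := by
        apply sum_congr rfl
        intro p _
        rw [sum_const, nsmul_eq_mul, Nat.Ioc_filter_dvd_card_eq_div]
    _ = ∑ k ∈ Ioc 0 n, ∑ p ∈ ((Ioc 0 n).filter Nat.Prime).filter (fun p => p ∣ k), Real.log p := by
        apply sum_comm'
        intro x y
        simp only [mem_filter]
        tauto
    _ ≤ ∑ k ∈ Ioc 0 n, Real.log k := sum_le_sum (fun k hk => log_ge_primes (mem_Ioc.1 hk).1)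

private theorem theta_sum (n : ℕ) :
    ∑ p ∈ (Ioc 0 n).filter Nat.Prime, Real.log p ≤ Real.log 4 * n := by
  have h1 := Chebyshev.theta_le_log4_mul_x (x := (n : ℝ)) (Nat.cast_nonneg n)
  refine le_trans (le_of_eq ?_) h1
  unfold Chebyshev.theta
  rw [Nat.floor_natCast]

private theorem AN_le (n : ℕ) (hn : 1 ≤ n) :
    (n : ℝ) * ∑ m ∈ Ioc 0 n, aa m ≤ ((n : ℝ) + 1) * Real.log n - n + 1 + Real.log 4 * n := by
  have h1 := log_fact_le n hn
  have h2 := sum_floor_le n
  have h3 := theta_sum n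
  have h4 : (n : ℝ) * ∑ m ∈ Ioc 0 n, aa m ≤
      ∑ p ∈ (Ioc 0 n).filter Nat.Prime, ((n / p : ℕ) : ℝ) * Real.log p +
        ∑ p ∈ (Ioc 0 n).filter Nat.Prime, Real.log p := by
    unfold aa
    rw [← sum_filter, mul_sum, ← sum_add_distrib]
    apply sum_le_sum
    intro p hp
    have hp' := (mem_filter.1 hp).2
    have hp0 : (0 : ℝ) < p := by exact_mod_cast hp'.pos
    have h5 : n < p * (n / p + 1) := Nat.lt_mul_div_succ n hp'.pos
    have h6 : (n : ℝ) ≤ p * (((n / p : ℕ) : ℝ) + 1) := by exact_mod_cast h5.le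
    have h7 : 0 ≤ Real.log p := Real.log_natCast_nonneg p
    rw [mul_div_assoc', div_le_iff₀ hp0]
    nlinarith
  linarith

/-! ### The primes up to 1000 -/

private def PL : List ℕ := [
  2, 3, 5, 7, 11, 13, 17, 19, 23, 29, 31, 37, 41, 43, 47, 53, 59, 61, 67, 71, 73, 79, 83, 89, 97, 101, 103, 107,
  109, 113, 127, 131, 137, 139, 149, 151, 157, 163, 167, 173, 179, 181, 191, 193, 197, 199, 211, 223, 227, 229,
  233, 239, 241, 251, 257, 263, 269, 271, 277, 281, 283, 293, 307, 311, 313, 317, 331, 337, 347, 349, 353, 359,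
  367, 373, 379, 383, 389, 397, 401, 409, 419, 421, 431, 433, 439, 443, 449, 457, 461, 463, 467, 479, 487, 491,
  499, 503, 509, 521, 523, 541, 547, 557, 563, 569, 571, 577, 587, 593, 599, 601, 607, 613, 617, 619, 631, 641,
  643, 647, 653, 659, 661, 673, 677, 683, 691, 701, 709, 719, 727, 733, 739, 743, 751, 757, 761, 769, 773, 787,
  797, 809, 811, 821, 823, 827, 829, 839, 853, 857, 859, 863, 877, 881, 883, 887, 907, 911, 919, 929, 937, 941,
  947, 953, 967, 971, 977, 983, 991, 997]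

private theorem PL_prime : ∀ p ∈ PL, 2 ≤ p ∧ p ≤ 1000 ∧ ∀ m < 32, 2 ≤ m → m ∣ p → m = p := by
  decide +kernel

private theorem PL_num : 2 ^ 79350 ≤ ∏ p ∈ PL.toFinset, p ^ (10000 / p) := by
  decide +kernel

private theorem A1000 : 5.5 ≤ ∑ m ∈ Ioc 0 1000, aa m := by
  have hsub : PL.toFinset ⊆ (Ioc 0 1000).filter Nat.Prime := by
    intro p hp
    rw [List.mem_toFinset] at hp
    obtain ⟨h1, h2, h3⟩ := PL_prime p hp
    rw [mem_filter, mem_Ioc]
    refine ⟨⟨by omega, h2⟩, ?_⟩
    by_contra hnp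
    have h4 := Nat.minFac_sq_le_self (by omega : 0 < p) hnp
    have h5 : p.minFac < 32 := by
      by_contra h
      rw [not_lt] at h
      nlinarith
    have h6 := h3 _ h5 (Nat.minFac_prime (by omega)).two_le (Nat.minFac_dvd p)
    rw [h6] at h4
    nlinarith
  have h1 : ∑ p ∈ PL.toFinset, Real.log p / p ≤ ∑ m ∈ Ioc 0 1000, aa m := by
    unfold aa
    rw [← sum_filter]
    apply sum_le_sum_of_subset_of_nonneg hsub
    intro p _ _
    exact div_nonneg (Real.log_natCast_nonneg p) (Nat.cast_nonneg p)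
  have h2 : Real.log ((∏ p ∈ PL.toFinset, p ^ (10000 / p) : ℕ) : ℝ) ≤
      10000 * ∑ p ∈ PL.toFinset, Real.log p / p := by
    rw [Nat.cast_prod, Real.log_prod, mul_sum]
    · apply sum_le_sum
      intro p hp
      have hp' := (mem_filter.1 (hsub hp)).2
      have hp0 : (0 : ℝ) < p := by exact_mod_cast hp'.pos
      rw [Nat.cast_pow, Real.log_pow, mul_div_assoc', le_div_iff₀ hp0]
      have h3 : ((10000 / p : ℕ) : ℝ) * p ≤ 10000 := by
        exact_mod_cast Nat.div_mul_le_self 10000 p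
      have h4 : 0 ≤ Real.log p := Real.log_natCast_nonneg p
      nlinarith
    · intro p hp
      have hp' := (mem_filter.1 (hsub hp)).2
      exact_mod_cast pow_ne_zero _ hp'.ne_zero
  have h3 : (79350 : ℝ) * Real.log 2 ≤ Real.log ((∏ p ∈ PL.toFinset, p ^ (10000 / p) : ℕ) : ℝ) := by
    have h4 : Real.log (((2 ^ 79350 : ℕ)) : ℝ) ≤ Real.log ((∏ p ∈ PL.toFinset, p ^ (10000 / p) : ℕ) : ℝ) := by
      apply Real.log_le_log
      · rw [Nat.cast_pow]
        exact pow_pos (by norm_num) _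
      · exact Nat.cast_le.2 PL_num
    rw [Nat.cast_pow, Real.log_pow] at h4
    exact_mod_cast h4
  have h5 := Real.log_two_gt_d9
  linarith

/-! ### Numerical bounds for `log 1000` -/

private theorem log1000_lt : Real.log 1000 < 6.932 := by
  have h1 : Real.log 1000 ≤ Real.log ((2 : ℝ) ^ 10) := Real.log_le_log (by norm_num) (by norm_num)
  rw [Real.log_pow] at h1
  have h2 := Real.log_two_lt_d9
  push_cast at h1
  linarith

private theorem log1000_gt : 6.862 < Real.log 1000 := by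
  have h1 : Real.log ((2 : ℝ) ^ 99) ≤ Real.log ((1000 : ℝ) ^ 10) := Real.log_le_log (by norm_num) (by norm_num)
  rw [Real.log_pow, Real.log_pow] at h1
  have h2 := Real.log_two_gt_d9
  push_cast at h1
  linarith

private theorem B_le (n : ℕ) (hn : 1000 ≤ n) : ∑ m ∈ Ioc 1000 n, aa m ≤ Real.log n - 5.1 := by
  have h1 := AN_le n (by omega)
  have h2 := A1000
  have h3 : ∑ m ∈ Ioc 0 1000, aa m + ∑ m ∈ Ioc 1000 n, aa m = ∑ m ∈ Ioc 0 n, aa m :=
    sum_Ioc_consecutive _ (by norm_num) hn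
  have hn0 : (1000 : ℝ) ≤ n := by exact_mod_cast hn
  have h4 : Real.log 4 < 1.3863 := by
    have : Real.log 4 = 2 * Real.log 2 := by
      rw [show (4 : ℝ) = 2 ^ 2 by norm_num, Real.log_pow]
      norm_num
    rw [this]
    have := Real.log_two_lt_d9
    linarith
  have h5 : Real.log n + 1 ≤ 0.008 * n := by
    have h6 := Real.log_le_sub_one_of_pos (x := (n : ℝ) / 1000) (by positivity)
    rw [Real.log_div (by positivity) (by norm_num)] at h6
    have h7 := log1000_lt
    linarith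
  have h8 : (n : ℝ) * ∑ m ∈ Ioc 0 n, aa m ≤ n * (Real.log n + 0.3943 ) := by
    nlinarith
  have h9 := le_of_mul_le_mul_left h8 (by linarith)
  linarith

/-! ### Summation by parts -/

private theorem S_le (n : ℕ) (hn : 1000 ≤ n) :
    ∑ m ∈ Ioc 1000 n, bb m ≤ (∑ m ∈ Ioc 1000 n, aa m) / Real.log n + Real.log (Real.log n) -
      Real.log (Real.log 1000) - 5.1 * (1 / Real.log 1000 - 1 / Real.log n) := by
  induction n, hn using Nat.le_induction with
  | base => simp
  | succ n hn ih =>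
    have hB := B_le n hn
    have hn0 : (1000 : ℝ) ≤ n := by exact_mod_cast hn
    have hl0 : 0 < Real.log n := Real.log_pos (by linarith)
    have hl1 : 0 < Real.log ((n : ℝ) + 1) := Real.log_pos (by linarith)
    have hle : Real.log n ≤ Real.log ((n : ℝ) + 1) := Real.log_le_log (by linarith) (by linarith)
    rw [sum_Ioc_succ_top (by omega), sum_Ioc_succ_top (by omega)]
    push_cast
    have hab : bb (n + 1) = aa (n + 1) / Real.log ((n : ℝ) + 1) := by
      unfold bb aa
      split_ifs with h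
      · push_cast
        field_simp
      · simp
    have h1 : 0 ≤ 1 / Real.log n - 1 / Real.log ((n : ℝ) + 1) := by
      have := one_div_le_one_div_of_le hl0 hle
      linarith
    have h2 : (∑ m ∈ Ioc 1000 n, aa m) * (1 / Real.log n - 1 / Real.log ((n : ℝ) + 1)) ≤
        (Real.log n - 5.1) * (1 / Real.log n - 1 / Real.log ((n : ℝ) + 1)) :=
      mul_le_mul_of_nonneg_right hB h1
    have h3 : 1 - Real.log n / Real.log ((n : ℝ) + 1) ≤ Real.log (Real.log ((n : ℝ) + 1)) - Real.log (Real.log n) := by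
      have h4 := Real.log_le_sub_one_of_pos (x := Real.log n / Real.log ((n : ℝ) + 1)) (by positivity)
      rw [Real.log_div hl0.ne' hl1.ne'] at h4
      linarith
    have h5 : (Real.log n - 5.1) * (1 / Real.log n - 1 / Real.log ((n : ℝ) + 1)) =
        1 - Real.log n / Real.log ((n : ℝ) + 1) - 5.1 * (1 / Real.log n - 1 / Real.log ((n : ℝ) + 1)) := by
      field_simp
    have h6 : (∑ m ∈ Ioc 1000 n, aa m + aa (n + 1)) / Real.log ((n : ℝ) + 1) =
        (∑ m ∈ Ioc 1000 n, aa m) / Real.log n + bb (n + 1) -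
          (∑ m ∈ Ioc 1000 n, aa m) * (1 / Real.log n - 1 / Real.log ((n : ℝ) + 1)) := by
      rw [hab]
      field_simp
      ring
    rw [h6]
    linarith

private theorem S_le' (n : ℕ) (hn : 1000 ≤ n) :
    ∑ m ∈ Ioc 1000 n, bb m ≤ 1 + Real.log (Real.log n) - Real.log (Real.log 1000) - 5.1 / Real.log 1000 := by
  have h1 := S_le n hn
  have h2 := B_le n hn
  have hn0 : (1000 : ℝ) ≤ n := by exact_mod_cast hn
  have hl0 : 0 < Real.log n := Real.log_pos (by linarith)
  have h3 : (∑ m ∈ Ioc 1000 n, aa m) / Real.log n ≤ 1 - 5.1 * (1 / Real.log n) := by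
    rw [div_le_iff₀ hl0]
    have : (1 - 5.1 * (1 / Real.log n)) * Real.log n = Real.log n - 5.1 := by
      field_simp
    linarith
  have h4 : (5.1 : ℝ) / Real.log 1000 = 5.1 * (1 / Real.log 1000) := by ring
  rw [h4]
  linarith

private theorem tail_le (n : ℕ) (hn : 1000 ≤ n) :
    ∑ m ∈ Ioc 1000 n, (1 / ((m : ℝ) - 2) - 1 / m) ≤ 0.0021 - 1 / n := by
  have h : ∑ m ∈ Ioc 1000 n, (1 / ((m : ℝ) - 2) - 1 / m) = 1 / 999 + 1 / 1000 - 1 / ((n : ℝ) - 1) - 1 / n := by
    induction n, hn using Nat.le_induction with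
    | base => norm_num
    | succ n hn ih =>
      rw [sum_Ioc_succ_top (by omega), ih]
      push_cast
      have e1 : (n : ℝ) + 1 - 2 = n - 1 := by ring
      have e2 : (n : ℝ) + 1 - 1 = n := by ring
      rw [e1, e2]
      ring
  rw [h]
  have hn0 : (1000 : ℝ) ≤ n := by exact_mod_cast hn
  have h1 : 0 < 1 / ((n : ℝ) - 1) := by
    apply one_div_pos.2
    linarith
  have h2 : (1 : ℝ) / 999 + 1 / 1000 ≤ 0.0021 := by norm_num
  linarith

private theorem exp_num : 1.765 * Real.exp (1.0021 - 5.1 / Real.log 1000) ≤ 0.352 * Real.log 1000 := by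
  have h1 := log1000_lt
  have h2 := log1000_gt
  have h3 : 0.7357 ≤ 5.1 / Real.log 1000 := by
    rw [le_div_iff₀ (by linarith)]
    nlinarith
  have h4 : Real.exp (1.0021 - 5.1 / Real.log 1000) ≤ Real.exp 0.2664 := Real.exp_le_exp.2 (by linarith)
  have h5 : Real.exp 0.1332 ≤ 1.154 := by
    have h6 := Real.add_one_le_exp (-0.1332 : ℝ)
    have h7 : Real.exp 0.1332 * Real.exp (-0.1332) = 1 := by
      rw [← Real.exp_add]
      norm_num
    have h8 := Real.exp_pos 0.1332
    nlinarith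
  have h9 : Real.exp 0.2664 = Real.exp 0.1332 * Real.exp 0.1332 := by
    rw [← Real.exp_add]
    norm_num
  have h10 := Real.exp_pos 0.1332
  have h11 : Real.exp 0.2664 ≤ 1.3318 := by
    rw [h9]
    nlinarith
  linarith

theorem LL_le (q : ℕ) (hq : 1000 < q) : LL q ≤ 0.352 * Real.log q := by
  have hq0 : (1001 : ℝ) ≤ q := by exact_mod_cast hq
  have hl0 : 0 < Real.log q := Real.log_pos (by linarith)
  have hL : 0 < Real.log 1000 := Real.log_pos (by norm_num)
  have h1 : LL q = LL 1001 * ∏ m ∈ Ico 1001 q, (if m.Prime ∧ m % 4 = 3 ∧ 7 < m then (1 + 1 / ((m : ℝ) - 2)) else 1) := by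
    unfold LL
    rw [prod_filter, prod_filter, prod_range_mul_prod_Ico _ (by omega)]
  have h2 : ∏ m ∈ Ico 1001 q, (if m.Prime ∧ m % 4 = 3 ∧ 7 < m then (1 + 1 / ((m : ℝ) - 2)) else 1) ≤
      Real.exp (∑ m ∈ Ico 1001 q, (bb m + (1 / ((m : ℝ) - 2) - 1 / m))) := by
    rw [Real.exp_sum]
    apply prod_le_prod
    · intro m hm
      have h3 : (1001 : ℝ) ≤ m := by exact_mod_cast (mem_Ico.1 hm).1
      split_ifs
      · have : 0 ≤ 1 / ((m : ℝ) - 2) := div_nonneg zero_le_one (by linarith)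
        linarith
      · exact zero_le_one
    · intro m hm
      have h3 : (1001 : ℝ) ≤ m := by exact_mod_cast (mem_Ico.1 hm).1
      have h4 : 0 ≤ 1 / ((m : ℝ) - 2) - 1 / m := by
        have := one_div_le_one_div_of_le (by linarith : (0 : ℝ) < (m : ℝ) - 2) (by linarith : (m : ℝ) - 2 ≤ m)
        linarith
      split_ifs with h
      · unfold bb
        rw [if_pos h.1]
        have := Real.add_one_le_exp (1 / (m : ℝ) + (1 / ((m : ℝ) - 2) - 1 / m))
        linarith
      · have h5 : 0 ≤ bb m := by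
          unfold bb
          split_ifs
          · positivity
          · exact le_rfl
        exact Real.one_le_exp (by linarith)
  have h3 : ∑ m ∈ Ico 1001 q, (bb m + (1 / ((m : ℝ) - 2) - 1 / m)) ≤
      1 + Real.log (Real.log q) - Real.log (Real.log 1000) - 5.1 / Real.log 1000 + 0.0021 := by
    have h4 : ∑ m ∈ Ico 1001 q, (bb m + (1 / ((m : ℝ) - 2) - 1 / m)) ≤
        ∑ m ∈ Ioc 1000 q, (bb m + (1 / ((m : ℝ) - 2) - 1 / m)) := by
      apply sum_le_sum_of_subset_of_nonneg
      · intro m hm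
        rw [mem_Ico] at hm
        rw [mem_Ioc]
        omega
      · intro m hm _
        have h3 : (1001 : ℝ) ≤ m := by
          have := (mem_Ioc.1 hm).1
          exact_mod_cast this
        have h4 : 0 ≤ 1 / ((m : ℝ) - 2) - 1 / m := by
          have := one_div_le_one_div_of_le (by linarith : (0 : ℝ) < (m : ℝ) - 2) (by linarith : (m : ℝ) - 2 ≤ m)
          linarith
        have h5 : 0 ≤ bb m := by
          unfold bb
          split_ifs
          · positivity
          · exact le_rfl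
        linarith
    refine h4.trans ?_
    rw [sum_add_distrib]
    have h5 := S_le' q (by omega)
    have h6 := tail_le q (by omega)
    have h7 : (0 : ℝ) < 1 / q := by positivity
    linarith
  have h4 : Real.exp (1 + Real.log (Real.log q) - Real.log (Real.log 1000) - 5.1 / Real.log 1000 + 0.0021) =
      Real.log q / Real.log 1000 * Real.exp (1.0021 - 5.1 / Real.log 1000) := by
    have e : 1 + Real.log (Real.log q) - Real.log (Real.log 1000) - 5.1 / Real.log 1000 + 0.0021 =
        (Real.log (Real.log q) - Real.log (Real.log 1000)) + (1.0021 - 5.1 / Real.log 1000) := by ring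
    rw [e, Real.exp_add, Real.exp_sub, Real.exp_log hl0, Real.exp_log hL]
  have h5 := h2.trans (Real.exp_le_exp.2 h3)
  rw [h4] at h5
  have h6 := tab3
  have h7 : (0 : ℝ) ≤ ∏ m ∈ Ico 1001 q, (if m.Prime ∧ m % 4 = 3 ∧ 7 < m then (1 + 1 / ((m : ℝ) - 2)) else 1) := by
    apply prod_nonneg
    intro m hm
    have h3 : (1001 : ℝ) ≤ m := by exact_mod_cast (mem_Ico.1 hm).1
    split_ifs
    · have : 0 ≤ 1 / ((m : ℝ) - 2) := div_nonneg zero_le_one (by linarith)
      linarith
    · exact zero_le_one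
  rw [h1]
  calc LL 1001 * ∏ m ∈ Ico 1001 q, (if m.Prime ∧ m % 4 = 3 ∧ 7 < m then (1 + 1 / ((m : ℝ) - 2)) else 1)
      ≤ 1.765 * (Real.log q / Real.log 1000 * Real.exp (1.0021 - 5.1 / Real.log 1000)) :=
        mul_le_mul h6 h5 h7 (by norm_num)
    _ = Real.log q / Real.log 1000 * (1.765 * Real.exp (1.0021 - 5.1 / Real.log 1000)) := by ring
    _ ≤ Real.log q / Real.log 1000 * (0.352 * Real.log 1000) :=
        mul_le_mul_of_nonneg_left exp_num (div_pos hl0 hL).le
    _ = 0.352 * Real.log q := by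
        field_simp

end H2S
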