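import Pool.Agent.H2S.Defs
import Pool.Agent.Pal.LargeSieve

/-!
# H2S/Large: the dual large sieve for the frequencies `fr ω H D`

`Pal.large_sieve` is the primal form: `∑_{i ∈ t} ‖∑_{j ∈ s} a j ex (f j * p i)‖² ≤ 36 M ∑ ‖a j‖²` for `f` injective
with values `< M` and points `p i` in distinct cells of length `1/M`. Apply it with `s = range X`, `f = id`
(`X ≤ M`), the points `p (q, a) = a / q ∈ [0, 1)`, `(q, a) ∈ fr ω H D`, and the cells `⌊M a / q⌋`: for two different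
pairs `|a/q - a'/q'| ≥ 1/(q q') ≥ 1/D² ≥ 1/M` (`a q' ≠ a' q` because both fractions are reduced), so the cells differ.
Duality: put `b t = ∑_p c p ex (a (t0 + t)/q)`, `B = ∑_t ‖b t‖²`. Then
`B = ∑_p c p ex(a t0/q) ∑_t conj(b t) ex (t a/q) ≤ (∑ ‖c p‖²)^(1/2) (∑_p ‖∑_t conj(b t) ex(t a/q)‖²)^(1/2)
 ≤ (∑ ‖c p‖²)^(1/2) (36 M B)^(1/2)`, hence `B ≤ 36 M ∑ ‖c p‖²`.
-/

namespace H2S

open Finset Pool.Agent.Pal

/-- one direction of the separation of the cells -/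
theorem large_sep {M D c q q' a a' : ℕ} (hD : D ^ 2 ≤ M) (hq : q ≤ D) (hq' : q' ≤ D)
    (h1 : M * a < (c + 1) * q) (h2 : c * q' ≤ M * a') (hq0 : 0 < q') :
    a * q' ≤ a' * q := by
  by_contra hlt
  push Not at hlt
  have h3 : M * (a' * q + 1) ≤ M * (a * q') := Nat.mul_le_mul_left M hlt
  have h4 : M * a * q' < (c + 1) * q * q' := Nat.mul_lt_mul_of_pos_right h1 hq0
  have h5 : c * q' * q ≤ M * a' * q := Nat.mul_le_mul_right q h2
  have h6 : q * q' ≤ D ^ 2 := by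
    rw [pow_two]
    exact Nat.mul_le_mul hq hq'
  nlinarith

/-- the cells of different frequencies are different -/
theorem large_cell {ω H D M : ℕ} (hD : D ^ 2 ≤ M) :
    Set.InjOn (fun p : ℕ × ℕ => M * p.2 / p.1) (fr ω H D : Finset (ℕ × ℕ)) := by
  rintro ⟨q, a⟩ hp ⟨q', a'⟩ hp' hc
  simp only [fr, coe_filter, mem_product, mem_Ioc, mem_range, Set.mem_ofPred_eq] at hp hp'
  obtain ⟨⟨⟨hq1, hq2⟩, -⟩, -, haq, hco⟩ := hp
  obtain ⟨⟨⟨hq1', hq2'⟩, -⟩, -, haq', hco'⟩ := hp'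
  simp only at hc
  have hq0 : 0 < q := by omega
  have hq0' : 0 < q' := by omega
  have e1 : (M * a / q) * q ≤ M * a := Nat.div_mul_le_self _ _
  have e2 : M * a < (M * a / q + 1) * q := by
    have h := Nat.div_add_mod (M * a) q
    have h' := Nat.mod_lt (M * a) hq0
    nlinarith
  have e1' : (M * a' / q') * q' ≤ M * a' := Nat.div_mul_le_self _ _
  have e2' : M * a' < (M * a' / q' + 1) * q' := by
    have h := Nat.div_add_mod (M * a') q'
    have h' := Nat.mod_lt (M * a') hq0'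
    nlinarith
  rw [hc] at e1 e2
  have f1 : a * q' ≤ a' * q := large_sep hD hq2 hq2' e2 e1' hq0'
  have f2 : a' * q ≤ a * q' := large_sep hD hq2' hq2 e2' e1 hq0
  have f3 : a * q' = a' * q := le_antisymm f1 f2
  have g1 : q ∣ q' := by
    have : q ∣ a * q' := ⟨a', by rw [f3]; ring⟩
    exact (Nat.Coprime.dvd_of_dvd_mul_left hco.symm this)
  have g2 : q' ∣ q := by
    have : q' ∣ a' * q := ⟨a, by rw [← f3]; ring⟩
    exact (Nat.Coprime.dvd_of_dvd_mul_left hco'.symm this)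
  have g3 : q = q' := Nat.dvd_antisymm g1 g2
  subst g3
  have g4 : a = a' := Nat.eq_of_mul_eq_mul_right hq0 f3
  rw [g4]

theorem large_freq {ω H D X M : ℕ} (hM : 0 < M) (hD : D ^ 2 ≤ M) (hX : X ≤ M) (c : ℕ × ℕ → ℂ) (t0 : ℤ) :
    ∑ t ∈ range X, ‖∑ p ∈ fr ω H D, c p * ex ((p.2 : ℝ) * ((t0 + (t : ℤ) : ℤ) : ℝ) / p.1)‖ ^ 2 ≤
      36 * (M : ℝ) * ∑ p ∈ fr ω H D, ‖c p‖ ^ 2 := by
  classical
  set F := fr ω H D with hF
  set b : ℕ → ℂ := fun t => ∑ p ∈ F, c p * ex ((p.2 : ℝ) * ((t0 + (t : ℤ) : ℤ) : ℝ) / p.1) with hb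
  set B : ℝ := ∑ t ∈ range X, ‖b t‖ ^ 2 with hB
  change B ≤ _
  have hB0 : 0 ≤ B := Finset.sum_nonneg fun _ _ => by positivity
  set A : ℝ := ∑ p ∈ F, ‖c p‖ ^ 2 with hA
  have hA0 : 0 ≤ A := Finset.sum_nonneg fun _ _ => by positivity
  have hmem : ∀ p ∈ F, 0 < p.1 ∧ p.2 < p.1 := by
    intro p hp
    simp only [hF, fr, mem_filter, mem_product, mem_Ioc, mem_range] at hp
    exact ⟨by omega, hp.2.2.1⟩
  -- the primal large sieve
  have hls : ∑ p ∈ F, ‖∑ t ∈ range X, (starRingEnd ℂ) (b t) * ex ((t : ℝ) * ((p.2 : ℝ) / p.1))‖ ^ 2 ≤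
      36 * M * ∑ t ∈ range X, ‖(starRingEnd ℂ) (b t)‖ ^ 2 := by
    refine large_sieve hM (range X) (fun t => t) (fun _ _ _ _ h => h) ?_
      (fun t => (starRingEnd ℂ) (b t)) F (fun p : ℕ × ℕ => M * p.2 / p.1) (large_cell hD) ?_
      (fun p : ℕ × ℕ => (p.2 : ℝ) / p.1) ?_ ?_
    · intro t ht
      exact lt_of_lt_of_le (mem_range.mp ht) hX
    · intro p hp
      obtain ⟨h1, h2⟩ := hmem p hp
      rw [Nat.div_lt_iff_lt_mul h1]
      exact Nat.mul_lt_mul_of_pos_left h2 hM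
    · intro p hp
      have h1 : ((M * p.2 / p.1 : ℕ) : ℝ) ≤ ((M * p.2 : ℕ) : ℝ) / p.1 := Nat.cast_div_le
      refine h1.trans (le_of_eq ?_)
      push_cast
      ring
    · intro p hp
      obtain ⟨h1, h2⟩ := hmem p hp
      have h1R : (0 : ℝ) < p.1 := by exact_mod_cast h1
      have h3 : M * p.2 < (M * p.2 / p.1 + 1) * p.1 := by
        have h := Nat.div_add_mod (M * p.2) p.1
        have h' := Nat.mod_lt (M * p.2) h1
        nlinarith
      have h4 : ((M * p.2 : ℕ) : ℝ) < (((M * p.2 / p.1 + 1) * p.1 : ℕ) : ℝ) := by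
        exact_mod_cast h3
      rw [← mul_div_assoc, div_lt_iff₀ h1R]
      push_cast at h4 ⊢
      exact h4
  have hconj : ∑ t ∈ range X, ‖(starRingEnd ℂ) (b t)‖ ^ 2 = B := by
    rw [hB]
    refine sum_congr rfl fun t _ => ?_
    rw [RCLike.norm_conj]
  rw [hconj] at hls
  -- duality
  have hdual : (B : ℂ) = ∑ p ∈ F, (c p * ex ((p.2 : ℝ) * (t0 : ℝ) / p.1)) *
      ∑ t ∈ range X, (starRingEnd ℂ) (b t) * ex ((t : ℝ) * ((p.2 : ℝ) / p.1)) := by
    have h1 : (B : ℂ) = ∑ t ∈ range X, (starRingEnd ℂ) (b t) * b t := by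
      rw [hB]
      push_cast
      refine sum_congr rfl fun t _ => ?_
      rw [mul_comm, Complex.mul_conj, Complex.normSq_eq_norm_sq]
      push_cast
      rfl
    rw [h1]
    have h2 : ∀ t ∈ range X, (starRingEnd ℂ) (b t) * b t =
        ∑ p ∈ F, (c p * ex ((p.2 : ℝ) * (t0 : ℝ) / p.1)) *
          ((starRingEnd ℂ) (b t) * ex ((t : ℝ) * ((p.2 : ℝ) / p.1))) := by
      intro t _
      conv_lhs => rw [show b t = ∑ p ∈ F, c p * ex ((p.2 : ℝ) * ((t0 + (t : ℤ) : ℤ) : ℝ) / p.1) from rfl]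
      rw [show (∑ p ∈ F, c p * ex ((p.2 : ℝ) * ((t0 + (t : ℤ) : ℤ) : ℝ) / p.1)) = b t from rfl]
      conv_lhs => rw [hb]
      simp only
      rw [mul_sum]
      refine sum_congr rfl fun p _ => ?_
      have h3 : ex ((p.2 : ℝ) * ((t0 + (t : ℤ) : ℤ) : ℝ) / p.1) =
          ex ((p.2 : ℝ) * (t0 : ℝ) / p.1) * ex ((t : ℝ) * ((p.2 : ℝ) / p.1)) := by
        rw [← ex_add]
        congr 1
        push_cast
        ring
      rw [h3]
      ring
    rw [sum_congr rfl h2, sum_comm]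
    refine sum_congr rfl fun p _ => ?_
    rw [mul_sum]
  have hle : B ≤ ∑ p ∈ F, ‖c p‖ *
      ‖∑ t ∈ range X, (starRingEnd ℂ) (b t) * ex ((t : ℝ) * ((p.2 : ℝ) / p.1))‖ := by
    have h1 : B = ‖(B : ℂ)‖ := by
      rw [Complex.norm_real, Real.norm_of_nonneg hB0]
    rw [h1, hdual]
    refine (norm_sum_le _ _).trans (le_of_eq ?_)
    refine sum_congr rfl fun p _ => ?_
    rw [norm_mul, norm_mul, norm_ex, mul_one]
  have hsq : B ^ 2 ≤ A * (36 * M * B) := by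
    calc B ^ 2 ≤ (∑ p ∈ F, ‖c p‖ *
      ‖∑ t ∈ range X, (starRingEnd ℂ) (b t) * ex ((t : ℝ) * ((p.2 : ℝ) / p.1))‖) ^ 2 :=
          pow_le_pow_left₀ hB0 hle 2
      _ ≤ (∑ p ∈ F, ‖c p‖ ^ 2) * ∑ p ∈ F,
          ‖∑ t ∈ range X, (starRingEnd ℂ) (b t) * ex ((t : ℝ) * ((p.2 : ℝ) / p.1))‖ ^ 2 :=
          Finset.sum_mul_sq_le_sq_mul_sq _ _ _
      _ ≤ A * (36 * M * B) := mul_le_mul_of_nonneg_left hls hA0
  rcases eq_or_lt_of_le hB0 with h | h
  · rw [← h]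
    positivity
  · have h3 : B * B ≤ (36 * M * A) * B := by nlinarith
    exact le_of_mul_le_mul_right h3 h

end H2S
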