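import Pool.Agent.H2S.Defs

/-!
# H2S/Pars: Parseval for the family modulo `q`

* `parseval_fam`: expand `‖KK‖² = ∑_{i,j} ex (-a (κ i - κ j)/q)`, exchange with the sum over `a`: the geometric sum over
  `a < q` is `q` if `q ∣ κ i - κ j` and 0 otherwise.
* `red_le`: for `q > 1` the residue `a = 0` is not coprime to `q` and has `KK = I.card`; the others are dropped.
* `Np_ge`: keep only `a = 0` in `parseval_fam`.
-/

namespace H2S

open Finset Pool.Agent.Pal

/-- the geometric sum -/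
theorem pars_sum_ex {N : ℕ} (hN : 0 < N) (n : ℤ) :
    ∑ c ∈ range N, ex ((c : ℝ) * ((n : ℝ) / N)) = if (N : ℤ) ∣ n then (N : ℂ) else 0 := by
  have hN0 : (N : ℝ) ≠ 0 := by exact_mod_cast hN.ne'
  split_ifs with h
  · obtain ⟨q, rfl⟩ := h
    have : ∀ c ∈ range N, ex ((c : ℝ) * ((((N : ℤ) * q : ℤ) : ℝ) / N)) = 1 := by
      intro c _
      have : (c : ℝ) * ((((N : ℤ) * q : ℤ) : ℝ) / N) = ((c * q : ℤ) : ℝ) := by
        push_cast; field_simp
      rw [this, ex_int]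
    rw [Finset.sum_congr rfl this]; simp
  · have h1 := dir_mul N ((n : ℝ) / N)
    have h2 : (N : ℝ) * ((n : ℝ) / N) = (n : ℝ) := by field_simp
    rw [h2, ex_int, sub_self] at h1
    rcases mul_eq_zero.mp h1 with h3 | h3
    · exact h3
    · exfalso
      apply h
      have h4 : ex ((n : ℝ) / N) = 1 := by linear_combination h3
      unfold ex at h4
      rw [Complex.exp_eq_one_iff] at h4
      obtain ⟨k, hk⟩ := h4
      have h5 : (((n : ℝ) / N : ℝ) : ℂ) = ((k : ℝ) : ℂ) := by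
        have h6 : ((2 * Real.pi * ((n : ℝ) / N) : ℝ) : ℂ) * Complex.I =
            (2 * Real.pi * Complex.I) * (((n : ℝ) / N : ℝ) : ℂ) := by push_cast; ring
        rw [h6] at hk
        have h7 : (k : ℂ) * (2 * Real.pi * Complex.I) =
            (2 * Real.pi * Complex.I) * ((k : ℝ) : ℂ) := by push_cast; ring
        rw [h7] at hk
        exact mul_left_cancel₀ Complex.two_pi_I_ne_zero hk
      have h6 : (n : ℝ) / N = k := by exact_mod_cast h5
      rw [div_eq_iff hN0] at h6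
      refine ⟨k, ?_⟩
      have : (n : ℝ) = ((N * k : ℤ) : ℝ) := by push_cast; linarith
      exact_mod_cast this

theorem parseval_fam {ι : Type} (I : Finset ι) (κ : ι → ℤ) {q : ℕ} (hq : 0 < q) :
    ∑ a ∈ range q, ‖KK I κ q a‖ ^ 2 = (q : ℝ) * Np I κ q := by
  have hexp : ∀ a : ℕ, ((‖KK I κ q a‖ ^ 2 : ℝ) : ℂ) =
      ∑ i ∈ I, ∑ j ∈ I, ex ((a : ℝ) * (((κ j - κ i : ℤ) : ℝ) / q)) := by
    intro a
    have h1 : ((‖KK I κ q a‖ ^ 2 : ℝ) : ℂ) =
        KK I κ q a * (starRingEnd ℂ) (KK I κ q a) := by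
      rw [Complex.mul_conj, Complex.normSq_eq_norm_sq]
    rw [h1]
    unfold KK
    rw [map_sum, Finset.sum_mul_sum]
    refine Finset.sum_congr rfl fun i _ => Finset.sum_congr rfl fun j _ => ?_
    rw [← ex_sub]
    congr 1
    push_cast
    ring
  have key : ((∑ a ∈ range q, ‖KK I κ q a‖ ^ 2 : ℝ) : ℂ) = (((q : ℝ) * Np I κ q : ℝ) : ℂ) := by
    rw [Complex.ofReal_sum, Finset.sum_congr rfl fun (a : ℕ) _ => hexp a, Finset.sum_comm]
    have h2 : ∀ i ∈ I, ∑ a ∈ range q, ∑ j ∈ I, ex ((a : ℝ) * (((κ j - κ i : ℤ) : ℝ) / q)) =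
        ∑ j ∈ I, if (q : ℤ) ∣ κ i - κ j then (q : ℂ) else 0 := by
      intro i _
      rw [Finset.sum_comm]
      refine Finset.sum_congr rfl fun j _ => ?_
      rw [pars_sum_ex hq]
      have : (q : ℤ) ∣ κ j - κ i ↔ (q : ℤ) ∣ κ i - κ j := by
        rw [← dvd_neg, neg_sub]
      simp only [this]
    rw [Finset.sum_congr rfl h2, ← Finset.sum_product', ← Finset.sum_filter, Finset.sum_const,
      nsmul_eq_mul]
    unfold Np
    push_cast
    ring
  exact_mod_cast key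

theorem KK_zero {ι : Type} (I : Finset ι) (κ : ι → ℤ) (q : ℕ) :
    ‖KK I κ q 0‖ ^ 2 = (I.card : ℝ) ^ 2 := by
  unfold KK
  simp [ex_zero]

theorem red_le {ι : Type} (I : Finset ι) (κ : ι → ℤ) {q : ℕ} (hq : 1 < q) :
    ∑ a ∈ (range q).filter (fun a => Nat.Coprime a q), ‖KK I κ q a‖ ^ 2 ≤
      (q : ℝ) * Np I κ q - (I.card : ℝ) ^ 2 := by
  rw [← parseval_fam I κ (by omega : 0 < q), ← KK_zero I κ q]
  have h0 : (0 : ℕ) ∈ range q := mem_range.mpr (by omega)
  rw [← Finset.add_sum_erase _ _ h0, add_sub_cancel_left]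
  refine Finset.sum_le_sum_of_subset_of_nonneg ?_ fun _ _ _ => by positivity
  intro a ha
  rw [mem_filter] at ha
  rw [mem_erase]
  refine ⟨?_, ha.1⟩
  rintro rfl
  have := ha.2
  rw [Nat.coprime_zero_left] at this
  omega

theorem Np_ge {ι : Type} (I : Finset ι) (κ : ι → ℤ) {q : ℕ} (hq : 0 < q) :
    (I.card : ℝ) ^ 2 ≤ (q : ℝ) * Np I κ q := by
  rw [← parseval_fam I κ hq, ← KK_zero I κ q]
  exact Finset.single_le_sum (f := fun a => ‖KK I κ q a‖ ^ 2) (fun _ _ => by positivity)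
    (mem_range.mpr hq)

end H2S
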