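import Pool.Agent.H2S.Expand
import Pool.Agent.H2S.Pars
import Pool.Agent.H2S.Large

/-!
# H2S/Second: the second moment of `S(t)`

By `SS_sub` and `‖x + y‖² ≤ 2‖x‖² + 2‖y‖²` the left side is at most twice the sum of the two parts.
* `fr ω 1 H`: `large_freq` (with its `D := H`, `H := 1`, `M := X`, as `H² ≤ X`; if `X = 0` then `H = 0`, impossible)
  gives `36 X ∑ lam² ‖KK‖²`; the sum over the `a` coprime to `q` is `≤ q Np q - I.card²` (`red_le`), and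
  `lam² ≤ L1²/q²`, `(L1²/q²)(q N - M²) = L1² (N - M²/q)/q`.
* `fr ω H D`: `large_freq` with `M := X + D²` gives `36 (X + D²) ∑ lam² ‖KK‖²`, the sum over all `a < q` is
  `q Np q` (`parseval_fam`), for `q > H` the differences are `< q` in absolute value so `Np I κ q = Np I κ 0`, and
  `∑_{q ≤ D} (L2²/q²) q ≤ L2² (1 + log D)`.
-/

namespace H2S

open Finset Pool.Agent.Pal

theorem fr_sum (ω H D : ℕ) (g : ℕ → ℝ) (h : ℕ → ℕ → ℝ) :
    ∑ p ∈ fr ω H D, g p.1 * h p.1 p.2 =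
      ∑ q ∈ (Ioc H D).filter (fun q => Nat.Coprime q ω),
        g q * ∑ a ∈ (range q).filter (fun a => Nat.Coprime a q), h q a := by
  unfold fr
  rw [sum_filter, sum_product, sum_filter]
  refine sum_congr rfl fun q hq => ?_
  rw [mem_Ioc] at hq
  by_cases hc : Nat.Coprime q ω
  · rw [if_pos hc, mul_sum, sum_filter]
    symm
    have hsub : range q ⊆ range D := range_subset_range.2 hq.2
    rw [← sum_subset hsub (f := fun a => if Nat.Coprime q ω ∧ a < q ∧ Nat.Coprime a q then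
      g q * h q a else 0)]
    · refine sum_congr rfl fun a ha => ?_
      rw [mem_range] at ha
      by_cases hca : Nat.Coprime a q
      · rw [if_pos hca, if_pos ⟨hc, ha, hca⟩]
      · simp [hca]
    · intro a _ ha
      rw [mem_range] at ha
      simp [ha]
  · rw [if_neg hc]
    refine sum_eq_zero fun a _ => ?_
    simp [hc]

theorem Np_eq_zero {ι : Type} (I : Finset ι) (κ : ι → ℤ) {H q : ℕ} (hq : H < q)
    (hdiff : ∀ i ∈ I, ∀ j ∈ I, |κ i - κ j| ≤ H) : Np I κ q = Np I κ 0 := by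
  unfold Np
  congr 1
  refine filter_congr fun p hp => ?_
  rw [mem_product] at hp
  have hd := hdiff p.1 hp.1 p.2 hp.2
  constructor
  · intro h
    have h0 : κ p.1 - κ p.2 = 0 := by
      apply Int.eq_zero_of_abs_lt_dvd h
      have : (H : ℤ) < q := by exact_mod_cast hq
      omega
    rw [h0]
    exact dvd_zero _
  · intro h
    have h0 : κ p.1 - κ p.2 = 0 := by
      have : (0 : ℤ) ∣ κ p.1 - κ p.2 := by simpa using h
      exact zero_dvd_iff.1 this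
    rw [h0]
    exact dvd_zero _

theorem sum_inv_le_log (H D ω : ℕ) :
    ∑ q ∈ (Ioc H D).filter (fun q => Nat.Coprime q ω), (1 : ℝ) / q ≤ 1 + Real.log D := by
  have h1 : ∑ q ∈ (Ioc H D).filter (fun q => Nat.Coprime q ω), (1 : ℝ) / q ≤
      ∑ q ∈ Icc 1 D, (1 : ℝ) / q := by
    refine sum_le_sum_of_subset_of_nonneg ?_ (fun i _ _ => by positivity)
    intro q hq
    rw [mem_filter, mem_Ioc] at hq
    rw [mem_Icc]
    omega
  refine h1.trans ?_
  have h2 := harmonic_le_one_add_log D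
  have h3 : ((harmonic D : ℚ) : ℝ) = ∑ q ∈ Icc 1 D, (1 : ℝ) / q := by
    rw [harmonic_eq_sum_Icc]
    push_cast
    refine sum_congr rfl fun q _ => ?_
    rw [one_div]
  rw [← h3]
  exact h2

theorem second_moment {ι : Type} (I : Finset ι) (κ : ι → ℤ) {ω H D X : ℕ} (t0 : ℤ) (hH : 1 ≤ H)
    (hHD : H ≤ D) (hHX : H ^ 2 ≤ X) (hdiff : ∀ i ∈ I, ∀ j ∈ I, |κ i - κ j| ≤ H) {L1 L2 : ℝ}
    (hL1 : 0 ≤ L1) (hL2 : 0 ≤ L2)
    (h1 : ∀ q ∈ Ioc 1 H, Nat.Coprime q ω → |lam ω D q| ≤ L1 / q)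
    (h2 : ∀ q ∈ Ioc H D, Nat.Coprime q ω → |lam ω D q| ≤ L2 / q) :
    ∑ t ∈ range X, (SS I κ ω D (t0 + (t : ℤ)) - lam ω D 1 * I.card) ^ 2 ≤
      72 * X * L1 ^ 2 * (∑ q ∈ (Ioc 1 H).filter (fun q => Nat.Coprime q ω),
        ((Np I κ q : ℝ) - (I.card : ℝ) ^ 2 / q) / q) +
      72 * ((X : ℝ) + (D : ℝ) ^ 2) * L2 ^ 2 * (1 + Real.log D) * Np I κ 0 := by
  have hX0 : 0 < X := lt_of_lt_of_le (by positivity) hHX
  have hD0 : 0 < D := lt_of_lt_of_le hH hHD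
  -- the two parts
  set A : ℤ → ℂ := fun t => ∑ p ∈ fr ω 1 H, (lam ω D p.1 : ℂ) * KK I κ p.1 p.2 *
    ex ((p.2 : ℝ) * t / p.1) with hA
  set B : ℤ → ℂ := fun t => ∑ p ∈ fr ω H D, (lam ω D p.1 : ℂ) * KK I κ p.1 p.2 *
    ex ((p.2 : ℝ) * t / p.1) with hB
  have hstep : ∀ t ∈ range X, (SS I κ ω D (t0 + (t : ℤ)) - lam ω D 1 * I.card) ^ 2 ≤
      2 * ‖A (t0 + (t : ℤ))‖ ^ 2 + 2 * ‖B (t0 + (t : ℤ))‖ ^ 2 := by
    intro t _
    have h := SS_sub I κ (ω := ω) hH hHD (t0 + (t : ℤ))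
    have hn : (SS I κ ω D (t0 + (t : ℤ)) - lam ω D 1 * I.card) ^ 2 =
        ‖A (t0 + (t : ℤ)) + B (t0 + (t : ℤ))‖ ^ 2 := by
      rw [hA, hB]
      rw [← h, Complex.norm_real, Real.norm_eq_abs, sq_abs]
    rw [hn]
    have ht := norm_add_le (A (t0 + (t : ℤ))) (B (t0 + (t : ℤ)))
    nlinarith [norm_nonneg (A (t0 + (t : ℤ)) + B (t0 + (t : ℤ))), norm_nonneg (A (t0 + (t : ℤ))),
      norm_nonneg (B (t0 + (t : ℤ))), sq_nonneg (‖A (t0 + (t : ℤ))‖ - ‖B (t0 + (t : ℤ))‖)]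
  have hpart1 : ∑ t ∈ range X, ‖A (t0 + (t : ℤ))‖ ^ 2 ≤
      36 * (X : ℝ) * (L1 ^ 2 * ∑ q ∈ (Ioc 1 H).filter (fun q => Nat.Coprime q ω),
        ((Np I κ q : ℝ) - (I.card : ℝ) ^ 2 / q) / q) := by
    have h := large_freq (ω := ω) (H := 1) (D := H) (X := X) (M := X) hX0 hHX le_rfl
      (fun p => (lam ω D p.1 : ℂ) * KK I κ p.1 p.2) t0
    refine h.trans ?_
    refine mul_le_mul_of_nonneg_left ?_ (by positivity)
    have e : ∀ p ∈ fr ω 1 H, ‖(lam ω D p.1 : ℂ) * KK I κ p.1 p.2‖ ^ 2 =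
        (lam ω D p.1) ^ 2 * ‖KK I κ p.1 p.2‖ ^ 2 := by
      intro p _
      rw [norm_mul, mul_pow, Complex.norm_real, Real.norm_eq_abs, sq_abs]
    rw [sum_congr rfl e, fr_sum ω 1 H (fun q => (lam ω D q) ^ 2) (fun q a => ‖KK I κ q a‖ ^ 2),
      mul_sum]
    refine sum_le_sum fun q hq => ?_
    rw [mem_filter] at hq
    have hq' := mem_Ioc.1 hq.1
    have hl := h1 q hq.1 hq.2
    have hq0 : (0 : ℝ) < q := by
      have : 0 < q := by omega
      exact_mod_cast this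
    have hl2 : (lam ω D q) ^ 2 ≤ (L1 / q) ^ 2 := by
      rw [← sq_abs (lam ω D q)]
      exact pow_le_pow_left₀ (abs_nonneg _) hl 2
    have hr := red_le I κ (q := q) hq'.1
    have hs0 : 0 ≤ ∑ a ∈ (range q).filter (fun a => Nat.Coprime a q), ‖KK I κ q a‖ ^ 2 :=
      sum_nonneg fun _ _ => by positivity
    calc (lam ω D q) ^ 2 * ∑ a ∈ (range q).filter (fun a => Nat.Coprime a q), ‖KK I κ q a‖ ^ 2
        ≤ (L1 / q) ^ 2 * ((q : ℝ) * Np I κ q - (I.card : ℝ) ^ 2) :=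
          mul_le_mul hl2 hr hs0 (by positivity)
      _ = L1 ^ 2 * (((Np I κ q : ℝ) - (I.card : ℝ) ^ 2 / q) / q) := by
          field_simp
  have hpart2 : ∑ t ∈ range X, ‖B (t0 + (t : ℤ))‖ ^ 2 ≤
      36 * ((X : ℝ) + (D : ℝ) ^ 2) * (L2 ^ 2 * (1 + Real.log D) * Np I κ 0) := by
    have h := large_freq (ω := ω) (H := H) (D := D) (X := X) (M := X + D ^ 2) (by positivity)
      (by omega) (by omega) (fun p => (lam ω D p.1 : ℂ) * KK I κ p.1 p.2) t0
    refine h.trans ?_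
    push_cast
    refine mul_le_mul_of_nonneg_left ?_ (by positivity)
    have e : ∀ p ∈ fr ω H D, ‖(lam ω D p.1 : ℂ) * KK I κ p.1 p.2‖ ^ 2 =
        (lam ω D p.1) ^ 2 * ‖KK I κ p.1 p.2‖ ^ 2 := by
      intro p _
      rw [norm_mul, mul_pow, Complex.norm_real, Real.norm_eq_abs, sq_abs]
    rw [sum_congr rfl e, fr_sum ω H D (fun q => (lam ω D q) ^ 2) (fun q a => ‖KK I κ q a‖ ^ 2)]
    have hterm : ∀ q ∈ (Ioc H D).filter (fun q => Nat.Coprime q ω),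
        (lam ω D q) ^ 2 * ∑ a ∈ (range q).filter (fun a => Nat.Coprime a q), ‖KK I κ q a‖ ^ 2 ≤
        L2 ^ 2 * Np I κ 0 * ((1 : ℝ) / q) := by
      intro q hq
      rw [mem_filter] at hq
      have hq' := mem_Ioc.1 hq.1
      have hl := h2 q hq.1 hq.2
      have hqn : 0 < q := by omega
      have hq0 : (0 : ℝ) < q := by exact_mod_cast hqn
      have hl2 : (lam ω D q) ^ 2 ≤ (L2 / q) ^ 2 := by
        rw [← sq_abs (lam ω D q)]
        exact pow_le_pow_left₀ (abs_nonneg _) hl 2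
      have hs0 : 0 ≤ ∑ a ∈ (range q).filter (fun a => Nat.Coprime a q), ‖KK I κ q a‖ ^ 2 :=
        sum_nonneg fun _ _ => by positivity
      have hr : ∑ a ∈ (range q).filter (fun a => Nat.Coprime a q), ‖KK I κ q a‖ ^ 2 ≤
          (q : ℝ) * Np I κ 0 := by
        rw [← Np_eq_zero I κ hq'.1 hdiff, ← parseval_fam I κ hqn]
        exact sum_le_sum_of_subset_of_nonneg (filter_subset _ _) (fun _ _ _ => by positivity)
      calc (lam ω D q) ^ 2 * ∑ a ∈ (range q).filter (fun a => Nat.Coprime a q), ‖KK I κ q a‖ ^ 2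
          ≤ (L2 / q) ^ 2 * ((q : ℝ) * Np I κ 0) := mul_le_mul hl2 hr hs0 (by positivity)
        _ = L2 ^ 2 * Np I κ 0 * ((1 : ℝ) / q) := by
            field_simp
    refine (sum_le_sum hterm).trans ?_
    rw [← mul_sum]
    have hs := sum_inv_le_log H D ω
    have hc : (0 : ℝ) ≤ L2 ^ 2 * Np I κ 0 := by positivity
    have := mul_le_mul_of_nonneg_left hs hc
    linarith
  have hsum := sum_le_sum hstep
  rw [sum_add_distrib, ← mul_sum, ← mul_sum] at hsum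
  refine hsum.trans ?_
  have e1 : 72 * (X : ℝ) * L1 ^ 2 * (∑ q ∈ (Ioc 1 H).filter (fun q => Nat.Coprime q ω),
        ((Np I κ q : ℝ) - (I.card : ℝ) ^ 2 / q) / q) =
      2 * (36 * (X : ℝ) * (L1 ^ 2 * ∑ q ∈ (Ioc 1 H).filter (fun q => Nat.Coprime q ω),
        ((Np I κ q : ℝ) - (I.card : ℝ) ^ 2 / q) / q)) := by ring
  have e2 : 72 * ((X : ℝ) + (D : ℝ) ^ 2) * L2 ^ 2 * (1 + Real.log D) * Np I κ 0 =
      2 * (36 * ((X : ℝ) + (D : ℝ) ^ 2) * (L2 ^ 2 * (1 + Real.log D) * Np I κ 0)) := by ring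
  rw [e1, e2]
  linarith

end H2S
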