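import Pool.Agent.H2S.Jac

/-!
# H2S/Shift: a simultaneous shift, and `S(t)` for a bad `t`

* `exists_shift`: let `L` be the product of the `d ∈ Icc 1 D` coprime to `ω`; `L` is coprime to `ω`, so there is `τ`
  with `L ∣ ρ + ω τ`, hence every such `d` divides `ρ + ω τ`, and
  `ρ + ω (t - κ) = ω (t - (κ + τ)) + (ρ + ω τ)` with `d` coprime to `ω`.
* `bad_SS`: fix `i` and put `m = ρ + ω (t - κ i) > 0` (a natural number, `m % 4 = 1` as `4 ∣ ω`, `ρ % 4 = 1`). Every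
  divisor of `m` is coprime to `ω` (`IsCoprime ρ ω`). The inner sum of `SS` is `∑_{d ∣ m, d ≤ D} chi d`
  (by the shift property); since `D² < m` it is `∑_{d ∣ m, d² < m} chi d - ∑_{d ∣ m, D < d, d² < m} chi d`; the first sum
  is 0 by `half_sum_zero`; in the second `d < D2` because `d² < m ≤ D2²`, and `|chi d| ≤ 1`.
-/

namespace H2S

open Finset

theorem exists_shift (ω D : ℕ) (ρ : ℤ) :
    ∃ τ : ℤ, ∀ d ∈ Icc 1 D, Nat.Coprime d ω → ∀ t κ : ℤ,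
      ((d : ℤ) ∣ ρ + ω * (t - κ) ↔ (d : ℤ) ∣ t - (κ + τ)) := by
  set L : ℕ := ∏ d ∈ (Icc 1 D).filter (fun d => Nat.Coprime d ω), d with hL
  have hLc : Nat.Coprime L ω := by
    rw [hL]
    exact Nat.Coprime.prod_left fun d hd => (Finset.mem_filter.1 hd).2
  obtain ⟨u, v, huv⟩ := (Nat.isCoprime_iff_coprime.2 hLc)
  refine ⟨-(ρ * v), fun d hd hc t κ => ?_⟩
  have hdL : (d : ℤ) ∣ (L : ℤ) := by
    apply Int.natCast_dvd_natCast.2
    rw [hL]
    exact Finset.dvd_prod_of_mem _ (Finset.mem_filter.2 ⟨hd, hc⟩)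
  have h1 : (d : ℤ) ∣ ρ + ω * (-(ρ * v)) := by
    have e : ρ + ω * (-(ρ * v)) = ρ * u * L := by linear_combination (-ρ) * huv
    rw [e]
    exact hdL.mul_left _
  have hdc : IsCoprime (d : ℤ) (ω : ℤ) := Nat.isCoprime_iff_coprime.2 hc
  have e2 : ρ + ω * (t - κ) = ω * (t - (κ + -(ρ * v))) + (ρ + ω * (-(ρ * v))) := by ring
  rw [e2, (Int.dvd_add_left h1)]
  exact ⟨fun h => hdc.dvd_of_dvd_mul_left h, fun h => h.mul_left _⟩

private lemma chi_abs_le (d : ℕ) : |(chi d : ℝ)| ≤ 1 := by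
  unfold chi
  split_ifs <;> norm_num

private lemma bad_one {ω D D2 : ℕ} {z c : ℤ} (h4 : 4 ∣ ω) {ρ x : ℤ} (hz : z = ρ + ω * x)
    (hρ : IsCoprime ρ (ω : ℤ)) (hρ4 : ρ % 4 = 1)
    (hτ : ∀ d ∈ Icc 1 D2, Nat.Coprime d ω → ((d : ℤ) ∣ z ↔ (d : ℤ) ∣ c)) (hDD : D ≤ D2)
    (h1 : (D : ℤ) * D < z) (h2 : z ≤ (D2 : ℤ) * D2) (h3 : ¬ TwoSq z) :
    |∑ d ∈ (Icc 1 D).filter (fun d => Nat.Coprime d ω), if (d : ℤ) ∣ c then (chi d : ℝ) else 0| ≤
      (((Ioc D D2).filter (fun d => Nat.Coprime d ω ∧ (d : ℤ) ∣ c)).card : ℝ) := by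
  have hz0 : 0 < z := lt_of_le_of_lt (by positivity) h1
  obtain ⟨m, hm⟩ := Int.eq_ofNat_of_zero_le hz0.le
  have hm0 : 0 < m := by omega
  have hm4 : m % 4 = 1 := by
    obtain ⟨k, rfl⟩ := h4
    have h5 : z % 4 = 1 := by
      rw [hz]
      push_cast
      have : ρ + 4 * (k : ℤ) * x = ρ + 4 * (k * x) := by ring
      rw [this]
      omega
    omega
  have hcop : ∀ d : ℕ, d ∣ m → Nat.Coprime d ω := by
    intro d hd
    have h5 : IsCoprime z (ω : ℤ) := by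
      rw [hz]
      exact IsCoprime.add_mul_left_left hρ x
    have h6 : (d : ℤ) ∣ z := by rw [hm]; exact Int.natCast_dvd_natCast.2 hd
    exact Nat.isCoprime_iff_coprime.1 (h5.of_isCoprime_of_dvd_left h6)
  have hiff : ∀ d ∈ Icc 1 D2, Nat.Coprime d ω ∧ (d : ℤ) ∣ c ↔ d ∣ m := by
    intro d hd
    constructor
    · rintro ⟨h5, h6⟩
      have := (hτ d hd h5).2 h6
      rw [hm] at this
      exact Int.natCast_dvd_natCast.1 this
    · intro h5
      refine ⟨hcop d h5, (hτ d hd (hcop d h5)).1 ?_⟩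
      rw [hm]
      exact Int.natCast_dvd_natCast.2 h5
  have hD2m : m ≤ D2 * D2 := by
    rw [hm] at h2
    exact_mod_cast h2
  have hDm : D * D < m := by
    rw [hm] at h1
    exact_mod_cast h1
  rw [← Finset.sum_filter, Finset.filter_filter]
  have e1 : (Icc 1 D).filter (fun d => Nat.Coprime d ω ∧ (d : ℤ) ∣ c) =
      (Icc 1 D).filter (fun d => d ∣ m) := by
    apply Finset.filter_congr
    intro d hd
    rw [Finset.mem_Icc] at hd
    exact hiff d (Finset.mem_Icc.2 ⟨hd.1, hd.2.trans hDD⟩)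
  rw [e1]
  -- the half sum
  have h0 := half_sum_zero hm4 (by rw [← hm]; exact h3)
  have hsplit : m.divisors.filter (fun d => d * d < m) =
      (Icc 1 D).filter (fun d => d ∣ m) ∪ (Ioc D D2).filter (fun d => d ∣ m ∧ d * d < m) := by
    ext d
    simp only [Finset.mem_filter, Nat.mem_divisors, Finset.mem_union, Finset.mem_Icc,
      Finset.mem_Ioc]
    constructor
    · rintro ⟨⟨h5, -⟩, h6⟩
      have hd0 : 0 < d := Nat.pos_of_dvd_of_pos h5 hm0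
      by_cases h7 : d ≤ D
      · exact Or.inl ⟨⟨hd0, h7⟩, h5⟩
      · refine Or.inr ⟨⟨by omega, ?_⟩, h5, h6⟩
        by_contra hc
        push Not at hc
        have : D2 * D2 < d * d := Nat.mul_lt_mul'' hc hc
        omega
    · rintro (⟨⟨h5, h6⟩, h7⟩ | ⟨⟨h5, h6⟩, h7, h8⟩)
      · exact ⟨⟨h7, by omega⟩, lt_of_le_of_lt (Nat.mul_le_mul h6 h6) hDm⟩
      · exact ⟨⟨h7, by omega⟩, h8⟩
  have hdisj : Disjoint ((Icc 1 D).filter (fun d => d ∣ m))
      ((Ioc D D2).filter (fun d => d ∣ m ∧ d * d < m)) := by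
    rw [Finset.disjoint_left]
    intro d h5 h6
    rw [Finset.mem_filter, Finset.mem_Icc] at h5
    rw [Finset.mem_filter, Finset.mem_Ioc] at h6
    omega
  rw [hsplit, Finset.sum_union hdisj] at h0
  have e2 : (∑ d ∈ (Icc 1 D).filter (fun d => d ∣ m), (chi d : ℝ)) =
      -∑ d ∈ (Ioc D D2).filter (fun d => d ∣ m ∧ d * d < m), (chi d : ℝ) := by
    have h5 := congrArg (fun x : ℤ => (x : ℝ)) h0
    push_cast at h5
    linarith
  rw [e2, abs_neg]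
  refine (Finset.abs_sum_le_sum_abs _ _).trans ?_
  refine (Finset.sum_le_sum fun d _ => chi_abs_le d).trans ?_
  rw [Finset.sum_const, nsmul_eq_mul, mul_one]
  have hsub : (Ioc D D2).filter (fun d => d ∣ m ∧ d * d < m) ⊆
      (Ioc D D2).filter (fun d => Nat.Coprime d ω ∧ (d : ℤ) ∣ c) := by
    intro d hd
    rw [Finset.mem_filter] at hd ⊢
    refine ⟨hd.1, ?_⟩
    rw [Finset.mem_Ioc] at hd
    exact (hiff d (Finset.mem_Icc.2 ⟨by omega, hd.1.2⟩)).2 hd.2.1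
  exact_mod_cast Finset.card_le_card hsub

theorem bad_SS {ι : Type} (I : Finset ι) (κ : ι → ℤ) {ω D D2 : ℕ} {ρ τ : ℤ} (h4 : 4 ∣ ω)
    (hρ : IsCoprime ρ (ω : ℤ)) (hρ4 : ρ % 4 = 1)
    (hτ : ∀ d ∈ Icc 1 D2, Nat.Coprime d ω → ∀ t κ : ℤ,
      ((d : ℤ) ∣ ρ + ω * (t - κ) ↔ (d : ℤ) ∣ t - (κ + τ))) (hDD : D ≤ D2) (t : ℤ)
    (h1 : ∀ i ∈ I, (D : ℤ) * D < ρ + ω * (t - κ i)) (h2 : ∀ i ∈ I, ρ + ω * (t - κ i) ≤ (D2 : ℤ) * D2)
    (h3 : ∀ i ∈ I, ¬ TwoSq (ρ + ω * (t - κ i))) :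
    |SS I (fun i => κ i + τ) ω D t| ≤
      ∑ i ∈ I, (((Ioc D D2).filter (fun d => Nat.Coprime d ω ∧ (d : ℤ) ∣ t - (κ i + τ))).card : ℝ) := by
  unfold SS
  refine (Finset.abs_sum_le_sum_abs _ _).trans (Finset.sum_le_sum fun i hi => ?_)
  exact bad_one h4 (z := ρ + ω * (t - κ i)) rfl hρ hρ4 (fun d hd hc => hτ d hd hc t (κ i)) hDD
    (h1 i hi) (h2 i hi) (h3 i hi)

private lemma count_dvd (X : ℕ) {d : ℕ} (hd : 0 < d) (c : ℤ) :
    ((((range X).filter (fun t : ℕ => (d : ℤ) ∣ (t : ℤ) + c)).card : ℕ) : ℝ) ≤ (X : ℝ) / d + 1 := by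
  have h1 : ((range X).filter (fun t : ℕ => (d : ℤ) ∣ (t : ℤ) + c)).card ≤
      ((Finset.Ico c (c + X)).filter (fun z : ℤ => (d : ℤ) ∣ z)).card := by
    apply Finset.card_le_card_of_injOn (fun t : ℕ => (t : ℤ) + c)
    · intro t ht
      rw [Finset.mem_coe, Finset.mem_filter, Finset.mem_range] at ht
      rw [Finset.mem_coe, Finset.mem_filter, Finset.mem_Ico]
      simp only
      exact ⟨⟨by omega, by omega⟩, ht.2⟩
    · intro t _ t' _ h
      simpa using h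
  have h2 := Int.Ico_filter_dvd_card c (c + X) (r := (d : ℤ)) (by exact_mod_cast hd)
  have hd' : (0 : ℚ) < d := by exact_mod_cast hd
  have h3 : ((((Finset.Ico c (c + X)).filter (fun z : ℤ => (d : ℤ) ∣ z)).card : ℕ) : ℚ) ≤
      (X : ℚ) / d + 1 := by
    have h4 : ((((Finset.Ico c (c + X)).filter (fun z : ℤ => (d : ℤ) ∣ z)).card : ℤ) : ℚ) =
        ((max (⌈((c + X : ℤ) : ℚ) / ((d : ℤ) : ℚ)⌉ - ⌈(c : ℚ) / ((d : ℤ) : ℚ)⌉) 0 : ℤ) : ℚ) := by
      rw [h2]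
    have h5 : ((((Finset.Ico c (c + X)).filter (fun z : ℤ => (d : ℤ) ∣ z)).card : ℕ) : ℚ) =
        ((((Finset.Ico c (c + X)).filter (fun z : ℤ => (d : ℤ) ∣ z)).card : ℤ) : ℚ) := by
      norm_cast
    rw [h5, h4]
    push_cast
    apply max_le
    · have h6 := Int.ceil_lt_add_one (((c : ℚ) + X) / d)
      have h7 := Int.le_ceil ((c : ℚ) / d)
      have h8 : ((c : ℚ) + X) / d = c / d + X / d := by ring
      rw [h8] at h6
      rw [h8]
      linarith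
    · positivity
  have h9 : ((((range X).filter (fun t : ℕ => (d : ℤ) ∣ (t : ℤ) + c)).card : ℕ) : ℚ) ≤
      (X : ℚ) / d + 1 := le_trans (by exact_mod_cast h1) h3
  have h10 : (((((range X).filter (fun t : ℕ => (d : ℤ) ∣ (t : ℤ) + c)).card : ℕ) : ℚ) : ℝ) ≤
      (((X : ℚ) / d + 1 : ℚ) : ℝ) := by exact_mod_cast h9
  push_cast at h10
  exact h10

theorem window_sum {ι : Type} (I : Finset ι) (κ : ι → ℤ) (ω : ℕ) {D D2 : ℕ} (X : ℕ) (t0 : ℤ) (hD : 0 < D)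
    (hDD : D ≤ D2) :
    ∑ t ∈ range X, ∑ i ∈ I,
      (((Ioc D D2).filter (fun d => Nat.Coprime d ω ∧ (d : ℤ) ∣ (t0 + (t : ℤ)) - κ i)).card : ℝ) ≤
      I.card * (((D2 : ℝ) - D) * ((X : ℝ) / D + 1)) := by
  rw [Finset.sum_comm]
  have hD' : (0 : ℝ) < D := by exact_mod_cast hD
  have key : ∀ i ∈ I, ∑ t ∈ range X,
      (((Ioc D D2).filter (fun d => Nat.Coprime d ω ∧ (d : ℤ) ∣ (t0 + (t : ℤ)) - κ i)).card : ℝ) ≤
      ((D2 : ℝ) - D) * ((X : ℝ) / D + 1) := by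
    intro i _
    have e1 : ∑ t ∈ range X,
        (((Ioc D D2).filter (fun d => Nat.Coprime d ω ∧ (d : ℤ) ∣ (t0 + (t : ℤ)) - κ i)).card : ℝ) ≤
        ∑ t ∈ range X, ∑ d ∈ Ioc D D2, if (d : ℤ) ∣ (t : ℤ) + (t0 - κ i) then (1 : ℝ) else 0 := by
      apply Finset.sum_le_sum
      intro t _
      rw [← Finset.sum_filter, Finset.sum_const, nsmul_eq_mul, mul_one]
      have hsub : (Ioc D D2).filter (fun d => Nat.Coprime d ω ∧ (d : ℤ) ∣ (t0 + (t : ℤ)) - κ i) ⊆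
          (Ioc D D2).filter (fun d : ℕ => (d : ℤ) ∣ (t : ℤ) + (t0 - κ i)) := by
        intro d hd
        rw [Finset.mem_filter] at hd ⊢
        refine ⟨hd.1, ?_⟩
        have e : (t : ℤ) + (t0 - κ i) = t0 + t - κ i := by ring
        rw [e]
        exact hd.2.2
      exact_mod_cast Finset.card_le_card hsub
    refine e1.trans ?_
    rw [Finset.sum_comm]
    have e2 : ∀ d ∈ Ioc D D2, ∑ t ∈ range X,
        (if (d : ℤ) ∣ (t : ℤ) + (t0 - κ i) then (1 : ℝ) else 0) ≤ (X : ℝ) / D + 1 := by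
      intro d hd
      rw [Finset.mem_Ioc] at hd
      have h3 := count_dvd X (d := d) (by omega) (t0 - κ i)
      rw [← Finset.sum_filter, Finset.sum_const, nsmul_eq_mul, mul_one]
      refine h3.trans ?_
      have h4 : (X : ℝ) / d ≤ X / D := by
        apply div_le_div_of_nonneg_left (by positivity) hD'
        exact_mod_cast hd.1.le
      linarith
    refine (Finset.sum_le_sum e2).trans ?_
    rw [Finset.sum_const, nsmul_eq_mul, Nat.card_Ioc, Nat.cast_sub hDD]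
  refine (Finset.sum_le_sum key).trans ?_
  rw [Finset.sum_const, nsmul_eq_mul]

end H2S
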