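import Pool.Agent.H2S.Alt
import Pool.Agent.H2S.Second
import Pool.Agent.H2S.Shift

/-!
# H2S/Lct: few `t` in a short window are bad for the whole family

Let `Λ, C` be the constants of `lam_bounds ω`, `M = I.card`, `X = ⌊η T⌋`, `s = ω H + |ρ| + 1`,
`D = Nat.sqrt (ω T - s)`, `D2 = Nat.sqrt (ω (T + X) + s) + 1`. All statements 'for large `T`' are for fixed
`ω, ρ, ε, η` and use only `H^8 ≤ T`, i.e. `H ≤ T^(1/8)`.
* For `T ≤ t < T + X`, `i ∈ I`: `D² ≤ ω T - s < ρ + ω (t - κ i) ≤ ω (T + X) + s < D2²` (`|κ i| ≤ H/2`).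
* `(D2 - D) (X / D + 1) ≤ η (η T)` for large `T`:
  `D2 - D ≤ (ω X + 2 s)/(2 √(ω T - s)) + 2 ≤ (3/4) η √(ω T)` and `D ≥ √(ω T - s) - 1`.
* So by `bad_SS` and `window_sum` (with the shift `τ` of `exists_shift ω D2 ρ`) the sum of `|S(t)|` over the bad `t` is at
  most `M η (η T)`: at most `(4 η/Λ) η T ≤ (ε/4) η T` bad `t` have `|S(t)| ≥ (Λ/4) M`, if `η ≤ ε Λ / 16`.
* For the other bad `t`: `|S(t) - lam ω D 1 * M| ≥ Λ M / 2` as `lam ω D 1 ≥ Λ - C/D ≥ 3 Λ/4`. By `second_moment` with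
  `L1 = (5/4) Λ` (for `q ≤ H`: `C q / D ≤ C H / D ≤ Λ/4` for large `T`) and `L2 = Λ + C`, their number is at most
  `(4/(Λ² M²)) (72 X (25/16) Λ² V M² + 72 (X + D²) (Λ+C)² (1 + log D) Np 0)`. The first part is `450 V X ≤ 450 V η T`,
  the second is at most `(4·72·2 ω T (Λ+C)²/Λ²) (log T · Np 0 / M²) ≤ (ε/4) η T` if
  `c = ε η Λ² / (2304 ω (Λ+C)²)` (use `X + D² ≤ 2 ω T`, `1 + log D ≤ log T` for large `T`).
So `η₀ = min 1 (ε Λ/16)` works. (`bad` = no `ρ + ω (t - κ i)` is a sum of two squares.)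
-/

namespace H2S

open Finset

private theorem small_H {a b δ : ℝ} (ha : 0 ≤ a) (hb : 0 ≤ b) (hδ : 0 < δ) :
    ∃ r₀ : ℝ, ∀ T H : ℕ, r₀ ≤ √(T : ℝ) → 1 ≤ H → H ^ 8 ≤ T → a * H + b ≤ δ * √(T : ℝ) := by
  refine ⟨(a + b) ^ 2 / δ ^ 2, fun T H hr hH h8 => ?_⟩
  have hH' : (1 : ℝ) ≤ H := by exact_mod_cast hH
  have h4 : (H : ℝ) ^ 4 ≤ √(T : ℝ) := by
    apply Real.le_sqrt_of_sq_le
    have : ((H : ℝ) ^ 4) ^ 2 = (H : ℝ) ^ 8 := by ring
    rw [this]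
    exact_mod_cast h8
  have h1 : a * H + b ≤ (a + b) * H := by nlinarith
  refine h1.trans ?_
  by_cases hc : (a + b) ≤ δ * (H : ℝ) ^ 3
  · calc (a + b) * H ≤ δ * (H : ℝ) ^ 3 * H := mul_le_mul_of_nonneg_right hc (by linarith)
      _ = δ * (H : ℝ) ^ 4 := by ring
      _ ≤ _ := mul_le_mul_of_nonneg_left h4 hδ.le
  · push Not at hc
    have h5 : δ * H ≤ a + b := by
      have h6 : (H : ℝ) ≤ (H : ℝ) ^ 3 := by
        calc (H : ℝ) = (H : ℝ) ^ 1 := (pow_one _).symm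
          _ ≤ (H : ℝ) ^ 3 := pow_le_pow_right₀ hH' (by norm_num)
      have := mul_le_mul_of_nonneg_left h6 hδ.le
      linarith
    have h6 : (H : ℝ) ≤ (a + b) / δ := by
      rw [le_div_iff₀ hδ]
      linarith
    calc (a + b) * H ≤ (a + b) * ((a + b) / δ) := mul_le_mul_of_nonneg_left h6 (by linarith)
      _ = δ * ((a + b) ^ 2 / δ ^ 2) := by field_simp
      _ ≤ _ := mul_le_mul_of_nonneg_left hr hδ.le

private theorem geom {ω T X s : ℕ} {η r w : ℝ} (hw : 2 ≤ w) (hw2 : w ^ 2 = ω) (hr2 : r ^ 2 = T)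
    (hr : 20 ≤ r) (hs : (s : ℝ) ≤ r) (hη : 0 < η) (hX : (X : ℝ) ≤ η * T) (hrη : 20 ≤ r * η) :
    s ≤ ω * T ∧ 9 / 10 * (w * r) ≤ Nat.sqrt (ω * T - s) ∧ (Nat.sqrt (ω * T - s) : ℝ) ≤ w * r ∧
      Nat.sqrt (ω * T - s) ≤ Nat.sqrt (ω * (T + X) + s) + 1 ∧
      ((Nat.sqrt (ω * (T + X) + s) + 1 : ℕ) : ℝ) - Nat.sqrt (ω * T - s) ≤ 7 / 10 * (η * (w * r)) := by
  have hwr : 40 ≤ w * r := by nlinarith
  have hr1 : r ≤ w * r := by nlinarith
  have hωT : ((ω * T : ℕ) : ℝ) = (w * r) ^ 2 := by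
    push_cast
    rw [← hw2, ← hr2]
    ring
  have hsT : s ≤ ω * T := by
    have : (s : ℝ) ≤ ((ω * T : ℕ) : ℝ) := by
      rw [hωT]
      nlinarith
    exact_mod_cast this
  have hB : ((ω * T - s : ℕ) : ℝ) = (w * r) ^ 2 - s := by
    rw [Nat.cast_sub hsT, hωT]
  have d1 : (Nat.sqrt (ω * T - s) : ℝ) ^ 2 ≤ (w * r) ^ 2 - s := by
    rw [← hB]
    exact_mod_cast Nat.sqrt_le' (ω * T - s)
  have d2 : (w * r) ^ 2 - s < ((Nat.sqrt (ω * T - s) : ℝ) + 1) ^ 2 := by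
    rw [← hB]
    exact_mod_cast Nat.lt_succ_sqrt' (ω * T - s)
  have hs0 : (0 : ℝ) ≤ s := Nat.cast_nonneg s
  have hD0 : (0 : ℝ) ≤ (Nat.sqrt (ω * T - s) : ℝ) := Nat.cast_nonneg _
  have d3 : w * r - 2 ≤ (Nat.sqrt (ω * T - s) : ℝ) := by
    have h1 : (w * r - 1) ^ 2 ≤ ((Nat.sqrt (ω * T - s) : ℝ) + 1) ^ 2 := by nlinarith
    have := (abs_le_of_sq_le_sq' h1 (by linarith)).2
    linarith
  have d4 : (Nat.sqrt (ω * T - s) : ℝ) ≤ w * r := by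
    have h1 : (Nat.sqrt (ω * T - s) : ℝ) ^ 2 ≤ (w * r) ^ 2 := by linarith
    exact (abs_le_of_sq_le_sq' h1 (by linarith)).2
  have hA : ((ω * (T + X) + s : ℕ) : ℝ) ≤ (w * r * (1 + η / 2) + 1) ^ 2 := by
    push_cast
    have h1 : (ω : ℝ) * (T + X) + s ≤ w ^ 2 * (r ^ 2 + η * r ^ 2) + r := by
      rw [hr2, hw2]
      have : (ω : ℝ) * (T + X) ≤ ω * (T + η * T) :=
        mul_le_mul_of_nonneg_left (by linarith) (Nat.cast_nonneg ω)
      linarith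
    refine h1.trans ?_
    have h2 : (w * r * (1 + η / 2) + 1) ^ 2 - (w ^ 2 * (r ^ 2 + η * r ^ 2) + r) =
        (w * r) ^ 2 * (η ^ 2 / 4) + 2 * (w * r) + w * r * η + 1 - r := by ring
    have h3 : 0 ≤ (w * r) ^ 2 * (η ^ 2 / 4) := by positivity
    have h4 : 0 ≤ w * r * η := mul_nonneg (by linarith) hη.le
    linarith
  have e1 : (Nat.sqrt (ω * (T + X) + s) : ℝ) ≤ w * r * (1 + η / 2) + 1 := by
    have h1 : (Nat.sqrt (ω * (T + X) + s) : ℝ) ^ 2 ≤ ((ω * (T + X) + s : ℕ) : ℝ) := by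
      exact_mod_cast Nat.sqrt_le' (ω * (T + X) + s)
    have h2 := h1.trans hA
    have h3 : 0 ≤ w * r * (1 + η / 2) + 1 := by
      have := mul_nonneg (show 0 ≤ w * r by linarith) (show 0 ≤ 1 + η / 2 by linarith)
      linarith
    exact (abs_le_of_sq_le_sq' h2 h3).2
  refine ⟨hsT, by linarith, d4, ?_, ?_⟩
  · have h1 : Nat.sqrt (ω * T - s) ≤ Nat.sqrt (ω * (T + X) + s) := by
      apply Nat.sqrt_le_sqrt
      have : ω * T ≤ ω * (T + X) := Nat.mul_le_mul_left _ (Nat.le_add_right _ _)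
      omega
    omega
  · push_cast
    have h1 : 40 ≤ w * (r * η) := by nlinarith
    linarith

private theorem real_win {η w r T D D2 X M : ℝ} (hη : 0 < η) (hw1 : 2 ≤ w) (hr0 : 0 < r)
    (hrr : r ^ 2 = T) (hrw : 4 * w ≤ r * η) (hDpos : 0 < D) (hX0 : 0 ≤ X) (hX1 : X ≤ η * T)
    (g2 : 9 / 10 * (w * r) ≤ D) (g5 : D2 - D ≤ 7 / 10 * (η * (w * r))) (hM : 0 < M) :
    M * ((D2 - D) * (X / D + 1)) ≤ M * (η * (η * T)) := by
  apply mul_le_mul_of_nonneg_left _ hM.le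
  have hT0 : 0 ≤ T := by rw [← hrr]; positivity
  have hw0 : 0 < w := by linarith
  have hwr0 : 0 < w * r := mul_pos hw0 hr0
  have k1 : X / D + 1 ≤ η * T / (9 / 10 * (w * r)) + 1 := by
    have h1 : X / D ≤ η * T / D := div_le_div_of_nonneg_right hX1 hDpos.le
    have h2 : η * T / D ≤ η * T / (9 / 10 * (w * r)) :=
      div_le_div_of_nonneg_left (by positivity) (by positivity) g2
    linarith
  have k2 : 0 ≤ X / D + 1 := by positivity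
  have k3 : (D2 - D) * (X / D + 1) ≤
      (7 / 10 * (η * (w * r))) * (η * T / (9 / 10 * (w * r)) + 1) :=
    mul_le_mul g5 k1 k2 (by positivity)
  refine k3.trans ?_
  have k4 : (7 / 10 * (η * (w * r))) * (η * T / (9 / 10 * (w * r)) + 1) =
      7 / 9 * (η * (η * T)) + 7 / 10 * (η * (w * r)) := by
    have h9 : (9 / 10 * (w * r)) ≠ 0 := by positivity
    have h10 : η * T / (9 / 10 * (w * r)) * (w * r) = 10 / 9 * (η * T) := by
      field_simp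
    calc (7 / 10 * (η * (w * r))) * (η * T / (9 / 10 * (w * r)) + 1)
        = 7 / 10 * η * (η * T / (9 / 10 * (w * r)) * (w * r)) + 7 / 10 * (η * (w * r)) := by ring
      _ = _ := by rw [h10]; ring
  rw [k4, ← hrr]
  have k5 : η * r * (4 * w) ≤ η * r * (r * η) := mul_le_mul_of_nonneg_left hrw (by positivity)
  have k6 : 0 ≤ η * (η * r ^ 2) := by positivity
  linarith

private theorem real_one {Λ M G F l : ℝ} (hΛ : 0 < Λ) (hM : 0 < M) (h1 : |F| ≤ G)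
    (hlam : 3 / 4 * Λ ≤ l) :
    1 ≤ 4 / (Λ * M) * G + 4 / (Λ ^ 2 * M ^ 2) * (F - l * M) ^ 2 := by
  have hΛM : 0 < Λ * M := mul_pos hΛ hM
  have hG0 : 0 ≤ G := (abs_nonneg _).trans h1
  have p1 : 0 ≤ 4 / (Λ * M) * G := by positivity
  have p2 : 0 ≤ 4 / (Λ ^ 2 * M ^ 2) * (F - l * M) ^ 2 := by positivity
  by_cases hbig : Λ * M / 4 ≤ G
  · have h2 : 4 / (Λ * M) * (Λ * M / 4) ≤ 4 / (Λ * M) * G :=
      mul_le_mul_of_nonneg_left hbig (by positivity)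
    have h3 : 4 / (Λ * M) * (Λ * M / 4) = 1 := by field_simp
    linarith
  · push Not at hbig
    have h2 : F < Λ * M / 4 := (le_abs_self _).trans_lt (h1.trans_lt hbig)
    have h3 : 3 / 4 * Λ * M ≤ l * M := mul_le_mul_of_nonneg_right hlam hM.le
    have h4 : (Λ * M / 2) ^ 2 ≤ (F - l * M) ^ 2 := by
      have h5 : Λ * M / 2 ≤ l * M - F := by linarith
      have h6 : (Λ * M / 2) ^ 2 ≤ (l * M - F) ^ 2 := pow_le_pow_left₀ (by positivity) h5 2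
      have h7 : (l * M - F) ^ 2 = (F - l * M) ^ 2 := by ring
      rwa [h7] at h6
    have h5 : 4 / (Λ ^ 2 * M ^ 2) * (Λ * M / 2) ^ 2 ≤
        4 / (Λ ^ 2 * M ^ 2) * (F - l * M) ^ 2 :=
      mul_le_mul_of_nonneg_left h4 (by positivity)
    have h6 : 4 / (Λ ^ 2 * M ^ 2) * (Λ * M / 2) ^ 2 = 1 := by
      rw [div_mul_eq_mul_div, div_eq_one_iff_eq (by positivity)]
      ring
    linarith

private theorem real_part1 {Λ M η ε T S : ℝ} (hΛ : 0 < Λ) (hM : 0 < M) (hη : 0 < η) (hT : 0 ≤ T)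
    (hη2 : η ≤ ε * Λ / 16) (h1 : S ≤ M * (η * (η * T))) :
    4 / (Λ * M) * S ≤ ε / 4 * (η * T) := by
  have h2 : 4 / (Λ * M) * S ≤ 4 / (Λ * M) * (M * (η * (η * T))) :=
    mul_le_mul_of_nonneg_left h1 (by positivity)
  refine h2.trans ?_
  have h3 : 4 / (Λ * M) * (M * (η * (η * T))) = 4 / Λ * η * (η * T) := by field_simp
  rw [h3]
  apply mul_le_mul_of_nonneg_right _ (by positivity)
  rw [div_mul_eq_mul_div, div_le_iff₀ hΛ]
  linarith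

private theorem real_part2 {Λ C M η ε T V X D c ω S1 N0 lT lD Sq : ℝ} (hΛ : 0 < Λ) (hC : 0 < C)
    (hM : 0 < M) (hη : 0 < η) (hT : 0 ≤ T) (hV : 0 ≤ V) (hω : 0 < ω)
    (hX0 : 0 ≤ X) (hX1 : X ≤ η * T) (hN0 : 0 ≤ N0) (hlD : 0 ≤ 1 + lD) (hlT : 1 + lD ≤ lT)
    (hXD : X + D ^ 2 ≤ 2 * (ω * T)) (hc : c = ε * η * Λ ^ 2 / (2304 * ω * (Λ + C) ^ 2))
    (hc0 : 0 < c) (hyp1 : S1 ≤ V * M ^ 2) (hyp2 : N0 * lT ≤ c * M ^ 2)
    (hsm : Sq ≤ 72 * X * (5 / 4 * Λ) ^ 2 * S1 +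
      72 * (X + D ^ 2) * (Λ + C) ^ 2 * (1 + lD) * N0) :
    4 / (Λ ^ 2 * M ^ 2) * Sq ≤ 450 * V * (η * T) + ε / 4 * (η * T) := by
  have hΛC : 0 < Λ + C := by linarith
  have h1 : 72 * X * (5 / 4 * Λ) ^ 2 * S1 ≤ 72 * (η * T) * (5 / 4 * Λ) ^ 2 * (V * M ^ 2) := by
    calc 72 * X * (5 / 4 * Λ) ^ 2 * S1
        ≤ 72 * X * (5 / 4 * Λ) ^ 2 * (V * M ^ 2) :=
          mul_le_mul_of_nonneg_left hyp1 (by positivity)
      _ = (72 * (5 / 4 * Λ) ^ 2 * (V * M ^ 2)) * X := by ring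
      _ ≤ (72 * (5 / 4 * Λ) ^ 2 * (V * M ^ 2)) * (η * T) :=
          mul_le_mul_of_nonneg_left hX1 (by positivity)
      _ = _ := by ring
  have h2 : 72 * (X + D ^ 2) * (Λ + C) ^ 2 * (1 + lD) * N0 ≤
      72 * (2 * (ω * T)) * (Λ + C) ^ 2 * (c * M ^ 2) := by
    have h3 : (1 + lD) * N0 ≤ c * M ^ 2 := by
      refine le_trans ?_ hyp2
      rw [mul_comm]
      exact mul_le_mul_of_nonneg_left hlT hN0
    calc 72 * (X + D ^ 2) * (Λ + C) ^ 2 * (1 + lD) * N0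
        = 72 * (X + D ^ 2) * (Λ + C) ^ 2 * ((1 + lD) * N0) := by ring
      _ ≤ 72 * (X + D ^ 2) * (Λ + C) ^ 2 * (c * M ^ 2) :=
          mul_le_mul_of_nonneg_left h3 (by positivity)
      _ = (72 * (Λ + C) ^ 2 * (c * M ^ 2)) * (X + D ^ 2) := by ring
      _ ≤ (72 * (Λ + C) ^ 2 * (c * M ^ 2)) * (2 * (ω * T)) :=
          mul_le_mul_of_nonneg_left hXD (by positivity)
      _ = _ := by ring
  have h3 : Sq ≤ 72 * (η * T) * (5 / 4 * Λ) ^ 2 * (V * M ^ 2) +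
      72 * (2 * (ω * T)) * (Λ + C) ^ 2 * (c * M ^ 2) := hsm.trans (add_le_add h1 h2)
  have h4 : 4 / (Λ ^ 2 * M ^ 2) * Sq ≤
      4 / (Λ ^ 2 * M ^ 2) * (72 * (η * T) * (5 / 4 * Λ) ^ 2 * (V * M ^ 2) +
        72 * (2 * (ω * T)) * (Λ + C) ^ 2 * (c * M ^ 2)) :=
    mul_le_mul_of_nonneg_left h3 (by positivity)
  refine h4.trans (le_of_eq ?_)
  have e1 : (Λ + C) ^ 2 * c = ε * η * Λ ^ 2 / (2304 * ω) := by
    rw [hc]
    field_simp
  have e2 : 72 * (2 * (ω * T)) * (Λ + C) ^ 2 * (c * M ^ 2) =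
      72 * 2 * (ω * T) * M ^ 2 * ((Λ + C) ^ 2 * c) := by ring
  rw [e2, e1]
  field_simp
  ring

private theorem int_low {ω T s t k D2 H n ρ : ℤ} (h1 : D2 ≤ ω * T - s) (h2 : ω * k ≤ ω * H)
    (h3 : 0 ≤ ω * t) (h4 : s = ω * H + n + 1) (h5 : -n ≤ ρ) : D2 < ρ + ω * ((T + t) - k) := by
  have h6 : ρ + ω * ((T + t) - k) = ρ + ω * T + ω * t - ω * k := by ring
  rw [h6]
  linarith

private theorem int_up {ω T s t k D2 H n ρ X : ℤ} (h1 : ω * (T + X) + s ≤ D2)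
    (h2 : ω * (-H) ≤ ω * k) (h3 : ω * t ≤ ω * X) (h4 : s = ω * H + n + 1) (h5 : ρ ≤ n) :
    ρ + ω * ((T + t) - k) ≤ D2 := by
  have h6 : ρ + ω * ((T + t) - k) = ρ + ω * T + ω * t - ω * k := by ring
  rw [h6]
  linarith

private theorem final_sum {a b c d e V E : ℝ} (h1 : a ≤ b + c) (h2 : b ≤ E / 4 * e)
    (h3 : c ≤ 450 * V * e + E / 4 * e) (h4 : 0 ≤ E * e) (hd : d = (450 * V + E) * e) : a ≤ d := by
  rw [hd]
  linarith

private theorem r_one {r η T : ℝ} (hr20 : 20 ≤ r) (hrη : 20 ≤ r * η) (hrr : r ^ 2 = T) :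
    r + 1 ≤ η * T := by
  rw [← hrr]
  have h1 : r * 20 ≤ r * (r * η) := mul_le_mul_of_nonneg_left hrη (by linarith)
  linarith

private theorem H_sq {r η : ℝ} {T H X : ℕ} (hr20 : 20 ≤ r) (hrη : 20 ≤ r * η) (hrr : r ^ 2 = T)
    (hH' : (1 : ℝ) ≤ H) (hr : r = √(T : ℝ)) (h8 : H ^ 8 ≤ T) (hX2 : η * T - 1 < X) :
    H ^ 2 ≤ X := by
  have h1 : (H : ℝ) ^ 4 ≤ r := by
    rw [hr]
    apply Real.le_sqrt_of_sq_le
    have : ((H : ℝ) ^ 4) ^ 2 = (H : ℝ) ^ 8 := by ring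
    rw [this]
    exact_mod_cast h8
  have h2 : (H : ℝ) ^ 2 ≤ (H : ℝ) ^ 4 := pow_le_pow_right₀ hH' (by norm_num)
  have h3 := r_one hr20 hrη hrr
  have h4 : ((H ^ 2 : ℕ) : ℝ) ≤ X := by
    push_cast
    linarith
  exact_mod_cast h4

private theorem H_D {r ω n : ℝ} {H D : ℕ} (hω : 4 ≤ ω) (hn : 0 ≤ n) (hs1 : ω * H + (n + 1) ≤ 1 * r)
    (hDr : r ≤ D) : H ≤ D := by
  have h1 : (H : ℝ) ≤ D := by
    have h3 : (0 : ℝ) ≤ (H : ℝ) := Nat.cast_nonneg H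
    have h2 : 1 * (H : ℝ) ≤ ω * H := mul_le_mul_of_nonneg_right (by linarith) h3
    linarith
  exact_mod_cast h1

private theorem CH_D {C Λ r D H : ℝ} (hΛ : 0 < Λ) (hs2 : C * H + 0 ≤ Λ / 4 * r) (hDr : r ≤ D) :
    C * H ≤ Λ / 4 * D := by
  have h4 : Λ / 4 * r ≤ Λ / 4 * D := mul_le_mul_of_nonneg_left hDr (by positivity)
  linarith

private theorem abs_diff {a b τ : ℤ} {H : ℕ} (h1 : 2 * |a| ≤ H) (h2 : 2 * |b| ≤ H) :
    |(a + τ) - (b + τ)| ≤ (H : ℤ) := by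
  rw [add_sub_add_right_eq_sub]
  have h3 := abs_sub a b
  omega

private theorem log_T {w r D T : ℝ} (hw : 2 ≤ w) (hr0 : 0 < r) (hr3w : 3 * w ≤ r) (hrr : r ^ 2 = T)
    (hD : 0 < D) (g3 : D ≤ w * r) : 1 + Real.log D ≤ Real.log T := by
  have h1 : Real.log D ≤ Real.log (w * r) := Real.log_le_log hD g3
  have h2 : Real.log (w * r) = Real.log w + Real.log r :=
    Real.log_mul (by linarith) hr0.ne'
  have h3 : Real.log T = 2 * Real.log r := by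
    rw [← hrr, Real.log_pow]
    norm_num
  have h4 : 1 + Real.log w ≤ Real.log r := by
    have h5 : Real.log (3 * w) ≤ Real.log r := Real.log_le_log (by linarith) hr3w
    rw [Real.log_mul (by norm_num) (by linarith)] at h5
    have h6 : 1 ≤ Real.log 3 := by
      rw [Real.le_log_iff_exp_le (by norm_num)]
      have := Real.exp_one_lt_d9
      linarith
    linarith
  linarith

private theorem X_D {w r D T X η ω : ℝ} (hw2 : w ^ 2 = ω) (hrr : r ^ 2 = T) (hD : 0 < D)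
    (g3 : D ≤ w * r) (hX1 : X ≤ η * T) (hη1 : η ≤ 1) (hT0 : 0 ≤ T) (hω : 4 ≤ ω) :
    X + D ^ 2 ≤ 2 * (ω * T) := by
  have h1 : D ^ 2 ≤ (w * r) ^ 2 := pow_le_pow_left₀ hD.le g3 2
  have h2 : (w * r) ^ 2 = ω * T := by rw [mul_pow, hw2, hrr]
  have h3 : η * T ≤ 1 * T := mul_le_mul_of_nonneg_right hη1 hT0
  have h4 : (1 : ℝ) * T ≤ ω * T := mul_le_mul_of_nonneg_right (by linarith) hT0
  linarith

private theorem Np_shift {ι : Type} (I : Finset ι) (κ : ι → ℤ) (τ : ℤ) (q : ℕ) :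
    Np I (fun i => κ i + τ) q = Np I κ q := by
  unfold Np
  congr 1
  apply Finset.filter_congr
  intro p _
  rw [add_sub_add_right_eq_sub]

open scoped Classical in
theorem LCT (ω : ℕ) (ρ : ℤ) (h4 : 4 ∣ ω) (h0 : 0 < ω) (hρ : IsCoprime ρ (ω : ℤ)) (hρ4 : ρ % 4 = 1)
    {ε : ℝ} (hε : 0 < ε) :
    ∃ η₀ : ℝ, 0 < η₀ ∧ ∀ η : ℝ, 0 < η → η ≤ η₀ → ∃ c : ℝ, 0 < c ∧ ∃ T₀ : ℕ, ∀ T H : ℕ, T₀ ≤ T → 1 ≤ H →
      H ^ 8 ≤ T → ∀ (I : Finset (ℕ × ℕ)) (κ : ℕ × ℕ → ℤ), I.Nonempty → (∀ i ∈ I, 2 * |κ i| ≤ H) →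
      ∀ V : ℝ, 0 ≤ V →
      (∑ q ∈ (Ioc 1 H).filter (fun q => Nat.Coprime q ω),
        ((Np I κ q : ℝ) - (I.card : ℝ) ^ 2 / q) / q ≤ V * (I.card : ℝ) ^ 2) →
      (Np I κ 0 * Real.log T ≤ c * (I.card : ℝ) ^ 2) →
      (((Ico T (T + ⌊η * T⌋₊)).filter
        (fun t : ℕ => ∀ i ∈ I, ¬ TwoSq (ρ + ω * ((t : ℤ) - κ i)))).card : ℝ) ≤
        (450 * V + ε) * (η * T) := by
  obtain ⟨Λ, C, hΛ, hC, hA, hB, hC1⟩ := lam_bounds ω ((by norm_num : 2 ∣ 4).trans h4) h0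
  have hω4 : 4 ≤ ω := Nat.le_of_dvd h0 h4
  have hω4' : (4 : ℝ) ≤ ω := by exact_mod_cast hω4
  refine ⟨min 1 (ε * Λ / 16), lt_min one_pos (by positivity), fun η hη hη0 => ?_⟩
  have hη1 : η ≤ 1 := hη0.trans (min_le_left _ _)
  have hη2 : η ≤ ε * Λ / 16 := hη0.trans (min_le_right _ _)
  set c : ℝ := ε * η * Λ ^ 2 / (2304 * ω * (Λ + C) ^ 2) with hc
  have hΛC : 0 < Λ + C := by linarith
  have hc0 : 0 < c := by
    rw [hc]
    positivity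
  set w : ℝ := √(ω : ℝ) with hw
  have hw2 : w ^ 2 = ω := Real.sq_sqrt (Nat.cast_nonneg ω)
  have hw1 : 2 ≤ w := by
    rw [hw]
    apply Real.le_sqrt_of_sq_le
    linarith
  obtain ⟨r1, hr1⟩ := small_H (a := (ω : ℝ)) (b := ((ρ.natAbs : ℕ) : ℝ) + 1) (δ := 1)
    (Nat.cast_nonneg ω) (by positivity) one_pos
  obtain ⟨r2, hr2⟩ := small_H (a := C) (b := 0) (δ := Λ / 4) hC.le le_rfl (by positivity)
  set R : ℝ := max (max r1 r2) (max (20 + 20 / η) (4 * w / η + 3 * w)) with hR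
  refine ⟨c, hc0, ⌈R ^ 2⌉₊, ?_⟩
  intro T H hT hH h8 I κ hI hκ V hV hyp1 hyp2
  set r : ℝ := √(T : ℝ) with hr
  have hrr : r ^ 2 = T := Real.sq_sqrt (Nat.cast_nonneg T)
  have hRr : R ≤ r := by
    rw [hr]
    apply Real.le_sqrt_of_sq_le
    exact (Nat.le_ceil _).trans (by exact_mod_cast hT)
  have hm1 : r1 ≤ r := ((le_max_left _ _).trans (le_max_left _ _)).trans hRr
  have hm2 : r2 ≤ r := ((le_max_right _ _).trans (le_max_left _ _)).trans hRr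
  have hm3 : 20 + 20 / η ≤ r := ((le_max_left _ _).trans (le_max_right _ _)).trans hRr
  have hm4 : 4 * w / η + 3 * w ≤ r := ((le_max_right _ _).trans (le_max_right _ _)).trans hRr
  have hq1 : 0 < 20 / η := by positivity
  have hq2 : 0 < 4 * w / η := by positivity
  have hr20 : 20 ≤ r := by linarith
  have hr0 : 0 < r := by linarith
  have hrη : 20 ≤ r * η := by
    have h1 : 20 / η ≤ r := by linarith
    rwa [div_le_iff₀ hη] at h1
  have hrw : 4 * w ≤ r * η := by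
    have h1 : 4 * w / η ≤ r := by linarith
    rwa [div_le_iff₀ hη] at h1
  have hr3w : 3 * w ≤ r := by linarith
  have hH' : (1 : ℝ) ≤ H := by exact_mod_cast hH
  have hs1 := hr1 T H hm1 hH h8
  have hs2 := hr2 T H hm2 hH h8
  rw [← hr] at hs1 hs2
  obtain ⟨s, hs⟩ : ∃ s : ℕ, s = ω * H + ρ.natAbs + 1 := ⟨_, rfl⟩
  have hsr : (s : ℝ) ≤ r := by
    rw [hs]
    push_cast
    push_cast at hs1
    linarith
  obtain ⟨X, hX⟩ : ∃ X : ℕ, X = ⌊η * T⌋₊ := ⟨_, rfl⟩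
  have hX1 : (X : ℝ) ≤ η * T := by
    rw [hX]
    exact Nat.floor_le (by positivity)
  have hX2 : η * T - 1 < X := by
    rw [hX]
    have := Nat.lt_floor_add_one (η * (T : ℝ))
    linarith
  obtain ⟨g1, g2, g3, g4, g5⟩ := geom (ω := ω) (T := T) (X := X) (s := s) hw1 hw2 hrr hr20 hsr hη hX1 hrη
  obtain ⟨D, hD⟩ : ∃ D : ℕ, D = Nat.sqrt (ω * T - s) := ⟨_, rfl⟩
  obtain ⟨D2, hD2⟩ : ∃ D2 : ℕ, D2 = Nat.sqrt (ω * (T + X) + s) + 1 := ⟨_, rfl⟩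
  have hDsq : D ^ 2 ≤ ω * T - s := by
    rw [hD]
    exact Nat.sqrt_le' _
  have hD2sq : ω * (T + X) + s < D2 ^ 2 := by
    rw [hD2]
    exact Nat.lt_succ_sqrt' _
  rw [← hD] at g2 g3 g4 g5
  rw [← hD2] at g4 g5
  have hwr : 2 * r ≤ w * r := mul_le_mul_of_nonneg_right hw1 hr0.le
  have hDr : r ≤ D := by linarith
  have hDpos : (0 : ℝ) < D := by linarith
  have hD0 : 0 < D := by exact_mod_cast hDpos
  set M : ℝ := (I.card : ℝ) with hM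
  have hMpos : 0 < M := by
    rw [hM]
    exact_mod_cast hI.card_pos
  -- the shift
  obtain ⟨τ, hτ⟩ := exists_shift ω D2 ρ
  -- the lower bound for `lam ω D 1`
  have hCHD : C * H ≤ Λ / 4 * D := CH_D hΛ hs2 hDr
  have hlam : 3 / 4 * Λ ≤ lam ω D 1 := by
    have h1 := (abs_le.1 (hC1 D hD0)).1
    have h2 : C / D ≤ Λ / 4 := by
      rw [div_le_iff₀ hDpos]
      have h3 : C * 1 ≤ C * H := mul_le_mul_of_nonneg_left hH' hC.le
      rw [mul_one] at h3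
      exact h3.trans hCHD
    clear * - h1 h2
    linarith
  -- the window sum
  have hwin := window_sum I (fun i => κ i + τ) ω (D := D) (D2 := D2) X (T : ℤ) hD0 g4
  have hwin2 : M * (((D2 : ℝ) - D) * ((X : ℝ) / D + 1)) ≤ M * (η * (η * T)) :=
    real_win hη hw1 hr0 hrr hrw hDpos (Nat.cast_nonneg X) hX1 g2 g5 hMpos
  -- the second moment
  have hHD : H ≤ D := H_D hω4' (Nat.cast_nonneg _) hs1 hDr
  have hHX : H ^ 2 ≤ X := H_sq hr20 hrη hrr hH' hr h8 hX2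
  have hdiff : ∀ i ∈ I, ∀ j ∈ I, |(κ i + τ) - (κ j + τ)| ≤ (H : ℤ) :=
    fun i hi j hj => abs_diff (hκ i hi) (hκ j hj)
  have hsm := second_moment I (fun i => κ i + τ) (ω := ω) (H := H) (D := D) (X := X) (T : ℤ) hH hHD
    hHX hdiff (L1 := 5 / 4 * Λ) (L2 := Λ + C) (by positivity) hΛC.le
    (by
      intro q hq hqω
      rw [Finset.mem_Ioc] at hq
      have hq0 : 0 < q := by omega
      have hq' : (0 : ℝ) < q := by exact_mod_cast hq0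
      refine (hA D q hD0 hq0 hqω).trans ?_
      apply div_le_div_of_nonneg_right _ hq'.le
      have h1 : C * q / D ≤ Λ / 4 := by
        rw [div_le_iff₀ hDpos]
        have h2 : (q : ℝ) ≤ H := by exact_mod_cast hq.2
        have h3 : C * q ≤ C * H := mul_le_mul_of_nonneg_left h2 hC.le
        exact h3.trans hCHD
      clear * - h1
      linarith)
    (by
      intro q hq hqω
      rw [Finset.mem_Ioc] at hq
      exact hB D q (by omega) hqω)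
  simp only [Np_shift] at hsm
  -- the bad `t`
  set F : ℕ → ℝ := fun t => SS I (fun i => κ i + τ) ω D ((T : ℤ) + (t : ℤ)) with hF
  set G : ℕ → ℝ := fun t => ∑ i ∈ I, (((Ioc D D2).filter
    (fun d => Nat.Coprime d ω ∧ (d : ℤ) ∣ ((T : ℤ) + (t : ℤ)) - (κ i + τ))).card : ℝ) with hG
  set Bad := (range X).filter (fun u : ℕ => ∀ i ∈ I, ¬ TwoSq (ρ + ω * (((T : ℤ) + (u : ℤ)) - κ i)))
    with hBad
  have hcard : (((Ico T (T + ⌊η * T⌋₊)).filter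
      (fun t : ℕ => ∀ i ∈ I, ¬ TwoSq (ρ + ω * ((t : ℤ) - κ i)))).card : ℝ) ≤ (Bad.card : ℝ) := by
    rw [← hX]
    have h1 : ((Ico T (T + X)).filter
      (fun t : ℕ => ∀ i ∈ I, ¬ TwoSq (ρ + ω * ((t : ℤ) - κ i)))).card ≤ Bad.card := by
      apply Finset.card_le_card_of_injOn (fun t => t - T)
      · intro t ht
        rw [Finset.mem_coe, Finset.mem_filter, Finset.mem_Ico] at ht
        obtain ⟨⟨t1, t2⟩, t3⟩ := ht
        rw [Finset.mem_coe, hBad, Finset.mem_filter, Finset.mem_range]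
        refine ⟨by show t - T < X; omega, ?_⟩
        intro i hi
        have h2 : (T : ℤ) + ((t - T : ℕ) : ℤ) = t := by
          rw [Nat.cast_sub t1]
          ring
        show ¬ TwoSq (ρ + ω * (((T : ℤ) + ((t - T : ℕ) : ℤ)) - κ i))
        rw [h2]
        exact t3 i hi
      · intro t ht t' ht' h
        rw [Finset.mem_coe, Finset.mem_filter, Finset.mem_Ico] at ht ht'
        have h2 : t - T = t' - T := h
        omega
    exact_mod_cast h1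
  refine hcard.trans ?_
  have hFG : ∀ t ∈ Bad, |F t| ≤ G t := by
    intro t ht
    rw [hBad, Finset.mem_filter, Finset.mem_range] at ht
    obtain ⟨t1, t2⟩ := ht
    have hωTs : ((ω * T - s : ℕ) : ℤ) = (ω : ℤ) * T - s := by
      rw [Nat.cast_sub g1]
      push_cast
      ring
    have hkey : ∀ i ∈ I, |κ i| ≤ (H : ℤ) ∧ -(H : ℤ) ≤ κ i ∧ κ i ≤ H := by
      intro i hi
      have h1 := hκ i hi
      have h2 := abs_nonneg (κ i)
      have h3 : |κ i| ≤ (H : ℤ) := by omega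
      exact ⟨h3, (abs_le.1 h3).1, (abs_le.1 h3).2⟩
    have hρa : -(ρ.natAbs : ℤ) ≤ ρ ∧ ρ ≤ (ρ.natAbs : ℤ) := by omega
    have hω0 : (0 : ℤ) ≤ ω := Nat.cast_nonneg ω
    refine bad_SS I κ (ω := ω) (D := D) (D2 := D2) h4 hρ hρ4 hτ g4 ((T : ℤ) + (t : ℤ)) ?_ ?_ t2
    · intro i hi
      obtain ⟨_, k1, k2⟩ := hkey i hi
      have h1 : (D : ℤ) * D ≤ (ω : ℤ) * T - s := by
        rw [← hωTs, ← sq]
        exact_mod_cast hDsq
      exact int_low h1 (mul_le_mul_of_nonneg_left k2 hω0) (mul_nonneg hω0 (Nat.cast_nonneg t))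
        (by rw [hs]; push_cast; ring) hρa.1
    · intro i hi
      obtain ⟨_, k1, k2⟩ := hkey i hi
      have h1 : (ω : ℤ) * (T + X) + s ≤ (D2 : ℤ) * D2 := by
        rw [← sq]
        exact_mod_cast hD2sq.le
      exact int_up h1 (mul_le_mul_of_nonneg_left k1 hω0)
        (mul_le_mul_of_nonneg_left (by exact_mod_cast t1.le) hω0) (by rw [hs]; push_cast; ring) hρa.2
  have hone : ∀ t ∈ Bad, (1 : ℝ) ≤ 4 / (Λ * M) * G t +
      4 / (Λ ^ 2 * M ^ 2) * (F t - lam ω D 1 * M) ^ 2 :=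
    fun t ht => real_one hΛ hMpos (hFG t ht) hlam
  have hsub : Bad ⊆ range X := Finset.filter_subset _ _
  have hsum : (Bad.card : ℝ) ≤ 4 / (Λ * M) * ∑ t ∈ range X, G t +
      4 / (Λ ^ 2 * M ^ 2) * ∑ t ∈ range X, (F t - lam ω D 1 * M) ^ 2 := by
    calc (Bad.card : ℝ) = ∑ _t ∈ Bad, (1 : ℝ) := by rw [Finset.sum_const, nsmul_eq_mul, mul_one]
      _ ≤ ∑ t ∈ Bad, (4 / (Λ * M) * G t + 4 / (Λ ^ 2 * M ^ 2) * (F t - lam ω D 1 * M) ^ 2) :=
          Finset.sum_le_sum hone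
      _ = 4 / (Λ * M) * ∑ t ∈ Bad, G t +
            4 / (Λ ^ 2 * M ^ 2) * ∑ t ∈ Bad, (F t - lam ω D 1 * M) ^ 2 := by
          rw [Finset.sum_add_distrib, ← Finset.mul_sum, ← Finset.mul_sum]
      _ ≤ _ := by
          have hGn : ∀ t, 0 ≤ G t := fun t => Finset.sum_nonneg (fun i _ => Nat.cast_nonneg _)
          have q1 : ∑ t ∈ Bad, G t ≤ ∑ t ∈ range X, G t :=
            Finset.sum_le_sum_of_subset_of_nonneg hsub (fun t _ _ => hGn t)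
          have q2 : ∑ t ∈ Bad, (F t - lam ω D 1 * M) ^ 2 ≤
              ∑ t ∈ range X, (F t - lam ω D 1 * M) ^ 2 :=
            Finset.sum_le_sum_of_subset_of_nonneg hsub (fun t _ _ => sq_nonneg _)
          have hΛM : 0 < Λ * M := mul_pos hΛ hMpos
          exact add_le_add (mul_le_mul_of_nonneg_left q1 (by positivity))
            (mul_le_mul_of_nonneg_left q2 (by positivity))
  have hT0 : (0 : ℝ) ≤ T := Nat.cast_nonneg T
  -- first part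
  have part1 : 4 / (Λ * M) * ∑ t ∈ range X, G t ≤ ε / 4 * (η * T) :=
    real_part1 hΛ hMpos hη hT0 hη2 (hwin.trans hwin2)
  -- second part
  have hlogT : 1 + Real.log D ≤ Real.log T := log_T hw1 hr0 hr3w hrr hDpos g3
  have hXD : (X : ℝ) + (D : ℝ) ^ 2 ≤ 2 * (ω * T) := X_D hw2 hrr hDpos g3 hX1 hη1 hT0 hω4'
  have hNp0 : (0 : ℝ) ≤ (Np I κ 0 : ℝ) := Nat.cast_nonneg _
  have hlogD : 0 ≤ 1 + Real.log D :=
    add_nonneg zero_le_one (Real.log_nonneg (by exact_mod_cast hD0))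
  have part2 : 4 / (Λ ^ 2 * M ^ 2) * ∑ t ∈ range X, (F t - lam ω D 1 * M) ^ 2 ≤
      450 * V * (η * T) + ε / 4 * (η * T) :=
    real_part2 hΛ hC hMpos hη hT0 hV (by exact_mod_cast h0) (Nat.cast_nonneg X) hX1 hNp0 hlogD hlogT hXD hc hc0
      hyp1 hyp2 hsm
  exact final_sum hsum part1 part2 (by positivity) rfl

end H2S
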