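import Pool.Agent.H2S.LocM

/-!
# H2S/LocB: the local bound by a sum over the primes

Write `x_q = 1/(q-2)`, `α_q = 1 - 1/(q-1)² = q (q-2)/(q-1)²`; then `q (q-2+1)/(q-1)² = α_q (1 + x_q)`. So
`CC = ∏ α_q · (average over (v,v') of ∏_{q ∈ Q, q ∣ h} (1 + x_q))`, `h = k v - k v'`. For a finite set of primes in increasing
order `∏ (1 + x_q) = 1 + ∑_q x_q ∏_{q' < q} (1 + x_q')` (telescoping, e.g. `Finset.induction_on_max`), so the inner product is
at most `1 + ∑_{q ∣ h} x_q L q` (the product over the smaller `q' ∣ h` is at most the product over all smaller `q' ∈ Q`).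
Averaging: at most `1 + ∑ x_q L q P q`. With `α_q ≤ exp (-1/(q-1)²)`, `1 + y ≤ exp y`:
`CC ≤ exp (∑_q (L q P q/(q-2) - 1/(q-1)²)) ≤ exp Σ`, `Σ` = the sum of the positive parts. By `loc_moment` the number is at most
`Π (1 - exp (-Σ)) ≤ Π Σ` (`CC > 0`; note `P q ≥ 0` and `L q ≥ 1` automatically).
-/

namespace H2S

open Finset

private theorem prod_tele (S : Finset ℕ) (x : ℕ → ℝ) :
    ∏ q ∈ S, (1 + x q) = 1 + ∑ q ∈ S, x q * ∏ p ∈ S.filter (fun p => p < q), (1 + x p) := by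
  have h := Finset.prod_add_ordered S (fun _ => (1 : ℝ)) x
  simp only [prod_const_one, mul_one] at h
  exact h

private theorem term_eq {q : ℝ} (hq : 3 ≤ q) (δ : ℝ) :
    q * (q - 2 + δ) / (q - 1) ^ 2 = (1 - 1 / (q - 1) ^ 2) * (1 + δ * (1 / (q - 2))) := by
  have h1 : q - 1 ≠ 0 := by
    intro h; linarith
  have h2 : q - 2 ≠ 0 := by
    intro h; linarith
  field_simp
  ring

theorem loc_bound {ι : Type} (Q : Finset ℕ) (hQ : ∀ q ∈ Q, q.Prime ∧ 3 ≤ q) (V : Finset ι) (hV : V.Nonempty)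
    (k : ι → ℤ) (L P : ℕ → ℝ)
    (hL : ∀ q ∈ Q, ∏ p ∈ Q.filter (fun p => p < q), (1 + 1 / ((p : ℝ) - 2)) ≤ L q)
    (hP : ∀ q ∈ Q, (((V ×ˢ V).filter (fun p => (q : ℤ) ∣ k p.1 - k p.2)).card : ℝ) ≤ P q * (V.card : ℝ) ^ 2) :
    (((range (∏ q ∈ Q, q)).filter (fun n : ℕ => ∀ v ∈ V, ∃ q ∈ Q, (q : ℤ) ∣ (n : ℤ) - k v)).card : ℝ) ≤
      (∏ q ∈ Q, (q : ℝ)) *
        ∑ q ∈ Q, max 0 (L q * P q / ((q : ℝ) - 2) - 1 / ((q : ℝ) - 1) ^ 2) := by
  have hqr : ∀ q ∈ Q, (3 : ℝ) ≤ (q : ℝ) := fun q hq => by exact_mod_cast (hQ q hq).2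
  have hVc : (0 : ℝ) < (V.card : ℝ) := by exact_mod_cast hV.card_pos
  have hx0 : ∀ q ∈ Q, (0 : ℝ) < 1 / ((q : ℝ) - 2) := fun q hq => by
    have := hqr q hq
    apply one_div_pos.2
    linarith
  -- positivity of CC
  have hCCpos : 0 < CC Q V k := by
    unfold CC
    apply mul_pos (by positivity)
    apply sum_pos
    · intro p _
      apply prod_pos
      intro q hq
      have h3 := hqr q hq
      have hδ : (0 : ℝ) ≤ (if (q : ℤ) ∣ k p.1 - k p.2 then (1 : ℝ) else 0) := by split_ifs <;> norm_num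
      apply div_pos
      · apply mul_pos <;> linarith
      · apply pow_pos; linarith
    · exact hV.product hV
  set α : ℝ := ∏ q ∈ Q, (1 - 1 / ((q : ℝ) - 1) ^ 2) with hα
  have hα1 : ∀ q ∈ Q, (0 : ℝ) ≤ 1 - 1 / ((q : ℝ) - 1) ^ 2 := fun q hq => by
    have h3 := hqr q hq
    have h4 : (1 : ℝ) ≤ ((q : ℝ) - 1) ^ 2 := by nlinarith
    have h5 : 1 / ((q : ℝ) - 1) ^ 2 ≤ 1 := by
      rw [div_le_one (by linarith)]
      exact h4
    linarith
  have hα0 : 0 ≤ α := prod_nonneg hα1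
  have hαe : α ≤ Real.exp (∑ q ∈ Q, -(1 / ((q : ℝ) - 1) ^ 2)) := by
    rw [Real.exp_sum, hα]
    apply prod_le_prod hα1
    intro q _
    have := Real.add_one_le_exp (-(1 / ((q : ℝ) - 1) ^ 2))
    linarith
  -- the pointwise bound
  have hpt : ∀ p ∈ V ×ˢ V, ∏ q ∈ Q,
      ((q : ℝ) * ((q : ℝ) - 2 + (if (q : ℤ) ∣ k p.1 - k p.2 then 1 else 0)) / ((q : ℝ) - 1) ^ 2) ≤
      α * (1 + ∑ q ∈ Q, (if (q : ℤ) ∣ k p.1 - k p.2 then (1 : ℝ) else 0) * (L q / ((q : ℝ) - 2))) := by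
    intro p _
    have e1 : ∏ q ∈ Q,
      ((q : ℝ) * ((q : ℝ) - 2 + (if (q : ℤ) ∣ k p.1 - k p.2 then 1 else 0)) / ((q : ℝ) - 1) ^ 2) =
      α * ∏ q ∈ Q, (1 + (if (q : ℤ) ∣ k p.1 - k p.2 then (1 : ℝ) else 0) * (1 / ((q : ℝ) - 2))) := by
      rw [hα, ← prod_mul_distrib]
      apply prod_congr rfl
      intro q hq
      exact term_eq (hqr q hq) _
    rw [e1]
    apply mul_le_mul_of_nonneg_left _ hα0
    rw [prod_tele]
    apply add_le_add_right
    apply sum_le_sum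
    intro q hq
    have h0 := hx0 q hq
    have hle : ∏ r ∈ Q.filter (fun r => r < q),
        (1 + (if (r : ℤ) ∣ k p.1 - k p.2 then (1 : ℝ) else 0) * (1 / ((r : ℝ) - 2))) ≤ L q := by
      refine le_trans ?_ (hL q hq)
      apply prod_le_prod
      · intro r hr
        have := hx0 r (mem_filter.1 hr).1
        split_ifs <;> linarith
      · intro r hr
        have := hx0 r (mem_filter.1 hr).1
        split_ifs <;> linarith
    rw [mul_assoc]
    apply mul_le_mul_of_nonneg_left _ (by split_ifs <;> norm_num)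
    rw [div_eq_mul_one_div (L q), mul_comm (L q)]
    exact mul_le_mul_of_nonneg_left hle h0.le
  -- L ≥ 0
  have hL0 : ∀ q ∈ Q, 0 ≤ L q := fun q hq => by
    refine le_trans ?_ (hL q hq)
    apply prod_nonneg
    intro r hr
    have := hx0 r (mem_filter.1 hr).1
    linarith
  have hCC : CC Q V k ≤ α * (1 + ∑ q ∈ Q, L q * P q / ((q : ℝ) - 2)) := by
    unfold CC
    rw [one_div, inv_mul_le_iff₀ (by positivity)]
    refine (sum_le_sum hpt).trans ?_
    rw [← mul_sum, sum_add_distrib, sum_const, card_product, nsmul_eq_mul, mul_one, sum_comm]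
    rw [mul_left_comm]
    apply mul_le_mul_of_nonneg_left _ hα0
    rw [mul_add, mul_one, mul_sum]
    apply add_le_add
    · push_cast
      rw [sq]
    · apply sum_le_sum
      intro q hq
      rw [← sum_mul]
      have e2 : ∑ p ∈ V ×ˢ V, (if (q : ℤ) ∣ k p.1 - k p.2 then (1 : ℝ) else 0) =
          (((V ×ˢ V).filter (fun p => (q : ℤ) ∣ k p.1 - k p.2)).card : ℝ) := by
        rw [sum_boole]
      rw [e2]
      have h3 := hP q hq
      have h4 : 0 ≤ L q / ((q : ℝ) - 2) := div_nonneg (hL0 q hq) (by linarith [hqr q hq])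
      calc (((V ×ˢ V).filter (fun p => (q : ℤ) ∣ k p.1 - k p.2)).card : ℝ) * (L q / ((q : ℝ) - 2))
          ≤ (P q * (V.card : ℝ) ^ 2) * (L q / ((q : ℝ) - 2)) := mul_le_mul_of_nonneg_right h3 h4
        _ = (V.card : ℝ) ^ 2 * (L q * P q / ((q : ℝ) - 2)) := by ring
  have hP0 : ∀ q ∈ Q, 0 ≤ P q := fun q hq => by
    have h3 := hP q hq
    have h4 : (0 : ℝ) ≤ P q * (V.card : ℝ) ^ 2 := le_trans (Nat.cast_nonneg _) h3
    exact nonneg_of_mul_nonneg_left h4 (by positivity)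
  set Sg : ℝ := ∑ q ∈ Q, max 0 (L q * P q / ((q : ℝ) - 2) - 1 / ((q : ℝ) - 1) ^ 2) with hSg
  have hexp : CC Q V k ≤ Real.exp Sg := by
    refine hCC.trans ?_
    have h1 : 1 + ∑ q ∈ Q, L q * P q / ((q : ℝ) - 2) ≤ Real.exp (∑ q ∈ Q, L q * P q / ((q : ℝ) - 2)) := by
      have := Real.add_one_le_exp (∑ q ∈ Q, L q * P q / ((q : ℝ) - 2))
      linarith
    have h2 : 0 ≤ 1 + ∑ q ∈ Q, L q * P q / ((q : ℝ) - 2) := by
      have : 0 ≤ ∑ q ∈ Q, L q * P q / ((q : ℝ) - 2) := sum_nonneg (fun q hq =>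
        div_nonneg (mul_nonneg (hL0 q hq) (hP0 q hq)) (by linarith [hqr q hq]))
      linarith
    refine (mul_le_mul hαe h1 h2 (Real.exp_pos _).le).trans ?_
    rw [← Real.exp_add, Real.exp_le_exp, ← sum_add_distrib, hSg]
    apply sum_le_sum
    intro q _
    refine le_trans (le_of_eq ?_) (le_max_right _ _)
    ring
  refine (loc_moment Q hQ V hV k).trans ?_
  apply mul_le_mul_of_nonneg_left _ (prod_nonneg (fun q _ => Nat.cast_nonneg _))
  have h5 : Real.exp (-Sg) ≤ 1 / CC Q V k := by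
    rw [Real.exp_neg, ← one_div]
    exact one_div_le_one_div_of_le hCCpos hexp
  have h6 := Real.add_one_le_exp (-Sg)
  linarith

end H2S
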