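import Pool.Agent.H2S.Defs

/-!
# H2S/LocM: second moment modulo a finite set of primes

`Π = ∏_{q ∈ Q} q`; `U n` = the number of `v ∈ V` with `q ∤ n - k v` for all `q ∈ Q`.
* `∑_{n < Π} U n = |V| ∏ (q - 1)` and `∑_{n < Π} (U n)² = ∑_{(v,v')} ∏_q (q - 2 + [q ∣ k v - k v'])`: by the Chinese remainder
  theorem the number of `n < Π` avoiding the class `k v` modulo every `q` is `∏ (q-1)`, and the number of those avoiding
  both classes `k v`, `k v'` is `∏ (q - 2)` resp. `q - 1` if the two classes coincide. (Induction on `Q`, or a bijection of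
  `range Π` with the product of the `range q`; `ZMod.prodEquivPi`, `Nat.chineseRemainderOfFinset`.)
* Cauchy-Schwarz: `(∑ U)² ≤ #{U > 0} ∑ U²`, so `#{U = 0} ≤ Π - (∑ U)²/∑ U² = Π (1 - 1/C)` with
  `C = Π ∑ U² / (∑ U)²`, which is the expression in the statement (`(q (q-2+δ))/(q-1)²`).
-/

namespace H2S

open Finset

/-- the normalised second moment -/
noncomputable def CC {ι : Type} (Q : Finset ℕ) (V : Finset ι) (k : ι → ℤ) : ℝ :=
  (1 / (V.card : ℝ) ^ 2) * ∑ p ∈ V ×ˢ V, ∏ q ∈ Q,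
    ((q : ℝ) * ((q : ℝ) - 2 + (if (q : ℤ) ∣ k p.1 - k p.2 then 1 else 0)) / ((q : ℝ) - 1) ^ 2)

private theorem crt_sum {m n : ℕ} (h : m.Coprime n) (hm : 0 < m) (hn : 0 < n) (f g : ℕ → ℝ)
    (hf : ∀ x, f (x % m) = f x) (hg : ∀ x, g (x % n) = g x) :
    ∑ x ∈ range (m * n), f x * g x = (∑ x ∈ range m, f x) * ∑ x ∈ range n, g x := by
  rw [Finset.sum_mul_sum, ← Finset.sum_product']
  refine Finset.sum_nbij (fun x => (x % m, x % n)) ?_ ?_ ?_ ?_
  · intro x _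
    simp only [mem_product, mem_range]
    exact ⟨Nat.mod_lt _ hm, Nat.mod_lt _ hn⟩
  · intro x hx y hy hxy
    simp only [Prod.mk.injEq] at hxy
    have h1 : x ≡ y [MOD m * n] := (Nat.modEq_and_modEq_iff_modEq_mul h).1 ⟨hxy.1, hxy.2⟩
    exact Nat.ModEq.eq_of_lt_of_lt h1 (mem_range.1 hx) (mem_range.1 hy)
  · rintro ⟨a, b⟩ hab
    have hab' := mem_product.1 hab
    have ha : a < m := mem_range.1 hab'.1
    have hb : b < n := mem_range.1 hab'.2
    obtain ⟨c, hc, h2⟩ : ∃ c : ℕ, c < m * n ∧ (c ≡ a [MOD m] ∧ c ≡ b [MOD n]) :=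
      ⟨Nat.chineseRemainder h a b, Nat.chineseRemainder_lt_mul h a b hm.ne' hn.ne',
        (Nat.chineseRemainder h a b).2⟩
    refine ⟨c, mem_range.2 hc, ?_⟩
    have h3 : c % m = a := (show c % m = a % m from h2.1).trans (Nat.mod_eq_of_lt ha)
    have h4 : c % n = b := (show c % n = b % n from h2.2).trans (Nat.mod_eq_of_lt hb)
    show (c % m, c % n) = (a, b)
    rw [h3, h4]
  · intro x _
    show f x * g x = f (x % m) * g (x % n)
    rw [hf, hg]

private theorem crt_prod (f : ℕ → ℕ → ℝ) (Q : Finset ℕ) (hQ : ∀ q ∈ Q, q.Prime)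
    (hf : ∀ q ∈ Q, ∀ x, f q (x % q) = f q x) :
    ∑ x ∈ range (∏ q ∈ Q, q), ∏ q ∈ Q, f q x = ∏ q ∈ Q, ∑ x ∈ range q, f q x := by
  induction Q using Finset.induction_on with
  | empty => simp
  | insert q Q hq ih =>
    have hQ' : ∀ r ∈ Q, r.Prime := fun r hr => hQ r (mem_insert_of_mem hr)
    have hf' : ∀ r ∈ Q, ∀ x, f r (x % r) = f r x := fun r hr => hf r (mem_insert_of_mem hr)
    rw [prod_insert hq, prod_insert hq, ← ih hQ' hf']
    have hcop : q.Coprime (∏ r ∈ Q, r) := by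
      apply Nat.Coprime.prod_right
      intro r hr
      exact (Nat.coprime_primes (hQ q (mem_insert_self _ _)) (hQ' r hr)).2
        (fun h => hq (h ▸ hr))
    rw [← crt_sum hcop (hQ q (mem_insert_self _ _)).pos (prod_pos fun r hr => (hQ' r hr).pos)
      (f q) (fun x => ∏ r ∈ Q, f r x) (hf q (mem_insert_self _ _)) ?_]
    · refine sum_congr rfl fun x _ => ?_
      rw [prod_insert hq]
    · intro x
      refine prod_congr rfl fun r hr => ?_
      rw [← hf' r hr (x % _), Nat.mod_mod_of_dvd _ (dvd_prod_of_mem _ hr), hf' r hr]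

private theorem count_one {q : ℕ} (hq : 0 < q) (a : ℤ) :
    ∑ r ∈ range q, (if (q : ℤ) ∣ (r : ℤ) - a then (1 : ℝ) else 0) = 1 := by
  have hq' : (0 : ℤ) < q := by exact_mod_cast hq
  have h0 := Int.emod_nonneg a hq'.ne'
  have h1 := Int.emod_lt_of_pos a hq'
  have h3 := Int.emod_add_mul_ediv a q
  rw [Finset.sum_eq_single ((a % q).toNat)]
  · rw [if_pos]
    rw [Int.toNat_of_nonneg h0]
    exact ⟨-(a / q), by linarith⟩
  · intro r hr hne
    rw [if_neg]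
    intro hd
    apply hne
    have hr' : (r : ℤ) < q := by exact_mod_cast mem_range.1 hr
    have h2 : (r : ℤ) % q = a % q := Int.emod_emod_of_dvd r (dvd_refl (q : ℤ)) ▸
      (Int.emod_emod_of_dvd r (dvd_refl (q : ℤ))).symm ▸ Int.ModEq.eq
        (Int.modEq_iff_dvd.2 (by rw [← neg_sub]; exact (dvd_neg).2 hd))
    rw [Int.emod_eq_of_lt (by positivity) hr'] at h2
    omega
  · intro h
    exfalso
    apply h
    rw [mem_range]
    omega

private theorem per_ind {q : ℕ} (a : ℤ) (x : ℕ) :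
    ((q : ℤ) ∣ ((x % q : ℕ) : ℤ) - a) ↔ ((q : ℤ) ∣ (x : ℤ) - a) := by
  have h : ((x % q : ℕ) : ℤ) - a = ((x : ℤ) - a) + q * (-(x / q : ℕ) : ℤ) := by
    have := Nat.mod_add_div x q
    have h2 : ((x % q : ℕ) : ℤ) + q * ((x / q : ℕ) : ℤ) = x := by exact_mod_cast this
    linarith
  rw [h]
  exact dvd_add_left (dvd_mul_right _ _)

theorem loc_moment {ι : Type} (Q : Finset ℕ) (hQ : ∀ q ∈ Q, q.Prime ∧ 3 ≤ q) (V : Finset ι) (hV : V.Nonempty)
    (k : ι → ℤ) :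
    (((range (∏ q ∈ Q, q)).filter (fun n : ℕ => ∀ v ∈ V, ∃ q ∈ Q, (q : ℤ) ∣ (n : ℤ) - k v)).card : ℝ) ≤
      (∏ q ∈ Q, (q : ℝ)) * (1 - 1 / CC Q V k) := by
  classical
  have hQp : ∀ q ∈ Q, q.Prime := fun q hq => (hQ q hq).1
  -- the indicator
  obtain ⟨d, hd⟩ : ∃ d : ι → ℕ → ℕ → ℝ,
      ∀ v q x, d v q x = if (q : ℤ) ∣ (x : ℤ) - k v then (1 : ℝ) else 0 := ⟨_, fun _ _ _ => rfl⟩
  have hdper : ∀ v q x, d v q (x % q) = d v q x := by
    intro v q x
    rw [hd, hd]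
    simp only [per_ind]
  obtain ⟨U, hU⟩ : ∃ U : ℕ → ℝ, ∀ x, U x = ∑ v ∈ V, ∏ q ∈ Q, (1 - d v q x) := ⟨_, fun _ => rfl⟩
  have hterm : ∀ v x, (∏ q ∈ Q, (1 - d v q x)) =
      if (∃ q ∈ Q, (q : ℤ) ∣ (x : ℤ) - k v) then (0 : ℝ) else 1 := by
    intro v x
    split_ifs with h
    · obtain ⟨q, hq, hdv⟩ := h
      apply prod_eq_zero hq
      rw [hd, if_pos hdv, sub_self]
    · apply prod_eq_one
      intro q hq
      rw [hd, if_neg (fun h2 => h ⟨q, hq, h2⟩), sub_zero]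
  have hsum1 : ∑ x ∈ range (∏ q ∈ Q, q), U x = V.card * ∏ q ∈ Q, ((q : ℝ) - 1) := by
    have h1 : ∀ v ∈ V, ∑ x ∈ range (∏ q ∈ Q, q), ∏ q ∈ Q, (1 - d v q x) =
        ∏ q ∈ Q, ((q : ℝ) - 1) := by
      intro v _
      rw [crt_prod (fun q x => 1 - d v q x) Q hQp (fun q _ x => by rw [hdper])]
      refine prod_congr rfl fun q hq => ?_
      rw [sum_sub_distrib, sum_const, card_range, nsmul_eq_mul, mul_one]
      simp only [hd]
      rw [count_one (hQp q hq).pos]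
    simp only [hU]
    rw [sum_comm, sum_congr rfl h1, sum_const, nsmul_eq_mul]
  have hsum2 : ∑ x ∈ range (∏ q ∈ Q, q), U x ^ 2 = ∑ p ∈ V ×ˢ V, ∏ q ∈ Q,
      ((q : ℝ) - 2 + (if (q : ℤ) ∣ k p.1 - k p.2 then 1 else 0)) := by
    have h1 : ∀ p ∈ V ×ˢ V, ∑ x ∈ range (∏ q ∈ Q, q),
        ((∏ q ∈ Q, (1 - d p.1 q x)) * ∏ q ∈ Q, (1 - d p.2 q x)) = ∏ q ∈ Q,
        ((q : ℝ) - 2 + (if (q : ℤ) ∣ k p.1 - k p.2 then 1 else 0)) := by
      intro p _
      simp only [← prod_mul_distrib]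
      rw [crt_prod (fun q x => (1 - d p.1 q x) * (1 - d p.2 q x)) Q hQp
        (fun q _ x => by rw [hdper, hdper])]
      refine prod_congr rfl fun q hq => ?_
      have h2 : ∀ x ∈ range q, (1 - d p.1 q x) * (1 - d p.2 q x) =
          1 - d p.1 q x - d p.2 q x +
            (if (q : ℤ) ∣ k p.1 - k p.2 then 1 else 0) * d p.1 q x := by
        intro x _
        rw [hd, hd]
        by_cases ha : (q : ℤ) ∣ (x : ℤ) - k p.1
        · by_cases hb : (q : ℤ) ∣ (x : ℤ) - k p.2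
          · have hc : (q : ℤ) ∣ k p.1 - k p.2 := by
              have := dvd_sub hb ha
              have e : (x : ℤ) - k p.2 - ((x : ℤ) - k p.1) = k p.1 - k p.2 := by ring
              rwa [e] at this
            rw [if_pos ha, if_pos hb, if_pos hc]
            norm_num
          · have hc : ¬ (q : ℤ) ∣ k p.1 - k p.2 := by
              intro hc
              apply hb
              have := dvd_add ha hc
              have e : (x : ℤ) - k p.1 + (k p.1 - k p.2) = (x : ℤ) - k p.2 := by ring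
              rwa [e] at this
            rw [if_pos ha, if_neg hb, if_neg hc]
            norm_num
        · rw [if_neg ha]
          split_ifs <;> norm_num
      rw [sum_congr rfl h2, sum_add_distrib, sum_sub_distrib, sum_sub_distrib, ← mul_sum,
        sum_const, card_range, nsmul_eq_mul, mul_one]
      simp only [hd]
      rw [count_one (hQp q hq).pos, count_one (hQp q hq).pos]
      ring
    rw [← sum_congr rfl h1, sum_comm]
    refine sum_congr rfl fun x _ => ?_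
    rw [hU, sq, sum_mul_sum, ← sum_product']
  have hPi : (0 : ℝ) < ∏ q ∈ Q, (q : ℝ) := prod_pos fun q hq => by exact_mod_cast (hQp q hq).pos
  have hPim : (0 : ℝ) < ∏ q ∈ Q, ((q : ℝ) - 1) := prod_pos fun q hq => by
    have : (3 : ℝ) ≤ q := by exact_mod_cast (hQ q hq).2
    linarith
  have hVc : (0 : ℝ) < V.card := by exact_mod_cast hV.card_pos
  obtain ⟨S2, hS2⟩ : ∃ S2 : ℝ, S2 = ∑ p ∈ V ×ˢ V, ∏ q ∈ Q,
      ((q : ℝ) - 2 + (if (q : ℤ) ∣ k p.1 - k p.2 then 1 else 0)) := ⟨_, rfl⟩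
  rw [← hS2] at hsum2
  have hCC : CC Q V k = (∏ q ∈ Q, (q : ℝ)) * S2 / ((V.card : ℝ) * ∏ q ∈ Q, ((q : ℝ) - 1)) ^ 2 := by
    have h1 : ∀ p ∈ V ×ˢ V, ∏ q ∈ Q,
        ((q : ℝ) * ((q : ℝ) - 2 + (if (q : ℤ) ∣ k p.1 - k p.2 then 1 else 0)) / ((q : ℝ) - 1) ^ 2) =
        ((∏ q ∈ Q, (q : ℝ)) / (∏ q ∈ Q, ((q : ℝ) - 1)) ^ 2) *
          ∏ q ∈ Q, ((q : ℝ) - 2 + (if (q : ℤ) ∣ k p.1 - k p.2 then 1 else 0)) := by
      intro p _
      rw [prod_div_distrib, prod_mul_distrib, prod_pow]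
      ring
    unfold CC
    rw [sum_congr rfl h1, ← mul_sum, ← hS2]
    field_simp
  have hU0 : ∀ x, 0 ≤ U x := by
    intro x
    rw [hU]
    refine sum_nonneg fun v _ => ?_
    rw [hterm]
    split_ifs <;> norm_num
  -- the good and the bad residues
  obtain ⟨Gd, hGd⟩ : ∃ Gd : Finset ℕ, Gd = (range (∏ q ∈ Q, q)).filter
      (fun n : ℕ => ¬ ∀ v ∈ V, ∃ q ∈ Q, (q : ℤ) ∣ (n : ℤ) - k v) := ⟨_, rfl⟩
  have hcard : (((range (∏ q ∈ Q, q)).filter
      (fun n : ℕ => ∀ v ∈ V, ∃ q ∈ Q, (q : ℤ) ∣ (n : ℤ) - k v)).card : ℝ) + Gd.card =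
      ∏ q ∈ Q, (q : ℝ) := by
    have h1 := card_filter_add_card_filter_not (s := range (∏ q ∈ Q, q))
      (fun n : ℕ => ∀ v ∈ V, ∃ q ∈ Q, (q : ℤ) ∣ (n : ℤ) - k v)
    rw [card_range, ← hGd] at h1
    have h2 : (((∏ q ∈ Q, q : ℕ)) : ℝ) = ∏ q ∈ Q, (q : ℝ) := by push_cast; rfl
    rw [← h2]
    exact_mod_cast h1
  have hUG : ∑ x ∈ range (∏ q ∈ Q, q), U x = ∑ x ∈ Gd, U x := by
    rw [hGd, sum_filter]
    refine sum_congr rfl fun x _ => ?_
    by_cases h : ∀ v ∈ V, ∃ q ∈ Q, (q : ℤ) ∣ (x : ℤ) - k v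
    · rw [if_neg (fun h' => h' h), hU]
      refine sum_eq_zero fun v hv => ?_
      rw [hterm, if_pos (h v hv)]
    · rw [if_pos h]
  have hCS : (∑ x ∈ range (∏ q ∈ Q, q), U x) ^ 2 ≤ Gd.card * S2 := by
    rw [hUG]
    refine (sq_sum_le_card_mul_sum_sq (s := Gd) (f := U)).trans ?_
    refine mul_le_mul_of_nonneg_left ?_ (Nat.cast_nonneg _)
    rw [← hsum2, hGd]
    exact sum_le_sum_of_subset_of_nonneg (filter_subset _ _) (fun x _ _ => sq_nonneg _)
  have hS2pos : 0 < S2 := by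
    by_contra hneg
    push Not at hneg
    have h1 : (Gd.card : ℝ) * S2 ≤ 0 := mul_nonpos_of_nonneg_of_nonpos (Nat.cast_nonneg _) hneg
    have h2 : 0 < (∑ x ∈ range (∏ q ∈ Q, q), U x) ^ 2 := by
      rw [hsum1]
      positivity
    linarith
  have hfin : (∏ q ∈ Q, (q : ℝ)) * (1 / CC Q V k) ≤ Gd.card := by
    rw [hCC, one_div_div, mul_div_assoc', div_le_iff₀ (by positivity), ← hsum1]
    calc (∏ q ∈ Q, (q : ℝ)) * (∑ x ∈ range (∏ q ∈ Q, q), U x) ^ 2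
        ≤ (∏ q ∈ Q, (q : ℝ)) * (Gd.card * S2) := mul_le_mul_of_nonneg_left hCS hPi.le
      _ = Gd.card * ((∏ q ∈ Q, (q : ℝ)) * S2) := by ring
  have e : (∏ q ∈ Q, (q : ℝ)) * (1 - 1 / CC Q V k) =
      (∏ q ∈ Q, (q : ℝ)) - (∏ q ∈ Q, (q : ℝ)) * (1 / CC Q V k) := by ring
  rw [e]
  linarith

end H2S
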