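import Pool.Agent.H2S.Defs
import Pool.Agent.FZ.DMert

/-!
# H2S/Mert: crude Mertens bounds

`FZ.mertens_prime`: `|∑ log p / p - (b - a)| ≤ C` over the primes with `a < log p ≤ b` (`FZ.prs a b`).
* `sum_inv_le`: the prime 2 and the dyadic blocks `2^j < log p ≤ 2^(j+1)`, `0 ≤ j < J`, `2^J ≥ log x`:
  `∑ 1/p ≤ 2^(-j) ∑ log p / p ≤ 1 + C 2^(-j)`; the total is at most `J + 2 C + 1`, and one may take
  `J ≤ log (log x) / log 2 + 1` if `log x ≥ 1` (x ≥ 3). As `1/log 2 < 2` and `log log x ≥ 0` this is at most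
  `2 log log x + C'`.
* `prod_below_le`: `(1 - 1/p)⁻¹ = 1 + 1/(p-1) ≤ exp (1/(p-1))`, `1/(p-1) = 1/p + 1/(p(p-1))`, `∑ 1/(p(p-1)) ≤ 1`, so
  the product is at most `exp (2 log log x + C) = C (log x)²` (x ≥ 3; x = 2 separately).
* `wt_sum_le`: `∑_{p ≤ x} (log p)²/p ≤ log x ∑ log p / p ≤ log x (log x + C)`.
-/

namespace H2S

open Finset

private theorem mert_block {C : ℝ} (hC : ∀ a b : ℝ, 0 ≤ a → a ≤ b →
    |(∑ p ∈ Pool.Agent.FZ.prs a b, Real.log p / (p : ℝ)) - (b - a)| ≤ C) (a : ℝ) (ha : 0 < a) :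
    ∑ p ∈ Pool.Agent.FZ.prs a (2 * a), (1 : ℝ) / p ≤ 1 + C / a := by
  have h1 := (abs_le.1 (hC a (2 * a) ha.le (by linarith))).2
  have h2 : a * ∑ p ∈ Pool.Agent.FZ.prs a (2 * a), (1 : ℝ) / p
      ≤ ∑ p ∈ Pool.Agent.FZ.prs a (2 * a), Real.log p / (p : ℝ) := by
    rw [Finset.mul_sum]
    apply Finset.sum_le_sum
    intro p hp
    rw [Pool.Agent.FZ.mem_prs] at hp
    have hp0 : (0 : ℝ) < p := by exact_mod_cast hp.1.pos
    rw [mul_one_div]
    exact div_le_div_of_nonneg_right hp.2.1.le hp0.le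
  have h3 : 1 + C / a = (a + C) / a := by field_simp
  rw [h3, le_div_iff₀ ha]
  linarith

private theorem mert_dyad {C : ℝ} (hC : ∀ a b : ℝ, 0 ≤ a → a ≤ b →
    |(∑ p ∈ Pool.Agent.FZ.prs a b, Real.log p / (p : ℝ)) - (b - a)| ≤ C) (J : ℕ) :
    ∑ p ∈ Pool.Agent.FZ.prs 0 (2 ^ J), (1 : ℝ) / p
      ≤ ∑ p ∈ Pool.Agent.FZ.prs 0 1, (1 : ℝ) / p + J + 2 * C * (1 - 1 / 2 ^ J) := by
  induction J with
  | zero => simp
  | succ J ih =>
    have h0 : (0 : ℝ) < 2 ^ J := by positivity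
    have h1 : (2 : ℝ) ^ (J + 1) = 2 * 2 ^ J := by ring
    rw [h1, Pool.Agent.FZ.prs_split (a := 0) (b := 2 ^ J) (c := 2 * 2 ^ J) h0.le (by linarith)]
    have h2 := mert_block hC (2 ^ J) h0
    have h3 : 2 * C * (1 - 1 / (2 * 2 ^ J)) = 2 * C * (1 - 1 / 2 ^ J) + C / 2 ^ J := by
      field_simp
      ring
    rw [h3]
    push_cast
    linarith

private theorem mert_log_three : (1 : ℝ) ≤ Real.log 3 := by
  rw [Real.le_log_iff_exp_le (by norm_num)]
  have := Real.exp_one_lt_d9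
  linarith

theorem sum_inv_le : ∃ C : ℝ, 0 < C ∧ ∀ x : ℕ, 3 ≤ x →
    ∑ p ∈ Nat.primesBelow (x + 1), (1 : ℝ) / p ≤ 2 * Real.log (Real.log x) + C := by
  obtain ⟨C, hC0, hC⟩ := Pool.Agent.FZ.mertens_prime
  have hA : 0 ≤ ∑ p ∈ Pool.Agent.FZ.prs 0 1, (1 : ℝ) / p :=
    Finset.sum_nonneg fun p _ => by positivity
  refine ⟨∑ p ∈ Pool.Agent.FZ.prs 0 1, (1 : ℝ) / p + 1 + 2 * C, by positivity, ?_⟩
  intro x hx
  have hx3 : (3 : ℝ) ≤ x := by exact_mod_cast hx
  have hlog : 1 ≤ Real.log x := mert_log_three.trans (Real.log_le_log (by norm_num) hx3)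
  have hll : 0 ≤ Real.log (Real.log x) := Real.log_nonneg hlog
  have hl2 : (1 : ℝ) / 2 < Real.log 2 := by
    have := Real.log_two_gt_d9
    linarith
  obtain ⟨J, hJ⟩ : ∃ J, J = ⌈Real.log (Real.log x) / Real.log 2⌉₊ := ⟨_, rfl⟩
  have hq0 : 0 ≤ Real.log (Real.log x) / Real.log 2 := by positivity
  have hJ1 : (J : ℝ) ≤ 2 * Real.log (Real.log x) + 1 := by
    have h1 := Nat.ceil_lt_add_one hq0
    rw [← hJ] at h1
    have h2 : Real.log (Real.log x) / Real.log 2 ≤ 2 * Real.log (Real.log x) := by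
      rw [div_le_iff₀ (by linarith)]
      nlinarith
    linarith
  have hJ2 : Real.log x ≤ 2 ^ J := by
    have h1 : Real.log (Real.log x) / Real.log 2 ≤ J := by rw [hJ]; exact Nat.le_ceil _
    rw [div_le_iff₀ (by linarith)] at h1
    rw [← Real.log_le_log_iff (by linarith) (by positivity), Real.log_pow]
    exact h1
  have hsub : Nat.primesBelow (x + 1) ⊆ Pool.Agent.FZ.prs 0 (2 ^ J) := by
    intro p hp
    rw [Nat.mem_primesBelow] at hp
    rw [Pool.Agent.FZ.mem_prs]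
    have hp1 : (1 : ℝ) < p := by exact_mod_cast hp.2.one_lt
    have hpx : (p : ℝ) ≤ x := by
      have : p ≤ x := by omega
      exact_mod_cast this
    exact ⟨hp.2, Real.log_pos hp1, (Real.log_le_log (by linarith) hpx).trans hJ2⟩
  have h1 := Finset.sum_le_sum_of_subset_of_nonneg hsub
    (f := fun p : ℕ => (1 : ℝ) / p) (fun p _ _ => by positivity)
  have h2 := mert_dyad hC J
  have h3 : 2 * C * (1 - 1 / 2 ^ J) ≤ 2 * C := by
    have : (0 : ℝ) ≤ 1 / 2 ^ J := by positivity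
    nlinarith
  linarith

private theorem mert_tele (x : ℕ) (hx : 1 ≤ x) :
    ∑ n ∈ Finset.Icc 2 x, (1 : ℝ) / (n * (n - 1)) = 1 - 1 / x := by
  induction x, hx using Nat.le_induction with
  | base => simp
  | succ n hn ih =>
    rw [Finset.sum_Icc_succ_top (by omega), ih]
    have h1 : (0 : ℝ) < n := by exact_mod_cast hn
    have h2 : ((n + 1 : ℕ) : ℝ) - 1 = n := by push_cast; ring
    rw [h2]
    push_cast
    have h3 : (n : ℝ) ≠ 0 := h1.ne'
    have h4 : (n : ℝ) + 1 ≠ 0 := by positivity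
    rw [sub_add, sub_right_inj, div_sub_div _ _ h3 (mul_ne_zero h4 h3),
      div_eq_div_iff (mul_ne_zero h3 (mul_ne_zero h4 h3)) h4]
    ring

theorem prod_below_le : ∃ C : ℝ, 0 < C ∧ ∀ x : ℕ, 2 ≤ x →
    ∏ p ∈ Nat.primesBelow (x + 1), (1 - 1 / (p : ℝ))⁻¹ ≤ C * (Real.log x) ^ 2 := by
  obtain ⟨C, hC0, hC⟩ := sum_inv_le
  refine ⟨Real.exp (C + 1) + 8, by positivity, ?_⟩
  intro x hx
  rcases Nat.lt_or_ge x 3 with h3 | h3
  · have hx2 : x = 2 := by omega
    subst hx2
    have h1 : Nat.primesBelow (2 + 1) = {2} := by decide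
    rw [h1, Finset.prod_singleton]
    have hl2 : (1 : ℝ) / 2 < Real.log 2 := by
      have := Real.log_two_gt_d9
      linarith
    have h2 : (1 : ℝ) / 4 ≤ (Real.log 2) ^ 2 := by nlinarith
    have h3 := Real.exp_pos (C + 1)
    push_cast
    norm_num
    nlinarith
  · have hx3 : (3 : ℝ) ≤ x := by exact_mod_cast h3
    have hlog : 1 ≤ Real.log x := mert_log_three.trans (Real.log_le_log (by norm_num) hx3)
    have h1 : ∏ p ∈ Nat.primesBelow (x + 1), (1 - 1 / (p : ℝ))⁻¹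
        ≤ ∏ p ∈ Nat.primesBelow (x + 1), Real.exp (1 / p + 1 / (p * (p - 1))) := by
      apply Finset.prod_le_prod
      · intro p hp
        rw [Nat.mem_primesBelow] at hp
        have hp1 : (1 : ℝ) < p := by exact_mod_cast hp.2.one_lt
        apply inv_nonneg.2
        rw [sub_nonneg, div_le_one (by linarith)]
        exact hp1.le
      · intro p hp
        rw [Nat.mem_primesBelow] at hp
        have hp1 : (1 : ℝ) < p := by exact_mod_cast hp.2.one_lt
        have h2 : (1 - 1 / (p : ℝ))⁻¹ = (1 / p + 1 / (p * (p - 1))) + 1 := by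
          have : (p : ℝ) - 1 ≠ 0 := by linarith
          have : (p : ℝ) ≠ 0 := by linarith
          field_simp
          ring
        rw [h2]
        exact Real.add_one_le_exp _
    refine h1.trans ?_
    rw [← Real.exp_sum, Finset.sum_add_distrib]
    have h2 : ∑ p ∈ Nat.primesBelow (x + 1), (1 : ℝ) / (p * (p - 1)) ≤ 1 := by
      have h4 : ∑ p ∈ Nat.primesBelow (x + 1), (1 : ℝ) / (p * (p - 1))
          ≤ ∑ n ∈ Finset.Icc 2 x, (1 : ℝ) / (n * (n - 1)) := by
        apply Finset.sum_le_sum_of_subset_of_nonneg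
        · intro p hp
          rw [Nat.mem_primesBelow] at hp
          rw [Finset.mem_Icc]
          exact ⟨hp.2.two_le, by omega⟩
        · intro n hn _
          rw [Finset.mem_Icc] at hn
          have hn2 : (2 : ℝ) ≤ n := by exact_mod_cast hn.1
          apply div_nonneg zero_le_one
          apply mul_nonneg <;> linarith
      refine h4.trans ?_
      rw [mert_tele x (by omega)]
      have : (0 : ℝ) ≤ 1 / x := by positivity
      linarith
    have h4 := hC x h3
    calc Real.exp (∑ p ∈ Nat.primesBelow (x + 1), 1 / (p : ℝ)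
          + ∑ p ∈ Nat.primesBelow (x + 1), 1 / ((p : ℝ) * (p - 1)))
        ≤ Real.exp (2 * Real.log (Real.log x) + (C + 1)) := by
          apply Real.exp_le_exp.2
          linarith
      _ = (Real.log x) ^ 2 * Real.exp (C + 1) := by
          rw [Real.exp_add]
          congr 1
          have : 2 * Real.log (Real.log x) = Real.log (Real.log x ^ 2) := by
            rw [Real.log_pow]; push_cast; ring
          rw [this, Real.exp_log (by positivity)]
      _ ≤ (Real.exp (C + 1) + 8) * (Real.log x) ^ 2 := by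
          have : 0 ≤ (Real.log x) ^ 2 := by positivity
          nlinarith

theorem wt_sum_le : ∃ C : ℝ, 0 < C ∧ ∀ x : ℕ, 2 ≤ x →
    ∑ p ∈ Nat.primesBelow (x + 1), wt p ≤ C * (Real.log x) ^ 2 := by
  obtain ⟨C, hC0, hC⟩ := Pool.Agent.FZ.mertens_prime
  refine ⟨1 + 2 * C, by positivity, ?_⟩
  intro x hx
  have hx2 : (2 : ℝ) ≤ x := by exact_mod_cast hx
  have hl2 : (1 : ℝ) / 2 < Real.log 2 := by
    have := Real.log_two_gt_d9
    linarith
  have hlog : 1 / 2 ≤ Real.log x := hl2.le.trans (Real.log_le_log (by norm_num) hx2)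
  have hsub : Nat.primesBelow (x + 1) ⊆ Pool.Agent.FZ.prs 0 (Real.log x) := by
    intro p hp
    rw [Nat.mem_primesBelow] at hp
    rw [Pool.Agent.FZ.mem_prs]
    have hp1 : (1 : ℝ) < p := by exact_mod_cast hp.2.one_lt
    have hpx : (p : ℝ) ≤ x := by
      have : p ≤ x := by omega
      exact_mod_cast this
    exact ⟨hp.2, Real.log_pos hp1, Real.log_le_log (by linarith) hpx⟩
  have h1 : ∑ p ∈ Nat.primesBelow (x + 1), wt p
      ≤ ∑ p ∈ Pool.Agent.FZ.prs 0 (Real.log x), Real.log x * (Real.log p / p) := by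
    have h2 : ∑ p ∈ Nat.primesBelow (x + 1), wt p
        ≤ ∑ p ∈ Pool.Agent.FZ.prs 0 (Real.log x), wt p := by
      apply Finset.sum_le_sum_of_subset_of_nonneg hsub
      intro p _ _
      unfold wt
      positivity
    refine h2.trans ?_
    apply Finset.sum_le_sum
    intro p hp
    rw [Pool.Agent.FZ.mem_prs] at hp
    have hp0 : (0 : ℝ) < p := by exact_mod_cast hp.1.pos
    unfold wt
    rw [← mul_div_assoc]
    apply div_le_div_of_nonneg_right _ hp0.le
    rw [sq]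
    exact mul_le_mul_of_nonneg_right hp.2.2 hp.2.1.le
  refine h1.trans ?_
  rw [← Finset.mul_sum]
  have h2 := (abs_le.1 (hC 0 (Real.log x) le_rfl (by linarith))).2
  have h3 : ∑ p ∈ Pool.Agent.FZ.prs 0 (Real.log x), Real.log p / (p : ℝ) ≤ Real.log x + C := by
    linarith
  calc Real.log x * ∑ p ∈ Pool.Agent.FZ.prs 0 (Real.log x), Real.log p / (p : ℝ)
      ≤ Real.log x * (Real.log x + C) := mul_le_mul_of_nonneg_left h3 (by linarith)
    _ ≤ (1 + 2 * C) * (Real.log x) ^ 2 := by nlinarith [mul_nonneg hC0.le (by linarith : (0:ℝ) ≤ Real.log x)]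

end H2S
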