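import Pool.Agent.H2S.PB

/-!
# H2S/Om: the exponents `d` in two classes modulo 9

`DD = {d ∈ [d0, d0 + 9 L0) : d % 9 = δ1 or d % 9 = δ2}`, `δ1 ≠ δ2`, `δ1 = δ2 mod 3`. A class modulo `m` has `9 L0/m` elements in
an interval of length `9 L0` if `m ∣ 9 L0`. `card_DD`: `L0` in each class. `om_count`: `25^d = 25^d'` iff `d = d' mod t`,
`t = orderOf (25 : ZMod q)` (`pow_eq_pow_iff_modEq`), `t ∣ L0`. For `d ∈ DD` the number of `d' ∈ DD` with `d' = d mod t`:
* `3 ∤ t`: for each `δ_i` one class modulo `9 t`: `L0/t` each, `2 L0/t` in total, `= (1/t) |DD|`;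
* `3 ∣ t`, `9 ∤ t`: `gcd (9, t) = 3`, `d = δ_i mod 3` holds for both `i`: one class modulo `3 t` each: `3 L0/t` each, total
  `(3/t) |DD|`;
* `9 ∣ t`: only the `δ_i` with `d = δ_i mod 9`: one class modulo `t`: `9 L0/t = (9/(2t)) |DD|`.
-/

namespace H2S

open Finset

/-- the collision probability of `25^d` modulo a prime with `orderOf 25 = t` -/
noncomputable def om (t : ℕ) : ℝ := if 9 ∣ t then 9 / (2 * t) else if 3 ∣ t then 3 / t else 1 / t

/-- the set of exponents `d` -/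
def DS (d0 L0 δ1 δ2 : ℕ) : Finset ℕ := (Ico d0 (d0 + 9 * L0)).filter (fun d => d % 9 = δ1 ∨ d % 9 = δ2)

lemma om_cnt {m : ℕ} (hm : 0 < m) (a K v : ℕ) :
    ((Ico a (a + m * K)).filter (fun d => d ≡ v [MOD m])).card = K := by
  have h := Nat.Ico_filter_modEq_card a (a + m * K) hm v
  have hm' : (m : ℚ) ≠ 0 := by exact_mod_cast hm.ne'
  have h2 : (((a + m * K : ℕ) : ℚ) - v) / m = ((a : ℚ) - v) / m + (K : ℕ) := by
    push_cast
    field_simp
    ring
  rw [h2, Int.ceil_add_natCast] at h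
  have h3 : (⌈((a : ℚ) - v) / m⌉ + (K : ℤ) - ⌈((a : ℚ) - v) / m⌉) = K := by ring
  rw [h3, max_eq_left (by positivity)] at h
  exact_mod_cast h

lemma om_cls {a l K : ℕ} (hl : 0 < l) (T : Finset ℕ) (hT : T ⊆ Ico a (a + l * K))
    (hc : ∀ x ∈ T, ∀ y ∈ T, x ≡ y [MOD l]) : T.card ≤ K := by
  rcases T.eq_empty_or_nonempty with h | ⟨y, hy⟩
  · rw [h]
    simp
  · rw [← om_cnt hl a K y]
    refine card_le_card fun x hx => ?_
    exact mem_filter.2 ⟨hT hx, hc x hx y hy⟩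

lemma om_pow_iff {q : ℕ} (hq : q.Prime) (h30 : ¬ q ∣ 30) (m n : ℕ) :
    (25 : ZMod q) ^ m = (25 : ZMod q) ^ n ↔ m ≡ n [MOD orderOf (25 : ZMod q)] := by
  have := Fact.mk hq
  have h5 : ¬ q ∣ 5 := fun h => h30 (h.trans (by norm_num))
  have h25 : ¬ q ∣ 25 := fun h => h5 (hq.dvd_of_dvd_pow (n := 2) (by norm_num; exact h))
  have hu : IsUnit (25 : ZMod q) := by
    rw [isUnit_iff_ne_zero]
    intro h
    apply h25
    rw [← ZMod.natCast_eq_zero_iff]
    exact_mod_cast h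
  obtain ⟨u, hu⟩ := hu
  rw [← hu, orderOf_units, ← pow_eq_pow_iff_modEq, ← Units.val_pow_eq_pow_val,
    ← Units.val_pow_eq_pow_val, Units.val_inj]

lemma om_mod_mul {u x y : ℕ} (hu : ¬ 3 ∣ u) (h9 : x % 9 = y % 9) (h : x ≡ y [MOD u]) :
    x ≡ y [MOD 9 * u] := by
  have hc : Nat.Coprime 9 u := by
    have : Nat.Coprime (3 ^ 2) u := by
      apply Nat.Coprime.pow_left
      exact (Nat.Prime.coprime_iff_not_dvd Nat.prime_three).2 hu
    simpa using this
  exact (Nat.modEq_and_modEq_iff_modEq_mul hc).1 ⟨h9, h⟩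

lemma om_split {d0 L0 δ1 δ2 t u K d : ℕ} (hu : ¬ 3 ∣ u) (hut : u ∣ t) (hu0 : 0 < u)
    (hK : 9 * L0 = 9 * u * K) :
    ((DS d0 L0 δ1 δ2).filter (fun d' => d ≡ d' [MOD t])).card ≤ 2 * K := by
  have hT : ∀ δ : ℕ, ((Ico d0 (d0 + 9 * L0)).filter
      (fun d' => d' % 9 = δ ∧ d ≡ d' [MOD t])).card ≤ K := by
    intro δ
    apply om_cls (a := d0) (l := 9 * u) (by omega)
    · rw [← hK]
      exact filter_subset _ _
    · intro x hx y hy
      obtain ⟨-, hx1, hx2⟩ := mem_filter.1 hx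
      obtain ⟨-, hy1, hy2⟩ := mem_filter.1 hy
      exact om_mod_mul hu (hx1.trans hy1.symm) ((hx2.symm.trans hy2).of_dvd hut)
  have hsub : (DS d0 L0 δ1 δ2).filter (fun d' => d ≡ d' [MOD t]) ⊆
      (Ico d0 (d0 + 9 * L0)).filter (fun d' => d' % 9 = δ1 ∧ d ≡ d' [MOD t]) ∪
      (Ico d0 (d0 + 9 * L0)).filter (fun d' => d' % 9 = δ2 ∧ d ≡ d' [MOD t]) := by
    intro x hx
    obtain ⟨hx1, hx2⟩ := mem_filter.1 hx
    obtain ⟨hx3, hx4⟩ := mem_filter.1 hx1
    rw [mem_union]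
    rcases hx4 with h | h
    · left
      exact mem_filter.2 ⟨hx3, h, hx2⟩
    · right
      exact mem_filter.2 ⟨hx3, h, hx2⟩
  refine (card_le_card hsub).trans ((card_union_le _ _).trans ?_)
  have a1 := hT δ1
  have a2 := hT δ2
  omega

theorem om_le (t : ℕ) : om t ≤ 9 / (2 * t) := by
  unfold om
  split_ifs with h1 h2
  · exact le_rfl
  · rcases Nat.eq_zero_or_pos t with h | h
    · subst h; simp
    · have : (0 : ℝ) < t := by exact_mod_cast h
      rw [div_le_div_iff₀ this (by positivity)]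
      nlinarith
  · rcases Nat.eq_zero_or_pos t with h | h
    · subst h; simp
    · have : (0 : ℝ) < t := by exact_mod_cast h
      rw [div_le_div_iff₀ this (by positivity)]
      nlinarith

theorem card_DD (d0 L0 : ℕ) {δ1 δ2 : ℕ} (h1 : δ1 < 9) (h2 : δ2 < 9) (hne : δ1 ≠ δ2) :
    (DS d0 L0 δ1 δ2).card = 2 * L0 := by
  have hT : ∀ δ < 9, ((Ico d0 (d0 + 9 * L0)).filter (fun d => d % 9 = δ)).card = L0 := by
    intro δ hδ
    refine Eq.trans ?_ (om_cnt (m := 9) (by norm_num) d0 L0 δ)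
    congr 1
    apply filter_congr
    intro d _
    unfold Nat.ModEq
    rw [Nat.mod_eq_of_lt hδ]
  have hun : DS d0 L0 δ1 δ2 = (Ico d0 (d0 + 9 * L0)).filter (fun d => d % 9 = δ1) ∪
      (Ico d0 (d0 + 9 * L0)).filter (fun d => d % 9 = δ2) := by
    unfold DS
    rw [filter_or]
  rw [hun, card_union_of_disjoint, hT δ1 h1, hT δ2 h2]
  · ring
  · rw [Finset.disjoint_left]
    intro x hx hx2
    have e1 := (mem_filter.1 hx).2
    have e2 := (mem_filter.1 hx2).2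
    exact hne (e1.symm.trans e2)

theorem om_count {q : ℕ} (hq : q.Prime) (h30 : ¬ q ∣ 30) (d0 : ℕ) {L0 δ1 δ2 : ℕ} (hL0 : 0 < L0) (h1 : δ1 < 9)
    (h2 : δ2 < 9) (hne : δ1 ≠ δ2) (h3 : δ1 % 3 = δ2 % 3) (hL : orderOf (25 : ZMod q) ∣ L0) :
    (ND q (DS d0 L0 δ1 δ2) : ℝ) ≤ om (orderOf (25 : ZMod q)) * (((DS d0 L0 δ1 δ2).card : ℕ) : ℝ) ^ 2 := by
  set t := orderOf (25 : ZMod q) with ht
  set DD := DS d0 L0 δ1 δ2 with hDD
  have htpos : 0 < t := Nat.pos_of_dvd_of_pos hL hL0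
  have htr : (0 : ℝ) < t := by exact_mod_cast htpos
  obtain ⟨j, hj⟩ := hL
  have hL0r : (L0 : ℝ) = t * j := by
    rw [hj]
    push_cast
    rfl
  have hcard : DD.card = 2 * L0 := card_DD d0 L0 h1 h2 hne
  have key : ∀ d ∈ DD, ((DD.filter (fun d' => d ≡ d' [MOD t])).card : ℝ) ≤
      om t * (2 * L0) := by
    intro d hd
    by_cases h9 : 9 ∣ t
    · have hb : (DD.filter (fun d' => d ≡ d' [MOD t])).card ≤ 9 * j := by
        apply om_cls (a := d0) htpos
        · have e : t * (9 * j) = 9 * L0 := by rw [hj]; ring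
          rw [e]
          exact (filter_subset _ _).trans (filter_subset _ _)
        · intro x hx y hy
          exact (mem_filter.1 hx).2.symm.trans (mem_filter.1 hy).2
      have hb' : ((DD.filter (fun d' => d ≡ d' [MOD t])).card : ℝ) ≤ 9 * j := by
        exact_mod_cast hb
      refine hb'.trans (le_of_eq ?_)
      unfold om
      rw [if_pos h9, hL0r]
      field_simp
    · by_cases h3t : 3 ∣ t
      · obtain ⟨u, hu⟩ := h3t
        have hu3 : ¬ 3 ∣ u := by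
          rintro ⟨w, hw⟩
          apply h9
          rw [hu, hw]
          exact ⟨w, by ring⟩
        have hu0 : 0 < u := by
          rcases Nat.eq_zero_or_pos u with h | h
          · rw [h] at hu
            omega
          · exact h
        have hb := om_split (d0 := d0) (L0 := L0) (δ1 := δ1) (δ2 := δ2) (t := t) (u := u)
          (K := 3 * j) (d := d) hu3 ⟨3, by rw [hu]; ring⟩ hu0 (by rw [hj, hu]; ring)
        have hb' : ((DD.filter (fun d' => d ≡ d' [MOD t])).card : ℝ) ≤ 2 * (3 * j) := by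
          exact_mod_cast hb
        refine hb'.trans (le_of_eq ?_)
        unfold om
        rw [if_neg h9, if_pos ⟨u, hu⟩, hL0r]
        field_simp
      · have hb := om_split (d0 := d0) (L0 := L0) (δ1 := δ1) (δ2 := δ2) (t := t) (u := t)
          (K := j) (d := d) h3t dvd_rfl htpos (by rw [hj]; ring)
        have hb' : ((DD.filter (fun d' => d ≡ d' [MOD t])).card : ℝ) ≤ 2 * j := by
          exact_mod_cast hb
        refine hb'.trans (le_of_eq ?_)
        unfold om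
        rw [if_neg h9, if_neg h3t, hL0r]
        field_simp
  have hsum : ND q DD = ∑ d ∈ DD, (DD.filter (fun d' => d ≡ d' [MOD t])).card := by
    unfold ND
    rw [card_filter, sum_product]
    refine sum_congr rfl fun d _ => ?_
    rw [card_filter]
    refine sum_congr rfl fun d' _ => ?_
    simp only [om_pow_iff hq h30]
    rfl
  rw [hsum]
  push_cast
  calc ∑ d ∈ DD, ((DD.filter (fun d' => d ≡ d' [MOD t])).card : ℝ) ≤
      ∑ d ∈ DD, om t * (2 * L0) := sum_le_sum key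
    _ = om t * ((DD.card : ℕ) : ℝ) ^ 2 := by
        rw [sum_const, nsmul_eq_mul, hcard]
        push_cast
        ring

/-- the bound for the probability of `q ∣ k v - k v'` -/
noncomputable def Pf (q : ℕ) : ℝ :=
  min (1 / (orderOf (9 : ZMod q) : ℝ))
    (min (1 / (q : ℝ) + q * om (orderOf (25 : ZMod q)) / (orderOf (9 : ZMod q) : ℝ) ^ 2)
      (if 2 * orderOf (9 : ZMod q) + 1 = q then
        ((orderOf (9 : ZMod q) : ℝ) - 1) / (2 * (orderOf (9 : ZMod q) : ℝ) ^ 2) +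
          om (orderOf (25 : ZMod q)) * ((orderOf (9 : ZMod q) : ℝ) + 1) / (2 * (orderOf (9 : ZMod q) : ℝ) ^ 2)
        else 1))

/-- `Pf q` bounds the probability: `P_one`, `P_gauss`, `P_full` with `w = om t` from `om_count`. -/
theorem NV_le {q : ℕ} (hq : q.Prime) (h30 : ¬ q ∣ 30) (h4 : q % 4 = 3) (a c b0 d0 : ℕ) {L0 δ1 δ2 : ℕ}
    (hL0 : 0 < L0) (h1 : δ1 < 9) (h2 : δ2 < 9) (hne : δ1 ≠ δ2) (h3 : δ1 % 3 = δ2 % 3)
    (hL9 : orderOf (9 : ZMod q) ∣ L0) (hL25 : orderOf (25 : ZMod q) ∣ L0) :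
    (NV a c q (Ico b0 (b0 + L0) ×ˢ DS d0 L0 δ1 δ2) : ℝ) ≤
      Pf q * (((Ico b0 (b0 + L0) ×ˢ DS d0 L0 δ1 δ2).card : ℕ) : ℝ) ^ 2 := by
  have hw := om_count hq h30 d0 hL0 h1 h2 hne h3 hL25
  have a1 := P_one hq h30 a c b0 L0 hL0 hL9 (DS d0 L0 δ1 δ2)
  have a2 := P_gauss hq h30 a c b0 L0 hL0 hL9 (DS d0 L0 δ1 δ2) hw
  have hV : (0 : ℝ) ≤ (((Ico b0 (b0 + L0) ×ˢ DS d0 L0 δ1 δ2).card : ℕ) : ℝ) ^ 2 := by positivity
  unfold Pf
  rw [min_mul_of_nonneg _ _ hV, min_mul_of_nonneg _ _ hV]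
  refine le_min a1 (le_min a2 ?_)
  split_ifs with hs
  · exact P_full hq h30 h4 a c b0 L0 hL0 hL9 hs (DS d0 L0 δ1 δ2) hw
  · rw [one_mul]
    unfold NV
    have h := card_filter_le ((Ico b0 (b0 + L0) ×ˢ DS d0 L0 δ1 δ2) ×ˢ
      (Ico b0 (b0 + L0) ×ˢ DS d0 L0 δ1 δ2))
      (fun p => (q : ℤ) ∣ (kk a p.1.1 c p.1.2 : ℤ) - kk a p.2.1 c p.2.2)
    rw [card_product (Ico b0 (b0 + L0) ×ˢ DS d0 L0 δ1 δ2)] at h
    rw [pow_two]
    exact_mod_cast h

end H2S
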