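import Pool.Agent.H2S.Defs

/-!
# H2S/OrdSum: the primes modulo which `g` has a given order

Let `s ≥ 1` and let `F` be a finite set of primes not dividing `g` with `orderOf (g : ZMod q) = s`.
* `s ∣ q - 1` (`ZMod.orderOf_dvd_card_sub_one`), so `q = j s + 1` with `j ≥ 1`, distinct `j` for distinct `q`.
* `∏_{q ∈ F} q ∣ g^s - 1`, hence `2^|F| ≤ g^s`, `|F| ≤ N := g s`.
* `ψ x = (2 + log x)²/x` is decreasing on `[1, ∞)` (`psi_anti`), and `wt q ≤ ψ (j s)`. The primes with
  `j ≤ N`: `≤ (2 + log (N s))²/(j s)`, and `∑_{j ≤ N} 1/j ≤ 1 + log N`. Those with `j > N`: at most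
  `N` of them, each `≤ ψ (N s) = (2 + log (N s))²/(N s)`. Total at most `(2 + log (N s))² (2 + log N) / s
  ≤ C (1 + log s)³/s`.
-/

namespace H2S

open Finset

theorem psi_anti {a b : ℝ} (ha : 1 ≤ a) (hab : a ≤ b) :
    (2 + Real.log b) ^ 2 / b ≤ (2 + Real.log a) ^ 2 / a := by
  have ha0 : 0 < a := by linarith
  have hb0 : 0 < b := by linarith
  obtain ⟨r, hr⟩ : ∃ r, r = b / a := ⟨_, rfl⟩
  have hbr : b = a * r := by rw [hr]; field_simp
  have hr1 : 1 ≤ r := by rw [hr, le_div_iff₀ ha0]; linarith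
  have hr0 : 0 < r := by linarith
  have hla : 0 ≤ Real.log a := Real.log_nonneg ha
  have hlr : 0 ≤ Real.log r := Real.log_nonneg hr1
  have h1 : Real.log b = Real.log a + Real.log r := by
    rw [hbr, Real.log_mul ha0.ne' hr0.ne']
  have hs : Real.log r / 2 ≤ Real.sqrt r - 1 := by
    have h2 := Real.log_le_sub_one_of_pos (Real.sqrt_pos.mpr hr0)
    rw [Real.log_sqrt hr0.le] at h2
    exact h2
  have h3 : 2 + Real.log b ≤ (2 + Real.log a) * Real.sqrt r := by
    rw [h1]
    have h4 : 2 + (Real.log a + Real.log r) ≤ (2 + Real.log a) * (1 + Real.log r / 2) := by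
      nlinarith
    refine h4.trans ?_
    apply mul_le_mul_of_nonneg_left _ (by linarith)
    linarith
  have h5 : (2 + Real.log b) ^ 2 ≤ (2 + Real.log a) ^ 2 * r := by
    have h6 : (2 + Real.log b) ^ 2 ≤ ((2 + Real.log a) * Real.sqrt r) ^ 2 := by
      apply pow_le_pow_left₀ _ h3
      rw [h1]; linarith
    rwa [mul_pow, Real.sq_sqrt hr0.le] at h6
  rw [div_le_div_iff₀ hb0 ha0]
  calc (2 + Real.log b) ^ 2 * a ≤ ((2 + Real.log a) ^ 2 * r) * a :=
        mul_le_mul_of_nonneg_right h5 ha0.le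
    _ = (2 + Real.log a) ^ 2 * b := by rw [hbr]; ring

theorem card_le {g s : ℕ} (hg : 2 ≤ g) (hs : 1 ≤ s) (F : Finset ℕ)
    (hF : ∀ q ∈ F, q.Prime ∧ ¬ q ∣ g ∧ orderOf (g : ZMod q) = s) : F.card ≤ g * s := by
  have h1 : 2 ^ F.card ≤ ∏ q ∈ F, q := by
    rw [← Finset.prod_const]
    exact Finset.prod_le_prod' fun q hq => (hF q hq).1.two_le
  have h2 : ∏ q ∈ F, q ∣ g ^ s - 1 := by
    refine Finset.prod_primes_dvd _ (fun q hq => (hF q hq).1.prime) fun q hq => ?_
    have h3 : (g : ZMod q) ^ s = 1 := by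
      rw [← (hF q hq).2.2]
      exact pow_orderOf_eq_one _
    have h4 : ((g ^ s - 1 : ℕ) : ZMod q) = 0 := by
      rw [Nat.cast_sub (Nat.one_le_pow _ _ (by omega))]
      push_cast
      rw [h3, sub_self]
    exact (ZMod.natCast_eq_zero_iff _ _).mp h4
  have h5 : 1 < g ^ s := Nat.one_lt_pow (by omega) (by omega)
  have h6 := Nat.le_of_dvd (by omega) h2
  have h7 : g ^ s ≤ 2 ^ (g * s) := by
    rw [pow_mul]
    exact Nat.pow_le_pow_left (Nat.lt_two_pow_self).le s
  have h8 : 2 ^ F.card ≤ 2 ^ (g * s) := by omega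
  exact (Nat.pow_le_pow_iff_right (by norm_num)).mp h8

theorem ord_sum (g : ℕ) (hg : 2 ≤ g) : ∃ C : ℝ, 0 < C ∧ ∀ s : ℕ, 1 ≤ s → ∀ F : Finset ℕ,
    (∀ q ∈ F, q.Prime ∧ ¬ q ∣ g ∧ orderOf (g : ZMod q) = s) →
    ∑ q ∈ F, wt q ≤ C * (1 + Real.log s) ^ 3 / s := by
  have hgR : (1 : ℝ) ≤ g := by exact_mod_cast (by omega : 1 ≤ g)
  have hlg : 0 ≤ Real.log g := Real.log_nonneg hgR
  refine ⟨(2 + Real.log g) ^ 3, by positivity, ?_⟩
  intro s hs F hF
  have hsR : (1 : ℝ) ≤ s := by exact_mod_cast hs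
  have hs0 : (0 : ℝ) < s := by linarith
  have hls : 0 ≤ Real.log s := Real.log_nonneg hsR
  have hcard := card_le hg hs F hF
  obtain ⟨N, hN⟩ : ∃ N, N = g * s := ⟨_, rfl⟩
  rw [← hN] at hcard
  have hN1 : 1 ≤ N := by
    rw [hN]; exact Nat.mul_pos (by omega) (by omega)
  have hNR : (N : ℝ) = g * s := by rw [hN]; push_cast; ring
  have hN1R : (1 : ℝ) ≤ N := by exact_mod_cast hN1
  have hN0 : (0 : ℝ) < N := by linarith
  have hlN : Real.log N = Real.log g + Real.log s := by
    rw [hNR, Real.log_mul (by positivity) (by positivity)]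
  have hlNs : Real.log (N * s) = Real.log g + 2 * Real.log s := by
    rw [Real.log_mul (by positivity) (by positivity), hlN]; ring
  -- the index
  have hj : ∀ q ∈ F, q = ((q - 1) / s) * s + 1 ∧ 1 ≤ (q - 1) / s := by
    intro q hq
    obtain ⟨hp, hnd, ho⟩ := hF q hq
    have hd : s ∣ q - 1 := by
      have : Fact q.Prime := ⟨hp⟩
      have h1 : (g : ZMod q) ≠ 0 := by
        intro h
        exact hnd ((ZMod.natCast_eq_zero_iff _ _).mp h)
      rw [← ho]
      exact ZMod.orderOf_dvd_card_sub_one h1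
    have h2 := hp.two_le
    have h3 := Nat.div_mul_cancel hd
    refine ⟨by omega, ?_⟩
    rw [Nat.one_le_div_iff (by omega)]
    exact Nat.le_of_dvd (by omega) hd
  have hwt : ∀ q ∈ F, wt q ≤ (2 + Real.log ((((q - 1) / s : ℕ) : ℝ) * s)) ^ 2 /
      ((((q - 1) / s : ℕ) : ℝ) * s) := by
    intro q hq
    obtain ⟨h1, h2⟩ := hj q hq
    set j := (q - 1) / s with hjdef
    have hjR : (1 : ℝ) ≤ j := by exact_mod_cast h2
    have hjs : (1 : ℝ) ≤ j * s := by nlinarith
    have hq : (q : ℝ) = j * s + 1 := by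
      have := congrArg (Nat.cast (R := ℝ)) h1
      push_cast at this
      exact this
    unfold wt
    rw [hq]
    have hl : Real.log (j * s + 1) ≤ 2 + Real.log (j * s) := by
      have h4 : Real.log (j * s + 1) ≤ Real.log (2 * (j * s)) :=
        Real.log_le_log (by linarith) (by linarith)
      rw [Real.log_mul (by norm_num) (by linarith)] at h4
      have h5 := Real.log_two_lt_d9
      linarith
    have hl0 : 0 ≤ Real.log (j * s + 1) := Real.log_nonneg (by linarith)
    apply div_le_div₀ (by positivity) (pow_le_pow_left₀ hl0 hl 2) (by linarith) (by linarith)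
  obtain ⟨A, hA⟩ : ∃ A, A = (2 + Real.log (N * s)) ^ 2 := ⟨_, rfl⟩
  have hA0 : 0 ≤ A := by rw [hA]; positivity
  rw [← Finset.sum_filter_add_sum_filter_not F (fun q => (q - 1) / s ≤ N)]
  have hpart1 : ∑ q ∈ F.filter (fun q => (q - 1) / s ≤ N), wt q ≤
      A / s * (1 + Real.log N) := by
    have h1 : ∑ q ∈ F.filter (fun q => (q - 1) / s ≤ N), wt q ≤
        ∑ q ∈ F.filter (fun q => (q - 1) / s ≤ N), A / s * (((q - 1) / s : ℕ) : ℝ)⁻¹ := by
      refine Finset.sum_le_sum fun q hq => ?_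
      rw [Finset.mem_filter] at hq
      obtain ⟨hq, hqN⟩ := hq
      refine (hwt q hq).trans ?_
      obtain ⟨h1, h2⟩ := hj q hq
      set j := (q - 1) / s with hjdef
      have hjR : (1 : ℝ) ≤ j := by exact_mod_cast h2
      have hjN : (j : ℝ) ≤ N := by exact_mod_cast hqN
      have hjs : (1 : ℝ) ≤ j * s := by nlinarith
      have e : A / s * (j : ℝ)⁻¹ = A / (j * s) := by
        field_simp
      rw [e]
      apply div_le_div_of_nonneg_right _ (by linarith)
      rw [hA]
      apply pow_le_pow_left₀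
      · have := Real.log_nonneg hjs
        linarith
      · have : Real.log (j * s) ≤ Real.log (N * s) :=
          Real.log_le_log (by linarith) (by nlinarith)
        linarith
    refine h1.trans ?_
    rw [← Finset.mul_sum]
    apply mul_le_mul_of_nonneg_left _ (by positivity)
    have hinj : Set.InjOn (fun q => (q - 1) / s) (F.filter (fun q => (q - 1) / s ≤ N)) := by
      intro q hq q' hq' hqq
      simp only [Finset.coe_filter, Set.mem_ofPred_eq] at hq hq'
      have h2 := (hj q hq.1).1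
      have h3 := (hj q' hq'.1).1
      simp only at hqq
      rw [h2, h3, hqq]
    have h2 : ∑ q ∈ F.filter (fun q => (q - 1) / s ≤ N), (((q - 1) / s : ℕ) : ℝ)⁻¹ =
        ∑ j ∈ (F.filter (fun q => (q - 1) / s ≤ N)).image (fun q => (q - 1) / s),
          ((j : ℕ) : ℝ)⁻¹ := (Finset.sum_image (f := fun j : ℕ => (j : ℝ)⁻¹) hinj).symm
    rw [h2]
    have h3 : ∑ j ∈ (F.filter (fun q => (q - 1) / s ≤ N)).image (fun q => (q - 1) / s),
        ((j : ℕ) : ℝ)⁻¹ ≤ ∑ j ∈ Finset.Icc 1 N, ((j : ℕ) : ℝ)⁻¹ := by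
      refine Finset.sum_le_sum_of_subset_of_nonneg ?_ fun _ _ _ => by positivity
      intro j hj'
      rw [Finset.mem_image] at hj'
      obtain ⟨q, hq, rfl⟩ := hj'
      rw [Finset.mem_filter] at hq
      rw [Finset.mem_Icc]
      exact ⟨(hj q hq.1).2, hq.2⟩
    refine h3.trans ?_
    have h4 := harmonic_le_one_add_log N
    rw [harmonic_eq_sum_Icc] at h4
    push_cast at h4
    exact h4
  have hpart2 : ∑ q ∈ F.filter (fun q => ¬ (q - 1) / s ≤ N), wt q ≤ A / s := by
    have h1 : ∑ q ∈ F.filter (fun q => ¬ (q - 1) / s ≤ N), wt q ≤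
        ∑ q ∈ F.filter (fun q => ¬ (q - 1) / s ≤ N), A / (N * s) := by
      refine Finset.sum_le_sum fun q hq => ?_
      rw [Finset.mem_filter, not_le] at hq
      obtain ⟨hq, hqN⟩ := hq
      refine (hwt q hq).trans ?_
      rw [hA]
      have hjN : (N : ℝ) ≤ ((q - 1) / s : ℕ) := by exact_mod_cast hqN.le
      apply psi_anti
      · nlinarith
      · exact mul_le_mul_of_nonneg_right hjN hs0.le
    refine h1.trans ?_
    rw [Finset.sum_const, nsmul_eq_mul]
    have h2 : ((F.filter (fun q => ¬ (q - 1) / s ≤ N)).card : ℝ) ≤ N := by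
      exact_mod_cast (Finset.card_filter_le _ _).trans hcard
    have e : A / s = N * (A / (N * s)) := by
      field_simp
    rw [e]
    exact mul_le_mul_of_nonneg_right h2 (by positivity)
  have htot : A / s * (1 + Real.log N) + A / s = A * (2 + Real.log N) / s := by ring
  have h1 : A ≤ ((2 + Real.log g) * (1 + Real.log s)) ^ 2 := by
    rw [hA, hlNs]
    apply pow_le_pow_left₀ (by linarith)
    nlinarith [mul_nonneg hlg hls]
  have h2 : 2 + Real.log N ≤ (2 + Real.log g) * (1 + Real.log s) := by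
    rw [hlN]
    nlinarith [mul_nonneg hlg hls]
  have h3 : 0 ≤ 2 + Real.log N := by rw [hlN]; linarith
  calc _ ≤ A / s * (1 + Real.log N) + A / s := add_le_add hpart1 hpart2
    _ = A * (2 + Real.log N) / s := htot
    _ ≤ (((2 + Real.log g) * (1 + Real.log s)) ^ 2 * ((2 + Real.log g) * (1 + Real.log s))) / s := by
        apply div_le_div_of_nonneg_right _ hs0.le
        exact mul_le_mul h1 h2 h3 (by positivity)
    _ = _ := by ring

end H2S
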