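import Pool.Agent.H2S.Pars
import Mathlib.Data.Int.CardIntervalMod
import Mathlib.Analysis.SpecialFunctions.Complex.CircleAddChar
import Mathlib.NumberTheory.LegendreSymbol.Basic

/-!
# H2S/PB: the probability that `q` divides a difference of the family

`q` prime, `q ∤ 30`, `s = orderOf (9 : ZMod q)` divides `L0 > 0`, `V = Ico b0 (b0 + L0) ×ˢ DD`,
`k (b, d) = kk a b c d = A 9^b + B 25^d` (`A = 4^a`, `B = 4^c` units modulo `q`), `|V| = L0 |DD|`, and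
`#{(d,d') ∈ DD² : 25^d = 25^d' mod q} ≤ w |DD|²`.
* `P_one`: for given `d, b', d'` the `b` with `A 9^b = ...` modulo `q` form at most one class modulo `s`: at most `L0/s` in
  the interval.
* `P_gauss`: with `KK` (Pars) for the families `b ↦ A 9^b`, `d ↦ B 25^d`: `KK_V(a) = KK_B(a) KK_D(a)` for the product family,
  `q N = ∑_{a<q} ‖KK_B‖² ‖KK_D‖²` (`parseval_fam`), the term `a = 0` is `|V|²`, `∑_a ‖KK_D‖² = q N_D ≤ q w |DD|²`. For
  `a ≠ 0`: `‖KK_B(a)‖ = ‖KK_B(9^i a mod q)‖` for all `i` (the multiset `9^b`, `b` in a full period, is invariant under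
  multiplication by 9), the `s` residues `9^i a` are distinct, so `s ‖KK_B(a)‖² ≤ ∑_a' ‖KK_B(a')‖² = q N_B = q L0²/s`. Hence
  `N ≤ |V|²/q + (1/q) (q L0²/s²) (q w |DD|²) = (1/q + q w/s²) |V|²`.
* `P_full`: if `2 s + 1 = q`, `q = 3 mod 4`: the powers of 9 are exactly the nonzero squares. `r(δ) = #{(b,b') :
  A (9^b - 9^b') = δ}` satisfies `r(9^i δ) = r(δ)` and `r(-δ) = r(δ)` (swap), and `-1` is not a square, so `r` is constant on
  `δ ≠ 0`: `r(δ) = (L0² - L0²/s)/(q-1) = L0² (s-1)/(2 s²)`, `r(0) = L0²/s`. So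
  `N = ∑_δ r(δ) #{(d,d') : B (25^d' - 25^d) = δ} = r(0) N_D + r (|DD|² - N_D)`, and `r(0) ≥ r`, `N_D ≤ w |DD|²` give the
  claim: `(s-1)/(2s²) + w (1/s - (s-1)/(2s²))`.
-/

namespace H2S

open Finset Pool.Agent.Pal

/-- number of coincidences of the family `kk a b c d`, `(b, d) ∈ V`, modulo `q` -/
def NV (a c q : ℕ) (V : Finset (ℕ × ℕ)) : ℕ :=
  ((V ×ˢ V).filter (fun p => (q : ℤ) ∣ (kk a p.1.1 c p.1.2 : ℤ) - kk a p.2.1 c p.2.2)).card

/-- number of coincidences of `25^d`, `d ∈ DD`, modulo `q` -/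
def ND (q : ℕ) (DD : Finset ℕ) : ℕ :=
  ((DD ×ˢ DD).filter (fun p => (25 : ZMod q) ^ p.1 = (25 : ZMod q) ^ p.2)).card

/-- the exponential sum of a family in `ZMod q` -/
noncomputable def pbF {ι : Type} {q : ℕ} [NeZero q] (I : Finset ι) (f : ι → ZMod q) (α : ZMod q) : ℂ :=
  ∑ i ∈ I, ZMod.stdAddChar (α * f i)

/-- coincidences of a family -/
def pbN {ι : Type} {q : ℕ} (I : Finset ι) (f : ι → ZMod q) : ℕ :=
  ((I ×ˢ I).filter (fun p => f p.1 = f p.2)).card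

theorem pb_pars {ι : Type} {q : ℕ} [NeZero q] (I : Finset ι) (f : ι → ZMod q) :
    ∑ α : ZMod q, ‖pbF I f α‖ ^ 2 = (q : ℝ) * pbN I f := by
  have hexp : ∀ α : ZMod q, ((‖pbF I f α‖ ^ 2 : ℝ) : ℂ) =
      ∑ p ∈ I ×ˢ I, ZMod.stdAddChar (α * (f p.1 - f p.2)) := by
    intro α
    rw [← Complex.normSq_eq_norm_sq, ← Complex.mul_conj]
    unfold pbF
    rw [map_sum, Finset.sum_mul_sum, Finset.sum_product]
    refine Finset.sum_congr rfl fun i _ => Finset.sum_congr rfl fun j _ => ?_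
    rw [← AddChar.map_neg_eq_conj, ← AddChar.map_add_eq_mul]
    congr 1
    ring
  have key : ((∑ α : ZMod q, ‖pbF I f α‖ ^ 2 : ℝ) : ℂ) = (((q : ℝ) * pbN I f : ℝ) : ℂ) := by
    rw [Complex.ofReal_sum, Finset.sum_congr rfl fun (α : ZMod q) _ => hexp α, Finset.sum_comm]
    have h2 : ∀ p ∈ I ×ˢ I, ∑ α : ZMod q, (ZMod.stdAddChar (α * (f p.1 - f p.2)) : ℂ) =
        if f p.1 = f p.2 then (q : ℂ) else 0 := by
      intro p _
      rw [AddChar.sum_mulShift _ (ZMod.isPrimitive_stdAddChar q)]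
      simp only [sub_eq_zero, ZMod.card]
      split_ifs <;> simp
    rw [Finset.sum_congr rfl h2, ← Finset.sum_filter, Finset.sum_const, nsmul_eq_mul]
    unfold pbN
    push_cast
    ring
  exact_mod_cast key

theorem pbF_zero {ι : Type} {q : ℕ} [NeZero q] (I : Finset ι) (f : ι → ZMod q) :
    ‖pbF I f 0‖ ^ 2 = (I.card : ℝ) ^ 2 := by
  unfold pbF
  simp

theorem pbF_prod {q : ℕ} [NeZero q] (I J : Finset ℕ) (f g : ℕ → ZMod q) (α : ZMod q) :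
    pbF (I ×ˢ J) (fun p => f p.1 + g p.2) α = pbF I f α * pbF J g α := by
  unfold pbF
  rw [Finset.sum_mul_sum, Finset.sum_product]
  refine Finset.sum_congr rfl fun i _ => Finset.sum_congr rfl fun j _ => ?_
  rw [← AddChar.map_add_eq_mul, mul_add]

theorem pbF_neg {ι : Type} {q : ℕ} [NeZero q] (I : Finset ι) (f : ι → ZMod q) (α : ZMod q) :
    ‖pbF I f (-α)‖ = ‖pbF I f α‖ := by
  have : pbF I f (-α) = (starRingEnd ℂ) (pbF I f α) := by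
    unfold pbF
    rw [map_sum]
    refine Finset.sum_congr rfl fun i _ => ?_
    rw [← AddChar.map_neg_eq_conj, neg_mul]
  rw [this, Complex.norm_conj]

/-- at most `L0/s` exponents in an interval of length `L0` -/
theorem pb_fib {q : ℕ} [Fact q.Prime] (h9 : (9 : ZMod q) ≠ 0) (b0 L0 : ℕ)
    (hL : orderOf (9 : ZMod q) ∣ L0) (z : ZMod q) :
    ((((Ico b0 (b0 + L0)).filter (fun b => (9 : ZMod q) ^ b = z)).card : ℕ) : ℝ) ≤
      (L0 : ℝ) / orderOf (9 : ZMod q) := by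
  classical
  set s := orderOf (9 : ZMod q) with hs
  set u : (ZMod q)ˣ := Units.mk0 9 h9 with hu
  have hus : orderOf u = s := by
    rw [hs, ← orderOf_units]; simp [hu]
  have hs0 : 0 < s := by rw [← hus]; exact orderOf_pos u
  rcases Finset.eq_empty_or_nonempty ((Ico b0 (b0 + L0)).filter (fun b => (9 : ZMod q) ^ b = z)) with h | h
  · rw [h]; simp; positivity
  · obtain ⟨b1, hb1⟩ := h
    rw [mem_filter] at hb1
    have hsub : (Ico b0 (b0 + L0)).filter (fun b => (9 : ZMod q) ^ b = z) ⊆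
        (Ico b0 (b0 + L0)).filter (fun b => b ≡ b1 [MOD s]) := by
      intro b hb
      rw [mem_filter] at hb ⊢
      refine ⟨hb.1, ?_⟩
      have h1 : (9 : ZMod q) ^ b = 9 ^ b1 := by rw [hb.2, hb1.2]
      have h2 : u ^ b = u ^ b1 := by
        ext
        simpa [hu] using h1
      rw [pow_eq_pow_iff_modEq, hus] at h2
      exact h2
    obtain ⟨m, hm⟩ := hL
    have h3 := Nat.Ico_filter_modEq_card b0 (b0 + L0) hs0 b1
    have hsq : (s : ℚ) ≠ 0 := by exact_mod_cast hs0.ne'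
    have h4 : (((b0 + L0 : ℕ) : ℚ) - b1) / s = ((b0 : ℚ) - b1) / s + (m : ℤ) := by
      rw [hm]; push_cast; field_simp; ring
    rw [h4, Int.ceil_add_intCast, add_sub_cancel_left] at h3
    have h5 : ((((Ico b0 (b0 + L0)).filter (fun b => b ≡ b1 [MOD s])).card : ℕ) : ℤ) = m := by
      rw [h3]; simp
    have h6 : (((Ico b0 (b0 + L0)).filter (fun b => b ≡ b1 [MOD s])).card : ℕ) = m := by
      exact_mod_cast h5
    have h7 := Finset.card_le_card hsub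
    rw [h6] at h7
    have hsr : (s : ℝ) ≠ 0 := by exact_mod_cast hs0.ne'
    have h8 : (L0 : ℝ) / s = m := by
      rw [hm]; push_cast; field_simp
    rw [h8]
    exact_mod_cast h7

/-- the coincidences of the family `A 9^b` -/
theorem pb_NB {q : ℕ} [Fact q.Prime] (h9 : (9 : ZMod q) ≠ 0) (b0 L0 : ℕ)
    (hL : orderOf (9 : ZMod q) ∣ L0) {A : ZMod q} (hA : A ≠ 0) :
    (pbN (Ico b0 (b0 + L0)) (fun b => A * 9 ^ b) : ℝ) ≤ (L0 : ℝ) ^ 2 / orderOf (9 : ZMod q) := by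
  unfold pbN
  have h1 : ((Ico b0 (b0 + L0) ×ˢ Ico b0 (b0 + L0)).filter
      (fun p => A * (9 : ZMod q) ^ p.1 = A * 9 ^ p.2)).card =
      ∑ b' ∈ Ico b0 (b0 + L0), ((Ico b0 (b0 + L0)).filter (fun b => (9 : ZMod q) ^ b = 9 ^ b')).card := by
    rw [Finset.card_filter, Finset.sum_product_right]
    refine Finset.sum_congr rfl fun b' _ => ?_
    rw [Finset.card_filter]
    refine Finset.sum_congr rfl fun b _ => ?_
    simp only [mul_right_inj' hA]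
  rw [h1]
  push_cast
  calc _ ≤ ∑ b' ∈ Ico b0 (b0 + L0), (L0 : ℝ) / orderOf (9 : ZMod q) :=
        Finset.sum_le_sum fun b' _ => pb_fib h9 b0 L0 hL _
    _ = _ := by
        rw [Finset.sum_const, Nat.card_Ico, Nat.add_sub_cancel_left, nsmul_eq_mul]
        ring

/-- invariance under multiplication by `9` -/
theorem pb_inv {q : ℕ} [Fact q.Prime] (b0 L0 : ℕ)
    (hL : orderOf (9 : ZMod q) ∣ L0) (A α : ZMod q) :
    pbF (Ico b0 (b0 + L0)) (fun b => A * 9 ^ b) (9 * α) = pbF (Ico b0 (b0 + L0)) (fun b => A * 9 ^ b) α := by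
  unfold pbF
  have h1 : ∀ b ∈ Ico b0 (b0 + L0), (ZMod.stdAddChar (9 * α * (A * 9 ^ b)) : ℂ) =
      (fun b => (ZMod.stdAddChar (α * (A * 9 ^ b)) : ℂ)) (b + 1) := by
    intro b _
    simp only
    congr 1
    ring
  rw [Finset.sum_congr rfl h1, Finset.sum_Ico_add' (fun b => (ZMod.stdAddChar (α * (A * 9 ^ b)) : ℂ))]
  have h2 : b0 + L0 + 1 = b0 + 1 + L0 := by ring
  rcases Nat.eq_zero_or_pos L0 with h0 | h0
  · subst h0; simp
  · rw [Finset.sum_Ico_succ_top (by omega), Finset.sum_eq_sum_Ico_succ_bot (a := b0) (b := b0 + L0) (by omega)]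
    rw [add_comm]
    congr 1
    rw [pow_add]
    obtain ⟨m, hm⟩ := hL
    rw [hm, pow_mul, pow_orderOf_eq_one, one_pow, mul_one]

theorem pb_inv_pow {q : ℕ} [Fact q.Prime] (b0 L0 : ℕ)
    (hL : orderOf (9 : ZMod q) ∣ L0) (A α : ZMod q) (i : ℕ) :
    pbF (Ico b0 (b0 + L0)) (fun b => A * 9 ^ b) (9 ^ i * α) =
      pbF (Ico b0 (b0 + L0)) (fun b => A * 9 ^ b) α := by
  induction i with
  | zero => simp
  | succ i ih => rw [pow_succ', mul_assoc, pb_inv b0 L0 hL, ih]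

/-- the other frequencies -/
theorem pb_rest {ι : Type} {q : ℕ} [NeZero q] (I : Finset ι) (f : ι → ZMod q) :
    ∑ α ∈ univ.erase (0 : ZMod q), ‖pbF I f α‖ ^ 2 = (q : ℝ) * pbN I f - (I.card : ℝ) ^ 2 := by
  rw [← pb_pars, ← pbF_zero I f, ← Finset.add_sum_erase _ _ (Finset.mem_univ (0 : ZMod q))]
  ring

theorem pb_inj {q : ℕ} [Fact q.Prime] (h9 : (9 : ZMod q) ≠ 0) {α : ZMod q} (hα : α ≠ 0) :
    Set.InjOn (fun i : ℕ => (9 : ZMod q) ^ i * α) (range (orderOf (9 : ZMod q)) : Set ℕ) := by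
  intro i hi j hj hij
  simp only [coe_range, Set.mem_Iio] at hi hj
  have h1 : (9 : ZMod q) ^ i = 9 ^ j := mul_right_cancel₀ hα hij
  set u : (ZMod q)ˣ := Units.mk0 9 h9 with hu
  have hus : orderOf u = orderOf (9 : ZMod q) := by
    rw [← orderOf_units]; simp [hu]
  have h2 : u ^ i = u ^ j := by
    ext
    simpa [hu] using h1
  rw [pow_eq_pow_iff_modEq, hus] at h2
  rwa [Nat.ModEq, Nat.mod_eq_of_lt hi, Nat.mod_eq_of_lt hj] at h2

/-- `s ‖F(α)‖² ≤ q N_B - L0²` -/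
theorem pb_gauss_bd {q : ℕ} [Fact q.Prime] (h9 : (9 : ZMod q) ≠ 0) (b0 L0 : ℕ)
    (hL : orderOf (9 : ZMod q) ∣ L0) (A : ZMod q) {α : ZMod q} (hα : α ≠ 0) :
    (orderOf (9 : ZMod q) : ℝ) * ‖pbF (Ico b0 (b0 + L0)) (fun b => A * 9 ^ b) α‖ ^ 2 ≤
      (q : ℝ) * pbN (Ico b0 (b0 + L0)) (fun b => A * 9 ^ b) - (L0 : ℝ) ^ 2 := by
  classical
  have h := pb_rest (Ico b0 (b0 + L0)) (fun b => A * (9 : ZMod q) ^ b)
  rw [Nat.card_Ico, Nat.add_sub_cancel_left] at h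
  rw [← h]
  have h1 : ∑ i ∈ range (orderOf (9 : ZMod q)),
      ‖pbF (Ico b0 (b0 + L0)) (fun b => A * 9 ^ b) (9 ^ i * α)‖ ^ 2 =
      (orderOf (9 : ZMod q) : ℝ) * ‖pbF (Ico b0 (b0 + L0)) (fun b => A * 9 ^ b) α‖ ^ 2 := by
    rw [Finset.sum_congr rfl fun i _ => by rw [pb_inv_pow b0 L0 hL], Finset.sum_const, card_range,
      nsmul_eq_mul]
  rw [← h1, ← Finset.sum_image (f := fun β => ‖pbF (Ico b0 (b0 + L0)) (fun b => A * 9 ^ b) β‖ ^ 2)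
    (pb_inj h9 hα)]
  refine Finset.sum_le_sum_of_subset_of_nonneg ?_ fun _ _ _ => by positivity
  intro β hβ
  rw [mem_image] at hβ
  obtain ⟨i, _, rfl⟩ := hβ
  rw [mem_erase]
  exact ⟨mul_ne_zero (pow_ne_zero _ h9) hα, mem_univ _⟩

/-- `2 s ‖F(α)‖² ≤ q N_B - L0²` if `q = 3 mod 4` -/
theorem pb_full_bd {q : ℕ} [Fact q.Prime] (h4 : q % 4 = 3) (h9 : (9 : ZMod q) ≠ 0) (b0 L0 : ℕ)
    (hL : orderOf (9 : ZMod q) ∣ L0) (A : ZMod q) {α : ZMod q} (hα : α ≠ 0) :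
    2 * (orderOf (9 : ZMod q) : ℝ) * ‖pbF (Ico b0 (b0 + L0)) (fun b => A * 9 ^ b) α‖ ^ 2 ≤
      (q : ℝ) * pbN (Ico b0 (b0 + L0)) (fun b => A * 9 ^ b) - (L0 : ℝ) ^ 2 := by
  classical
  have h := pb_rest (Ico b0 (b0 + L0)) (fun b => A * (9 : ZMod q) ^ b)
  rw [Nat.card_Ico, Nat.add_sub_cancel_left] at h
  rw [← h]
  have h1 : ∑ i ∈ range (orderOf (9 : ZMod q)),
      ‖pbF (Ico b0 (b0 + L0)) (fun b => A * 9 ^ b) (9 ^ i * α)‖ ^ 2 =
      (orderOf (9 : ZMod q) : ℝ) * ‖pbF (Ico b0 (b0 + L0)) (fun b => A * 9 ^ b) α‖ ^ 2 := by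
    rw [Finset.sum_congr rfl fun i _ => by rw [pb_inv_pow b0 L0 hL], Finset.sum_const, card_range,
      nsmul_eq_mul]
  have h2 : ∑ i ∈ range (orderOf (9 : ZMod q)),
      ‖pbF (Ico b0 (b0 + L0)) (fun b => A * 9 ^ b) (9 ^ i * (-α))‖ ^ 2 =
      (orderOf (9 : ZMod q) : ℝ) * ‖pbF (Ico b0 (b0 + L0)) (fun b => A * 9 ^ b) α‖ ^ 2 := by
    rw [Finset.sum_congr rfl fun i _ => by rw [pb_inv_pow b0 L0 hL, pbF_neg], Finset.sum_const, card_range,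
      nsmul_eq_mul]
  have h3 : 2 * (orderOf (9 : ZMod q) : ℝ) * ‖pbF (Ico b0 (b0 + L0)) (fun b => A * 9 ^ b) α‖ ^ 2 =
      ∑ β ∈ (range (orderOf (9 : ZMod q))).image (fun i => (9 : ZMod q) ^ i * α),
        ‖pbF (Ico b0 (b0 + L0)) (fun b => A * 9 ^ b) β‖ ^ 2 +
      ∑ β ∈ (range (orderOf (9 : ZMod q))).image (fun i => (9 : ZMod q) ^ i * (-α)),
        ‖pbF (Ico b0 (b0 + L0)) (fun b => A * 9 ^ b) β‖ ^ 2 := by
    rw [Finset.sum_image (pb_inj h9 hα), Finset.sum_image (pb_inj h9 (neg_ne_zero.mpr hα)), h1, h2]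
    ring
  have hdisj : Disjoint ((range (orderOf (9 : ZMod q))).image (fun i => (9 : ZMod q) ^ i * α))
      ((range (orderOf (9 : ZMod q))).image (fun i => (9 : ZMod q) ^ i * (-α))) := by
    rw [Finset.disjoint_left]
    intro β hβ hβ'
    rw [mem_image] at hβ hβ'
    obtain ⟨i, _, hi⟩ := hβ
    obtain ⟨j, _, hj⟩ := hβ'
    have h5 : (9 : ZMod q) ^ i = - 9 ^ j := by
      apply mul_right_cancel₀ hα
      rw [hi, ← hj]; ring
    have h6 : IsSquare (-1 : ZMod q) := by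
      refine ⟨3 ^ i / 3 ^ j, ?_⟩
      have h7 : (3 : ZMod q) ^ j ≠ 0 := by
        apply pow_ne_zero
        intro h3
        apply h9
        have : (9 : ZMod q) = 3 * 3 := by norm_num
        rw [this, h3, mul_zero]
      field_simp
      have h8 : ∀ n : ℕ, ((3 : ZMod q) ^ n) ^ 2 = 9 ^ n := by
        intro n
        rw [← pow_mul, mul_comm, pow_mul]; norm_num
      rw [h8, h8, h5]
    rw [ZMod.exists_sq_eq_neg_one_iff] at h6
    exact h6 h4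
  rw [h3, ← Finset.sum_union hdisj]
  refine Finset.sum_le_sum_of_subset_of_nonneg ?_ fun _ _ _ => by positivity
  intro β hβ
  rw [mem_union, mem_image, mem_image] at hβ
  rw [mem_erase]
  refine ⟨?_, mem_univ _⟩
  rcases hβ with ⟨i, _, rfl⟩ | ⟨i, _, rfl⟩
  · exact mul_ne_zero (pow_ne_zero _ h9) hα
  · exact mul_ne_zero (pow_ne_zero _ h9) (neg_ne_zero.mpr hα)

/-- the product family -/
theorem pb_prod_bd {q : ℕ} [Fact q.Prime] (I J : Finset ℕ) (f g : ℕ → ZMod q) {K : ℝ}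
    (hK : ∀ α : ZMod q, α ≠ 0 → ‖pbF I f α‖ ^ 2 ≤ K) :
    (q : ℝ) * pbN (I ×ˢ J) (fun p => f p.1 + g p.2) ≤
      (I.card : ℝ) ^ 2 * (J.card : ℝ) ^ 2 + K * ((q : ℝ) * pbN J g - (J.card : ℝ) ^ 2) := by
  classical
  have h := pb_rest (I ×ˢ J) (fun p => f p.1 + g p.2)
  rw [card_product] at h
  push_cast at h
  have h2 : ∑ α ∈ univ.erase (0 : ZMod q), ‖pbF (I ×ˢ J) (fun p => f p.1 + g p.2) α‖ ^ 2 ≤
      K * ∑ α ∈ univ.erase (0 : ZMod q), ‖pbF J g α‖ ^ 2 := by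
    rw [Finset.mul_sum]
    refine Finset.sum_le_sum fun α hα => ?_
    rw [mem_erase] at hα
    rw [pbF_prod, norm_mul, mul_pow]
    exact mul_le_mul_of_nonneg_right (hK α hα.1) (by positivity)
  rw [h, pb_rest] at h2
  linarith [mul_pow (I.card : ℝ) (J.card : ℝ) 2]

theorem pb_NV_eq {q : ℕ} (a c : ℕ) (V : Finset (ℕ × ℕ)) :
    NV a c q V = pbN V (fun p => (4 : ZMod q) ^ a * 9 ^ p.1 + 4 ^ c * 25 ^ p.2) := by
  unfold NV pbN
  congr 1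
  refine Finset.filter_congr fun p _ => ?_
  have h1 : ∀ b d : ℕ, ((kk a b c d : ℤ) : ZMod q) = (4 : ZMod q) ^ a * 9 ^ b + 4 ^ c * 25 ^ d := by
    intro b d
    unfold kk
    push_cast
    have e1 : ∀ n : ℕ, ((2 : ZMod q) ^ n) ^ 2 = 4 ^ n := by
      intro n; rw [← pow_mul, mul_comm, pow_mul]; norm_num
    have e2 : ∀ n : ℕ, ((3 : ZMod q) ^ n) ^ 2 = 9 ^ n := by
      intro n; rw [← pow_mul, mul_comm, pow_mul]; norm_num
    have e3 : ∀ n : ℕ, ((5 : ZMod q) ^ n) ^ 2 = 25 ^ n := by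
      intro n; rw [← pow_mul, mul_comm, pow_mul]; norm_num
    rw [mul_pow, mul_pow, e1, e1, e2, e3]
  rw [← ZMod.intCast_zmod_eq_zero_iff_dvd, Int.cast_sub, h1, h1, sub_eq_zero]

theorem pb_units {q : ℕ} (hq : q.Prime) (h30 : ¬ q ∣ 30) :
    (4 : ZMod q) ≠ 0 ∧ (9 : ZMod q) ≠ 0 := by
  have := Fact.mk hq
  constructor
  · intro h
    have h1 : ((4 : ℕ) : ZMod q) = 0 := by exact_mod_cast h
    rw [ZMod.natCast_eq_zero_iff] at h1
    apply h30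
    have : q ∣ 2 ^ 2 := by simpa using h1
    exact (hq.dvd_of_dvd_pow this).trans (by norm_num)
  · intro h
    have h1 : ((9 : ℕ) : ZMod q) = 0 := by exact_mod_cast h
    rw [ZMod.natCast_eq_zero_iff] at h1
    apply h30
    have : q ∣ 3 ^ 2 := by simpa using h1
    exact (hq.dvd_of_dvd_pow this).trans (by norm_num)

theorem P_one {q : ℕ} (hq : q.Prime) (h30 : ¬ q ∣ 30) (a c b0 L0 : ℕ) (hL0 : 0 < L0)
    (hL : orderOf (9 : ZMod q) ∣ L0) (DD : Finset ℕ) :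
    (NV a c q (Ico b0 (b0 + L0) ×ˢ DD) : ℝ) ≤
      (1 / (orderOf (9 : ZMod q) : ℝ)) * (((Ico b0 (b0 + L0) ×ˢ DD).card : ℕ) : ℝ) ^ 2 := by
  classical
  have := Fact.mk hq
  obtain ⟨h4, h9⟩ := pb_units hq h30
  rw [pb_NV_eq, card_product, Nat.card_Ico, Nat.add_sub_cancel_left]
  unfold pbN
  rw [Finset.card_filter, Finset.sum_product, Finset.sum_product, Finset.sum_comm]
  push_cast
  have hA : (4 : ZMod q) ^ a ≠ 0 := pow_ne_zero _ h4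
  have key : ∀ (d : ℕ) (p : ℕ × ℕ), ∑ b ∈ Ico b0 (b0 + L0),
      (if (4 : ZMod q) ^ a * 9 ^ b + 4 ^ c * 25 ^ d = (4 : ZMod q) ^ a * 9 ^ p.1 + 4 ^ c * 25 ^ p.2
        then (1 : ℝ) else 0) ≤ (L0 : ℝ) / orderOf (9 : ZMod q) := by
    intro d p
    rw [← Finset.sum_filter, Finset.sum_const, nsmul_eq_mul, mul_one]
    have h1 := pb_fib h9 b0 L0 hL
      (((4 : ZMod q) ^ a * 9 ^ p.1 + 4 ^ c * 25 ^ p.2 - 4 ^ c * 25 ^ d) / 4 ^ a)
    refine le_trans (le_of_eq ?_) h1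
    congr 2
    refine Finset.filter_congr fun b _ => ?_
    rw [eq_div_iff hA]
    constructor
    · intro h; rw [← h]; ring
    · intro h; rw [mul_comm] at h; rw [h]; ring
  calc _ ≤ ∑ d ∈ DD, ∑ p ∈ Ico b0 (b0 + L0) ×ˢ DD, (L0 : ℝ) / orderOf (9 : ZMod q) := by
        refine Finset.sum_le_sum fun d _ => ?_
        rw [Finset.sum_comm]
        exact Finset.sum_le_sum fun p _ => key d p
    _ = _ := by
        rw [Finset.sum_const, Finset.sum_const, card_product, Nat.card_Ico, Nat.add_sub_cancel_left,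
          nsmul_eq_mul, nsmul_eq_mul]
        push_cast
        ring

theorem pb_ND {q : ℕ} [Fact q.Prime] {C : ZMod q} (hC : C ≠ 0) (DD : Finset ℕ) :
    pbN DD (fun d => C * 25 ^ d) = ND q DD := by
  unfold pbN ND
  congr 1
  refine Finset.filter_congr fun p _ => ?_
  simp only [mul_right_inj' hC]

theorem pb_s_pos {q : ℕ} [Fact q.Prime] (h9 : (9 : ZMod q) ≠ 0) : 0 < orderOf (9 : ZMod q) := by
  have h : orderOf (Units.mk0 (9 : ZMod q) h9) = orderOf (9 : ZMod q) := by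
    rw [← orderOf_units]; simp
  rw [← h]; exact orderOf_pos _

theorem P_gauss {q : ℕ} (hq : q.Prime) (h30 : ¬ q ∣ 30) (a c b0 L0 : ℕ) (hL0 : 0 < L0)
    (hL : orderOf (9 : ZMod q) ∣ L0) (DD : Finset ℕ) {w : ℝ} (hw : (ND q DD : ℝ) ≤ w * (DD.card : ℝ) ^ 2) :
    (NV a c q (Ico b0 (b0 + L0) ×ˢ DD) : ℝ) ≤
      (1 / (q : ℝ) + q * w / (orderOf (9 : ZMod q) : ℝ) ^ 2) *
        (((Ico b0 (b0 + L0) ×ˢ DD).card : ℕ) : ℝ) ^ 2 := by
  classical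
  have := Fact.mk hq
  obtain ⟨h4, h9⟩ := pb_units hq h30
  have hA : (4 : ZMod q) ^ a ≠ 0 := pow_ne_zero _ h4
  have hC : (4 : ZMod q) ^ c ≠ 0 := pow_ne_zero _ h4
  have hs0 : (0 : ℝ) < orderOf (9 : ZMod q) := by exact_mod_cast pb_s_pos h9
  have hq0 : (0 : ℝ) < q := by exact_mod_cast hq.pos
  have hNB := pb_NB h9 b0 L0 hL hA
  have hK : ∀ α : ZMod q, α ≠ 0 →
      ‖pbF (Ico b0 (b0 + L0)) (fun b => (4 : ZMod q) ^ a * 9 ^ b) α‖ ^ 2 ≤
        (q : ℝ) * (L0 : ℝ) ^ 2 / (orderOf (9 : ZMod q) : ℝ) ^ 2 := by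
    intro α hα
    have h1 := pb_gauss_bd h9 b0 L0 hL ((4 : ZMod q) ^ a) hα
    have h2 : (q : ℝ) * pbN (Ico b0 (b0 + L0)) (fun b => (4 : ZMod q) ^ a * 9 ^ b) ≤
        (q : ℝ) * ((L0 : ℝ) ^ 2 / orderOf (9 : ZMod q)) := mul_le_mul_of_nonneg_left hNB hq0.le
    have h3 : (0 : ℝ) ≤ (L0 : ℝ) ^ 2 := by positivity
    have h4 : (orderOf (9 : ZMod q) : ℝ) *
        ‖pbF (Ico b0 (b0 + L0)) (fun b => (4 : ZMod q) ^ a * 9 ^ b) α‖ ^ 2 ≤
        (q : ℝ) * ((L0 : ℝ) ^ 2 / orderOf (9 : ZMod q)) := by linarith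
    rw [le_div_iff₀ (by positivity)]
    have h5 := mul_le_mul_of_nonneg_right h4 hs0.le
    have h6 : (q : ℝ) * ((L0 : ℝ) ^ 2 / orderOf (9 : ZMod q)) * orderOf (9 : ZMod q) = q * (L0 : ℝ) ^ 2 := by
      field_simp
    rw [h6] at h5
    linarith [h5]
  have hmain := pb_prod_bd (Ico b0 (b0 + L0)) DD (fun b => (4 : ZMod q) ^ a * 9 ^ b)
    (fun d => (4 : ZMod q) ^ c * 25 ^ d) hK
  rw [pb_ND hC, Nat.card_Ico, Nat.add_sub_cancel_left] at hmain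
  rw [pb_NV_eq, card_product, Nat.card_Ico, Nat.add_sub_cancel_left]
  push_cast
  have hK0 : (0 : ℝ) ≤ (q : ℝ) * (L0 : ℝ) ^ 2 / (orderOf (9 : ZMod q) : ℝ) ^ 2 := by positivity
  have h7 : (q : ℝ) * (L0 : ℝ) ^ 2 / (orderOf (9 : ZMod q) : ℝ) ^ 2 * ((q : ℝ) * ND q DD - (DD.card : ℝ) ^ 2) ≤
      (q : ℝ) * (L0 : ℝ) ^ 2 / (orderOf (9 : ZMod q) : ℝ) ^ 2 * ((q : ℝ) * (w * (DD.card : ℝ) ^ 2)) := by
    apply mul_le_mul_of_nonneg_left _ hK0
    have h8 := mul_le_mul_of_nonneg_left hw hq0.le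
    have h9 : (0 : ℝ) ≤ (DD.card : ℝ) ^ 2 := by positivity
    linarith
  have h10 := hmain.trans (add_le_add_right h7 _)
  have h11 : (L0 : ℝ) ^ 2 * (DD.card : ℝ) ^ 2 +
      (q : ℝ) * (L0 : ℝ) ^ 2 / (orderOf (9 : ZMod q) : ℝ) ^ 2 * ((q : ℝ) * (w * (DD.card : ℝ) ^ 2)) =
      (q : ℝ) * ((1 / (q : ℝ) + q * w / (orderOf (9 : ZMod q) : ℝ) ^ 2) * ((L0 : ℝ) * DD.card) ^ 2) := by
    field_simp
  rw [h11] at h10
  exact le_of_mul_le_mul_left h10 hq0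

theorem P_full {q : ℕ} (hq : q.Prime) (h30 : ¬ q ∣ 30) (h4 : q % 4 = 3) (a c b0 L0 : ℕ) (hL0 : 0 < L0)
    (hL : orderOf (9 : ZMod q) ∣ L0) (hs : 2 * orderOf (9 : ZMod q) + 1 = q) (DD : Finset ℕ) {w : ℝ}
    (hw : (ND q DD : ℝ) ≤ w * (DD.card : ℝ) ^ 2) :
    (NV a c q (Ico b0 (b0 + L0) ×ˢ DD) : ℝ) ≤
      (((orderOf (9 : ZMod q) : ℝ) - 1) / (2 * (orderOf (9 : ZMod q) : ℝ) ^ 2) +
        w * ((orderOf (9 : ZMod q) : ℝ) + 1) / (2 * (orderOf (9 : ZMod q) : ℝ) ^ 2)) *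
        (((Ico b0 (b0 + L0) ×ˢ DD).card : ℕ) : ℝ) ^ 2 := by
  classical
  have := Fact.mk hq
  obtain ⟨h4', h9⟩ := pb_units hq h30
  have hA : (4 : ZMod q) ^ a ≠ 0 := pow_ne_zero _ h4'
  have hC : (4 : ZMod q) ^ c ≠ 0 := pow_ne_zero _ h4'
  have hs0 : (0 : ℝ) < orderOf (9 : ZMod q) := by exact_mod_cast pb_s_pos h9
  have hq0 : (0 : ℝ) < q := by exact_mod_cast hq.pos
  have hsq : (q : ℝ) = 2 * (orderOf (9 : ZMod q) : ℝ) + 1 := by
    have : ((2 * orderOf (9 : ZMod q) + 1 : ℕ) : ℝ) = (q : ℝ) := by rw [hs]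
    push_cast at this
    linarith
  have hNB := pb_NB h9 b0 L0 hL hA
  have hK : ∀ α : ZMod q, α ≠ 0 →
      ‖pbF (Ico b0 (b0 + L0)) (fun b => (4 : ZMod q) ^ a * 9 ^ b) α‖ ^ 2 ≤
        (L0 : ℝ) ^ 2 * ((orderOf (9 : ZMod q) : ℝ) + 1) / (2 * (orderOf (9 : ZMod q) : ℝ) ^ 2) := by
    intro α hα
    have h1 := pb_full_bd h4 h9 b0 L0 hL ((4 : ZMod q) ^ a) hα
    have h2 : (q : ℝ) * pbN (Ico b0 (b0 + L0)) (fun b => (4 : ZMod q) ^ a * 9 ^ b) ≤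
        (q : ℝ) * ((L0 : ℝ) ^ 2 / orderOf (9 : ZMod q)) := mul_le_mul_of_nonneg_left hNB hq0.le
    have h4 : 2 * (orderOf (9 : ZMod q) : ℝ) *
        ‖pbF (Ico b0 (b0 + L0)) (fun b => (4 : ZMod q) ^ a * 9 ^ b) α‖ ^ 2 ≤
        (q : ℝ) * ((L0 : ℝ) ^ 2 / orderOf (9 : ZMod q)) - (L0 : ℝ) ^ 2 := by linarith
    rw [le_div_iff₀ (by positivity)]
    have h5 := mul_le_mul_of_nonneg_right h4 hs0.le
    have h6 : ((q : ℝ) * ((L0 : ℝ) ^ 2 / orderOf (9 : ZMod q)) - (L0 : ℝ) ^ 2) * orderOf (9 : ZMod q) =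
        (L0 : ℝ) ^ 2 * ((orderOf (9 : ZMod q) : ℝ) + 1) := by
      rw [hsq]
      field_simp
      ring
    rw [h6] at h5
    linarith [h5]
  have hmain := pb_prod_bd (Ico b0 (b0 + L0)) DD (fun b => (4 : ZMod q) ^ a * 9 ^ b)
    (fun d => (4 : ZMod q) ^ c * 25 ^ d) hK
  rw [pb_ND hC, Nat.card_Ico, Nat.add_sub_cancel_left] at hmain
  rw [pb_NV_eq, card_product, Nat.card_Ico, Nat.add_sub_cancel_left]
  push_cast
  have hK0 : (0 : ℝ) ≤ (L0 : ℝ) ^ 2 * ((orderOf (9 : ZMod q) : ℝ) + 1) /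
      (2 * (orderOf (9 : ZMod q) : ℝ) ^ 2) := by positivity
  have h7 : (L0 : ℝ) ^ 2 * ((orderOf (9 : ZMod q) : ℝ) + 1) / (2 * (orderOf (9 : ZMod q) : ℝ) ^ 2) *
        ((q : ℝ) * ND q DD - (DD.card : ℝ) ^ 2) ≤
      (L0 : ℝ) ^ 2 * ((orderOf (9 : ZMod q) : ℝ) + 1) / (2 * (orderOf (9 : ZMod q) : ℝ) ^ 2) *
        ((q : ℝ) * (w * (DD.card : ℝ) ^ 2) - (DD.card : ℝ) ^ 2) := by
    apply mul_le_mul_of_nonneg_left _ hK0
    have h8 := mul_le_mul_of_nonneg_left hw hq0.le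
    linarith
  have h10 := hmain.trans (add_le_add_right h7 _)
  have h11 : (L0 : ℝ) ^ 2 * (DD.card : ℝ) ^ 2 +
      (L0 : ℝ) ^ 2 * ((orderOf (9 : ZMod q) : ℝ) + 1) / (2 * (orderOf (9 : ZMod q) : ℝ) ^ 2) *
        ((q : ℝ) * (w * (DD.card : ℝ) ^ 2) - (DD.card : ℝ) ^ 2) =
      (q : ℝ) * ((((orderOf (9 : ZMod q) : ℝ) - 1) / (2 * (orderOf (9 : ZMod q) : ℝ) ^ 2) +
        w * ((orderOf (9 : ZMod q) : ℝ) + 1) / (2 * (orderOf (9 : ZMod q) : ℝ) ^ 2)) *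
        ((L0 : ℝ) * DD.card) ^ 2) := by
    rw [hsq]
    field_simp
    ring
  rw [h11] at h10
  exact le_of_mul_le_mul_left h10 hq0

end H2S
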