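import Pool.Agent.H2S.Mert

/-!
# H2S/Smooth: sums over integers by their largest prime factor

`gpf n` = the largest prime factor (0 for `n ≤ 1`).
* `smooth_sum`: let `p ≥ 2`, `y = 2 log p ≥ 1.38`. For `x = log s ≥ 0`: `1 + x ≤ 3 y exp (x/(3y))`, so
  `(1 + log s)³ ≤ 27 y³ s^(1/y)`. The sum of `s^(-1+1/y)` over all `s ≥ 1` whose prime factors are `≤ p` is
  `∏_{p' ≤ p} (1 - p'^(-1+1/y))⁻¹` (`EulerProduct.summable_and_hasSum_smoothNumbers_prod_primesBelow_geometric` for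
  the completely multiplicative function `n ↦ n^(-1+1/y)`). With `x' = p'^(-1+1/y) ≤ 1.65/p'` (`p'^(1/y) ≤ e^(1/2)`),
  and also `x' ≤ 2^(-1+1/y) ≤ 0.83` for all `p'` (as `1/y ≤ 0.73`): `(1 - x')⁻¹ ≤ exp (x' + 6 x'²)`, so the product
  is at most `exp (1.65 ∑_{p' ≤ p} 1/p' + O(1)) ≤ C (log p)^4` by `sum_inv_le` (`1.65 · 2 ≤ 4`; small `p` go into `C`:
  `log p ≥ log 2`). Total at most `C (log p)^7`.
* `smooth_tail`: group by `p = gpf s > ℓ0` (`s ≥ 2` automatically), `s = p s'` with `gpf s' ≤ p`,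
  `(1 + log (p s'))³ ≤ (1 + log p)³ (1 + log s')³`. The sum is at most `∑_{p > ℓ0} (1 + log p)³ C (log p)^7 / p²`, the tail of
  a convergent series over all integers `p ≥ 2`.
* `smooth_fixed`: `(1 + log s)³ / s` is summable over the `s ≥ 1` with `gpf s ≤ ℓ` by `smooth_sum`, the tail of a
  convergent series tends to 0.
-/

namespace H2S

open Finset

/-- the largest prime factor -/
def gpf (n : ℕ) : ℕ := n.primeFactors.sup id

namespace SmoothAux

theorem gpf_le {n p : ℕ} : gpf n ≤ p ↔ ∀ q ∈ n.primeFactors, q ≤ p := by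
  unfold gpf
  rw [Finset.sup_le_iff]
  rfl

/-- the completely multiplicative function `n ↦ n ^ e` -/
noncomputable def pw (e : ℝ) : ℕ →* ℝ where
  toFun n := (n : ℝ) ^ e
  map_one' := by simp
  map_mul' a b := by
    push_cast
    exact Real.mul_rpow (by positivity) (by positivity)

theorem pw_apply (e : ℝ) (n : ℕ) : pw e n = (n : ℝ) ^ e := rfl

theorem sum_sq_inv_le (N : ℕ) : ∑ n ∈ Icc 2 (N + 1), (1 : ℝ) / (n : ℝ) ^ 2 ≤ 1 - 1 / (N + 1) := by
  induction N with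
  | zero => simp
  | succ N ih =>
    rw [Finset.sum_Icc_succ_top (by omega)]
    have h1 : (1 : ℝ) / ((N + 1 + 1 : ℕ) : ℝ) ^ 2 ≤ 1 / (N + 1) - 1 / (N + 1 + 1) := by
      push_cast
      rw [div_sub_div _ _ (by positivity) (by positivity), div_le_div_iff₀ (by positivity)
        (by positivity)]
      have : (0 : ℝ) ≤ (N : ℝ) := by positivity
      nlinarith
    push_cast at *
    linarith

theorem primes_sq_inv_le (N : ℕ) : ∑ q ∈ Nat.primesBelow (N + 2), (1 : ℝ) / (q : ℝ) ^ 2 ≤ 1 := by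
  have h1 : Nat.primesBelow (N + 2) ⊆ Icc 2 (N + 1) := by
    intro q hq
    rw [Nat.mem_primesBelow] at hq
    rw [mem_Icc]
    exact ⟨hq.2.two_le, by omega⟩
  refine (sum_le_sum_of_subset_of_nonneg h1 fun _ _ _ => by positivity).trans
    ((sum_sq_inv_le N).trans ?_)
  have : (0 : ℝ) ≤ 1 / ((N : ℝ) + 1) := by positivity
  linarith

theorem cube_le {s : ℕ} (hs : 1 ≤ s) {y : ℝ} (hy : 1 ≤ y) :
    (1 + Real.log s) ^ 3 / s ≤ 27 * y ^ 3 * (s : ℝ) ^ (-1 + 1 / y) := by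
  have hs' : (1 : ℝ) ≤ s := by exact_mod_cast hs
  have hs0 : (0 : ℝ) < s := by linarith
  have hl : 0 ≤ Real.log s := Real.log_nonneg hs'
  have h1 : 1 + Real.log s ≤ 3 * y * Real.exp (Real.log s / (3 * y)) := by
    have h2 := Real.add_one_le_exp (Real.log s / (3 * y))
    have h3 : 3 * y * (Real.log s / (3 * y) + 1) = Real.log s + 3 * y := by
      field_simp
    have h4 : 3 * y * (Real.log s / (3 * y) + 1) ≤ 3 * y * Real.exp (Real.log s / (3 * y)) := by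
      gcongr
    linarith
  have h2 : (1 + Real.log s) ^ 3 ≤ (3 * y * Real.exp (Real.log s / (3 * y))) ^ 3 := by
    gcongr
  have h3 : (3 * y * Real.exp (Real.log s / (3 * y))) ^ 3 = 27 * y ^ 3 * (s : ℝ) ^ (1 / y) := by
    rw [mul_pow, ← Real.exp_nat_mul, Real.rpow_def_of_pos hs0]
    have : ((3 : ℕ) : ℝ) * (Real.log s / (3 * y)) = Real.log s * (1 / y) := by
      push_cast
      field_simp
    rw [this]
    ring
  have h4 : (s : ℝ) ^ (-1 + 1 / y) = (s : ℝ) ^ (1 / y) / s := by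
    rw [add_comm, ← sub_eq_add_neg, Real.rpow_sub_one hs0.ne']
  rw [h4, ← mul_div_assoc]
  gcongr
  exact h2.trans h3.le

theorem fac_le {p : ℕ} (hp : 3 ≤ p) {q : ℕ} (hq : 2 ≤ q) (hqp : q ≤ p) {y : ℝ}
    (hy : y = 2 * Real.log p) :
    (q : ℝ) ^ (-1 + 1 / y) ≤ 5 / 3 / q ∧ (q : ℝ) ^ (-1 + 1 / y) ≤ 3 / 4 := by
  have hp' : (3 : ℝ) ≤ p := by exact_mod_cast hp
  have hlog : 1 ≤ Real.log p := by
    rw [Real.le_log_iff_exp_le (by linarith)]
    have := Real.exp_one_lt_d9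
    linarith
  have hq2 : (2 : ℝ) ≤ q := by exact_mod_cast hq
  have hqp' : (q : ℝ) ≤ p := by exact_mod_cast hqp
  have hq0 : (0 : ℝ) < q := by linarith
  have hy2 : 2 ≤ y := by rw [hy]; linarith
  have hiy : 1 / y ≤ 1 / 2 := by gcongr
  have he : Real.exp (1 / 2) ≤ 5 / 3 := by
    have h1 : Real.exp (1 / 2) ^ 2 = Real.exp 1 := by
      rw [← Real.exp_nat_mul]
      norm_num
    have h2 := Real.exp_one_lt_d9
    have h3 : Real.exp (1 / 2) ^ 2 ≤ (5 / 3) ^ 2 := by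
      rw [h1]
      linarith
    exact le_of_sq_le_sq h3 (by norm_num)
  constructor
  · have h4 : (q : ℝ) ^ (-1 + 1 / y) = (q : ℝ) ^ (1 / y) / q := by
      rw [add_comm, ← sub_eq_add_neg, Real.rpow_sub_one hq0.ne']
    rw [h4]
    gcongr
    rw [Real.rpow_def_of_pos hq0]
    refine (Real.exp_le_exp.2 ?_).trans he
    have h5 : Real.log q ≤ Real.log p := Real.log_le_log hq0 hqp'
    rw [mul_one_div, div_le_div_iff₀ (by linarith) (by norm_num), hy]
    linarith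
  · have h1 : (q : ℝ) ^ (-1 + 1 / y) ≤ (q : ℝ) ^ (-(1 / 2) : ℝ) := by
      apply Real.rpow_le_rpow_of_exponent_le (by linarith)
      linarith
    have h2 : (q : ℝ) ^ (-(1 / 2) : ℝ) ≤ (2 : ℝ) ^ (-(1 / 2) : ℝ) :=
      Real.rpow_le_rpow_of_nonpos (by norm_num) hq2 (by norm_num)
    have h3 : (2 : ℝ) ^ (-(1 / 2) : ℝ) ≤ 3 / 4 := by
      rw [Real.rpow_neg (by norm_num), ← Real.sqrt_eq_rpow]
      rw [inv_le_comm₀ (by positivity) (by norm_num)]
      apply Real.le_sqrt_of_sq_le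
      norm_num
    linarith

theorem inv_le_exp {x : ℝ} (h0 : 0 ≤ x) (h1 : x ≤ 3 / 4) : (1 - x)⁻¹ ≤ Real.exp (x + 4 * x ^ 2) := by
  have h2 : (1 - x)⁻¹ ≤ 1 + (x + 4 * x ^ 2) := by
    rw [inv_le_iff_one_le_mul₀ (by linarith)]
    nlinarith [mul_nonneg (sq_nonneg x) (by linarith : 0 ≤ 3 / 4 - x)]
  have h3 := Real.add_one_le_exp (x + 4 * x ^ 2)
  linarith

end SmoothAux

namespace SmoothAux

theorem mem_smooth {n p : ℕ} (hn : 1 ≤ n) (h : gpf n ≤ p) : n ∈ Nat.smoothNumbers (p + 1) := by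
  rw [Nat.mem_smoothNumbers_iff_primeFactors_subset]
  refine ⟨by omega, fun q hq => ?_⟩
  rw [Nat.mem_primesBelow]
  exact ⟨Nat.lt_succ_of_le (gpf_le.1 h q hq), (Nat.mem_primeFactors.1 hq).1⟩

theorem euler {e : ℝ} (he : e < 0) (N : ℕ) (S : Finset ℕ) (hS : ∀ s ∈ S, s ∈ Nat.smoothNumbers N) :
    ∑ s ∈ S, (s : ℝ) ^ e ≤ ∏ q ∈ Nat.primesBelow N, (1 - (q : ℝ) ^ e)⁻¹ := by
  have h1 := EulerProduct.summable_and_hasSum_smoothNumbers_prod_primesBelow_geometric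
    (f := pw e) (fun {p} hp => by
      rw [pw_apply, Real.norm_of_nonneg (by positivity)]
      exact Real.rpow_lt_one_of_one_lt_of_neg (by exact_mod_cast hp.one_lt) he) N
  have h2 : ∑ s ∈ S.subtype (· ∈ Nat.smoothNumbers N), (pw e) (s : ℕ) ≤
      ∏ p ∈ N.primesBelow, (1 - (pw e) p)⁻¹ :=
    sum_le_hasSum _ (fun m _ => by rw [pw_apply]; positivity) h1.2
  have h3 : ∑ s ∈ S.subtype (· ∈ Nat.smoothNumbers N), (pw e) (s : ℕ) = ∑ s ∈ S, (s : ℝ) ^ e := by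
    rw [Finset.sum_subtype_of_mem (fun s : ℕ => pw e s) hS]
    rfl
  rw [h3] at h2
  exact h2

theorem smooth_sum3 : ∃ C : ℝ, 0 < C ∧ ∀ p : ℕ, 3 ≤ p → ∀ S : Finset ℕ,
    (∀ s ∈ S, 1 ≤ s ∧ gpf s ≤ p) →
    ∑ s ∈ S, (1 + Real.log s) ^ 3 / s ≤ C * (Real.log p) ^ 7 := by
  obtain ⟨C1, hC1, hC⟩ := sum_inv_le
  refine ⟨216 * Real.exp (5 / 3 * C1 + 100 / 9), by positivity, fun p hp S hS => ?_⟩
  have hp' : (3 : ℝ) ≤ p := by exact_mod_cast hp
  have hlog : 1 ≤ Real.log p := by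
    rw [Real.le_log_iff_exp_le (by linarith)]
    have := Real.exp_one_lt_d9
    linarith
  set y : ℝ := 2 * Real.log p with hy
  have hy2 : 2 ≤ y := by rw [hy]; linarith
  have hiy : 1 / y ≤ 1 / 2 := by gcongr
  have a1 : ∑ s ∈ S, (1 + Real.log s) ^ 3 / s ≤
      27 * y ^ 3 * ∑ s ∈ S, (s : ℝ) ^ (-1 + 1 / y) := by
    rw [mul_sum]
    exact sum_le_sum fun s hs => cube_le (hS s hs).1 (by linarith)
  have a2 := euler (e := -1 + 1 / y) (by linarith) (p + 1) S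
    (fun s hs => mem_smooth (hS s hs).1 (hS s hs).2)
  have a3 : ∏ q ∈ Nat.primesBelow (p + 1), (1 - (q : ℝ) ^ (-1 + 1 / y))⁻¹ ≤
      ∏ q ∈ Nat.primesBelow (p + 1), Real.exp (5 / 3 * (1 / q) + 100 / 9 * (1 / (q : ℝ) ^ 2)) := by
    refine prod_le_prod (fun q hq => ?_) (fun q hq => ?_)
    · rw [Nat.mem_primesBelow] at hq
      have := (fac_le hp hq.2.two_le (by omega) hy).2
      rw [inv_nonneg]
      linarith
    · rw [Nat.mem_primesBelow] at hq
      obtain ⟨b1, b2⟩ := fac_le hp hq.2.two_le (by omega) hy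
      have b0 : 0 ≤ (q : ℝ) ^ (-1 + 1 / y) := by positivity
      refine (inv_le_exp b0 b2).trans (Real.exp_le_exp.2 ?_)
      have b3 : ((q : ℝ) ^ (-1 + 1 / y)) ^ 2 ≤ (5 / 3 / q) ^ 2 := by gcongr
      have b4 : (5 / 3 / (q : ℝ)) ^ 2 = 25 / 9 * (1 / (q : ℝ) ^ 2) := by
        rw [div_pow]
        ring
      have b5 : 5 / 3 / (q : ℝ) = 5 / 3 * (1 / q) := by ring
      rw [b4] at b3
      rw [b5] at b1
      linarith
  rw [← Real.exp_sum, sum_add_distrib, ← mul_sum, ← mul_sum] at a3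
  have a4 : Real.exp (5 / 3 * ∑ q ∈ Nat.primesBelow (p + 1), (1 : ℝ) / q +
      100 / 9 * ∑ q ∈ Nat.primesBelow (p + 1), 1 / (q : ℝ) ^ 2) ≤
      Real.exp (5 / 3 * C1 + 100 / 9) * Real.log p ^ 4 := by
    have b1 := hC p hp
    obtain ⟨N, rfl⟩ : ∃ N, p = N + 1 := ⟨p - 1, by omega⟩
    have b2 := primes_sq_inv_le N
    have b3 : 0 ≤ Real.log (Real.log (N + 1 : ℕ)) := Real.log_nonneg hlog
    have b4 : Real.exp (4 * Real.log (Real.log (N + 1 : ℕ))) = Real.log (N + 1 : ℕ) ^ 4 := by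
      rw [← Real.exp_log (by positivity : 0 < Real.log ((N + 1 : ℕ) : ℝ) ^ 4), Real.log_pow]
      norm_num
    rw [← b4, ← Real.exp_add]
    apply Real.exp_le_exp.2
    linarith
  calc ∑ s ∈ S, (1 + Real.log s) ^ 3 / s ≤ 27 * y ^ 3 * ∑ s ∈ S, (s : ℝ) ^ (-1 + 1 / y) := a1
    _ ≤ 27 * y ^ 3 * (Real.exp (5 / 3 * C1 + 100 / 9) * Real.log p ^ 4) := by
      gcongr
      exact a2.trans (a3.trans a4)
    _ = _ := by
      rw [hy]
      ring

end SmoothAux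

open SmoothAux in
theorem smooth_sum : ∃ C : ℝ, 0 < C ∧ ∀ p : ℕ, 2 ≤ p → ∀ S : Finset ℕ, (∀ s ∈ S, 1 ≤ s ∧ gpf s ≤ p) →
    ∑ s ∈ S, (1 + Real.log s) ^ 3 / s ≤ C * (Real.log p) ^ 7 := by
  obtain ⟨C, hC0, hC⟩ := smooth_sum3
  have hl2 : 0 < Real.log 2 := Real.log_pos (by norm_num)
  have hl3 : Real.log 2 ≤ Real.log 3 := Real.log_le_log (by norm_num) (by norm_num)
  have hr : 1 ≤ (Real.log 3 / Real.log 2) ^ 7 := one_le_pow₀ ((one_le_div hl2).2 hl3)
  refine ⟨C * (Real.log 3 / Real.log 2) ^ 7, by positivity, fun p hp S hS => ?_⟩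
  rcases Nat.lt_or_ge p 3 with h | h
  · obtain rfl : p = 2 := by omega
    have h1 := hC 3 le_rfl S (fun s hs => ⟨(hS s hs).1, (hS s hs).2.trans (by norm_num)⟩)
    push_cast at h1 ⊢
    have h2 : C * (Real.log 3 / Real.log 2) ^ 7 * Real.log 2 ^ 7 = C * Real.log 3 ^ 7 := by
      rw [div_pow]
      field_simp
    rw [h2]
    exact h1
  · refine (hC p h S hS).trans ?_
    have : 0 ≤ Real.log p := Real.log_nonneg (by exact_mod_cast (by omega : 1 ≤ p))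
    have h3 : C * 1 * Real.log p ^ 7 ≤ C * (Real.log 3 / Real.log 2) ^ 7 * Real.log p ^ 7 := by
      gcongr
    rwa [mul_one] at h3

namespace SmoothAux

theorem summable_g (C : ℝ) (hC : 0 ≤ C) :
    Summable fun n : ℕ => C * (1 + Real.log n) ^ 10 / (n : ℝ) ^ 2 := by
  have h1 : Summable fun n : ℕ => C * 20 ^ 10 * (n : ℝ) ^ (-(3 / 2) : ℝ) :=
    (Real.summable_nat_rpow.2 (by norm_num)).mul_left _
  refine Summable.of_nonneg_of_le (fun n => ?_) (fun n => ?_) h1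
  · rcases Nat.eq_zero_or_pos n with rfl | hn
    · simp
    · have : 0 ≤ Real.log n := Real.log_nonneg (by exact_mod_cast hn)
      positivity
  · rcases Nat.eq_zero_or_pos n with rfl | hn
    · simp
    · have hn' : (1 : ℝ) ≤ n := by exact_mod_cast hn
      have hn0 : (0 : ℝ) < n := by linarith
      have hl : 0 ≤ Real.log n := Real.log_nonneg hn'
      have h2 : 1 + Real.log n ≤ 20 * Real.exp (Real.log n / 20) := by
        have := Real.add_one_le_exp (Real.log n / 20)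
        linarith
      have h3 : (1 + Real.log n) ^ 10 ≤ 20 ^ 10 * (n : ℝ) ^ (1 / 2 : ℝ) := by
        calc (1 + Real.log n) ^ 10 ≤ (20 * Real.exp (Real.log n / 20)) ^ 10 := by gcongr
          _ = _ := by
            rw [mul_pow, ← Real.exp_nat_mul, Real.rpow_def_of_pos hn0]
            congr 2
            push_cast
            ring
      have h4 : (n : ℝ) ^ (-(3 / 2) : ℝ) = (n : ℝ) ^ (1 / 2 : ℝ) / (n : ℝ) ^ 2 := by
        rw [← Real.rpow_natCast, ← Real.rpow_sub hn0]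
        norm_num
      rw [h4, ← mul_div_assoc, mul_assoc]
      gcongr

theorem disj {S t : Finset ℕ} (h : ∀ s ∈ S, t.sup id < s) : Disjoint S t := by
  rw [Finset.disjoint_left]
  intro s hs hst
  have h1 : s ≤ t.sup id := Finset.le_sup (f := id) hst
  have h2 := h s hs
  omega

/-- the sum over the `s` with `gpf s = p` -/
theorem fibre {C : ℝ} (hC : ∀ p : ℕ, 2 ≤ p → ∀ S : Finset ℕ, (∀ s ∈ S, 1 ≤ s ∧ gpf s ≤ p) →
    ∑ s ∈ S, (1 + Real.log s) ^ 3 / s ≤ C * (Real.log p) ^ 7) (hC0 : 0 ≤ C) {p : ℕ} (hp : 1 ≤ p)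
    (S : Finset ℕ) (hS : ∀ s ∈ S, gpf s = p) :
    ∑ s ∈ S, (1 + Real.log s) ^ 3 / (s * gpf s) ≤ C * (1 + Real.log p) ^ 10 / (p : ℝ) ^ 2 := by
  have key : ∀ s ∈ S, p.Prime ∧ p ∣ s ∧ s ≠ 0 := by
    intro s hs
    have h1 : s.primeFactors.Nonempty := by
      rw [Finset.nonempty_iff_ne_empty]
      intro h
      have h2 := hS s hs
      unfold gpf at h2
      rw [h] at h2
      simp at h2
      omega
    obtain ⟨q, hq, hq2⟩ := Finset.exists_mem_eq_sup s.primeFactors h1 id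
    have h3 : p = q := by
      rw [← hS s hs]
      exact hq2
    rw [h3]
    rw [Nat.mem_primeFactors] at hq
    exact ⟨hq.1, hq.2.1, hq.2.2⟩
  rcases S.eq_empty_or_nonempty with rfl | ⟨s0, hs0⟩
  · simp only [sum_empty]
    have : 0 ≤ Real.log p := Real.log_nonneg (by exact_mod_cast hp)
    positivity
  obtain ⟨hpp, _, _⟩ := key s0 hs0
  have hp2 : 2 ≤ p := hpp.two_le
  have hp1 : (1 : ℝ) ≤ p := by exact_mod_cast hp
  have hp0 : (0 : ℝ) < p := by linarith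
  have hlp : 0 ≤ Real.log p := Real.log_nonneg hp1
  have hinj : Set.InjOn (fun s => s / p) (S : Set ℕ) := by
    intro a ha b hb hab
    obtain ⟨_, ⟨a', rfl⟩, _⟩ := key a ha
    obtain ⟨_, ⟨b', rfl⟩, _⟩ := key b hb
    simp only [Nat.mul_div_cancel_left _ hpp.pos] at hab
    rw [hab]
  have e1 : ∀ s ∈ S, (1 + Real.log s) ^ 3 / (s * gpf s) ≤
      (1 + Real.log p) ^ 3 / (p : ℝ) ^ 2 * ((1 + Real.log (s / p : ℕ)) ^ 3 / (s / p : ℕ)) := by
    intro s hs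
    rw [hS s hs]
    obtain ⟨_, ⟨t, rfl⟩, hne⟩ := key s hs
    rw [Nat.mul_div_cancel_left _ hpp.pos]
    have ht : t ≠ 0 := by
      rintro rfl
      simp at hne
    have ht1 : (1 : ℝ) ≤ t := by exact_mod_cast Nat.one_le_iff_ne_zero.2 ht
    have ht0 : (0 : ℝ) < t := by linarith
    have hlt : 0 ≤ Real.log t := Real.log_nonneg ht1
    push_cast
    rw [Real.log_mul hp0.ne' ht0.ne', div_mul_div_comm]
    have e2 : (p : ℝ) * t * p = (p : ℝ) ^ 2 * t := by ring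
    rw [e2, ← mul_pow]
    gcongr
    nlinarith [mul_nonneg hlp hlt]
  calc ∑ s ∈ S, (1 + Real.log s) ^ 3 / (s * gpf s)
      ≤ ∑ s ∈ S, (1 + Real.log p) ^ 3 / (p : ℝ) ^ 2 *
        ((1 + Real.log (s / p : ℕ)) ^ 3 / (s / p : ℕ)) := sum_le_sum e1
    _ = (1 + Real.log p) ^ 3 / (p : ℝ) ^ 2 *
        ∑ t ∈ S.image (fun s => s / p), (1 + Real.log t) ^ 3 / t := by
      rw [← mul_sum, sum_image hinj]
    _ ≤ (1 + Real.log p) ^ 3 / (p : ℝ) ^ 2 * (C * (Real.log p) ^ 7) := by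
      gcongr
      refine hC p hp2 _ fun t ht => ?_
      obtain ⟨s, hs, rfl⟩ := mem_image.1 ht
      obtain ⟨_, hd, hne⟩ := key s hs
      refine ⟨Nat.div_pos (Nat.le_of_dvd (Nat.pos_of_ne_zero hne) hd) hpp.pos, ?_⟩
      rw [gpf_le]
      intro q hq
      have h1 := gpf_le.1 (hS s hs).le
      exact h1 q (Nat.primeFactors_mono (Nat.div_dvd_of_dvd hd) hne hq)
    _ ≤ (1 + Real.log p) ^ 3 / (p : ℝ) ^ 2 * (C * (1 + Real.log p) ^ 7) := by
      gcongr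
      linarith
    _ = _ := by ring

end SmoothAux

open SmoothAux in
theorem smooth_tail {τ : ℝ} (hτ : 0 < τ) : ∃ ℓ0 : ℕ, ∀ S : Finset ℕ, (∀ s ∈ S, ℓ0 < gpf s) →
    ∑ s ∈ S, (1 + Real.log s) ^ 3 / (s * gpf s) ≤ τ := by
  obtain ⟨C, hC0, hC⟩ := smooth_sum
  obtain ⟨t, ht⟩ := summable_iff_vanishing_norm.1 (summable_g C hC0.le) τ hτ
  refine ⟨t.sup id + 1, fun S hS => ?_⟩
  have h1 : Disjoint (S.image gpf) t := by
    apply disj
    intro p hp
    obtain ⟨s, hs, rfl⟩ := mem_image.1 hp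
    have := hS s hs
    omega
  have h2 := ht _ h1
  have h3 : ∑ s ∈ S, (1 + Real.log s) ^ 3 / (s * gpf s) ≤
      ∑ p ∈ S.image gpf, C * (1 + Real.log p) ^ 10 / (p : ℝ) ^ 2 := by
    rw [← sum_fiberwise_of_maps_to (t := S.image gpf) (g := gpf)
      (fun s hs => mem_image_of_mem _ hs)]
    refine sum_le_sum fun p hp => ?_
    obtain ⟨s, hs, rfl⟩ := mem_image.1 hp
    refine fibre hC hC0.le ?_ _ ?_
    · have := hS s hs
      omega
    · intro r hr
      exact (mem_filter.1 hr).2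
  exact h3.trans ((le_abs_self _).trans h2.le)

open SmoothAux in
theorem smooth_fixed (ℓ : ℕ) {τ : ℝ} (hτ : 0 < τ) : ∃ S0 : ℕ, ∀ S : Finset ℕ,
    (∀ s ∈ S, S0 ≤ s ∧ 1 ≤ s ∧ gpf s ≤ ℓ) → ∑ s ∈ S, (1 + Real.log s) ^ 3 / s ≤ τ := by
  obtain ⟨C, hC0, hC⟩ := smooth_sum
  set h : ℕ → ℝ := fun s => if 1 ≤ s ∧ gpf s ≤ max ℓ 2 then (1 + Real.log s) ^ 3 / s else 0 with hh
  have hnn : ∀ s, 0 ≤ h s := by
    intro s
    simp only [hh]
    split_ifs with hs
    · have : 0 ≤ Real.log s := Real.log_nonneg (by exact_mod_cast hs.1)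
      positivity
    · exact le_rfl
  have hsum : Summable h := by
    refine summable_of_sum_le (c := C * (Real.log (max ℓ 2 : ℕ)) ^ 7) hnn fun u => ?_
    simp only [hh]
    rw [← sum_filter]
    exact hC (max ℓ 2) (le_max_right _ _) _ fun s hs => (mem_filter.1 hs).2
  obtain ⟨t, ht⟩ := summable_iff_vanishing_norm.1 hsum τ hτ
  refine ⟨t.sup id + 1, fun S hS => ?_⟩
  have h1 : Disjoint S t := disj fun s hs => by
    have := (hS s hs).1
    omega
  have h2 := ht _ h1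
  have h3 : ∑ s ∈ S, (1 + Real.log s) ^ 3 / s = ∑ s ∈ S, h s := by
    refine sum_congr rfl fun s hs => ?_
    simp only [hh]
    rw [if_pos ⟨(hS s hs).2.1, (hS s hs).2.2.trans (le_max_left _ _)⟩]
  rw [h3]
  exact (le_abs_self _).trans h2.le

end H2S
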