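import Pool.Agent.H2S.GoodClass

/-!
# H2S/Split: `Wd = W3 W1` and the number of classes which are not nice

* `W_split`: `primorial ℓ ^ Jp = ∏_{p ≤ ℓ} p^Jp`; split both products according to `p % 4 = 1 ∧ p ≠ 5`; all primes
  involved are distinct (`q ∈ Qset` are `> ℓ`), so `W3`, `W1` are coprime.
* `good_congr`: `8 ∣ W3`, `27 ∣ W3` (`Jp ≥ 3`, `ℓ ≥ 5`), `5 ∣ W3`, and every `q ∈ Q3 W` divides `W3`; all conditions only
  depend on `z` modulo these numbers.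
* `count_dvd`: for a residue `s` modulo `W3` the `r < W3 W1` with `r = s mod W3`, `r = f s mod D` form one class modulo
  `W3 D`, which divides `W3 W1`: there are `W1 / D` of them.
* `not_nice`: by `count_dvd` the number of `r` with `p^Jp ∣ z(r)` is `W / p^Jp ≤ W / 5^Jp` for each of the at most `ℓ`
  primes `p ≤ ℓ`; and `∑_r ∑_{q ∣ z(r)} 1/q = ∑_q W / q² ≤ W / ℓ` (`q > ℓ`), so by Markov at most `W/(ξ ℓ)` of the `r`
  have `∑ 1/q > ξ`.
-/

namespace H2S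

open Finset

/-- the part of `Wd` composed of the primes `= 1 mod 4` other than 5 -/
def W1 (ℓ Jp E : ℕ) : ℕ :=
  (∏ p ∈ (Nat.primesBelow (ℓ + 1)).filter (fun p => p % 4 = 1 ∧ p ≠ 5), p ^ Jp) *
    ∏ q ∈ (Qset ℓ E).filter (fun q => q % 4 = 1), q

/-- the other part of `Wd` -/
def W3 (ℓ Jp E : ℕ) : ℕ :=
  (∏ p ∈ (Nat.primesBelow (ℓ + 1)).filter (fun p => ¬ (p % 4 = 1 ∧ p ≠ 5)), p ^ Jp) *
    ∏ q ∈ (Qset ℓ E).filter (fun q => ¬ (q % 4 = 1)), q

theorem W_split (ℓ Jp E : ℕ) (hℓ : 5 ≤ ℓ) :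
    Wd ℓ Jp E = W3 ℓ Jp E * W1 ℓ Jp E ∧ Nat.Coprime (W3 ℓ Jp E) (W1 ℓ Jp E) := by
  have hQp : ∀ q ∈ Qset ℓ E, q.Prime ∧ ℓ < q := by
    intro q hq
    unfold Qset at hq
    rw [mem_filter, mem_inter] at hq
    exact ⟨Nat.prime_of_mem_primeFactors hq.1.1, hq.2⟩
  have hPp : ∀ p ∈ Nat.primesBelow (ℓ + 1), p.Prime ∧ p ≤ ℓ := by
    intro p hp
    rw [Nat.mem_primesBelow] at hp
    exact ⟨hp.2, by omega⟩
  constructor
  · have h1 : (primorial ℓ) ^ Jp = ∏ p ∈ Nat.primesBelow (ℓ + 1), p ^ Jp := by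
      rw [prod_pow]
      rfl
    unfold Wd W3 W1
    rw [h1, ← prod_filter_mul_prod_filter_not (Nat.primesBelow (ℓ + 1))
      (fun p => p % 4 = 1 ∧ p ≠ 5) (fun p => p ^ Jp),
      ← prod_filter_mul_prod_filter_not (Qset ℓ E) (fun q => q % 4 = 1) (fun q => q)]
    ring
  · unfold W3 W1
    refine Nat.Coprime.mul_left (Nat.Coprime.mul_right ?_ ?_) (Nat.Coprime.mul_right ?_ ?_)
    · refine Nat.Coprime.prod_left fun p hp => Nat.Coprime.prod_right fun q hq => ?_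
      rw [mem_filter] at hp hq
      refine Nat.Coprime.pow _ _ ((Nat.coprime_primes (hPp p hp.1).1 (hPp q hq.1).1).2 ?_)
      rintro rfl
      exact hp.2 hq.2
    · refine Nat.Coprime.prod_left fun p hp => Nat.Coprime.prod_right fun q hq => ?_
      rw [mem_filter] at hp hq
      refine Nat.Coprime.pow_left _ ((Nat.coprime_primes (hPp p hp.1).1 (hQp q hq.1).1).2 ?_)
      have := (hPp p hp.1).2
      have := (hQp q hq.1).2
      omega
    · refine Nat.Coprime.prod_left fun p hp => Nat.Coprime.prod_right fun q hq => ?_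
      rw [mem_filter] at hp hq
      refine Nat.Coprime.pow_right _ ((Nat.coprime_primes (hQp p hp.1).1 (hPp q hq.1).1).2 ?_)
      have := (hQp p hp.1).2
      have := (hPp q hq.1).2
      omega
    · refine Nat.Coprime.prod_left fun p hp => Nat.Coprime.prod_right fun q hq => ?_
      rw [mem_filter] at hp hq
      refine (Nat.coprime_primes (hQp p hp.1).1 (hQp q hq.1).1).2 ?_
      rintro rfl
      exact hp.2 hq.2

private theorem pow_dvd_W3 {ℓ Jp E p : ℕ} (hp : p.Prime) (hpl : p ≤ ℓ)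
    (h : ¬ (p % 4 = 1 ∧ p ≠ 5)) : p ^ Jp ∣ W3 ℓ Jp E := by
  unfold W3
  refine Dvd.dvd.mul_right ?_ _
  refine dvd_prod_of_mem (fun p => p ^ Jp) ?_
  rw [mem_filter, Nat.mem_primesBelow]
  exact ⟨⟨by omega, hp⟩, h⟩

private theorem Q3_dvd_W3 {ℓ Jp E q : ℕ} (hℓ : 5 ≤ ℓ) (h : q ∈ Q3 (Wd ℓ Jp E)) :
    q ∣ W3 ℓ Jp E := by
  unfold Q3 at h
  rw [mem_filter] at h
  obtain ⟨h1, h2, h3⟩ := h
  have hq := Nat.prime_of_mem_primeFactors h1
  have hd := Nat.dvd_of_mem_primeFactors h1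
  rw [(W_split ℓ Jp E hℓ).1] at hd
  rcases (Nat.Prime.dvd_mul hq).1 hd with hd | hd
  · exact hd
  exfalso
  unfold W1 at hd
  rcases (Nat.Prime.dvd_mul hq).1 hd with hd | hd
  · rw [Prime.dvd_finset_prod_iff hq.prime] at hd
    obtain ⟨p, hp, hqp⟩ := hd
    rw [mem_filter, Nat.mem_primesBelow] at hp
    have h4 := (Nat.prime_dvd_prime_iff_eq hq hp.1.2).1 (hq.dvd_of_dvd_pow hqp)
    rw [h4] at h2
    omega
  · rw [Prime.dvd_finset_prod_iff hq.prime] at hd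
    obtain ⟨p, hp, hqp⟩ := hd
    rw [mem_filter] at hp
    have hpp : p.Prime := by
      have := hp.1
      unfold Qset at this
      rw [mem_filter, mem_inter] at this
      exact Nat.prime_of_mem_primeFactors this.1.1
    have h4 := (Nat.prime_dvd_prime_iff_eq hq hpp).1 hqp
    rw [h4] at h2
    omega

theorem good_congr {ℓ Jp E : ℕ} (hℓ : 5 ≤ ℓ) (hJp : 3 ≤ Jp) {z z' : ℤ}
    (h : ((W3 ℓ Jp E : ℕ) : ℤ) ∣ z - z') :
    (GoodZ (Q3 (Wd ℓ Jp E)) z ↔ GoodZ (Q3 (Wd ℓ Jp E)) z') ∧ ((5 : ℤ) ∣ z ↔ (5 : ℤ) ∣ z') := by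
  have h8 : (8 : ℤ) ∣ z - z' := by
    refine dvd_trans ?_ h
    have h1 : (8 : ℕ) ∣ W3 ℓ Jp E := by
      refine dvd_trans ?_ (pow_dvd_W3 Nat.prime_two (by omega) (by omega))
      have : (8 : ℕ) = 2 ^ 3 := by norm_num
      rw [this]
      exact pow_dvd_pow _ hJp
    exact_mod_cast h1
  have h27 : (27 : ℤ) ∣ z - z' := by
    refine dvd_trans ?_ h
    have h1 : (27 : ℕ) ∣ W3 ℓ Jp E := by
      refine dvd_trans ?_ (pow_dvd_W3 Nat.prime_three (by omega) (by omega))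
      have : (27 : ℕ) = 3 ^ 3 := by norm_num
      rw [this]
      exact pow_dvd_pow _ hJp
    exact_mod_cast h1
  have h5 : (5 : ℤ) ∣ z - z' := by
    refine dvd_trans ?_ h
    have h1 : (5 : ℕ) ∣ W3 ℓ Jp E := by
      refine dvd_trans ?_ (pow_dvd_W3 Nat.prime_five (by omega) (by omega))
      exact dvd_pow_self _ (by omega)
    exact_mod_cast h1
  have hq : ∀ q ∈ Q3 (Wd ℓ Jp E), ((q : ℤ) ∣ z ↔ (q : ℤ) ∣ z') := by
    intro q hq
    have h1 : (q : ℤ) ∣ z - z' := by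
      refine dvd_trans ?_ h
      exact_mod_cast Q3_dvd_W3 hℓ hq
    exact (dvd_iff_dvd_of_dvd_sub h1)
  refine ⟨?_, by omega⟩
  unfold GoodZ
  have e1 : (z % 4 = 1 ∨ z % 8 = 2) ↔ (z' % 4 = 1 ∨ z' % 8 = 2) := by omega
  have e2 : (z % 3 ≠ 0 ∨ (z % 9 = 0 ∧ z % 27 ≠ 0)) ↔ (z' % 3 ≠ 0 ∨ (z' % 9 = 0 ∧ z' % 27 ≠ 0)) := by
    omega
  have e3 : (∀ q ∈ Q3 (Wd ℓ Jp E), ¬ (q : ℤ) ∣ z) ↔ (∀ q ∈ Q3 (Wd ℓ Jp E), ¬ (q : ℤ) ∣ z') :=
    forall₂_congr fun q hq' => not_congr (hq q hq')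
  rw [e1, e2, e3]

theorem count_dvd {A B D : ℕ} (hA : 0 < A) (hB : 0 < B) (hcop : Nat.Coprime A B) (hD : D ∣ B) (f : ℕ → ℤ) :
    ((range (A * B)).filter (fun r : ℕ => (D : ℤ) ∣ (r : ℤ) - f (r % A))).card * D = A * B := by
  classical
  obtain ⟨k, rfl⟩ := hD
  have hD0 : 0 < D := Nat.pos_of_ne_zero (by rintro rfl; simp at hB)
  have hk0 : 0 < k := Nat.pos_of_ne_zero (by rintro rfl; simp at hB)
  have hcAD : Nat.Coprime A D := Nat.Coprime.coprime_dvd_right (dvd_mul_right D k) hcop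
  have hfib : ((range (A * (D * k))).filter
      (fun r : ℕ => (D : ℤ) ∣ (r : ℤ) - f (r % A))).card = ∑ s ∈ range A, k := by
    rw [card_eq_sum_card_fiberwise (f := fun r => r % A) (t := range A)
      (fun r _ => by simpa using Nat.mod_lt r hA)]
    refine sum_congr rfl fun s hs => ?_
    rw [mem_range] at hs
    -- the representative modulo `D`
    set g : ℕ := (f s % (D : ℤ)).toNat with hg
    have hgz : (g : ℤ) = f s % (D : ℤ) :=
      Int.toNat_of_nonneg (Int.emod_nonneg _ (by exact_mod_cast hD0.ne'))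
    obtain ⟨x, hx1, hx2⟩ := Nat.chineseRemainder hcAD s g
    have hset : ((range (A * (D * k))).filter
        (fun r : ℕ => (D : ℤ) ∣ (r : ℤ) - f (r % A))).filter (fun r => r % A = s) =
        (range (A * (D * k))).filter (fun r => r ≡ x [MOD (A * D)]) := by
      ext r
      rw [mem_filter, mem_filter, mem_filter]
      have key : (D : ℤ) ∣ (r : ℤ) - f s ↔ r ≡ g [MOD D] := by
        rw [← Int.natCast_modEq_iff, Int.modEq_iff_dvd, hgz, dvd_sub_comm (b := f s % (D : ℤ))]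
        have e1 : (r : ℤ) - f s % (D : ℤ) = (r : ℤ) - f s + (D : ℤ) * (f s / D) := by
          have := Int.emod_add_mul_ediv (f s) D
          linear_combination -this
        rw [e1]
        exact (dvd_add_left (dvd_mul_right _ _)).symm
      have key2 : r % A = s ↔ r ≡ s [MOD A] := by
        unfold Nat.ModEq
        rw [Nat.mod_eq_of_lt hs]
      constructor
      · rintro ⟨⟨hr1, hr2⟩, hr3⟩
        refine ⟨hr1, ?_⟩
        rw [hr3] at hr2
        rw [← Nat.modEq_and_modEq_iff_modEq_mul hcAD]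
        exact ⟨(key2.1 hr3).trans hx1.symm, (key.1 hr2).trans hx2.symm⟩
      · rintro ⟨hr1, hr2⟩
        rw [← Nat.modEq_and_modEq_iff_modEq_mul hcAD] at hr2
        have hr3 : r % A = s := key2.2 (hr2.1.trans hx1)
        refine ⟨⟨hr1, ?_⟩, hr3⟩
        rw [hr3]
        exact key.2 (hr2.2.trans hx2)
    rw [hset, ← Nat.count_eq_card_filter_range, Nat.count_modEq_card _ (by positivity)]
    have e2 : A * (D * k) = (A * D) * k := by ring
    rw [e2, Nat.mul_div_cancel_left _ (by positivity), Nat.mul_mod_right]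
    simp
  rw [hfib]
  simp
  ring

private theorem sum_sq_le {ℓ : ℕ} (hℓ : 1 ≤ ℓ) (F : Finset ℕ) (hF : ∀ q ∈ F, ℓ < q) :
    ∑ q ∈ F, (1 : ℝ) / q * (1 / q) ≤ 1 / ℓ := by
  set n := max ℓ (F.sup id) with hn
  have h1 : F ⊆ Ioc ℓ n := by
    intro q hq
    rw [mem_Ioc]
    refine ⟨hF q hq, le_trans ?_ (le_max_right _ _)⟩
    exact le_sup (f := id) hq
  calc ∑ q ∈ F, (1 : ℝ) / q * (1 / q) ≤ ∑ q ∈ Ioc ℓ n, (1 : ℝ) / q * (1 / q) :=
        sum_le_sum_of_subset_of_nonneg h1 fun q _ _ => by positivity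
    _ = ∑ q ∈ Ioc ℓ n, ((q : ℝ) ^ 2)⁻¹ := by
        refine sum_congr rfl fun q _ => ?_
        rw [one_div, ← mul_inv, sq]
    _ ≤ (ℓ : ℝ)⁻¹ - (n : ℝ)⁻¹ := sum_Ioc_inv_sq_le_sub (by omega) (le_max_left _ _)
    _ ≤ 1 / ℓ := by
        rw [one_div]
        have : (0 : ℝ) ≤ (n : ℝ)⁻¹ := by positivity
        linarith

open scoped Classical in
theorem not_nice {ℓ Jp E : ℕ} (hℓ : 5 ≤ ℓ) (hJp : 1 ≤ Jp) {ξ : ℝ} (hξ : 0 < ξ) (f : ℕ → ℤ) :
    (((range (Wd ℓ Jp E)).filter (fun r : ℕ =>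
      (∃ p : ℕ, p.Prime ∧ p ≤ ℓ ∧ p % 4 = 1 ∧ p ≠ 5 ∧ ((p ^ Jp : ℕ) : ℤ) ∣ (r : ℤ) - f (r % W3 ℓ Jp E)) ∨
      ξ < ∑ q ∈ (Qset ℓ E).filter (fun q => q % 4 = 1 ∧ (q : ℤ) ∣ (r : ℤ) - f (r % W3 ℓ Jp E)),
        (1 : ℝ) / q)).card : ℝ) ≤
      (Wd ℓ Jp E : ℝ) * ((ℓ : ℝ) / 5 ^ Jp + 1 / (ξ * ℓ)) := by
  obtain ⟨hW, hcop⟩ := W_split ℓ Jp E hℓ
  have hWpos := Wd_pos ℓ Jp E
  have h3pos : 0 < W3 ℓ Jp E := Nat.pos_of_ne_zero (by
    intro h0; rw [hW, h0, zero_mul] at hWpos; exact lt_irrefl _ hWpos)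
  have h1pos : 0 < W1 ℓ Jp E := Nat.pos_of_ne_zero (by
    intro h0; rw [hW, h0, mul_zero] at hWpos; exact lt_irrefl _ hWpos)
  set W := Wd ℓ Jp E with hWdef
  have hcount : ∀ D : ℕ, 0 < D → D ∣ W1 ℓ Jp E →
      (((range W).filter (fun r : ℕ => (D : ℤ) ∣ (r : ℤ) - f (r % W3 ℓ Jp E))).card : ℝ) =
        (W : ℝ) / D := by
    intro D hD0 hD
    have h := count_dvd h3pos h1pos hcop hD f
    rw [← hW] at h
    rw [eq_div_iff (by exact_mod_cast hD0.ne')]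
    exact_mod_cast h
  set P1 := (Nat.primesBelow (ℓ + 1)).filter (fun p => p % 4 = 1 ∧ p ≠ 5) with hP1
  set Q1 := (Qset ℓ E).filter (fun q => q % 4 = 1) with hQ1
  set S : ℕ → ℝ := fun r => ∑ q ∈ (Qset ℓ E).filter
    (fun q => q % 4 = 1 ∧ (q : ℤ) ∣ (r : ℤ) - f (r % W3 ℓ Jp E)), (1 : ℝ) / q with hS
  have hsub : (range W).filter (fun r : ℕ =>
      (∃ p : ℕ, p.Prime ∧ p ≤ ℓ ∧ p % 4 = 1 ∧ p ≠ 5 ∧
        ((p ^ Jp : ℕ) : ℤ) ∣ (r : ℤ) - f (r % W3 ℓ Jp E)) ∨ ξ < S r) ⊆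
      (P1.biUnion fun p => (range W).filter
        (fun r : ℕ => ((p ^ Jp : ℕ) : ℤ) ∣ (r : ℤ) - f (r % W3 ℓ Jp E))) ∪
      (range W).filter (fun r => ξ < S r) := by
    intro r hr
    rw [mem_filter] at hr
    rw [mem_union]
    rcases hr.2 with ⟨p, hp, hpl, hp4, hp5, hpd⟩ | h
    · left
      rw [mem_biUnion]
      refine ⟨p, ?_, mem_filter.2 ⟨hr.1, hpd⟩⟩
      rw [hP1, mem_filter, Nat.mem_primesBelow]
      exact ⟨⟨by omega, hp⟩, hp4, hp5⟩
    · right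
      exact mem_filter.2 ⟨hr.1, h⟩
  have hfirst : ((P1.biUnion fun p => (range W).filter
        (fun r : ℕ => ((p ^ Jp : ℕ) : ℤ) ∣ (r : ℤ) - f (r % W3 ℓ Jp E))).card : ℝ) ≤
      (W : ℝ) * ((ℓ : ℝ) / 5 ^ Jp) := by
    have hP1card : P1.card ≤ ℓ := by
      have h1 : P1 ⊆ Icc 1 ℓ := by
        intro p hp
        rw [hP1, mem_filter, Nat.mem_primesBelow] at hp
        rw [mem_Icc]
        exact ⟨hp.1.2.one_lt.le, by omega⟩
      simpa using card_le_card h1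
    calc ((P1.biUnion fun p => (range W).filter
        (fun r : ℕ => ((p ^ Jp : ℕ) : ℤ) ∣ (r : ℤ) - f (r % W3 ℓ Jp E))).card : ℝ)
        ≤ ∑ p ∈ P1, (((range W).filter
        (fun r : ℕ => ((p ^ Jp : ℕ) : ℤ) ∣ (r : ℤ) - f (r % W3 ℓ Jp E))).card : ℝ) := by
          exact_mod_cast card_biUnion_le
      _ ≤ ∑ p ∈ P1, (W : ℝ) / 5 ^ Jp := by
          refine sum_le_sum fun p hp => ?_
          have hp' := hp
          rw [hP1, mem_filter, Nat.mem_primesBelow] at hp'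
          obtain ⟨⟨_, hpp⟩, hp4, hp5⟩ := hp'
          have hp5' : 5 ≤ p := by
            have := hpp.two_le
            omega
          rw [hcount (p ^ Jp) (pow_pos hpp.pos _) (by
            unfold W1
            refine Dvd.dvd.mul_right ?_ _
            exact dvd_prod_of_mem (fun p => p ^ Jp) hp)]
          push_cast
          gcongr
          exact_mod_cast hp5'
      _ = (P1.card : ℝ) * ((W : ℝ) / 5 ^ Jp) := by rw [sum_const, nsmul_eq_mul]
      _ ≤ (ℓ : ℝ) * ((W : ℝ) / 5 ^ Jp) := by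
          gcongr
      _ = (W : ℝ) * ((ℓ : ℝ) / 5 ^ Jp) := by ring
  have hsecond : (((range W).filter (fun r => ξ < S r)).card : ℝ) ≤ (W : ℝ) * (1 / (ξ * ℓ)) := by
    have h1 : ∀ r, S r = ∑ q ∈ Q1, if (q : ℤ) ∣ (r : ℤ) - f (r % W3 ℓ Jp E) then (1 : ℝ) / q
        else 0 := by
      intro r
      rw [hS]
      simp only [bind_pure_comp, Finset.fmap_def]
      rw [sum_filter, @Finset.sum_image _ _ _ _ _ (fun a b => Classical.propDecidable (a = b)) _ _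
        (fun a _ b _ hab => by exact_mod_cast hab), hQ1, sum_filter]
      refine sum_congr rfl fun q _ => ?_
      by_cases hq4 : q % 4 = 1
      · have hq4' : (q : ℤ) % 4 = 1 := by omega
        simp [hq4, hq4']
      · have hq4' : ¬ (q : ℤ) % 4 = 1 := by omega
        simp [hq4, hq4']
    have hSnn : ∀ r, 0 ≤ S r := by
      intro r
      rw [h1]
      refine sum_nonneg fun q _ => ?_
      split_ifs
      · positivity
      · exact le_rfl
    have hmark : ξ * (((range W).filter (fun r => ξ < S r)).card : ℝ) ≤ ∑ r ∈ range W, S r := by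
      calc ξ * (((range W).filter (fun r => ξ < S r)).card : ℝ)
          = ∑ r ∈ (range W).filter (fun r => ξ < S r), ξ := by rw [sum_const, nsmul_eq_mul]; ring
        _ ≤ ∑ r ∈ (range W).filter (fun r => ξ < S r), S r :=
            sum_le_sum fun r hr => (mem_filter.1 hr).2.le
        _ ≤ ∑ r ∈ range W, S r :=
            sum_le_sum_of_subset_of_nonneg (filter_subset _ _) fun r _ _ => hSnn r
    have hsum : ∑ r ∈ range W, S r = (W : ℝ) * ∑ q ∈ Q1, (1 : ℝ) / q * (1 / q) := by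
      simp_rw [h1]
      rw [sum_comm, mul_sum]
      refine sum_congr rfl fun q hq => ?_
      have hqp : q.Prime := by
        have := (mem_filter.1 hq).1
        unfold Qset at this
        rw [mem_filter, mem_inter] at this
        exact Nat.prime_of_mem_primeFactors this.1.1
      rw [← sum_filter, sum_const, nsmul_eq_mul, hcount q hqp.pos (by
        unfold W1
        refine Dvd.dvd.mul_left ?_ _
        exact dvd_prod_of_mem (fun q => q) hq)]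
      ring
    have hle : ∑ q ∈ Q1, (1 : ℝ) / q * (1 / q) ≤ 1 / ℓ := by
      refine sum_sq_le (by omega) Q1 fun q hq => ?_
      have := (mem_filter.1 hq).1
      unfold Qset at this
      rw [mem_filter] at this
      exact this.2
    rw [hsum] at hmark
    have hℓ0 : (0 : ℝ) < ℓ := by
      have : 0 < ℓ := by omega
      exact_mod_cast this
    have h2 : ξ * (((range W).filter (fun r => ξ < S r)).card : ℝ) ≤ (W : ℝ) * (1 / ℓ) :=
      hmark.trans (mul_le_mul_of_nonneg_left hle (by positivity))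
    have h3 : (W : ℝ) * (1 / (ξ * ℓ)) = ((W : ℝ) * (1 / ℓ)) / ξ := by
      field_simp
    rw [h3, le_div_iff₀ hξ, mul_comm]
    exact h2
  calc (((range W).filter (fun r : ℕ =>
      (∃ p : ℕ, p.Prime ∧ p ≤ ℓ ∧ p % 4 = 1 ∧ p ≠ 5 ∧
        ((p ^ Jp : ℕ) : ℤ) ∣ (r : ℤ) - f (r % W3 ℓ Jp E)) ∨ ξ < S r)).card : ℝ)
      ≤ (((P1.biUnion fun p => (range W).filter
        (fun r : ℕ => ((p ^ Jp : ℕ) : ℤ) ∣ (r : ℤ) - f (r % W3 ℓ Jp E))) ∪
      (range W).filter (fun r => ξ < S r)).card : ℝ) := by exact_mod_cast card_le_card hsub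
    _ ≤ ((P1.biUnion fun p => (range W).filter
        (fun r : ℕ => ((p ^ Jp : ℕ) : ℤ) ∣ (r : ℤ) - f (r % W3 ℓ Jp E))).card : ℝ) +
      (((range W).filter (fun r => ξ < S r)).card : ℝ) := by exact_mod_cast card_union_le _ _
    _ ≤ (W : ℝ) * ((ℓ : ℝ) / 5 ^ Jp) + (W : ℝ) * (1 / (ξ * ℓ)) := add_le_add hfirst hsecond
    _ = (W : ℝ) * ((ℓ : ℝ) / 5 ^ Jp + 1 / (ξ * ℓ)) := by ring

end H2S
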