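import Pool.Agent.H2S.Om

/-!
# H2S/Tab: the primes up to 1000

85 primes `q = 3 mod 4`, `11 ≤ q ≤ 1000`. With `s = orderOf (9 : ZMod q)`, `t = orderOf (25 : ZMod q)` (divisors of
`(q-1)/2`; e.g. found as the first exponent with `g^e % q = 1`) `Pf q` is at most the third entry if `2 s + 1 = q`, else the
minimum of the first two. Numerically the sums are `0.009787` (`tab1`), `0.046066` (`tab2`), and `LL 1001 = 1.76393`
(`tab3`). Suggested: integers scaled by `10^9` (rounded up; the running product `LL` too), computed by a structurally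
recursive function on the list of the 85 primes with their `(s, t)`, `decide +kernel`; the orders by
`orderOf_eq_of_pow_and_pow_div_prime` or a general lemma (`x^s = 1`, `x^e ≠ 1` for `0 < e < s`).
-/

namespace H2S

open Finset

/-- product over the primes `7 < p < q`, `p = 3 mod 4` -/
noncomputable def LL (q : ℕ) : ℝ :=
  ∏ p ∈ (range q).filter (fun p => p.Prime ∧ p % 4 = 3 ∧ 7 < p), (1 + 1 / ((p : ℝ) - 2))

/-- the primes `q = 3 mod 4`, `11 ≤ q ≤ 1000`, with the orders of 9 and 25 -/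
private def tabT : List (ℕ × ℕ × ℕ) := [
  (11, 5, 5), (19, 9, 9), (23, 11, 11), (31, 15, 3), (43, 21, 21), (47, 23, 23), (59, 29, 29), (67, 11, 11), (71,
  35, 5), (79, 39, 39), (83, 41, 41), (103, 17, 51), (107, 53, 53), (127, 63, 21), (131, 65, 65), (139, 69, 69),
  (151, 25, 75), (163, 81, 27), (167, 83, 83), (179, 89, 89), (191, 95, 19), (199, 99, 33), (211, 105, 35), (223,
  111, 111), (227, 113, 113), (239, 119, 119), (251, 125, 25), (263, 131, 131), (271, 15, 27), (283, 141, 141),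
  (307, 17, 153), (311, 155, 155), (331, 165, 165), (347, 173, 173), (359, 179, 179), (367, 61, 61), (379, 189,
  21), (383, 191, 191), (419, 209, 209), (431, 43, 215), (439, 73, 219), (443, 221, 221), (463, 231, 231), (467,
  233, 233), (479, 239, 239), (487, 243, 27), (491, 49, 245), (499, 83, 249), (503, 251, 251), (523, 29, 261),
  (547, 7, 273), (563, 281, 281), (571, 285, 285), (587, 293, 293), (599, 299, 299), (607, 303, 303), (619, 103,
  309), (631, 315, 35), (643, 107, 107), (647, 323, 323), (659, 329, 329), (683, 31, 341), (691, 345, 115), (719,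
  359, 359), (727, 121, 363), (739, 369, 123), (743, 371, 371), (751, 375, 375), (787, 131, 393), (811, 405, 405),
  (823, 411, 137), (827, 413, 59), (839, 419, 419), (859, 429, 429), (863, 431, 431), (883, 63, 63), (887, 443,
  443), (907, 453, 453), (911, 455, 455), (919, 153, 459), (947, 473, 473), (967, 161, 483), (971, 485, 485),
  (983, 491, 491), (991, 165, 495)]

private def tabF : Finset ℕ := (tabT.map Prod.fst).toFinset

private def sF (q : ℕ) : ℕ := ((tabT.find? (fun x => x.1 == q)).getD (0, 0, 0)).2.1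

private def tF (q : ℕ) : ℕ := ((tabT.find? (fun x => x.1 == q)).getD (0, 0, 0)).2.2

private def ordChk (g q s : ℕ) : Bool :=
  decide (0 < s) && (decide (g ^ s % q = 1 % q) && (List.range s).all (fun e => e == 0 || !(g ^ e % q == 1 % q)))

private def omQ (t : ℕ) : ℚ := if 9 ∣ t then 9 / (2 * t) else if 3 ∣ t then 3 / t else 1 / t

private def PfQ (q : ℕ) : ℚ :=
  min (1 / (sF q : ℚ))
    (min (1 / (q : ℚ) + q * omQ (tF q) / (sF q : ℚ) ^ 2)
      (if 2 * sF q + 1 = q then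
        ((sF q : ℚ) - 1) / (2 * (sF q : ℚ) ^ 2) + omQ (tF q) * ((sF q : ℚ) + 1) / (2 * (sF q : ℚ) ^ 2)
        else 1))

private def LLQ (q : ℕ) : ℚ := ∏ p ∈ tabF.filter (fun p => p < q), (1 + 1 / ((p : ℚ) - 2))

private theorem ord_of_chk {g q s : ℕ} (h : ordChk g q s = true) :
    orderOf ((g : ℕ) : ZMod q) = s := by
  unfold ordChk at h
  rw [Bool.and_eq_true, Bool.and_eq_true, decide_eq_true_iff, decide_eq_true_iff, List.all_eq_true] at h
  obtain ⟨h0, h1, h2⟩ := h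
  rw [orderOf_eq_iff h0]
  constructor
  · have h3 : ((g ^ s : ℕ) : ZMod q) = ((1 : ℕ) : ZMod q) := (ZMod.natCast_eq_natCast_iff' _ _ _).2 h1
    push_cast at h3
    exact h3
  · intro m hm hm0 he
    have h3 : ((g ^ m : ℕ) : ZMod q) = ((1 : ℕ) : ZMod q) := by
      push_cast
      exact he
    have h4 := (ZMod.natCast_eq_natCast_iff' _ _ _).1 h3
    have h5 := h2 m (List.mem_range.2 hm)
    rw [h4] at h5
    simp at h5
    omega

private theorem tab_mem : ∀ q < 1001, q % 4 = 3 → 7 < q →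
    (∃ d ∈ [2, 3, 5, 7, 11, 13, 17, 19, 23, 29, 31], q % d = 0 ∧ q ≠ d) ∨ q ∈ tabF := by
  decide +kernel

private theorem tab_ord : ∀ q ∈ tabF, ordChk 9 q (sF q) = true ∧ ordChk 25 q (tF q) = true := by
  decide +kernel

private theorem tab_nn : ∀ q ∈ tabF, 0 ≤ PfQ q ∧ 11 ≤ q := by
  decide +kernel

private theorem q1 : ∑ q ∈ tabF, max 0 (LLQ q * PfQ q / ((q : ℚ) - 2) - 1 / ((q : ℚ) - 1) ^ 2) ≤ 99 / 10000 := by
  decide +kernel

private theorem q2 :
    ∑ q ∈ tabF, max 0 (9 / 4 * LLQ q * PfQ q / ((q : ℚ) - 2) - 1 / ((q : ℚ) - 1) ^ 2) ≤ 463 / 10000 := by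
  decide +kernel

private theorem q3 : LLQ 1001 ≤ 1765 / 1000 := by
  decide +kernel

private theorem sub_tab : (range 1001).filter (fun q => q.Prime ∧ q % 4 = 3 ∧ 7 < q) ⊆ tabF := by
  intro q hq
  rw [mem_filter, mem_range] at hq
  obtain ⟨h1, hp, h4, h7⟩ := hq
  rcases tab_mem q h1 h4 h7 with ⟨d, hd, h0, hne⟩ | h
  · exfalso
    have hd' : d ∣ q := Nat.dvd_of_mod_eq_zero h0
    rcases (Nat.dvd_prime hp).1 hd' with h | h
    · subst h
      simp at hd
    · exact hne h.symm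
  · exact h

private theorem omQ_cast (t : ℕ) : ((omQ t : ℚ) : ℝ) = om t := by
  unfold omQ om
  split_ifs <;> push_cast <;> rfl

private theorem Pf_eq {q : ℕ} (hq : q ∈ tabF) : Pf q = ((PfQ q : ℚ) : ℝ) := by
  obtain ⟨h1, h2⟩ := tab_ord q hq
  have h3 := ord_of_chk h1
  have h4 := ord_of_chk h2
  rw [Nat.cast_ofNat] at h3 h4
  unfold Pf PfQ
  rw [h3, h4]
  split_ifs with h
  · push_cast [omQ_cast]
    rfl
  · push_cast [omQ_cast]
    rfl

private theorem LL_leQ {q : ℕ} (hq : q ≤ 1001) : LL q ≤ ((LLQ q : ℚ) : ℝ) := by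
  unfold LL LLQ
  rw [Rat.cast_prod]
  have hsub : (range q).filter (fun p => p.Prime ∧ p % 4 = 3 ∧ 7 < p) ⊆ tabF.filter (fun p => p < q) := by
    intro p hp
    rw [mem_filter, mem_range] at hp
    rw [mem_filter]
    refine ⟨sub_tab ?_, hp.1⟩
    rw [mem_filter, mem_range]
    exact ⟨by omega, hp.2⟩
  have h1 : ∀ p ∈ tabF.filter (fun p => p < q), (1 : ℝ) ≤ 1 + 1 / ((p : ℝ) - 2) := by
    intro p hp
    have h2 := (tab_nn p (mem_filter.1 hp).1).2
    have h3 : (11 : ℝ) ≤ p := by exact_mod_cast h2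
    have h4 : (0 : ℝ) ≤ 1 / ((p : ℝ) - 2) := by
      apply div_nonneg zero_le_one
      linarith
    linarith
  calc ∏ p ∈ (range q).filter (fun p => p.Prime ∧ p % 4 = 3 ∧ 7 < p), (1 + 1 / ((p : ℝ) - 2))
      ≤ ∏ p ∈ tabF.filter (fun p => p < q), (1 + 1 / ((p : ℝ) - 2)) := by
        rw [← prod_sdiff hsub]
        apply le_mul_of_one_le_left
        · apply prod_nonneg
          intro p hp
          exact zero_le_one.trans (h1 p (hsub hp))
        · calc (1 : ℝ) = ∏ p ∈ (tabF.filter (fun p => p < q)) \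
                ((range q).filter (fun p => p.Prime ∧ p % 4 = 3 ∧ 7 < p)), (1 : ℝ) := by simp
            _ ≤ _ := prod_le_prod (fun _ _ => zero_le_one) (fun p hp => h1 p (Finset.mem_sdiff.1 hp).1)
    _ = ∏ p ∈ tabF.filter (fun p => p < q), (((1 + 1 / ((p : ℚ) - 2) : ℚ)) : ℝ) := by
        apply prod_congr rfl
        intro p _
        push_cast
        rfl

private theorem term_le {q : ℕ} (hq : q ∈ (range 1001).filter (fun q => q.Prime ∧ q % 4 = 3 ∧ 7 < q)) {c : ℝ}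
    (hc : 0 ≤ c) :
    max 0 (c * LL q * Pf q / ((q : ℝ) - 2) - 1 / ((q : ℝ) - 1) ^ 2) ≤
      max 0 (c * ((LLQ q : ℚ) : ℝ) * ((PfQ q : ℚ) : ℝ) / ((q : ℝ) - 2) - 1 / ((q : ℝ) - 1) ^ 2) := by
  have hm := sub_tab hq
  have h1 := LL_leQ (q := q) (by
    have := mem_range.1 (mem_filter.1 hq).1
    omega)
  obtain ⟨h2, h3⟩ := tab_nn q hm
  have h4 : (0 : ℝ) ≤ ((PfQ q : ℚ) : ℝ) := by exact_mod_cast h2
  have h5 : (11 : ℝ) ≤ q := by exact_mod_cast h3
  rw [Pf_eq hm]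
  apply max_le_max le_rfl
  apply sub_le_sub_right
  apply div_le_div_of_nonneg_right _ (by linarith)
  apply mul_le_mul_of_nonneg_right _ h4
  exact mul_le_mul_of_nonneg_left h1 hc

theorem tab1 : ∑ q ∈ (range 1001).filter (fun q => q.Prime ∧ q % 4 = 3 ∧ 7 < q),
    max 0 (LL q * Pf q / ((q : ℝ) - 2) - 1 / ((q : ℝ) - 1) ^ 2) ≤ 0.0099 := by
  calc ∑ q ∈ (range 1001).filter (fun q => q.Prime ∧ q % 4 = 3 ∧ 7 < q),
        max 0 (LL q * Pf q / ((q : ℝ) - 2) - 1 / ((q : ℝ) - 1) ^ 2)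
      ≤ ∑ q ∈ (range 1001).filter (fun q => q.Prime ∧ q % 4 = 3 ∧ 7 < q),
        max 0 (((LLQ q : ℚ) : ℝ) * ((PfQ q : ℚ) : ℝ) / ((q : ℝ) - 2) - 1 / ((q : ℝ) - 1) ^ 2) := by
        apply sum_le_sum
        intro q hq
        have := term_le hq zero_le_one
        rwa [one_mul, one_mul] at this
    _ ≤ ∑ q ∈ tabF, max 0 (((LLQ q : ℚ) : ℝ) * ((PfQ q : ℚ) : ℝ) / ((q : ℝ) - 2) - 1 / ((q : ℝ) - 1) ^ 2) :=
        sum_le_sum_of_subset_of_nonneg sub_tab (fun q _ _ => le_max_left _ _)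
    _ = ((∑ q ∈ tabF, max 0 (LLQ q * PfQ q / ((q : ℚ) - 2) - 1 / ((q : ℚ) - 1) ^ 2) : ℚ) : ℝ) := by
        push_cast
        rfl
    _ ≤ (((99 / 10000 : ℚ)) : ℝ) := by exact_mod_cast q1
    _ = 0.0099 := by norm_num

theorem tab2 : ∑ q ∈ (range 1001).filter (fun q => q.Prime ∧ q % 4 = 3 ∧ 7 < q),
    max 0 (9 / 4 * LL q * Pf q / ((q : ℝ) - 2) - 1 / ((q : ℝ) - 1) ^ 2) ≤ 0.0463 := by
  calc ∑ q ∈ (range 1001).filter (fun q => q.Prime ∧ q % 4 = 3 ∧ 7 < q),
        max 0 (9 / 4 * LL q * Pf q / ((q : ℝ) - 2) - 1 / ((q : ℝ) - 1) ^ 2)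
      ≤ ∑ q ∈ (range 1001).filter (fun q => q.Prime ∧ q % 4 = 3 ∧ 7 < q),
        max 0 (9 / 4 * ((LLQ q : ℚ) : ℝ) * ((PfQ q : ℚ) : ℝ) / ((q : ℝ) - 2) - 1 / ((q : ℝ) - 1) ^ 2) := by
        apply sum_le_sum
        intro q hq
        exact term_le hq (by norm_num)
    _ ≤ ∑ q ∈ tabF,
        max 0 (9 / 4 * ((LLQ q : ℚ) : ℝ) * ((PfQ q : ℚ) : ℝ) / ((q : ℝ) - 2) - 1 / ((q : ℝ) - 1) ^ 2) :=
        sum_le_sum_of_subset_of_nonneg sub_tab (fun q _ _ => le_max_left _ _)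
    _ = ((∑ q ∈ tabF, max 0 (9 / 4 * LLQ q * PfQ q / ((q : ℚ) - 2) - 1 / ((q : ℚ) - 1) ^ 2) : ℚ) : ℝ) := by
        push_cast
        rfl
    _ ≤ (((463 / 10000 : ℚ)) : ℝ) := by exact_mod_cast q2
    _ = 0.0463 := by norm_num

theorem tab3 : LL 1001 ≤ 1.765 := by
  refine (LL_leQ le_rfl).trans ?_
  have h : ((LLQ 1001 : ℚ) : ℝ) ≤ (((1765 / 1000 : ℚ)) : ℝ) := by exact_mod_cast q3
  refine h.trans ?_
  norm_num

end H2S
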