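import Pool.Agent.H2S.OrdSum
import Pool.Agent.H2S.Smooth

/-!
# H2S/Tail: the Romanoff tail along the exponents `E = (primorial ℓ)^J`

For `q ∈ F` put `s = orderOf (g : ZMod q)`; `orderOf (g^E) = s / gcd(s, E)` (`orderOf_pow`), `s ∤ E` as `g^E ≠ 1`.
Let `C` be the constant of `ord_sum g`.
* If `gpf s > ℓ`: `p = gpf s` does not divide `E`, so `p ∣ s / gcd(s, E)` and `orderOf (g^E) ≥ gpf s`. Grouping the
  `q` by `s` (`Finset.sum_fiberwise` or `sum_comp`-like), these `q` contribute at most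
  `∑_s C (1 + log s)³/(s gpf s)` over a finite set of `s` with `gpf s > ℓ ≥ ℓ0`, which is `≤ τ/2` by `smooth_tail`
  (for `τ/(2C)`).
* If `gpf s ≤ ℓ`: as `s ∤ E = ∏_{p ≤ ℓ} p^J`, some prime `p ≤ ℓ` has `p^(J+1) ∣ s`, so `s ≥ 2^(J+1)`. With
  `orderOf ≥ 1` these `q` contribute at most `∑_s C (1 + log s)³/s` over a finite set of `s ≥ 2^(J+1)` with
  `gpf s ≤ ℓ`: `≤ τ/2` by `smooth_fixed` if `J ≥ J0(ℓ)` (`s ≥ 1` since `g` is a unit mod `q`).
-/

namespace H2S

open Finset

private theorem wt_nonnegMN (q : ℕ) : 0 ≤ wt q := by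
  unfold wt
  positivity

private theorem order_posMN {g q : ℕ} (hq : q.Prime) (hg : ¬ q ∣ g) :
    0 < orderOf (g : ZMod q) := by
  haveI := Fact.mk hq
  rw [orderOf_pos_iff, isOfFinOrder_iff_pow_eq_one]
  refine ⟨q - 1, ?_, ZMod.pow_card_sub_one_eq_one ?_⟩
  · have := hq.two_le
    omega
  · intro h
    exact hg ((ZMod.natCast_eq_zero_iff g q).1 h)

private theorem dvd_primorialMN {p ℓ : ℕ} (hp : p.Prime) : p ∣ primorial ℓ ↔ p ≤ ℓ := by
  unfold primorial
  rw [Prime.dvd_finset_prod_iff hp.prime]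
  constructor
  · rintro ⟨r, hr, hpr⟩
    rw [Finset.mem_filter, Finset.mem_range] at hr
    rw [Nat.prime_dvd_prime_iff_eq hp hr.2] at hpr
    omega
  · intro h
    exact ⟨p, Finset.mem_filter.2 ⟨Finset.mem_range.2 (by omega), hp⟩, dvd_rfl⟩

private theorem gpf_primeMN {s : ℕ} (h : 0 < gpf s) : (gpf s).Prime ∧ gpf s ∣ s := by
  unfold gpf at h ⊢
  have hne : s.primeFactors.Nonempty := by
    by_contra hc
    rw [Finset.not_nonempty_iff_eq_empty] at hc
    rw [hc, Finset.sup_empty] at h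
    exact lt_irrefl _ h
  obtain ⟨p, hp, e⟩ := Finset.exists_mem_eq_sup s.primeFactors hne id
  rw [e]
  exact ⟨Nat.prime_of_mem_primeFactors hp, Nat.dvd_of_mem_primeFactors hp⟩

private theorem order_geMN {g q ℓ J : ℕ} (hq : q.Prime) (hg : ¬ q ∣ g)
    (h : ℓ < gpf (orderOf (g : ZMod q))) :
    gpf (orderOf (g : ZMod q)) ≤ orderOf ((g : ZMod q) ^ ((primorial ℓ) ^ J)) := by
  have hs := order_posMN hq hg
  have hE : (primorial ℓ) ^ J ≠ 0 := pow_ne_zero _ (primorial_pos ℓ).ne'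
  obtain ⟨hp, hps⟩ := gpf_primeMN (by omega : 0 < gpf (orderOf (g : ZMod q)))
  rw [orderOf_pow' _ hE]
  generalize orderOf (g : ZMod q) = s at *
  have hgcd : s.gcd ((primorial ℓ) ^ J) ∣ s := Nat.gcd_dvd_left _ _
  have hpE : ¬ gpf s ∣ s.gcd ((primorial ℓ) ^ J) := by
    intro h1
    have h2 := hp.dvd_of_dvd_pow (h1.trans (Nat.gcd_dvd_right _ _))
    rw [dvd_primorialMN hp] at h2
    omega
  have h3 : gpf s ∣ s / s.gcd ((primorial ℓ) ^ J) := by
    have h4 : s.gcd ((primorial ℓ) ^ J) * (s / s.gcd ((primorial ℓ) ^ J)) = s :=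
      Nat.mul_div_cancel' hgcd
    rw [← h4] at hps
    have := (hp.dvd_mul.1 (by rw [h4]; rw [h4] at hps; exact hps :
      gpf s ∣ s.gcd ((primorial ℓ) ^ J) * (s / s.gcd ((primorial ℓ) ^ J)))).resolve_left hpE
    exact this
  exact Nat.le_of_dvd (Nat.div_pos (Nat.le_of_dvd hs hgcd)
    (Nat.gcd_pos_of_pos_left _ hs)) h3

private theorem order_bigMN {s ℓ J : ℕ} (hs : 0 < s) (hℓ : gpf s ≤ ℓ)
    (hE : ¬ s ∣ (primorial ℓ) ^ J) : 2 ^ (J + 1) ≤ s := by
  have hE0 : (primorial ℓ) ^ J ≠ 0 := pow_ne_zero _ (primorial_pos ℓ).ne'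
  obtain ⟨p, hp, hpJ⟩ : ∃ p : ℕ, p.Prime ∧ J < s.factorization p := by
    by_contra hc
    push Not at hc
    apply hE
    rw [← Nat.factorization_prime_le_iff_dvd hs.ne' hE0]
    intro p hp
    rw [Nat.factorization_pow]
    change s.factorization p ≤ J * (primorial ℓ).factorization p
    by_cases hps : p ∣ s
    · have h1 : p ≤ gpf s := by
        unfold gpf
        exact Finset.le_sup (f := id) (Nat.mem_primeFactors.2 ⟨hp, hps, hs.ne'⟩)
      have h2 : p ∣ primorial ℓ := (dvd_primorialMN hp).2 (h1.trans hℓ)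
      have h3 : 1 ≤ (primorial ℓ).factorization p :=
        (hp.dvd_iff_one_le_factorization (primorial_pos ℓ).ne').1 h2
      calc s.factorization p ≤ J * 1 := by rw [mul_one]; exact hc p hp
        _ ≤ J * (primorial ℓ).factorization p := Nat.mul_le_mul_left J h3
    · rw [Nat.factorization_eq_zero_of_not_dvd hps]
      exact Nat.zero_le _
  have h1 : p ^ (J + 1) ∣ s := (hp.pow_dvd_iff_le_factorization hs.ne').2 hpJ
  exact (Nat.pow_le_pow_left hp.two_le _).trans (Nat.le_of_dvd hs h1)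

theorem tail (g : ℕ) (hg : 2 ≤ g) {τ : ℝ} (hτ : 0 < τ) : ∃ ℓ0 : ℕ, ∀ ℓ : ℕ, ℓ0 ≤ ℓ → ∃ J0 : ℕ, ∀ J : ℕ, J0 ≤ J →
    ∀ F : Finset ℕ, (∀ q ∈ F, q.Prime ∧ ¬ q ∣ g ∧ (g : ZMod q) ^ ((primorial ℓ) ^ J) ≠ 1) →
    ∑ q ∈ F, wt q / (orderOf ((g : ZMod q) ^ ((primorial ℓ) ^ J)) : ℝ) ≤ τ := by
  classical
  obtain ⟨C, hC, hord⟩ := ord_sum g hg
  obtain ⟨ℓ0, hℓ0⟩ := smooth_tail (τ := τ / (2 * C)) (by positivity)
  refine ⟨ℓ0, fun ℓ hℓ => ?_⟩
  obtain ⟨S0, hS0⟩ := smooth_fixed ℓ (τ := τ / (2 * C)) (by positivity)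
  refine ⟨S0, fun J hJ F hF => ?_⟩
  rw [← Finset.sum_filter_add_sum_filter_not F (fun q => ℓ < gpf (orderOf (g : ZMod q)))]
  have hhalf : C * (τ / (2 * C)) = τ / 2 := by field_simp
  have h1 : ∑ q ∈ F.filter (fun q => ℓ < gpf (orderOf (g : ZMod q))),
      wt q / (orderOf ((g : ZMod q) ^ ((primorial ℓ) ^ J)) : ℝ) ≤ τ / 2 := by
    have e1 : ∀ q ∈ F.filter (fun q => ℓ < gpf (orderOf (g : ZMod q))),
        wt q / (orderOf ((g : ZMod q) ^ ((primorial ℓ) ^ J)) : ℝ) ≤
          wt q / (gpf (orderOf (g : ZMod q)) : ℝ) := by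
      intro q hq
      rw [Finset.mem_filter] at hq
      obtain ⟨hqF, hql⟩ := hq
      obtain ⟨hqp, hqg, _⟩ := hF q hqF
      apply div_le_div_of_nonneg_left (wt_nonnegMN q)
      · have : 0 < gpf (orderOf (g : ZMod q)) := by omega
        exact_mod_cast this
      · exact_mod_cast order_geMN (J := J) hqp hqg hql
    refine (Finset.sum_le_sum e1).trans ?_
    rw [← Finset.sum_fiberwise_of_maps_to
      (s := F.filter (fun q => ℓ < gpf (orderOf (g : ZMod q))))
      (t := (F.filter (fun q => ℓ < gpf (orderOf (g : ZMod q)))).image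
        (fun q => orderOf (g : ZMod q))) (g := fun q => orderOf (g : ZMod q))
      (fun q hq => Finset.mem_image_of_mem _ hq)]
    have e2 : ∀ s ∈ (F.filter (fun q => ℓ < gpf (orderOf (g : ZMod q)))).image
        (fun q => orderOf (g : ZMod q)),
        ∑ q ∈ (F.filter (fun q => ℓ < gpf (orderOf (g : ZMod q)))).filter
          (fun q => orderOf (g : ZMod q) = s), wt q / (gpf (orderOf (g : ZMod q)) : ℝ) ≤
          C * ((1 + Real.log s) ^ 3 / (s * gpf s)) := by
      intro s hs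
      rw [Finset.mem_image] at hs
      obtain ⟨q0, hq0, hq0s⟩ := hs
      rw [Finset.mem_filter] at hq0
      have hs1 : 1 ≤ s := by
        rw [← hq0s]
        exact order_posMN (hF q0 hq0.1).1 (hF q0 hq0.1).2.1
      have hgs : 0 < gpf s := by
        rw [← hq0s]
        omega
      have hgs' : (0 : ℝ) < gpf s := by exact_mod_cast hgs
      have e3 : ∑ q ∈ (F.filter (fun q => ℓ < gpf (orderOf (g : ZMod q)))).filter
          (fun q => orderOf (g : ZMod q) = s), wt q / (gpf (orderOf (g : ZMod q)) : ℝ) =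
          (∑ q ∈ (F.filter (fun q => ℓ < gpf (orderOf (g : ZMod q)))).filter
          (fun q => orderOf (g : ZMod q) = s), wt q) / (gpf s : ℝ) := by
        rw [Finset.sum_div]
        refine Finset.sum_congr rfl fun q hq => ?_
        rw [(Finset.mem_filter.1 hq).2]
      rw [e3]
      have e4 := hord s hs1 ((F.filter (fun q => ℓ < gpf (orderOf (g : ZMod q)))).filter
          (fun q => orderOf (g : ZMod q) = s)) (fun q hq => by
            rw [Finset.mem_filter, Finset.mem_filter] at hq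
            exact ⟨(hF q hq.1.1).1, (hF q hq.1.1).2.1, hq.2⟩)
      calc _ ≤ C * (1 + Real.log s) ^ 3 / s / (gpf s : ℝ) :=
            div_le_div_of_nonneg_right e4 hgs'.le
        _ = C * ((1 + Real.log s) ^ 3 / (s * gpf s)) := by
            rw [div_div, mul_div_assoc]
    refine (Finset.sum_le_sum e2).trans ?_
    rw [← Finset.mul_sum, ← hhalf]
    apply mul_le_mul_of_nonneg_left _ hC.le
    apply hℓ0
    intro s hs
    rw [Finset.mem_image] at hs
    obtain ⟨q0, hq0, hq0s⟩ := hs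
    rw [Finset.mem_filter] at hq0
    rw [← hq0s]
    omega
  have h2 : ∑ q ∈ F.filter (fun q => ¬ ℓ < gpf (orderOf (g : ZMod q))),
      wt q / (orderOf ((g : ZMod q) ^ ((primorial ℓ) ^ J)) : ℝ) ≤ τ / 2 := by
    have hE : (primorial ℓ) ^ J ≠ 0 := pow_ne_zero _ (primorial_pos ℓ).ne'
    have e1 : ∀ q ∈ F.filter (fun q => ¬ ℓ < gpf (orderOf (g : ZMod q))),
        wt q / (orderOf ((g : ZMod q) ^ ((primorial ℓ) ^ J)) : ℝ) ≤ wt q := by
      intro q hq
      rw [Finset.mem_filter] at hq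
      obtain ⟨hqF, hql⟩ := hq
      obtain ⟨hqp, hqg, _⟩ := hF q hqF
      have hs := order_posMN hqp hqg
      have hpos : 0 < orderOf ((g : ZMod q) ^ ((primorial ℓ) ^ J)) := by
        rw [orderOf_pow' _ hE]
        exact Nat.div_pos (Nat.le_of_dvd hs (Nat.gcd_dvd_left _ _))
          (Nat.gcd_pos_of_pos_left _ hs)
      have hpos' : (1 : ℝ) ≤ orderOf ((g : ZMod q) ^ ((primorial ℓ) ^ J)) := by
        exact_mod_cast hpos
      exact div_le_self (wt_nonnegMN q) hpos'
    refine (Finset.sum_le_sum e1).trans ?_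
    rw [← Finset.sum_fiberwise_of_maps_to
      (s := F.filter (fun q => ¬ ℓ < gpf (orderOf (g : ZMod q))))
      (t := (F.filter (fun q => ¬ ℓ < gpf (orderOf (g : ZMod q)))).image
        (fun q => orderOf (g : ZMod q))) (g := fun q => orderOf (g : ZMod q))
      (fun q hq => Finset.mem_image_of_mem _ hq)]
    have e2 : ∀ s ∈ (F.filter (fun q => ¬ ℓ < gpf (orderOf (g : ZMod q)))).image
        (fun q => orderOf (g : ZMod q)),
        ∑ q ∈ (F.filter (fun q => ¬ ℓ < gpf (orderOf (g : ZMod q)))).filter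
          (fun q => orderOf (g : ZMod q) = s), wt q ≤
          C * ((1 + Real.log s) ^ 3 / s) := by
      intro s hs
      rw [Finset.mem_image] at hs
      obtain ⟨q0, hq0, hq0s⟩ := hs
      rw [Finset.mem_filter] at hq0
      have hs1 : 1 ≤ s := by
        rw [← hq0s]
        exact order_posMN (hF q0 hq0.1).1 (hF q0 hq0.1).2.1
      have e4 := hord s hs1 ((F.filter (fun q => ¬ ℓ < gpf (orderOf (g : ZMod q)))).filter
          (fun q => orderOf (g : ZMod q) = s)) (fun q hq => by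
            rw [Finset.mem_filter, Finset.mem_filter] at hq
            exact ⟨(hF q hq.1.1).1, (hF q hq.1.1).2.1, hq.2⟩)
      rw [mul_div_assoc] at e4
      exact e4
    refine (Finset.sum_le_sum e2).trans ?_
    rw [← Finset.mul_sum, ← hhalf]
    apply mul_le_mul_of_nonneg_left _ hC.le
    apply hS0
    intro s hs
    rw [Finset.mem_image] at hs
    obtain ⟨q0, hq0, hq0s⟩ := hs
    rw [Finset.mem_filter] at hq0
    obtain ⟨hqp, hqg, hqE⟩ := hF q0 hq0.1
    have hs1 : 0 < s := by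
      rw [← hq0s]
      exact order_posMN hqp hqg
    have hgl : gpf s ≤ ℓ := by
      rw [← hq0s]
      omega
    refine ⟨?_, hs1, hgl⟩
    have h3 : 2 ^ (J + 1) ≤ s := by
      apply order_bigMN hs1 hgl
      intro h4
      apply hqE
      rw [← hq0s] at h4
      exact orderOf_dvd_iff_pow_eq_one.1 h4
    have h4 : J + 1 < 2 ^ (J + 1) := Nat.lt_two_pow_self
    omega
  linarith

end H2S
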