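import Pool.Agent.H2S.KL
import Pool.Agent.H2S.Chk

/-!
# H2S/TailS: the primes above 1000

Let `q ∈ F`, `s = orderOf (9 : ZMod q)`, `t = orderOf (25 : ZMod q)` (both divide `(q-1)/2`, which is odd: both are odd, and
`≥ 3`). `LL q ≤ 0.352 log q` (`LL_le`), `1/(q-2) ≤ 1.0021/q`.
* (i) `s ≤ 1000`: `Pf q ≤ 1/s`: the term is at most `0.352 · 1.0021 · log q/(q s)`. The `q ≤ 500000` contribute at most
  `0.3528 · 0.005` (`chk9`). For `q > 500000`: for each odd `e`, `3 ≤ e ≤ 999` (499 values), the `q ∈ F` with `s = e` satisfy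
  `∏ q ∣ 9^e - 1`, so `∑ log q ≤ e log 9`, and `∑ log q/(q e) ≤ log 9/500000`: in total `0.3528 · 499 · 2.1973/500000`.
  Together at most `0.3528 · 0.0072 ≤ 0.00255`.
* (ii) `s > 1000`, `t ≤ 1000`: `Pf q ≤ 1/s ≤ 1/1000`: at most `0.3528/1000 · log q/q`. `q ≤ 500000`: `0.84` (`chk25`);
  `q > 500000`: `∑_{e odd ≤ 999} e log 25/500000 = 250000 · 3.2189/500000 ≤ 1.61`. Together `≤ 0.3528 · 0.00245 ≤ 0.00087`.
* (iii) `s, t > 1000`: `Pf q ≤ 1/q + q om t/s² ≤ 1/q + 9 q/(2 s² t)` (`om_le`), `m = min s t`, `s² t ≥ m³`: the term is at most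
  `0.352 log q/(q (q-2)) + 4.5 · 0.3528 · log q/m³`. First part: sum over all integers `q = 3 mod 4`, `q > 1000`:
  at most `0.352 · (log 999 + 1)/(4 · 997) · ... ≤ 0.00071` (compare with `∫ log x/(x-2)²`, or group dyadically). Second part:
  `∑_{q : s = m} log q ≤ m log 9`, `∑_{q : t = m} log q ≤ m log 25`, so at most
  `4.5 · 0.3528 · (log 9 + log 25) ∑_{m odd ≥ 1001} 1/m² ≤ 1.5876 · 5.4162 · (1/2000) ≤ 0.0043`
  (`1/m² ≤ (1/2)(1/(m-1) - 1/(m+1))`).
Total `0.00255 + 0.00087 + 0.00071 + 0.0043 = 0.00843 ≤ 0.0087`.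
-/

namespace H2S

open Finset

/-- the order of a small square -/
private theorem ordTS {q : ℕ} (hq : q.Prime) (h4 : q % 4 = 3) (h : 1000 < q) {g b : ℕ}
    (hgb : g = b ^ 2) (hg2 : 2 ≤ g) (hg : g < 1000) :
    orderOf (g : ZMod q) % 2 = 1 ∧ 3 ≤ orderOf (g : ZMod q) := by
  have := Fact.mk hq
  have hb0 : 0 < b := by
    rcases Nat.eq_zero_or_pos b with h1 | h1
    · rw [h1] at hgb
      omega
    · exact h1
  have hbg : b ≤ g := by
    rw [hgb]
    nlinarith
  have hb : (b : ZMod q) ≠ 0 := by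
    intro h1
    have := Nat.le_of_dvd hb0 ((ZMod.natCast_eq_zero_iff b q).1 h1)
    omega
  have hd : orderOf (g : ZMod q) ∣ (q - 1) / 2 := by
    apply orderOf_dvd_of_pow_eq_one
    rw [hgb]
    push_cast
    rw [← pow_mul, Nat.mul_div_cancel' (by omega : 2 ∣ q - 1)]
    exact ZMod.pow_card_sub_one_eq_one hb
  have hodd : Odd (orderOf (g : ZMod q)) :=
    Odd.of_dvd_nat (Nat.odd_iff.2 (by omega)) hd
  have hne : orderOf (g : ZMod q) ≠ 1 := by
    intro h1
    rw [orderOf_eq_one_iff] at h1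
    have h2 : ((g - 1 : ℕ) : ZMod q) = 0 := by
      rw [Nat.cast_sub (by omega), h1]
      simp
    have := Nat.le_of_dvd (by omega) ((ZMod.natCast_eq_zero_iff _ q).1 h2)
    omega
  have h1 := Nat.odd_iff.1 hodd
  exact ⟨h1, by omega⟩

/-- the primes with a given order -/
private theorem sum_logTS {g e : ℕ} (hg : 2 ≤ g) (F : Finset ℕ)
    (hF : ∀ q ∈ F, q.Prime ∧ orderOf (g : ZMod q) = e) (he : 1 ≤ e) :
    ∑ q ∈ F, Real.log q ≤ e * Real.log g := by
  have h1 : 1 ≤ g ^ e := Nat.one_le_pow _ _ (by omega)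
  have h2 : 2 ≤ g ^ e := by
    calc 2 ≤ g := hg
      _ = g ^ 1 := (pow_one g).symm
      _ ≤ g ^ e := Nat.pow_le_pow_right (by omega) he
  have hd : ∏ q ∈ F, q ∣ g ^ e - 1 := by
    apply Finset.prod_primes_dvd
    · intro q hq
      exact (hF q hq).1.prime
    · intro q hq
      rw [← ZMod.natCast_eq_zero_iff, Nat.cast_sub h1]
      push_cast
      rw [← (hF q hq).2, pow_orderOf_eq_one, sub_self]
  have hle : ∏ q ∈ F, q ≤ g ^ e := (Nat.le_of_dvd (by omega) hd).trans (Nat.sub_le _ _)
  have hle' : ∏ q ∈ F, (q : ℝ) ≤ (g : ℝ) ^ e := by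
    have h3 := (Nat.cast_le (α := ℝ)).2 hle
    push_cast at h3
    exact h3
  have hpos : ∀ q ∈ F, (0 : ℝ) < q := fun q hq => by exact_mod_cast (hF q hq).1.pos
  rw [← Real.log_pow, ← Real.log_prod fun q hq => (hpos q hq).ne']
  exact Real.log_le_log (Finset.prod_pos hpos) hle'

/-- grouping by the order -/
private theorem groupTS {g : ℕ} (hg : 2 ≤ g) (F S : Finset ℕ) (h : ℕ → ℝ) (hh : ∀ e, 0 ≤ h e)
    (hS : ∀ e ∈ S, 1 ≤ e) (hF : ∀ q ∈ F, q.Prime ∧ orderOf (g : ZMod q) ∈ S) :
    ∑ q ∈ F, Real.log q * h (orderOf (g : ZMod q)) ≤ Real.log g * ∑ e ∈ S, e * h e := by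
  rw [← Finset.sum_fiberwise_of_maps_to (g := fun q => orderOf (g : ZMod q))
    (fun q hq => (hF q hq).2), Finset.mul_sum]
  apply Finset.sum_le_sum
  intro e he
  have h1 : ∑ q ∈ F.filter (fun q => orderOf (g : ZMod q) = e),
      Real.log q * h (orderOf (g : ZMod q)) =
      (∑ q ∈ F.filter (fun q => orderOf (g : ZMod q) = e), Real.log q) * h e := by
    rw [Finset.sum_mul]
    refine Finset.sum_congr rfl fun q hq => ?_
    rw [(Finset.mem_filter.1 hq).2]
  rw [h1]
  have h2 := sum_logTS (e := e) hg (F.filter (fun q => orderOf (g : ZMod q) = e))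
    (fun q hq => by
      rw [Finset.mem_filter] at hq
      exact ⟨(hF q hq.1).1, hq.2⟩) (hS e he)
  calc _ ≤ e * Real.log g * h e := mul_le_mul_of_nonneg_right h2 (hh e)
    _ = _ := by ring

private theorem LL_nonnegTS (q : ℕ) : 0 ≤ LL q := by
  unfold LL
  refine Finset.prod_nonneg fun p hp => ?_
  rw [Finset.mem_filter] at hp
  have h1 : (7 : ℝ) < p := by exact_mod_cast hp.2.2.2
  have : 0 < (p : ℝ) - 2 := by linarith
  positivity

/-- the bound of one term -/
private theorem termTS {q : ℕ} (h : 1000 < q) {P : ℝ} (hP : 0 ≤ P) (hPf : Pf q ≤ P) :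
    LL q * Pf q / ((q : ℝ) - 2) ≤ 0.3528 * (Real.log q / q) * P := by
  have hq : (1000 : ℝ) < q := by exact_mod_cast h
  have h1 := LL_le q h
  have h0 := LL_nonnegTS q
  have hlog : 0 ≤ Real.log q := Real.log_nonneg (by linarith)
  have h2 : LL q * Pf q ≤ 0.352 * Real.log q * P :=
    (mul_le_mul_of_nonneg_left hPf h0).trans (mul_le_mul_of_nonneg_right h1 hP)
  have h3 : (0 : ℝ) < (q : ℝ) - 2 := by linarith
  calc LL q * Pf q / ((q : ℝ) - 2) ≤ 0.352 * Real.log q * P / ((q : ℝ) - 2) :=
        div_le_div_of_nonneg_right h2 h3.le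
    _ ≤ 0.3528 * (Real.log q / q) * P := by
        rw [div_le_iff₀ h3]
        have h4 : 0.352 * Real.log q * P ≤
            0.3528 * (Real.log q / q) * P * ((q : ℝ) - 2) := by
          have h5 : (0.352 : ℝ) ≤ 0.3528 / q * ((q : ℝ) - 2) := by
            rw [div_mul_eq_mul_div, le_div_iff₀ (by linarith)]
            norm_num
            linarith
          have h6 := mul_le_mul_of_nonneg_right h5 (mul_nonneg hlog hP)
          calc 0.352 * Real.log q * P = 0.352 * (Real.log q * P) := by ring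
            _ ≤ 0.3528 / q * ((q : ℝ) - 2) * (Real.log q * P) := h6
            _ = _ := by ring
        exact h4

private theorem log9TS : Real.log 9 ≤ 2.1973 := by
  have h2 := Real.log_two_lt_d9
  have h1 : Real.log (531441 / 524288) ≤ 531441 / 524288 - 1 :=
    Real.log_le_sub_one_of_pos (by norm_num)
  have h3 : Real.log 531441 = 6 * Real.log 9 := by
    rw [show (531441 : ℝ) = 9 ^ 6 by norm_num, Real.log_pow]
    norm_num
  have h4 : Real.log 524288 = 19 * Real.log 2 := by
    rw [show (524288 : ℝ) = 2 ^ 19 by norm_num, Real.log_pow]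
    norm_num
  rw [Real.log_div (by norm_num) (by norm_num), h3, h4] at h1
  norm_num at h1 h2 ⊢
  linarith

private theorem log5TS : Real.log 5 ≤ 1.60954 := by
  have h2 := Real.log_two_lt_d9
  have h1 : Real.log (125 / 128) ≤ 125 / 128 - 1 :=
    Real.log_le_sub_one_of_pos (by norm_num)
  have h3 : Real.log 125 = 3 * Real.log 5 := by
    rw [show (125 : ℝ) = 5 ^ 3 by norm_num, Real.log_pow]
    norm_num
  have h4 : Real.log 128 = 7 * Real.log 2 := by
    rw [show (128 : ℝ) = 2 ^ 7 by norm_num, Real.log_pow]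
    norm_num
  rw [Real.log_div (by norm_num) (by norm_num), h3, h4] at h1
  norm_num at h1 h2 ⊢
  linarith

private theorem log25TS : Real.log 25 ≤ 3.2191 := by
  have h1 := log5TS
  have h3 : Real.log 25 = 2 * Real.log 5 := by
    rw [show (25 : ℝ) = 5 ^ 2 by norm_num, Real.log_pow]
    norm_num
  rw [h3]
  norm_num at h1 ⊢
  linarith

private theorem log999TS : Real.log 999 ≤ 6.9085 := by
  have h1 := log5TS
  have h2 := Real.log_two_lt_d9
  have h3 : Real.log 1000 = 3 * Real.log 2 + 3 * Real.log 5 := by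
    rw [show (1000 : ℝ) = 2 ^ 3 * 5 ^ 3 by norm_num, Real.log_mul (by norm_num) (by norm_num),
      Real.log_pow, Real.log_pow]
    norm_num
  have h4 : Real.log 999 ≤ Real.log 1000 := Real.log_le_log (by norm_num) (by norm_num)
  rw [h3] at h4
  norm_num at h1 h2 h4 ⊢
  linarith

/-- small odd numbers -/
private def SoTS : Finset ℕ := (range 1001).filter (fun e => e % 2 = 1 ∧ 3 ≤ e)

private theorem cardSoTS : SoTS.card = 499 := by decide +kernel

private theorem sumSoTS : ∑ e ∈ SoTS, e = 249999 := by decide +kernel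

private theorem inv_sqTS (K : ℕ) :
    ∑ k ∈ range K, 1 / ((1001 : ℝ) + 2 * k) ^ 2 ≤ 1 / 2000 - 1 / (2 * (1000 + 2 * (K : ℝ))) := by
  induction K with
  | zero => norm_num
  | succ K ih =>
    rw [Finset.sum_range_succ]
    have h1 : 1 / ((1001 : ℝ) + 2 * K) ^ 2 ≤
        1 / (2 * (1000 + 2 * (K : ℝ))) - 1 / (2 * (1000 + 2 * ((K : ℝ) + 1))) := by
      have hK : (0 : ℝ) ≤ K := Nat.cast_nonneg K
      rw [div_sub_div _ _ (by positivity) (by positivity), div_le_div_iff₀ (by positivity)
        (by positivity)]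
      nlinarith
    push_cast
    linarith

/-- large odd numbers -/
private theorem group3TS {g : ℕ} (hg : 2 ≤ g) (F : Finset ℕ)
    (hF : ∀ q ∈ F, q.Prime ∧ orderOf (g : ZMod q) % 2 = 1 ∧ 1000 < orderOf (g : ZMod q)) :
    ∑ q ∈ F, Real.log q * (1 / (orderOf (g : ZMod q) : ℝ) ^ 3) ≤ Real.log g * (1 / 2000) := by
  obtain ⟨K, hK⟩ : ∃ K, ∀ q ∈ F, orderOf (g : ZMod q) < K :=
    ⟨F.sup (fun q => orderOf (g : ZMod q)) + 1, fun q hq =>
      Nat.lt_succ_of_le (Finset.le_sup (f := fun q => orderOf (g : ZMod q)) hq)⟩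
  have hinj : Function.Injective (fun k : ℕ => 1001 + 2 * k) := fun a b h => by
    simp only at h
    omega
  have h1 := groupTS hg F ((range K).image (fun k => 1001 + 2 * k))
    (fun e => 1 / (e : ℝ) ^ 3) (fun e => by positivity)
    (fun e he => by
      rw [Finset.mem_image] at he
      obtain ⟨k, -, rfl⟩ := he
      omega)
    (fun q hq => by
      obtain ⟨a, b, c⟩ := hF q hq
      have d := hK q hq
      refine ⟨a, Finset.mem_image.2 ⟨(orderOf (g : ZMod q) - 1001) / 2, ?_, ?_⟩⟩
      · rw [Finset.mem_range]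
        omega
      · omega)
  refine h1.trans (mul_le_mul_of_nonneg_left ?_ (Real.log_nonneg (by exact_mod_cast (by omega : 1 ≤ g))))
  rw [Finset.sum_image (fun a _ b _ h => hinj h)]
  have h2 : ∀ k ∈ range K, ((1001 + 2 * k : ℕ) : ℝ) * (1 / ((1001 + 2 * k : ℕ) : ℝ) ^ 3) =
      1 / ((1001 : ℝ) + 2 * k) ^ 2 := by
    intro k _
    push_cast
    have : (1001 : ℝ) + 2 * k ≠ 0 := by positivity
    field_simp
  rw [Finset.sum_congr rfl h2]
  refine (inv_sqTS K).trans ?_
  have : (0 : ℝ) ≤ 1 / (2 * (1000 + 2 * (K : ℝ))) := by positivity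
  linarith

/-- telescoping for `log q / q ^ 2` -/
private theorem teleTS (x : ℝ) (hx : 999 ≤ x) :
    4 * (Real.log (x + 4) / (x + 4) ^ 2) ≤
      (Real.log x + 1) / x - (Real.log (x + 4) + 1) / (x + 4) := by
  have hx0 : 0 < x := by linarith
  have hy0 : 0 < x + 4 := by linarith
  have h1 : Real.log (x + 4) ≤ Real.log x + 4 / x := by
    have h2 := Real.log_le_sub_one_of_pos (show (0 : ℝ) < (x + 4) / x by positivity)
    rw [Real.log_div hy0.ne' hx0.ne'] at h2
    have h3 : (x + 4) / x - 1 = 4 / x := by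
      field_simp
      ring
    linarith
  have h2 : 2 ≤ Real.log (x + 4) := by
    rw [Real.le_log_iff_exp_le hy0]
    have h3 := Real.exp_one_lt_d9
    have h4 : Real.exp 2 = Real.exp 1 * Real.exp 1 := by
      rw [← Real.exp_add]
      norm_num
    rw [h4]
    have h5 := Real.exp_pos 1
    norm_num at h3
    nlinarith
  set L := Real.log (x + 4) with hL
  have h3 : (L + 1 - 4 / x) / x - (L + 1) / (x + 4) ≤
      (Real.log x + 1) / x - (L + 1) / (x + 4) := by
    have : (L + 1 - 4 / x) / x ≤ (Real.log x + 1) / x :=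
      div_le_div_of_nonneg_right (by linarith) hx0.le
    linarith
  refine le_trans ?_ h3
  have h4 : (L + 1 - 4 / x) / x - (L + 1) / (x + 4) - 4 * (L / (x + 4) ^ 2) =
      16 * (x * L - (x + 4)) / (x ^ 2 * (x + 4) ^ 2) := by
    field_simp
    ring
  have h5 : 0 ≤ 16 * (x * L - (x + 4)) / (x ^ 2 * (x + 4) ^ 2) := by
    apply div_nonneg _ (by positivity)
    nlinarith
  linarith

private theorem tele_sumTS (K : ℕ) :
    ∑ k ∈ range K, 4 * (Real.log ((1003 : ℝ) + 4 * k) / ((1003 : ℝ) + 4 * k) ^ 2) ≤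
      (Real.log 999 + 1) / 999 - (Real.log (999 + 4 * (K : ℝ)) + 1) / (999 + 4 * (K : ℝ)) := by
  induction K with
  | zero => simp
  | succ K ih =>
    rw [Finset.sum_range_succ]
    have h1 := teleTS (999 + 4 * (K : ℝ)) (by
      have : (0 : ℝ) ≤ K := Nat.cast_nonneg K
      linarith)
    rw [show (999 : ℝ) + 4 * K + 4 = 1003 + 4 * K by ring] at h1
    push_cast
    rw [show (999 : ℝ) + 4 * (K + 1) = 1003 + 4 * K by ring]
    linarith

private theorem sqTS (F : Finset ℕ) (hF : ∀ q ∈ F, q % 4 = 3 ∧ 1000 < q) :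
    ∑ q ∈ F, Real.log q / (q : ℝ) ^ 2 ≤ 0.00198 := by
  obtain ⟨K, hK⟩ : ∃ K, ∀ q ∈ F, q < K := ⟨F.sup id + 1, fun q hq =>
    Nat.lt_succ_of_le (Finset.le_sup (f := id) hq)⟩
  have hinj : Function.Injective (fun k : ℕ => 1003 + 4 * k) := fun a b h => by
    simp only at h
    omega
  obtain ⟨S, hS⟩ : ∃ S : Finset ℕ, S = (range K).image (fun k : ℕ => 1003 + 4 * k) := ⟨_, rfl⟩
  have hsub : F ⊆ S := by
    rw [hS]
    intro q hq
    obtain ⟨a, b⟩ := hF q hq
    have c := hK q hq
    refine Finset.mem_image.2 ⟨(q - 1003) / 4, ?_, ?_⟩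
    · rw [Finset.mem_range]
      omega
    · omega
  have h1 : ∑ q ∈ F, Real.log q / (q : ℝ) ^ 2 ≤ ∑ q ∈ S, Real.log q / (q : ℝ) ^ 2 :=
    Finset.sum_le_sum_of_subset_of_nonneg hsub fun q _ _ => by
      have := Real.log_natCast_nonneg q
      positivity
  rw [hS, Finset.sum_image (fun a _ b _ h => hinj h)] at h1
  have h2 := tele_sumTS K
  rw [← Finset.mul_sum] at h2
  push_cast at h1
  have h3 : 0 ≤ (Real.log (999 + 4 * (K : ℝ)) + 1) / (999 + 4 * (K : ℝ)) := by
    have : 0 ≤ Real.log (999 + 4 * (K : ℝ)) := Real.log_nonneg (by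
      have : (0 : ℝ) ≤ K := Nat.cast_nonneg K
      linarith)
    positivity
  have h4 := log999TS
  have h5 : (Real.log 999 + 1) / 999 ≤ 4 * 0.00198 := by
    rw [div_le_iff₀ (by norm_num)]
    norm_num at h4 ⊢
    linarith
  linarith

theorem tail_sum (F : Finset ℕ) (hF : ∀ q ∈ F, q.Prime ∧ q % 4 = 3 ∧ 1000 < q) :
    ∑ q ∈ F, LL q * Pf q / ((q : ℝ) - 2) ≤ 0.0087 := by
  classical
  have c9 : ∀ q : ℕ, ((9 : ℕ) : ZMod q) = 9 := fun q => by norm_num
  have c25 : ∀ q : ℕ, ((25 : ℕ) : ZMod q) = 25 := fun q => by norm_num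
  have hs : ∀ q ∈ F, orderOf (9 : ZMod q) % 2 = 1 ∧ 3 ≤ orderOf (9 : ZMod q) := fun q hq => by
    have := ordTS (hF q hq).1 (hF q hq).2.1 (hF q hq).2.2 (g := 9) (b := 3) (by norm_num)
      (by norm_num) (by norm_num)
    rwa [c9] at this
  have ht : ∀ q ∈ F, orderOf (25 : ZMod q) % 2 = 1 ∧ 3 ≤ orderOf (25 : ZMod q) := fun q hq => by
    have := ordTS (hF q hq).1 (hF q hq).2.1 (hF q hq).2.2 (g := 25) (b := 5) (by norm_num)
      (by norm_num) (by norm_num)
    rwa [c25] at this
  have hlog : ∀ q : ℕ, 0 ≤ Real.log q := fun q => Real.log_natCast_nonneg q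
  have hPf1 : ∀ q : ℕ, Pf q ≤ 1 / (orderOf (9 : ZMod q) : ℝ) := fun q => min_le_left _ _
  -- group 1
  have g1 : ∑ q ∈ F.filter (fun q => orderOf (9 : ZMod q) ≤ 1000),
      LL q * Pf q / ((q : ℝ) - 2) ≤ 0.3528 * 0.0072 := by
    have e1 : ∀ q ∈ F.filter (fun q => orderOf (9 : ZMod q) ≤ 1000),
        LL q * Pf q / ((q : ℝ) - 2) ≤
          0.3528 * (Real.log q / (q * orderOf (9 : ZMod q))) := by
      intro q hq
      rw [Finset.mem_filter] at hq
      refine (termTS (hF q hq.1).2.2 (P := 1 / (orderOf (9 : ZMod q) : ℝ)) (by positivity)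
        (hPf1 q)).trans (le_of_eq ?_)
      rw [mul_assoc, div_mul_div_comm, mul_one]
    refine (Finset.sum_le_sum e1).trans ?_
    rw [← Finset.mul_sum]
    apply mul_le_mul_of_nonneg_left _ (by norm_num)
    rw [← Finset.sum_filter_add_sum_filter_not _ (fun q => q ≤ 500000)]
    have e2 : ∑ q ∈ (F.filter (fun q => orderOf (9 : ZMod q) ≤ 1000)).filter
        (fun q => q ≤ 500000), Real.log q / (q * orderOf (9 : ZMod q)) ≤ 0.005 := by
      refine le_trans ?_ chk9
      apply Finset.sum_le_sum_of_subset_of_nonneg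
      · intro q hq
        rw [Finset.mem_filter, Finset.mem_filter] at hq
        rw [Finset.mem_filter, Finset.mem_range]
        obtain ⟨a, b, c⟩ := hF q hq.1.1
        exact ⟨by omega, a, b, c, hq.1.2⟩
      · intro q _ _
        exact div_nonneg (hlog q) (by positivity)
    have e3 : ∑ q ∈ (F.filter (fun q => orderOf (9 : ZMod q) ≤ 1000)).filter
        (fun q => ¬ q ≤ 500000), Real.log q / (q * orderOf (9 : ZMod q)) ≤
          Real.log 9 * (499 / 500000) := by
      have e4 : ∀ q ∈ (F.filter (fun q => orderOf (9 : ZMod q) ≤ 1000)).filter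
          (fun q => ¬ q ≤ 500000), Real.log q / (q * orderOf (9 : ZMod q)) ≤
            Real.log q * (fun e : ℕ => 1 / (500000 * (e : ℝ))) (orderOf ((9 : ℕ) : ZMod q)) := by
        intro q hq
        rw [Finset.mem_filter, Finset.mem_filter] at hq
        simp only [c9]
        rw [mul_one_div]
        have h1 : (500000 : ℝ) ≤ q := by
          have : 500000 ≤ q := by omega
          exact_mod_cast this
        have h2 : (0 : ℝ) < orderOf (9 : ZMod q) := by
          have : 0 < orderOf (9 : ZMod q) := by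
            have := (hs q hq.1.1).2
            omega
          exact_mod_cast this
        exact div_le_div_of_nonneg_left (hlog q) (by positivity)
          (mul_le_mul_of_nonneg_right h1 h2.le)
      refine (Finset.sum_le_sum e4).trans ?_
      refine (groupTS (g := 9) (by norm_num) _ SoTS (fun e : ℕ => 1 / (500000 * (e : ℝ)))
        (fun e => by positivity) ?_ ?_).trans ?_
      · intro e he
        unfold SoTS at he
        rw [Finset.mem_filter] at he
        omega
      · intro q hq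
        rw [Finset.mem_filter, Finset.mem_filter] at hq
        refine ⟨(hF q hq.1.1).1, ?_⟩
        rw [c9]
        unfold SoTS
        rw [Finset.mem_filter, Finset.mem_range]
        have h1 := hs q hq.1.1
        have h2 := hq.1.2
        exact ⟨by omega, h1⟩
      · apply mul_le_mul_of_nonneg_left _ (Real.log_natCast_nonneg 9)
        have e5 : ∑ e ∈ SoTS, (e : ℝ) * (1 / (500000 * (e : ℝ))) = ∑ e ∈ SoTS, (1 / 500000 : ℝ) := by
          refine Finset.sum_congr rfl fun e he => ?_
          unfold SoTS at he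
          rw [Finset.mem_filter] at he
          have : (e : ℝ) ≠ 0 := by
            have : 0 < e := by omega
            positivity
          field_simp
        rw [e5, Finset.sum_const, cardSoTS]
        norm_num
    have h9 := log9TS
    norm_num at h9 e2 e3 ⊢
    linarith
  -- group 2
  have g2 : ∑ q ∈ (F.filter (fun q => ¬ orderOf (9 : ZMod q) ≤ 1000)).filter
      (fun q => orderOf (25 : ZMod q) ≤ 1000),
      LL q * Pf q / ((q : ℝ) - 2) ≤ 0.3528 * (1 / 1000 * 2.4496) := by
    have e1 : ∀ q ∈ (F.filter (fun q => ¬ orderOf (9 : ZMod q) ≤ 1000)).filter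
        (fun q => orderOf (25 : ZMod q) ≤ 1000),
        LL q * Pf q / ((q : ℝ) - 2) ≤ 0.3528 * (1 / 1000 * (Real.log q / q)) := by
      intro q hq
      rw [Finset.mem_filter, Finset.mem_filter] at hq
      have h1 : (1000 : ℝ) ≤ orderOf (9 : ZMod q) := by
        have : 1000 ≤ orderOf (9 : ZMod q) := by omega
        exact_mod_cast this
      refine (termTS (hF q hq.1.1).2.2 (P := 1 / 1000) (by positivity)
        ((hPf1 q).trans (one_div_le_one_div_of_le (by norm_num) h1))).trans (le_of_eq ?_)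
      ring
    refine (Finset.sum_le_sum e1).trans ?_
    rw [← Finset.mul_sum, ← Finset.mul_sum]
    apply mul_le_mul_of_nonneg_left _ (by norm_num)
    apply mul_le_mul_of_nonneg_left _ (by norm_num)
    rw [← Finset.sum_filter_add_sum_filter_not _ (fun q => q ≤ 500000)]
    have e2 : ∑ q ∈ ((F.filter (fun q => ¬ orderOf (9 : ZMod q) ≤ 1000)).filter
        (fun q => orderOf (25 : ZMod q) ≤ 1000)).filter
        (fun q => q ≤ 500000), Real.log q / q ≤ 0.84 := by
      refine le_trans ?_ chk25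
      apply Finset.sum_le_sum_of_subset_of_nonneg
      · intro q hq
        rw [Finset.mem_filter, Finset.mem_filter, Finset.mem_filter] at hq
        rw [Finset.mem_filter, Finset.mem_range]
        obtain ⟨a, b, c⟩ := hF q hq.1.1.1
        exact ⟨by omega, a, b, c, hq.1.2⟩
      · intro q _ _
        exact div_nonneg (hlog q) (by positivity)
    have e3 : ∑ q ∈ ((F.filter (fun q => ¬ orderOf (9 : ZMod q) ≤ 1000)).filter
        (fun q => orderOf (25 : ZMod q) ≤ 1000)).filter
        (fun q => ¬ q ≤ 500000), Real.log q / q ≤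
          Real.log 25 * (249999 / 500000) := by
      have e4 : ∀ q ∈ ((F.filter (fun q => ¬ orderOf (9 : ZMod q) ≤ 1000)).filter
          (fun q => orderOf (25 : ZMod q) ≤ 1000)).filter
          (fun q => ¬ q ≤ 500000), Real.log q / q ≤
            Real.log q * (fun _ : ℕ => (1 / 500000 : ℝ)) (orderOf ((25 : ℕ) : ZMod q)) := by
        intro q hq
        rw [Finset.mem_filter] at hq
        simp only
        rw [mul_one_div]
        have h1 : (500000 : ℝ) ≤ q := by
          have : 500000 ≤ q := by omega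
          exact_mod_cast this
        exact div_le_div_of_nonneg_left (hlog q) (by positivity) h1
      refine (Finset.sum_le_sum e4).trans ?_
      refine (groupTS (g := 25) (by norm_num) _ SoTS (fun _ : ℕ => (1 / 500000 : ℝ))
        (fun e => by positivity) ?_ ?_).trans ?_
      · intro e he
        unfold SoTS at he
        rw [Finset.mem_filter] at he
        omega
      · intro q hq
        rw [Finset.mem_filter, Finset.mem_filter, Finset.mem_filter] at hq
        refine ⟨(hF q hq.1.1.1).1, ?_⟩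
        rw [c25]
        unfold SoTS
        rw [Finset.mem_filter, Finset.mem_range]
        have h1 := ht q hq.1.1.1
        have h2 := hq.1.2
        exact ⟨by omega, h1⟩
      · apply mul_le_mul_of_nonneg_left _ (Real.log_natCast_nonneg 25)
        rw [← Finset.sum_mul]
        have e5 : ∑ e ∈ SoTS, (e : ℝ) = 249999 := by
          rw [← Nat.cast_sum, sumSoTS]
          norm_num
        rw [e5]
        norm_num
    have h25 := log25TS
    norm_num at h25 e2 e3 ⊢
    linarith
  -- group 3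
  have g3 : ∑ q ∈ (F.filter (fun q => ¬ orderOf (9 : ZMod q) ≤ 1000)).filter
      (fun q => ¬ orderOf (25 : ZMod q) ≤ 1000),
      LL q * Pf q / ((q : ℝ) - 2) ≤ 0.3528 * (0.00198 + 4.5 * (5.4164 / 2000)) := by
    have e1 : ∀ q ∈ (F.filter (fun q => ¬ orderOf (9 : ZMod q) ≤ 1000)).filter
        (fun q => ¬ orderOf (25 : ZMod q) ≤ 1000),
        LL q * Pf q / ((q : ℝ) - 2) ≤ 0.3528 * (Real.log q / (q : ℝ) ^ 2 +
          4.5 * (Real.log q * (1 / (orderOf ((9 : ℕ) : ZMod q) : ℝ) ^ 3) +
            Real.log q * (1 / (orderOf ((25 : ℕ) : ZMod q) : ℝ) ^ 3))) := by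
      intro q hq
      rw [Finset.mem_filter, Finset.mem_filter] at hq
      rw [c9, c25]
      have hq1 := (hF q hq.1.1).2.2
      have hq0 : (0 : ℝ) < q := by
        have : 0 < q := by omega
        exact_mod_cast this
      have h1 : (0 : ℝ) < orderOf (9 : ZMod q) := by
        have : 0 < orderOf (9 : ZMod q) := by omega
        exact_mod_cast this
      have h2 : (0 : ℝ) < orderOf (25 : ZMod q) := by
        have : 0 < orderOf (25 : ZMod q) := by omega
        exact_mod_cast this
      have h3 : Pf q ≤ 1 / (q : ℝ) + q * om (orderOf (25 : ZMod q)) /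
          (orderOf (9 : ZMod q) : ℝ) ^ 2 := (min_le_right _ _).trans (min_le_left _ _)
      have h4 := om_le (orderOf (25 : ZMod q))
      generalize (orderOf (9 : ZMod q) : ℝ) = a at *
      have h5 : om (orderOf (25 : ZMod q)) ≤ 9 / (2 * (orderOf (25 : ZMod q) : ℝ)) := h4
      generalize om (orderOf (25 : ZMod q)) = w at *
      generalize (orderOf (25 : ZMod q) : ℝ) = b at *
      have h6 : Pf q ≤ 1 / (q : ℝ) + q * (9 / (2 * b)) / a ^ 2 := by
        refine h3.trans (add_le_add le_rfl ?_)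
        exact div_le_div_of_nonneg_right (mul_le_mul_of_nonneg_left h5 hq0.le) (by positivity)
      have h7 : (1 : ℝ) / (a ^ 2 * b) ≤ 1 / a ^ 3 + 1 / b ^ 3 := by
        rcases le_total a b with h | h
        · have h8 : a ^ 3 ≤ a ^ 2 * b := by nlinarith [sq_nonneg a]
          have h9 := one_div_le_one_div_of_le (by positivity) h8
          have : (0 : ℝ) ≤ 1 / b ^ 3 := by positivity
          linarith
        · have h8 : b ^ 3 ≤ a ^ 2 * b := by
            have : b ^ 2 ≤ a ^ 2 := pow_le_pow_left₀ h2.le h 2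
            nlinarith
          have h9 := one_div_le_one_div_of_le (by positivity) h8
          have : (0 : ℝ) ≤ 1 / a ^ 3 := by positivity
          linarith
      refine (termTS hq1 (by positivity) h6).trans ?_
      have h8 : 0.3528 * (Real.log q / q) * (1 / (q : ℝ) + q * (9 / (2 * b)) / a ^ 2) =
          0.3528 * (Real.log q / (q : ℝ) ^ 2 + 4.5 * (Real.log q * (1 / (a ^ 2 * b)))) := by
        norm_num
        field_simp
      rw [h8]
      apply mul_le_mul_of_nonneg_left _ (by norm_num)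
      have h9 := mul_le_mul_of_nonneg_left h7 (hlog q)
      norm_num at h9 ⊢
      linarith
    refine (Finset.sum_le_sum e1).trans ?_
    rw [← Finset.mul_sum]
    apply mul_le_mul_of_nonneg_left _ (by norm_num)
    rw [Finset.sum_add_distrib, ← Finset.mul_sum, Finset.sum_add_distrib]
    have e2 := sqTS ((F.filter (fun q => ¬ orderOf (9 : ZMod q) ≤ 1000)).filter
        (fun q => ¬ orderOf (25 : ZMod q) ≤ 1000)) (fun q hq => by
      rw [Finset.mem_filter, Finset.mem_filter] at hq
      exact (hF q hq.1.1).2)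
    have e3 := group3TS (g := 9) (by norm_num)
      ((F.filter (fun q => ¬ orderOf (9 : ZMod q) ≤ 1000)).filter
        (fun q => ¬ orderOf (25 : ZMod q) ≤ 1000)) (fun q hq => by
      rw [Finset.mem_filter, Finset.mem_filter] at hq
      rw [c9]
      exact ⟨(hF q hq.1.1).1, (hs q hq.1.1).1, by omega⟩)
    have e4 := group3TS (g := 25) (by norm_num)
      ((F.filter (fun q => ¬ orderOf (9 : ZMod q) ≤ 1000)).filter
        (fun q => ¬ orderOf (25 : ZMod q) ≤ 1000)) (fun q hq => by
      rw [Finset.mem_filter, Finset.mem_filter] at hq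
      rw [c25]
      exact ⟨(hF q hq.1.1).1, (ht q hq.1.1).1, by omega⟩)
    have h9 := log9TS
    have h25 := log25TS
    have h9' : Real.log ((9 : ℕ) : ℝ) = Real.log 9 := by norm_num
    have h25' : Real.log ((25 : ℕ) : ℝ) = Real.log 25 := by norm_num
    rw [h9'] at e3
    rw [h25'] at e4
    norm_num at h9 h25 e2 ⊢
    norm_num at e3 e4
    linarith
  rw [← Finset.sum_filter_add_sum_filter_not F (fun q => orderOf (9 : ZMod q) ≤ 1000),
    ← Finset.sum_filter_add_sum_filter_not (F.filter (fun q => ¬ orderOf (9 : ZMod q) ≤ 1000))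
      (fun q => orderOf (25 : ZMod q) ≤ 1000)]
  norm_num at g1 g2 g3 ⊢
  linarith

end H2S
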